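import Mathlib

set_option autoImplicit false

/-!
# A verified enumeration of local perfect matchings

`enum vs 0 0` lists all 0/1 assignments of edges such that each listed triple contains exactly one
chosen edge.
-/

namespace Pool.Agent.Helper680.BlanA

/-- enumeration of the assignments: `t` is the mask of chosen edges, `f` of excluded edges -/
def enum : List (ℕ × ℕ × ℕ) → ℕ → ℕ → List (ℕ × ℕ)
  | [], t, f => [(t, f)]
  | (a, b, c) :: vs, t, f =>
    (if f.testBit a || t.testBit b || t.testBit c then [] else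
      enum vs (t ||| 2 ^ a) (f ||| (2 ^ b ||| 2 ^ c))) ++
    ((if f.testBit b || t.testBit a || t.testBit c then [] else
      enum vs (t ||| 2 ^ b) (f ||| (2 ^ a ||| 2 ^ c))) ++
    (if f.testBit c || t.testBit a || t.testBit b then [] else
      enum vs (t ||| 2 ^ c) (f ||| (2 ^ a ||| 2 ^ b))))

/-- exactly one of three -/
def One (X : ℕ → Prop) (p : ℕ × ℕ × ℕ) : Prop :=
  (X p.1 ∧ ¬ X p.2.1 ∧ ¬ X p.2.2) ∨ (¬ X p.1 ∧ X p.2.1 ∧ ¬ X p.2.2) ∨
    (¬ X p.1 ∧ ¬ X p.2.1 ∧ X p.2.2)

theorem step (X : ℕ → Prop) (t f a b c : ℕ) (ha : X a) (hb : ¬ X b) (hc : ¬ X c)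
    (ht : ∀ k, t.testBit k = true → X k) (hf : ∀ k, f.testBit k = true → ¬ X k) :
    (f.testBit a || t.testBit b || t.testBit c) = false ∧
    (∀ k, (t ||| 2 ^ a).testBit k = true → X k) ∧
    (∀ k, (f ||| (2 ^ b ||| 2 ^ c)).testBit k = true → ¬ X k) := by
  refine ⟨?_, ?_, ?_⟩
  · have h1 : f.testBit a = false := by
      by_contra h
      exact hf a (by simpa using h) ha
    have h2 : t.testBit b = false := by
      by_contra h
      exact hb (ht b (by simpa using h))
    have h3 : t.testBit c = false := by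
      by_contra h
      exact hc (ht c (by simpa using h))
    rw [h1, h2, h3]
    rfl
  · intro k hk
    rw [Nat.testBit_or, Bool.or_eq_true, Nat.testBit_two_pow] at hk
    rcases hk with hk | hk
    · exact ht k hk
    · have : a = k := by simpa using hk
      exact this ▸ ha
  · intro k hk
    rw [Nat.testBit_or, Nat.testBit_or, Bool.or_eq_true, Bool.or_eq_true, Nat.testBit_two_pow,
      Nat.testBit_two_pow] at hk
    rcases hk with hk | hk | hk
    · exact hf k hk
    · have : b = k := by simpa using hk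
      exact this ▸ hb
    · have : c = k := by simpa using hk
      exact this ▸ hc

theorem enum_spec (X : ℕ → Prop) (vs : List (ℕ × ℕ × ℕ)) : ∀ (t f : ℕ),
    (∀ p ∈ vs, One X p) →
    (∀ k, t.testBit k = true → X k) → (∀ k, f.testBit k = true → ¬ X k) →
    ∃ q ∈ enum vs t f, (∀ k, q.1.testBit k = true → X k) ∧ (∀ k, q.2.testBit k = true → ¬ X k) := by
  induction vs with
  | nil =>
    intro t f _ ht hf
    exact ⟨(t, f), by simp [enum], ht, hf⟩
  | cons p vs ih =>
    intro t f hp ht hf
    obtain ⟨a, b, c⟩ := p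
    have hvs : ∀ p ∈ vs, One X p := fun p hp' => hp p (List.mem_cons_of_mem _ hp')
    have h0 := hp (a, b, c) (List.mem_cons_self)
    unfold enum
    rcases h0 with ⟨ha, hb, hc⟩ | ⟨ha, hb, hc⟩ | ⟨ha, hb, hc⟩
    · obtain ⟨h1, h2, h3⟩ := step X t f a b c ha hb hc ht hf
      obtain ⟨q, hq, hq1, hq2⟩ := ih _ _ hvs h2 h3
      refine ⟨q, ?_, hq1, hq2⟩
      rw [h1]
      exact List.mem_append_left _ (by simpa using hq)
    · obtain ⟨h1, h2, h3⟩ := step X t f b a c hb ha hc ht hf
      obtain ⟨q, hq, hq1, hq2⟩ := ih _ _ hvs h2 h3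
      refine ⟨q, ?_, hq1, hq2⟩
      refine List.mem_append_right _ (List.mem_append_left _ ?_)
      rw [h1]
      simpa using hq
    · obtain ⟨h1, h2, h3⟩ := step X t f c a b hc ha hb ht hf
      obtain ⟨q, hq, hq1, hq2⟩ := ih _ _ hvs h2 h3
      refine ⟨q, ?_, hq1, hq2⟩
      refine List.mem_append_right _ (List.mem_append_right _ ?_)
      rw [h1]
      simpa using hq

/-- the vertices of the block: each vertex is given by its three local edges -/
def vs : List (ℕ × ℕ × ℕ) :=
  [(0, 9, 22), (2, 3, 23), (2, 5, 6), (5, 7, 26), (7, 9, 10), (0, 1, 8), (3, 4, 11), (1, 6, 24),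
   (4, 8, 27), (10, 11, 25), (14, 15, 24), (14, 17, 18), (17, 20, 23), (12, 19, 22), (13, 21, 25),
   (12, 15, 16), (13, 18, 19), (16, 20, 21)]

/-- the masks of the local matchings containing the edge 26 -/
def A : List ℕ := [202404937, 204112969, 202406406, 204114438]

/-- the masks of the local matchings avoiding the edge 26 -/
def B : List ℕ := [51052693, 51646613, 27530289, 42549457, 51053352, 51647272, 42549810, 27532064,
  39092374, 21178756, 21177640, 39092680, 12674098, 14976050, 12675520, 14977472]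

theorem check1 : ((enum vs 0 0).all fun q =>
    (q.1 ||| q.2 == 2 ^ 28 - 1) && (if q.1.testBit 26 then A.contains q.1 else B.contains q.1))
      = true := by
  decide +kernel

theorem check2 : (A.all fun a => A.all fun b => B.all fun c => B.all fun d =>
    !(((a ||| b) ||| (c ||| d)) &&& (2 ^ 28 - 1) == 2 ^ 28 - 1)) = true := by
  decide +kernel

theorem perm4 : ∀ b : Fin 4 → Bool, (Finset.univ.filter (fun i => b i = true)).card = 2 →
    ∃ i1 i2 i3 i4 : Fin 4, b i1 = true ∧ b i2 = true ∧ b i3 = false ∧ b i4 = false ∧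
      ∀ i, i = i1 ∨ i = i2 ∨ i = i3 ∨ i = i4 := by
  decide +kernel

/-- In four local matchings of the block that cover all 28 edges, edge 26 is not covered exactly
twice. -/
theorem block (X : Fin 4 → ℕ → Prop) (h1 : ∀ i, ∀ p ∈ vs, One (X i) p)
    (h2 : ∀ k < 28, ∃ i, X i k) (b : Fin 4 → Bool) (hb : ∀ i, b i = true ↔ X i 26)
    (h3 : (Finset.univ.filter (fun i => b i = true)).card = 2) : False := by
  have h4 : ∀ i, ∃ m : ℕ, (∀ k < 28, m.testBit k = true ↔ X i k) ∧
      (m.testBit 26 = true → m ∈ A) ∧ (m.testBit 26 = false → m ∈ B) := by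
    intro i
    obtain ⟨q, hq, hq1, hq2⟩ := enum_spec (X i) vs 0 0 (h1 i) (by simp) (by simp)
    have hc := (List.all_eq_true.1 check1) q hq
    rw [Bool.and_eq_true, beq_iff_eq] at hc
    refine ⟨q.1, ?_, ?_, ?_⟩
    · intro k hk
      refine ⟨hq1 k, fun hx => ?_⟩
      have : (q.1 ||| q.2).testBit k = true := by
        rw [hc.1, Nat.testBit_two_pow_sub_one]
        simpa using hk
      rw [Nat.testBit_or, Bool.or_eq_true] at this
      rcases this with h | h
      · exact h
      · exact absurd hx (hq2 k h)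
    · intro h
      have := hc.2
      rw [h] at this
      simpa using this
    · intro h
      have := hc.2
      rw [h] at this
      simpa using this
  choose m hm1 hm2 hm3 using h4
  obtain ⟨i1, i2, i3, i4, e1, e2, e3, e4, hall⟩ := perm4 b h3
  have key : ∀ i, (m i).testBit 26 = b i := by
    intro i
    rw [Bool.eq_iff_iff, hb i]
    exact hm1 i 26 (by norm_num)
  have ha1 := hm2 i1 (by rw [key, e1])
  have ha2 := hm2 i2 (by rw [key, e2])
  have hb3 := hm3 i3 (by rw [key, e3])
  have hb4 := hm3 i4 (by rw [key, e4])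
  have hc := List.all_eq_true.1 check2 _ ha1
  have hc := List.all_eq_true.1 hc _ ha2
  have hc := List.all_eq_true.1 hc _ hb3
  have hc := List.all_eq_true.1 hc _ hb4
  rw [Bool.not_eq_true', beq_eq_false_iff_ne] at hc
  apply hc
  apply Nat.eq_of_testBit_eq
  intro k
  rw [Nat.testBit_and, Nat.testBit_two_pow_sub_one]
  by_cases hk : k < 28
  · obtain ⟨i, hi⟩ := h2 k hk
    have hi' := (hm1 i k hk).2 hi
    simp only [Nat.testBit_or]
    rcases hall i with rfl | rfl | rfl | rfl <;> simp [hi', hk]
  · simp [hk]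

end Pool.Agent.Helper680.BlanA
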