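import Pool.Agent.Helper79.Comap
import Pool.Agent.Helper336.CF

set_option autoImplicit false

/-!
Tools: regular languages and block languages `b₀* b₁* ... b_{m-1}*`.
-/

namespace Pool.Agent.Helper680.Comm

open Pool.Agent.Helper79.Trans

/-- The language `b₀* b₁* ⋯ b_{m-1}*`. -/
def blocks {α : Type} {m : ℕ} (b : Fin m → α) : Language α :=
  {w | ∃ k : Fin m → ℕ, w = (List.ofFn fun j => List.replicate (k j) (b j)).flatten}

theorem mem_blocks {α : Type} {m : ℕ} (b : Fin m → α) (w : List α) :
    w ∈ blocks b ↔ ∃ l : List (Fin m), l.Pairwise (· ≤ ·) ∧ w = l.map b := by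
  have hmap : ∀ k : Fin m → ℕ, (List.ofFn fun j => List.replicate (k j) (b j)).flatten =
      ((List.ofFn fun j => List.replicate (k j) j).flatten).map b := by
    intro k
    rw [List.map_flatten, List.map_ofFn]
    congr 1
    congr 1
    funext j
    simp
  have hsort : ∀ k : Fin m → ℕ,
      ((List.ofFn fun j => List.replicate (k j) j).flatten : List (Fin m)).Pairwise (· ≤ ·) := by
    intro k
    rw [List.pairwise_flatten]
    constructor
    · intro l hl
      rw [List.mem_ofFn] at hl
      obtain ⟨j, rfl⟩ := hl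
      exact List.pairwise_replicate.2 (Or.inr le_rfl)
    · rw [List.pairwise_ofFn]
      intro i j hij x hx y hy
      rw [List.mem_replicate] at hx hy
      rw [hx.2, hy.2]
      exact hij.le
  have hcount : ∀ (k : Fin m → ℕ) (c : Fin m),
      ((List.ofFn fun j => List.replicate (k j) j).flatten : List (Fin m)).count c = k c := by
    intro k c
    rw [List.count_flatten, List.map_ofFn, List.sum_ofFn]
    simp [List.count_replicate]
  constructor
  · rintro ⟨k, rfl⟩
    exact ⟨_, hsort k, hmap k⟩
  · rintro ⟨l, hl, rfl⟩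
    refine ⟨fun j => l.count j, ?_⟩
    rw [hmap]
    congr 1
    refine List.Perm.eq_of_pairwise (le := (· ≤ ·)) ?_ hl (hsort _) ?_
    · intro a b _ _ h1 h2
      exact le_antisymm h1 h2
    · rw [List.perm_iff_count]
      intro c
      rw [hcount]

/-- Intersection with a regular language after an inverse morphism. -/
theorem cf_comap_inter {A T : Type} [Fintype A] (h : A → List T) {L : Language T}
    (hL : L.IsContextFree) {R : Language A} (hR : R.IsRegular) :
    Language.IsContextFree ({w : List A | w.flatMap h ∈ L ∧ w ∈ R} : Language A) := by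
  obtain ⟨g, rfl⟩ := hL
  obtain ⟨σ, _, M, rfl⟩ := hR
  exact isContextFree_comap_inter h M g

theorem cf_inter {A : Type} [Fintype A] {L : Language A}
    (hL : L.IsContextFree) {R : Language A} (hR : R.IsRegular) :
    Language.IsContextFree ({w : List A | w ∈ L ∧ w ∈ R} : Language A) := by
  have := cf_comap_inter (fun a => [a]) hL hR
  simp only [List.flatMap_singleton'] at this
  exact this

theorem reg_univ {A : Type} : Language.IsRegular ({w : List A | True} : Language A) := by
  refine ⟨Unit, inferInstance, ⟨fun _ _ => (), (), Set.univ⟩, ?_⟩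
  ext w
  rw [DFA.mem_accepts]
  exact ⟨fun _ => trivial, fun _ => Set.mem_univ _⟩

open Classical in
/-- Words all whose letters satisfy `p`. -/
theorem reg_all {A : Type} (p : A → Prop) :
    Language.IsRegular ({w : List A | ∀ a ∈ w, p a} : Language A) := by
  let M : DFA A Bool := ⟨fun s a => s && decide (p a), true, {true}⟩
  refine ⟨Bool, inferInstance, M, ?_⟩
  have key : ∀ (w : List A) (s : Bool), M.evalFrom s w = (s && decide (∀ a ∈ w, p a)) := by
    intro w
    induction w with
    | nil => intro s; simp [DFA.evalFrom]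
    | cons a w ih =>
      intro s
      rw [DFA.evalFrom_cons, ih]
      show ((s && decide (p a)) && decide (∀ a ∈ w, p a)) = _
      rw [Bool.eq_iff_iff]
      simp [and_assoc]
  ext w
  rw [DFA.mem_accepts, DFA.eval, key]
  show (true && decide (∀ a ∈ w, p a)) ∈ ({true} : Set Bool) ↔ ∀ a ∈ w, p a
  simp

/-- Words containing the letter `a`. -/
theorem reg_mem {A : Type} (a : A) : Language.IsRegular ({w : List A | a ∈ w} : Language A) := by
  have h := (reg_all (A := A) (fun c => c ≠ a)).compl
  have e : ({w : List A | a ∈ w} : Language A) = ({w : List A | ∀ c ∈ w, c ≠ a} : Language A)ᶜ := by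
    ext w
    show a ∈ w ↔ ¬ ∀ c ∈ w, c ≠ a
    constructor
    · intro h h'
      exact h' a h rfl
    · intro h'
      by_contra hc
      exact h' (fun c hc' h => hc (h ▸ hc'))
  rw [e]
  exact h

/-- Block languages are regular. -/
theorem reg_blocks {A : Type} {m : ℕ} (b : Fin m → A) : (blocks b).IsRegular := by
  classical
  -- nondeterministic automaton: the state is a lower bound for the next position
  let M : NFA A (Fin (m+1)) :=
    ⟨fun s a => {s' | ∃ j : Fin m, s' = j.castSucc ∧ s ≤ j.castSucc ∧ b j = a}, {0}, Set.univ⟩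
  have key : ∀ (w : List A) (S : Set (Fin (m+1))),
      (∃ q, q ∈ M.evalFrom S w) ↔ ∃ s ∈ S, ∃ l : List (Fin m),
        l.Pairwise (· ≤ ·) ∧ (∀ j ∈ l, s ≤ j.castSucc) ∧ w = l.map b := by
    intro w
    induction w with
    | nil =>
      intro S
      constructor
      · rintro ⟨q, hq⟩
        exact ⟨q, hq, [], List.Pairwise.nil, by simp, rfl⟩
      · rintro ⟨s, hs, _⟩
        exact ⟨s, hs⟩
    | cons a w ih =>
      intro S
      rw [NFA.evalFrom_cons, ih]
      constructor
      · rintro ⟨s', hs', l, hl, hl', rfl⟩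
        rw [NFA.mem_stepSet] at hs'
        obtain ⟨s, hs, j, rfl, hj, rfl⟩ := hs'
        refine ⟨s, hs, j :: l, ?_, ?_, rfl⟩
        · rw [List.pairwise_cons]
          exact ⟨fun i hi => by have := hl' i hi; exact Fin.castSucc_le_castSucc_iff.1 this, hl⟩
        · intro i hi
          rcases List.mem_cons.1 hi with rfl | hi
          · exact hj
          · exact hj.trans (hl' i hi)
      · rintro ⟨s, hs, l, hl, hl', hw⟩
        cases l with
        | nil => simp at hw
        | cons j l =>
          rw [List.map_cons, List.cons.injEq] at hw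
          obtain ⟨rfl, rfl⟩ := hw
          rw [List.pairwise_cons] at hl
          refine ⟨j.castSucc, ?_, l, hl.2, fun i hi => Fin.castSucc_le_castSucc_iff.2 (hl.1 i hi), rfl⟩
          rw [NFA.mem_stepSet]
          exact ⟨s, hs, j, rfl, hl' j (by simp), rfl⟩
  refine ⟨Set (Fin (m+1)), inferInstance, M.toDFA, ?_⟩
  rw [NFA.toDFA_correct]
  ext w
  rw [mem_blocks, NFA.mem_accepts]
  have h2 := key w {0}
  constructor
  · rintro ⟨q, _, hq⟩
    obtain ⟨s, _, l, hl, _, rfl⟩ := h2.1 ⟨q, hq⟩
    exact ⟨l, hl, rfl⟩
  · rintro ⟨l, hl, rfl⟩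
    obtain ⟨q, hq⟩ := h2.2 ⟨0, rfl, l, hl, fun j _ => Fin.zero_le _, rfl⟩
    exact ⟨q, trivial, hq⟩

end Pool.Agent.Helper680.Comm
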