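import Pool.Agent.Helper79.CFG
import Pool.Agent.Helper680.CommA

set_option autoImplicit false

/-!
The language of words over two letters with different numbers of occurrences.
-/

namespace Pool.Agent.Helper680.Comm

open Pool.Agent.Helper79.CFG

theorem first_passage {T : Type} [DecidableEq T] (x y : T) (hxy : x ≠ y) (w : List T) : ∀ k : ℕ,
    w.count x + k < w.count y → ∃ u v, w = u ++ y :: v ∧ u.count y = u.count x + k := by
  induction w with
  | nil => intro k h; simp at h
  | cons a w ih =>
    intro k h
    by_cases hy : a = y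
    · subst hy
      cases k with
      | zero => exact ⟨[], w, rfl, by simp⟩
      | succ k =>
        obtain ⟨u, v, rfl, h2⟩ := ih k (by
          rw [List.count_cons_of_ne hxy.symm, List.count_cons_self] at h
          omega)
        refine ⟨a :: u, v, rfl, ?_⟩
        rw [List.count_cons_of_ne hxy.symm, List.count_cons_self]
        omega
    · by_cases hx : a = x
      · subst hx
        obtain ⟨u, v, rfl, h2⟩ := ih (k+1) (by
          rw [List.count_cons_of_ne hy, List.count_cons_self] at h
          omega)
        refine ⟨a :: u, v, rfl, ?_⟩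
        rw [List.count_cons_of_ne hy, List.count_cons_self]
        omega
      · obtain ⟨u, v, rfl, h2⟩ := ih k (by
          rw [List.count_cons_of_ne hy, List.count_cons_of_ne hx] at h
          omega)
        refine ⟨a :: u, v, rfl, ?_⟩
        rw [List.count_cons_of_ne hy, List.count_cons_of_ne hx]
        omega

inductive NT
  | S | E | A | B
  deriving DecidableEq

/-- The rules. -/
def rls : List (ContextFreeRule (Fin 2) NT) :=
  [ ⟨NT.S, [Symbol.nonterminal NT.A]⟩,
    ⟨NT.S, [Symbol.nonterminal NT.B]⟩,
    ⟨NT.A, [Symbol.nonterminal NT.E, Symbol.terminal 0, Symbol.nonterminal NT.E]⟩,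
    ⟨NT.A, [Symbol.nonterminal NT.E, Symbol.terminal 0, Symbol.nonterminal NT.A]⟩,
    ⟨NT.B, [Symbol.nonterminal NT.E, Symbol.terminal 1, Symbol.nonterminal NT.E]⟩,
    ⟨NT.B, [Symbol.nonterminal NT.E, Symbol.terminal 1, Symbol.nonterminal NT.B]⟩,
    ⟨NT.E, []⟩,
    ⟨NT.E, [Symbol.terminal 0, Symbol.nonterminal NT.E, Symbol.terminal 1, Symbol.nonterminal NT.E]⟩,
    ⟨NT.E, [Symbol.terminal 1, Symbol.nonterminal NT.E, Symbol.terminal 0, Symbol.nonterminal NT.E]⟩ ]

/-- The grammar. -/
def g : ContextFreeGrammar (Fin 2) where
  NT := NT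
  initial := NT.S
  rules := rls.toFinset

theorem mem_rules (r : ContextFreeRule (Fin 2) NT) :
    (show ContextFreeRule (Fin 2) g.NT from r) ∈ g.rules ↔ r ∈ rls :=
  List.mem_toFinset (l := rls)

/-- The languages of the nonterminals. -/
def Sem : NT → Set (List (Fin 2))
  | NT.S => {w | w.count 0 ≠ w.count 1}
  | NT.E => {w | w.count 0 = w.count 1}
  | NT.A => {w | w.count 1 < w.count 0}
  | NT.B => {w | w.count 0 < w.count 1}

theorem sound : ∀ r ∈ g.rules, ∀ w, Comp Sem r.output w → w ∈ Sem r.input := by
  intro r hr w hw
  change ContextFreeRule (Fin 2) NT at r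
  have hr' : r ∈ rls := (mem_rules r).1 hr
  clear hr
  simp only [rls, List.mem_cons, List.not_mem_nil, or_false] at hr'
  rcases hr' with rfl | rfl | rfl | rfl | rfl | rfl | rfl | rfl | rfl
  · obtain ⟨w₁, _, rfl, h, rfl⟩ := hw
    change w₁.count 1 < w₁.count 0 at h
    change (w₁ ++ []).count 0 ≠ (w₁ ++ []).count 1
    rw [List.append_nil]
    omega
  · obtain ⟨w₁, _, rfl, h, rfl⟩ := hw
    change w₁.count 0 < w₁.count 1 at h
    change (w₁ ++ []).count 0 ≠ (w₁ ++ []).count 1
    rw [List.append_nil]
    omega
  · obtain ⟨w₁, _, rfl, h, _, rfl, w₂, _, rfl, h', rfl⟩ := hw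
    change w₁.count 0 = w₁.count 1 at h
    change w₂.count 0 = w₂.count 1 at h'
    change (w₁ ++ 0 :: (w₂ ++ [])).count 1 < (w₁ ++ 0 :: (w₂ ++ [])).count 0
    simp [List.count_append, List.count_cons]
    omega
  · obtain ⟨w₁, _, rfl, h, _, rfl, w₂, _, rfl, h', rfl⟩ := hw
    change w₁.count 0 = w₁.count 1 at h
    change w₂.count 1 < w₂.count 0 at h'
    change (w₁ ++ 0 :: (w₂ ++ [])).count 1 < (w₁ ++ 0 :: (w₂ ++ [])).count 0
    simp [List.count_append, List.count_cons]
    omega
  · obtain ⟨w₁, _, rfl, h, _, rfl, w₂, _, rfl, h', rfl⟩ := hw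
    change w₁.count 0 = w₁.count 1 at h
    change w₂.count 0 = w₂.count 1 at h'
    change (w₁ ++ 1 :: (w₂ ++ [])).count 0 < (w₁ ++ 1 :: (w₂ ++ [])).count 1
    simp [List.count_append, List.count_cons]
    omega
  · obtain ⟨w₁, _, rfl, h, _, rfl, w₂, _, rfl, h', rfl⟩ := hw
    change w₁.count 0 = w₁.count 1 at h
    change w₂.count 0 < w₂.count 1 at h'
    change (w₁ ++ 1 :: (w₂ ++ [])).count 0 < (w₁ ++ 1 :: (w₂ ++ [])).count 1
    simp [List.count_append, List.count_cons]
    omega
  · simp only [Comp] at hw
    subst hw
    simp [Sem]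
  · obtain ⟨_, rfl, w₁, _, rfl, h, _, rfl, w₂, _, rfl, h', rfl⟩ := hw
    change w₁.count 0 = w₁.count 1 at h
    change w₂.count 0 = w₂.count 1 at h'
    change (0 :: (w₁ ++ 1 :: (w₂ ++ []))).count 0 = (0 :: (w₁ ++ 1 :: (w₂ ++ []))).count 1
    simp [List.count_append, List.count_cons]
    omega
  · obtain ⟨_, rfl, w₁, _, rfl, h, _, rfl, w₂, _, rfl, h', rfl⟩ := hw
    change w₁.count 0 = w₁.count 1 at h
    change w₂.count 0 = w₂.count 1 at h'
    change (1 :: (w₁ ++ 0 :: (w₂ ++ []))).count 0 = (1 :: (w₁ ++ 0 :: (w₂ ++ []))).count 1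
    simp [List.count_append, List.count_cons]
    omega

theorem gen_rule (X : NT) (out : List (Symbol (Fin 2) NT))
    (h : (⟨X, out⟩ : ContextFreeRule (Fin 2) NT) ∈ rls) (w : List (Fin 2))
    (hw : Comp (Gen g) out w) : w ∈ Gen g X :=
  gen_of_rule g ⟨X, out⟩ ((mem_rules _).2 h) w hw

theorem complete (n : ℕ) : ∀ w : List (Fin 2), w.length ≤ n →
    (w.count 0 = w.count 1 → w ∈ Gen g NT.E) ∧ (w.count 1 < w.count 0 → w ∈ Gen g NT.A) ∧
      (w.count 0 < w.count 1 → w ∈ Gen g NT.B) := by
  induction n with
  | zero =>
    intro w hw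
    have : w = [] := List.length_eq_zero_iff.1 (by omega)
    subst this
    refine ⟨fun _ => gen_rule NT.E [] (by simp [rls]) _ rfl, fun h => by simp at h, fun h => by simp at h⟩
  | succ n ih =>
    intro w hw
    refine ⟨?_, ?_, ?_⟩
    · intro h
      cases w with
      | nil => exact gen_rule NT.E [] (by simp [rls]) _ rfl
      | cons a w =>
        rw [List.length_cons] at hw
        have ha : a = 0 ∨ a = 1 := by fin_cases a <;> simp
        rcases ha with rfl | rfl
        · rw [List.count_cons_self, List.count_cons_of_ne (by decide)] at h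
          obtain ⟨u, v, rfl, h2⟩ := first_passage 0 1 (by decide) w 0 (by omega)
          simp only [List.count_append, List.count_cons_self, List.length_append,
            List.length_cons, List.count_cons_of_ne (show (1 : Fin 2) ≠ 0 by decide)] at h hw
          refine gen_rule NT.E [Symbol.terminal 0, Symbol.nonterminal NT.E, Symbol.terminal 1,
            Symbol.nonterminal NT.E] (by simp [rls]) _
            ⟨_, rfl, u, _, rfl, (ih u (by omega)).1 (by omega), _, rfl, v, [], by simp,
              (ih v (by omega)).1 (by omega), rfl⟩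
        · rw [List.count_cons_self, List.count_cons_of_ne (by decide)] at h
          obtain ⟨u, v, rfl, h2⟩ := first_passage 1 0 (by decide) w 0 (by omega)
          simp only [List.count_append, List.count_cons_self, List.length_append,
            List.length_cons, List.count_cons_of_ne (show (0 : Fin 2) ≠ 1 by decide)] at h hw
          refine gen_rule NT.E [Symbol.terminal 1, Symbol.nonterminal NT.E, Symbol.terminal 0,
            Symbol.nonterminal NT.E] (by simp [rls]) _
            ⟨_, rfl, u, _, rfl, (ih u (by omega)).1 (by omega), _, rfl, v, [], by simp,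
              (ih v (by omega)).1 (by omega), rfl⟩
    · intro h
      obtain ⟨u, v, rfl, h2⟩ := first_passage 1 0 (by decide) w 0 (by omega)
      simp only [List.count_append, List.count_cons_self, List.length_append,
        List.length_cons, List.count_cons_of_ne (show (0 : Fin 2) ≠ 1 by decide)] at h hw
      by_cases he : v.count 0 = v.count 1
      · exact gen_rule NT.A [Symbol.nonterminal NT.E, Symbol.terminal 0, Symbol.nonterminal NT.E]
          (by simp [rls]) _ ⟨u, _, rfl, (ih u (by omega)).1 (by omega), _, rfl, v, [], by simp,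
            (ih v (by omega)).1 he, rfl⟩
      · exact gen_rule NT.A [Symbol.nonterminal NT.E, Symbol.terminal 0, Symbol.nonterminal NT.A]
          (by simp [rls]) _ ⟨u, _, rfl, (ih u (by omega)).1 (by omega), _, rfl, v, [], by simp,
            (ih v (by omega)).2.1 (by omega), rfl⟩
    · intro h
      obtain ⟨u, v, rfl, h2⟩ := first_passage 0 1 (by decide) w 0 (by omega)
      simp only [List.count_append, List.count_cons_self, List.length_append,
        List.length_cons, List.count_cons_of_ne (show (1 : Fin 2) ≠ 0 by decide)] at h hw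
      by_cases he : v.count 0 = v.count 1
      · exact gen_rule NT.B [Symbol.nonterminal NT.E, Symbol.terminal 1, Symbol.nonterminal NT.E]
          (by simp [rls]) _ ⟨u, _, rfl, (ih u (by omega)).1 (by omega), _, rfl, v, [], by simp,
            (ih v (by omega)).1 he, rfl⟩
      · exact gen_rule NT.B [Symbol.nonterminal NT.E, Symbol.terminal 1, Symbol.nonterminal NT.B]
          (by simp [rls]) _ ⟨u, _, rfl, (ih u (by omega)).1 (by omega), _, rfl, v, [], by simp,
            (ih v (by omega)).2.2 (by omega), rfl⟩

theorem lang (w : List (Fin 2)) : w ∈ g.language ↔ w.count 0 ≠ w.count 1 := by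
  refine language_eq g Sem sound ?_ w
  intro w hw
  change w.count 0 ≠ w.count 1 at hw
  rcases Nat.lt_or_gt_of_ne hw with h | h
  · exact gen_rule NT.S [Symbol.nonterminal NT.B] (by simp [rls]) _
      ⟨w, [], by simp, (complete _ w le_rfl).2.2 h, rfl⟩
  · exact gen_rule NT.S [Symbol.nonterminal NT.A] (by simp [rls]) _
      ⟨w, [], by simp, (complete _ w le_rfl).2.1 h, rfl⟩

/-- Words with different numbers of `x` and `y` form a context-free language. -/
theorem cf_ne {A : Type} [Fintype A] [DecidableEq A] (x y : A) (hxy : x ≠ y) :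
    Language.IsContextFree ({w : List A | w.count x ≠ w.count y} : Language A) := by
  have h := cf_comap_inter (A := A) (fun a => if a = x then [0] else if a = y then [1] else [])
    ⟨g, rfl⟩ reg_univ
  have key : ∀ w : List A,
      (w.flatMap (fun a => if a = x then [(0 : Fin 2)] else if a = y then [1] else [])).count 0 =
        w.count x ∧
      (w.flatMap (fun a => if a = x then [(0 : Fin 2)] else if a = y then [1] else [])).count 1 =
        w.count y := by
    intro w
    induction w with
    | nil => simp
    | cons a w ih =>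
      rw [List.flatMap_cons, List.count_append, List.count_append, ih.1, ih.2]
      by_cases hx : a = x
      · subst hx
        rw [if_pos rfl, List.count_cons_self, List.count_cons_of_ne hxy]
        simp
        omega
      · by_cases hy : a = y
        · subst hy
          rw [if_neg hx, if_pos rfl, List.count_cons_self, List.count_cons_of_ne hx]
          simp
          omega
        · rw [if_neg hx, if_neg hy, List.count_cons_of_ne hx, List.count_cons_of_ne hy]
          simp
  have e : ({w : List A | w.count x ≠ w.count y} : Language A) =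
      ({w : List A | w.flatMap (fun a => if a = x then [(0 : Fin 2)] else if a = y then [1] else []) ∈
        g.language ∧ w ∈ ({w : List A | True} : Language A)} : Language A) := by
    ext w
    show w.count x ≠ w.count y ↔ _ ∧ _
    rw [lang, (key w).1, (key w).2]
    exact ⟨fun h => ⟨h, trivial⟩, fun h => h.1⟩
  rw [e]
  exact h

end Pool.Agent.Helper680.Comm
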