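import Mathlib

set_option autoImplicit false
open Pointwise

namespace Pool.Agent.Helper680.Gap

/-- consecutive pairs of a finite set of naturals -/
def consec (S : Finset ℕ) : Finset (ℕ × ℕ) :=
  (S ×ˢ S).filter (fun p => p.1 < p.2 ∧ ∀ z ∈ S, ¬ (p.1 < z ∧ z < p.2))

lemma mem_consec {S : Finset ℕ} {p : ℕ × ℕ} :
    p ∈ consec S ↔ (p.1 ∈ S ∧ p.2 ∈ S) ∧ p.1 < p.2 ∧ ∀ z ∈ S, ¬ (p.1 < z ∧ z < p.2) := by
  simp [consec, Finset.mem_filter, Finset.mem_product]

/-- every integer point between two elements of `S` is covered by a gap -/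
lemma exists_consec {S : Finset ℕ} {lo hi m : ℕ} (hlo : lo ∈ S) (hhi : hi ∈ S) (h1 : lo ≤ m)
    (h2 : m < hi) : ∃ p ∈ consec S, p.1 ≤ m ∧ m < p.2 := by
  classical
  have hne1 : (S.filter (fun z => z ≤ m)).Nonempty := ⟨lo, by simp [hlo, h1]⟩
  have hne2 : (S.filter (fun z => m < z)).Nonempty := ⟨hi, by simp [hhi, h2]⟩
  have ha := Finset.max'_mem _ hne1
  have hb := Finset.min'_mem _ hne2
  rw [Finset.mem_filter] at ha hb
  refine ⟨((S.filter (fun z => z ≤ m)).max' hne1, (S.filter (fun z => m < z)).min' hne2), ?_, ha.2,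
    hb.2⟩
  rw [mem_consec]
  refine ⟨⟨ha.1, hb.1⟩, lt_of_le_of_lt ha.2 hb.2, ?_⟩
  rintro z hz ⟨hz1, hz2⟩
  rcases le_or_gt z m with h | h
  · have := Finset.le_max' (S.filter (fun z => z ≤ m)) z (by simp [hz, h])
    simp only at hz1
    omega
  · have := Finset.min'_le (S.filter (fun z => m < z)) z (by simp [hz, h])
    simp only at hz2
    omega

/-- Cauchy–Schwarz on one block -/
lemma block_ineq {S : Finset ℕ} {lo hi α β : ℕ} (hlo : lo ∈ S) (hhi : hi ∈ S) (h1 : lo ≤ α)
    (h2 : β ≤ hi) :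
    (((Finset.Ico α β).card : ℝ)) ^ 2 ≤
      (1 + ((S.filter (fun z => α < z ∧ z < β)).card : ℝ)) *
        ∑ p ∈ consec S, (((Finset.Ico p.1 p.2 ∩ Finset.Ico α β).card : ℝ)) ^ 2 := by
  classical
  set ℓ : ℕ × ℕ → ℝ := fun p => ((Finset.Ico p.1 p.2 ∩ Finset.Ico α β).card : ℝ) with hℓ
  set P := (consec S).filter (fun p => (Finset.Ico p.1 p.2 ∩ Finset.Ico α β).Nonempty) with hP
  have hcov : ((Finset.Ico α β).card : ℝ) ≤ ∑ p ∈ P, ℓ p := by
    have hsub : Finset.Ico α β ⊆ P.biUnion (fun p => Finset.Ico p.1 p.2 ∩ Finset.Ico α β) := by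
      intro m hm
      rw [Finset.mem_Ico] at hm
      obtain ⟨p, hp, hp1, hp2⟩ := exists_consec hlo hhi (m := m) (by omega) (by omega)
      rw [Finset.mem_biUnion]
      have hmem : m ∈ Finset.Ico p.1 p.2 ∩ Finset.Ico α β := by
        simp [Finset.mem_inter, Finset.mem_Ico]; omega
      exact ⟨p, by rw [hP, Finset.mem_filter]; exact ⟨hp, ⟨m, hmem⟩⟩, hmem⟩
    have h3 := (Finset.card_le_card hsub).trans Finset.card_biUnion_le
    have h4 : ((Finset.Ico α β).card : ℝ) ≤
        ((∑ p ∈ P, (Finset.Ico p.1 p.2 ∩ Finset.Ico α β).card : ℕ) : ℝ) := by exact_mod_cast h3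
    simpa [hℓ] using h4
  have hcs : (∑ p ∈ P, ℓ p) ^ 2 ≤ (P.card : ℝ) * ∑ p ∈ P, ℓ p ^ 2 :=
    sq_sum_le_card_mul_sum_sq
  have hPc : P.card ≤ (insert α (S.filter (fun z => α < z ∧ z < β))).card := by
    apply Finset.card_le_card_of_injOn (fun p : ℕ × ℕ => max p.1 α)
    · intro p hp
      have hp' : p ∈ P := hp
      rw [hP, Finset.mem_filter, mem_consec] at hp'
      obtain ⟨⟨⟨hpS, -⟩, -, -⟩, m, hm⟩ := hp'
      simp only [Finset.mem_inter, Finset.mem_Ico] at hm
      simp only [Finset.coe_insert, Set.mem_insert_iff, Finset.coe_filter, Set.mem_setOf_eq]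
      rcases le_or_gt p.1 α with h | h
      · left; exact max_eq_right h
      · right
        rw [max_eq_left h.le]
        exact ⟨hpS, h, by omega⟩
    · intro p hp p' hp' heq
      have hpP : p ∈ P := hp
      have hpP' : p' ∈ P := hp'
      rw [hP, Finset.mem_filter, mem_consec] at hpP hpP'
      obtain ⟨⟨⟨a1, a2⟩, a3, a4⟩, m, hm⟩ := hpP
      obtain ⟨⟨⟨b1, b2⟩, b3, b4⟩, m', hm'⟩ := hpP'
      simp only [Finset.mem_inter, Finset.mem_Ico] at hm hm'
      simp only at heq
      have hfst : p.1 = p'.1 := by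
        rcases lt_trichotomy p.1 p'.1 with h | h | h
        · exfalso
          apply a4 p'.1 b1
          refine ⟨h, ?_⟩
          have : p'.1 ≤ α := by
            by_contra hc
            rw [max_eq_left (by omega : α ≤ p'.1)] at heq
            rcases le_total p.1 α with h' | h'
            · rw [max_eq_right h'] at heq; omega
            · rw [max_eq_left h'] at heq; omega
          omega
        · exact h
        · exfalso
          apply b4 p.1 a1
          refine ⟨h, ?_⟩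
          have : p.1 ≤ α := by
            by_contra hc
            rw [max_eq_left (by omega : α ≤ p.1)] at heq
            rcases le_total p'.1 α with h' | h'
            · rw [max_eq_right h'] at heq; omega
            · rw [max_eq_left h'] at heq; omega
          omega
      have hsnd : p.2 = p'.2 := by
        rcases lt_trichotomy p.2 p'.2 with h | h | h
        · exact absurd ⟨by omega, h⟩ (b4 p.2 a2)
        · exact h
        · exact absurd ⟨by omega, h⟩ (a4 p'.2 b2)
      exact Prod.ext hfst hsnd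
  have hPc2 : (P.card : ℝ) ≤ 1 + ((S.filter (fun z => α < z ∧ z < β)).card : ℝ) := by
    have h5 := hPc.trans (Finset.card_insert_le α (S.filter (fun z => α < z ∧ z < β)))
    have h6 : (P.card : ℝ) ≤ (((S.filter (fun z => α < z ∧ z < β)).card + 1 : ℕ) : ℝ) := by
      exact_mod_cast h5
    push_cast at h6
    linarith
  have hsubs : ∑ p ∈ P, ℓ p ^ 2 ≤ ∑ p ∈ consec S, ℓ p ^ 2 :=
    Finset.sum_le_sum_of_subset_of_nonneg (Finset.filter_subset _ _) (fun _ _ _ => sq_nonneg _)
  have hnn : 0 ≤ ∑ p ∈ P, ℓ p ^ 2 := Finset.sum_nonneg (fun _ _ => sq_nonneg _)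
  calc ((Finset.Ico α β).card : ℝ) ^ 2 ≤ (∑ p ∈ P, ℓ p) ^ 2 := by
        apply pow_le_pow_left₀ (by positivity) hcov
    _ ≤ (P.card : ℝ) * ∑ p ∈ P, ℓ p ^ 2 := hcs
    _ ≤ (1 + ((S.filter (fun z => α < z ∧ z < β)).card : ℝ)) * ∑ p ∈ P, ℓ p ^ 2 :=
        mul_le_mul_of_nonneg_right hPc2 hnn
    _ ≤ _ := mul_le_mul_of_nonneg_left hsubs (by positivity)

/-- disjoint blocks inside the gaps -/
lemma gap_blocks (S : Finset ℕ) (J : ℕ) (I : ℕ → Finset ℕ)
    (hdis : ∀ i < J, ∀ j < J, i ≠ j → Disjoint (I i) (I j)) :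
    ∑ j ∈ Finset.range J, ∑ p ∈ consec S, (((Finset.Ico p.1 p.2 ∩ I j).card : ℝ)) ^ 2 ≤
      ∑ p ∈ consec S, ((p.2 : ℝ) - (p.1 : ℝ)) ^ 2 := by
  classical
  rw [Finset.sum_comm]
  apply Finset.sum_le_sum
  intro p hp
  rw [mem_consec] at hp
  have hlt := hp.2.1
  have hL : ((p.2 : ℝ) - (p.1 : ℝ)) = ((Finset.Ico p.1 p.2).card : ℝ) := by
    rw [Nat.card_Ico, Nat.cast_sub hlt.le]
  rw [hL]
  set L := ((Finset.Ico p.1 p.2).card : ℝ) with hLdef
  have hsum : ∑ j ∈ Finset.range J, (((Finset.Ico p.1 p.2 ∩ I j).card : ℝ)) ≤ L := by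
    have h1 : (Finset.range J).sum (fun j => (Finset.Ico p.1 p.2 ∩ I j).card) =
        ((Finset.range J).biUnion (fun j => Finset.Ico p.1 p.2 ∩ I j)).card := by
      rw [Finset.card_biUnion]
      intro i hi j hj hij
      rw [Finset.mem_coe, Finset.mem_range] at hi hj
      exact Finset.disjoint_of_subset_left Finset.inter_subset_right
        (Finset.disjoint_of_subset_right Finset.inter_subset_right (hdis i hi j hj hij))
    have h2 : ((Finset.range J).biUnion (fun j => Finset.Ico p.1 p.2 ∩ I j)).card ≤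
        (Finset.Ico p.1 p.2).card := by
      apply Finset.card_le_card
      intro m hm
      rw [Finset.mem_biUnion] at hm
      obtain ⟨j, -, hm⟩ := hm
      exact (Finset.mem_inter.1 hm).1
    have h3 := h1.trans_le h2
    rw [hLdef]
    exact_mod_cast h3
  calc ∑ j ∈ Finset.range J, (((Finset.Ico p.1 p.2 ∩ I j).card : ℝ)) ^ 2
      ≤ ∑ j ∈ Finset.range J, L * (((Finset.Ico p.1 p.2 ∩ I j).card : ℝ)) := by
        apply Finset.sum_le_sum
        intro j _
        rw [sq]
        apply mul_le_mul_of_nonneg_right _ (by positivity)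
        rw [hLdef]
        exact_mod_cast Finset.card_le_card Finset.inter_subset_left
    _ = L * ∑ j ∈ Finset.range J, (((Finset.Ico p.1 p.2 ∩ I j).card : ℝ)) := by
        rw [Finset.mul_sum]
    _ ≤ L * L := mul_le_mul_of_nonneg_left hsum (by positivity)
    _ = L ^ 2 := by ring

end Pool.Agent.Helper680.Gap
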