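import Pool.Agent.Helper680.GapA

set_option autoImplicit false
open Pointwise

namespace Pool.Agent.Helper680.Gap

lemma sums_below {A : Finset ℕ} {lo α x : ℕ} (hb : ∀ a ∈ A, lo ≤ a) :
    ((A + A).filter (fun z => α < z ∧ z < 2 * lo + x)).card ≤
      (A.filter (fun a => a < lo + x)).card * (A.filter (fun a => a < lo + x)).card := by
  classical
  refine le_trans (Finset.card_le_card ?_) Finset.card_add_le
  intro z hz
  rw [Finset.mem_filter, Finset.mem_add] at hz
  obtain ⟨⟨a, ha, b, hb', rfl⟩, -, h2⟩ := hz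
  rw [Finset.mem_add]
  have := hb a ha
  have := hb b hb'
  exact ⟨a, by rw [Finset.mem_filter]; exact ⟨ha, by omega⟩, b, by
    rw [Finset.mem_filter]; exact ⟨hb', by omega⟩, rfl⟩

lemma edge_bound {A : Finset ℕ} {lo hi : ℕ} (hlo : lo ∈ A) (hhi : hi ∈ A)
    (hb : ∀ a ∈ A, lo ≤ a ∧ a ≤ hi) (J w : ℕ) (hw : 2 ^ J * w ≤ hi - lo) (N D : ℝ)
    (hN : 0 < N) (hD : 0 ≤ D) (hwN : N ≤ (w : ℝ) ^ 2)
    (hloc : ∀ j < J, ((A.filter (fun a => a < lo + 2 ^ (j + 1) * w)).card : ℝ) ^ 2 * N ≤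
      D * ((2 : ℝ) ^ j * w) ^ 2) :
    (J : ℝ) * (N / (1 + D)) ≤ ∑ p ∈ consec (A + A), ((p.2 : ℝ) - (p.1 : ℝ)) ^ 2 := by
  classical
  set I : ℕ → Finset ℕ := fun j => Finset.Ico (2 * lo + 2 ^ j * w) (2 * lo + 2 ^ (j + 1) * w) with hI
  have hle : lo ≤ hi := (hb hi hhi).1
  have hmono : ∀ i j : ℕ, i ≤ j → 2 ^ i * w ≤ 2 ^ j * w := fun i j hij =>
    Nat.mul_le_mul_right _ (Nat.pow_le_pow_right (by norm_num) hij)
  have hdis : ∀ i < J, ∀ j < J, i ≠ j → Disjoint (I i) (I j) := by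
    intro i _ j _ hij
    rw [Finset.disjoint_left]
    intro m hm1 hm2
    simp only [hI, Finset.mem_Ico] at hm1 hm2
    rcases lt_or_gt_of_ne hij with h | h
    · have := hmono (i + 1) j (by omega)
      omega
    · have := hmono (j + 1) i (by omega)
      omega
  refine le_trans ?_ (gap_blocks (A + A) J I hdis)
  have hwpos : (0 : ℝ) < w := by
    by_contra h
    have : (w : ℝ) = 0 := le_antisymm (not_lt.1 h) (by positivity)
    rw [this] at hwN
    norm_num at hwN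
    linarith
  have hkey : ∀ j ∈ Finset.range J, N / (1 + D) ≤
      ∑ p ∈ consec (A + A), (((Finset.Ico p.1 p.2 ∩ I j).card : ℝ)) ^ 2 := by
    intro j hj
    rw [Finset.mem_range] at hj
    have hlo2 : 2 * lo ∈ A + A := by rw [two_mul]; exact Finset.add_mem_add hlo hlo
    have hhi2 : 2 * hi ∈ A + A := by rw [two_mul]; exact Finset.add_mem_add hhi hhi
    have hup : 2 * lo + 2 ^ (j + 1) * w ≤ 2 * hi := by
      have := hmono (j + 1) J (by omega)
      omega
    have hblock := block_ineq hlo2 hhi2 (α := 2 * lo + 2 ^ j * w) (β := 2 * lo + 2 ^ (j + 1) * w)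
      (by omega) hup
    set Q := ∑ p ∈ consec (A + A), (((Finset.Ico p.1 p.2 ∩ I j).card : ℝ)) ^ 2 with hQ
    have hQ0 : 0 ≤ Q := Finset.sum_nonneg (fun _ _ => sq_nonneg _)
    have hcard : (((Finset.Ico (2 * lo + 2 ^ j * w) (2 * lo + 2 ^ (j + 1) * w)).card : ℝ)) =
        (2 : ℝ) ^ j * w := by
      rw [Nat.card_Ico]
      have : 2 * lo + 2 ^ (j + 1) * w - (2 * lo + 2 ^ j * w) = 2 ^ j * w := by
        rw [pow_succ]; ring_nf; omega
      rw [this]; push_cast; ring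
    rw [hcard] at hblock
    change ((2 : ℝ) ^ j * w) ^ 2 ≤ (1 + (((A + A).filter (fun z => 2 * lo + 2 ^ j * w < z ∧
      z < 2 * lo + 2 ^ (j + 1) * w)).card : ℝ)) * Q at hblock
    set σ := (((A + A).filter (fun z => 2 * lo + 2 ^ j * w < z ∧
      z < 2 * lo + 2 ^ (j + 1) * w)).card : ℝ) with hσ
    set L := ((A.filter (fun a => a < lo + 2 ^ (j + 1) * w)).card : ℝ) with hL
    have hσL : σ ≤ L ^ 2 := by
      have h := sums_below (A := A) (lo := lo) (α := 2 * lo + 2 ^ j * w) (x := 2 ^ (j + 1) * w)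
        (fun a ha => (hb a ha).1)
      have h' : σ ≤ (((A.filter (fun a => a < lo + 2 ^ (j + 1) * w)).card *
        (A.filter (fun a => a < lo + 2 ^ (j + 1) * w)).card : ℕ) : ℝ) := by
        rw [hσ]; exact_mod_cast h
      push_cast at h'
      rw [sq]; exact h'
    have hl := hloc j hj
    change L ^ 2 * N ≤ D * ((2 : ℝ) ^ j * w) ^ 2 at hl
    set X := ((2 : ℝ) ^ j * w) ^ 2 with hX
    have hXpos : 0 < X := by positivity
    have hNX : N ≤ X := by
      refine hwN.trans ?_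
      rw [hX, mul_pow]
      have : (1 : ℝ) ≤ ((2 : ℝ) ^ j) ^ 2 := by
        have := one_le_pow₀ (M₀ := ℝ) (a := 2) (by norm_num) (n := j)
        nlinarith
      nlinarith [sq_nonneg (w : ℝ)]
    have h1 : N * X ≤ ((1 + D) * X) * Q := by
      have h2 : N * X ≤ N * ((1 + σ) * Q) := mul_le_mul_of_nonneg_left hblock hN.le
      have h3 : N * (1 + σ) ≤ (1 + D) * X := by nlinarith
      calc N * X ≤ N * ((1 + σ) * Q) := h2
        _ = (N * (1 + σ)) * Q := by ring
        _ ≤ ((1 + D) * X) * Q := mul_le_mul_of_nonneg_right h3 hQ0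
    have h4 : N ≤ (1 + D) * Q := by
      have h5 : N * X ≤ ((1 + D) * Q) * X := by linarith [h1, mul_comm ((1 + D) * X) Q]
      exact le_of_mul_le_mul_right h5 hXpos
    rw [div_le_iff₀ (by linarith)]
    linarith
  calc (J : ℝ) * (N / (1 + D)) = ∑ _j ∈ Finset.range J, N / (1 + D) := by
        rw [Finset.sum_const, Finset.card_range, nsmul_eq_mul]
    _ ≤ _ := Finset.sum_le_sum hkey

end Pool.Agent.Helper680.Gap
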