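import Pool.Agent.Helper680.GapB

set_option autoImplicit false
open Pointwise

namespace Pool.Agent.Helper680.Gap

/-- finite Sidon set of naturals -/
def IsSidon (A : Finset ℕ) : Prop :=
  ∀ a ∈ A, ∀ b ∈ A, ∀ c ∈ A, ∀ d ∈ A, a + b = c + d → (a = c ∧ b = d) ∨ (a = d ∧ b = c)

/-- window of length `u` ending at `lo + y` -/
def win (A : Finset ℕ) (lo u y : ℕ) : Finset ℕ := A.filter (fun a => a ≤ lo + y ∧ lo + y < a + u)

lemma mem_win {A : Finset ℕ} {lo u y a : ℕ} :
    a ∈ win A lo u y ↔ a ∈ A ∧ a ≤ lo + y ∧ lo + y < a + u := by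
  simp [win]

lemma sum_win {A : Finset ℕ} {lo hi u : ℕ} (hb : ∀ a ∈ A, lo ≤ a ∧ a ≤ hi) :
    ∑ y ∈ Finset.range (hi - lo + u), (win A lo u y).card = A.card * u := by
  classical
  have h1 : ∀ y, (win A lo u y).card = ∑ a ∈ A, if (a ≤ lo + y ∧ lo + y < a + u) then 1 else 0 := by
    intro y; rw [win, Finset.card_filter]
  simp_rw [h1]
  rw [Finset.sum_comm]
  have h2 : ∀ a ∈ A, (∑ y ∈ Finset.range (hi - lo + u),
      if (a ≤ lo + y ∧ lo + y < a + u) then 1 else 0) = u := by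
    intro a ha
    rw [← Finset.card_filter]
    have := hb a ha
    have h3 : (Finset.range (hi - lo + u)).filter (fun y => a ≤ lo + y ∧ lo + y < a + u) =
        Finset.Ico (a - lo) (a - lo + u) := by
      ext y
      simp only [Finset.mem_filter, Finset.mem_range, Finset.mem_Ico]
      omega
    rw [h3, Nat.card_Ico]
    omega
  rw [Finset.sum_congr rfl h2, Finset.sum_const, smul_eq_mul]

lemma sum_win_offDiag {A : Finset ℕ} {lo u M : ℕ} (hS : IsSidon A) :
    ∑ y ∈ Finset.range M, (win A lo u y).offDiag.card ≤ u ^ 2 := by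
  classical
  have h : ((Finset.range M).sigma (fun y => (win A lo u y).offDiag)).card ≤
      (Finset.range u ×ˢ Finset.range u).card := by
    apply Finset.card_le_card_of_injOn
      (fun t : (Σ _ : ℕ, ℕ × ℕ) => (lo + t.1 - t.2.1, lo + t.1 - t.2.2))
    · rintro ⟨y, a, b⟩ ht
      have ht' := Finset.mem_coe.1 ht
      simp only [Finset.mem_sigma, Finset.mem_offDiag, mem_win] at ht'
      simp only [Finset.coe_product, Finset.coe_range, Set.mem_prod, Set.mem_Iio]
      omega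
    · rintro ⟨y, a, b⟩ ht ⟨y', a', b'⟩ ht' heq
      have h1 := Finset.mem_coe.1 ht
      have h2 := Finset.mem_coe.1 ht'
      simp only [Finset.mem_sigma, Finset.mem_offDiag, mem_win] at h1 h2
      simp only [Prod.mk.injEq] at heq
      have hs := hS a h1.2.1.1 b' h2.2.2.1.1 a' h2.2.1.1 b h1.2.2.1.1 (by omega)
      rcases hs with ⟨h3, h4⟩ | ⟨h3, h4⟩
      · subst h3; subst h4
        have : y = y' := by omega
        subst this; rfl
      · exact absurd h3 h1.2.2.2
  rw [Finset.card_sigma, Finset.card_product, Finset.card_range] at h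
  rw [sq]; exact h

lemma sum_win_sq {A : Finset ℕ} {lo hi u : ℕ} (hS : IsSidon A) (hb : ∀ a ∈ A, lo ≤ a ∧ a ≤ hi) :
    ∑ y ∈ Finset.range (hi - lo + u), ((win A lo u y).card : ℝ) ^ 2 ≤ A.card * u + (u : ℝ) ^ 2 := by
  have h1 : ∀ y, (win A lo u y).card ^ 2 = (win A lo u y).offDiag.card + (win A lo u y).card := by
    intro y
    rw [Finset.offDiag_card]
    have : (win A lo u y).card ≤ (win A lo u y).card * (win A lo u y).card :=
      Nat.le_mul_self _
    rw [sq]; omega
  have h2 : ∑ y ∈ Finset.range (hi - lo + u), (win A lo u y).card ^ 2 ≤ u ^ 2 + A.card * u := by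
    simp_rw [h1]
    rw [Finset.sum_add_distrib, sum_win hb]
    exact Nat.add_le_add_right (sum_win_offDiag hS) _
  have h3 : ((∑ y ∈ Finset.range (hi - lo + u), (win A lo u y).card ^ 2 : ℕ) : ℝ) ≤
      ((u ^ 2 + A.card * u : ℕ) : ℝ) := by exact_mod_cast h2
  push_cast at h3
  linarith

lemma card_sq_le {A : Finset ℕ} {lo hi : ℕ} (hS : IsSidon A) (hb : ∀ a ∈ A, lo ≤ a ∧ a ≤ hi)
    (hN : 1 ≤ hi - lo) : (A.card : ℝ) ^ 2 ≤ 4 * ((hi - lo : ℕ) : ℝ) := by
  classical
  have h : A.offDiag.card ≤ ((Finset.Icc (-((hi - lo : ℕ) : ℤ)) ((hi - lo : ℕ) : ℤ)).erase 0).card := by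
    apply Finset.card_le_card_of_injOn (fun p : ℕ × ℕ => (p.1 : ℤ) - (p.2 : ℤ))
    · rintro ⟨a, b⟩ ht
      have ht' := Finset.mem_coe.1 ht
      simp only [Finset.mem_offDiag] at ht'
      have h1 := hb a ht'.1
      have h2 := hb b ht'.2.1
      simp only [Finset.coe_erase, Finset.coe_Icc, Set.mem_diff, Set.mem_Icc,
        Set.mem_singleton_iff]
      omega
    · rintro ⟨a, b⟩ ht ⟨a', b'⟩ ht' heq
      have h1 := Finset.mem_coe.1 ht
      have h2 := Finset.mem_coe.1 ht'
      simp only [Finset.mem_offDiag] at h1 h2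
      simp only at heq
      have hs := hS a h1.1 b' h2.2.1 a' h2.1 b h1.2.1 (by omega)
      rcases hs with ⟨h3, h4⟩ | ⟨h3, h4⟩
      · subst h3; subst h4; rfl
      · exact absurd h3 h1.2.2
  rw [Finset.card_erase_of_mem (by simp), Int.card_Icc, Finset.offDiag_card] at h
  have h5 : A.card * A.card ≤ 2 * (hi - lo) + A.card := by omega
  have h6 : (A.card : ℝ) * A.card ≤ 2 * ((hi - lo : ℕ) : ℝ) + A.card := by exact_mod_cast h5
  have hN' : (1 : ℝ) ≤ ((hi - lo : ℕ) : ℝ) := by exact_mod_cast hN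
  rcases Nat.lt_or_ge A.card 2 with h7 | h7
  · have : (A.card : ℝ) ≤ 1 := by exact_mod_cast (by omega : A.card ≤ 1)
    nlinarith [(Nat.cast_nonneg A.card : (0 : ℝ) ≤ A.card)]
  · have : (2 : ℝ) ≤ A.card := by exact_mod_cast h7
    nlinarith

end Pool.Agent.Helper680.Gap
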