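import Pool.Agent.Helper680.GapC

set_option autoImplicit false
open Pointwise

namespace Pool.Agent.Helper680.Gap

/-- every element below `lo + x` lies in `u` of the first `x + u` windows -/
lemma sum_win_low {A : Finset ℕ} {lo hi u x : ℕ} (hb : ∀ a ∈ A, lo ≤ a ∧ a ≤ hi) :
    (A.filter (fun a => a < lo + x)).card * u ≤
      ∑ y ∈ Finset.range (x + u), (win A lo u y).card := by
  classical
  have h1 : ∀ y, (win A lo u y).card = ∑ a ∈ A, if (a ≤ lo + y ∧ lo + y < a + u) then 1 else 0 := by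
    intro y; rw [win, Finset.card_filter]
  simp_rw [h1]
  rw [Finset.sum_comm]
  have h2 : ∀ a ∈ A.filter (fun a => a < lo + x), (∑ y ∈ Finset.range (x + u),
      if (a ≤ lo + y ∧ lo + y < a + u) then 1 else 0) = u := by
    intro a ha
    rw [Finset.mem_filter] at ha
    rw [← Finset.card_filter]
    have := hb a ha.1
    have h3 : (Finset.range (x + u)).filter (fun y => a ≤ lo + y ∧ lo + y < a + u) =
        Finset.Ico (a - lo) (a - lo + u) := by
      ext y
      simp only [Finset.mem_filter, Finset.mem_range, Finset.mem_Ico]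
      omega
    rw [h3, Nat.card_Ico]
    omega
  calc (A.filter (fun a => a < lo + x)).card * u
      = ∑ a ∈ A.filter (fun a => a < lo + x), (∑ y ∈ Finset.range (x + u),
          if (a ≤ lo + y ∧ lo + y < a + u) then 1 else 0) := by
        rw [Finset.sum_congr rfl h2, Finset.sum_const, smul_eq_mul]
    _ ≤ _ := Finset.sum_le_sum_of_subset (Finset.filter_subset _ _)

/-- Erdős–Turán: an almost extremal Sidon set has bounded relative density in every initial
segment of length at least `u`. -/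
lemma local_density {A : Finset ℕ} {lo hi : ℕ} (hS : IsSidon A)
    (hb : ∀ a ∈ A, lo ≤ a ∧ a ≤ hi) (u x : ℕ) (ε : ℝ) (hε : 0 < ε) (hu : 1 ≤ u) (hux : u ≤ x)
    (hxN : x ≤ hi - lo)
    (h1 : (u : ℝ) ≤ ε * ((hi - lo : ℕ) : ℝ)) (h2 : ε * ((hi - lo : ℕ) : ℝ) ≤ 2 * u)
    (h3 : (1 - ε) * ((hi - lo : ℕ) : ℝ) ≤ (A.card : ℝ) ^ 2)
    (h4 : (A.card : ℝ) ≤ ε * u) :
    ((A.filter (fun a => a < lo + x)).card : ℝ) ^ 2 * ((hi - lo : ℕ) : ℝ) ≤ 56 * (x : ℝ) ^ 2 := by
  classical
  set N : ℝ := ((hi - lo : ℕ) : ℝ) with hN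
  set n : ℝ := (A.card : ℝ) with hn
  set U : ℝ := (u : ℝ) with hU
  set X : ℝ := (x : ℝ) with hX
  have hU1 : 1 ≤ U := by rw [hU]; exact_mod_cast hu
  have hUX : U ≤ X := by rw [hU, hX]; exact_mod_cast hux
  have hXN : X ≤ N := by rw [hX, hN]; exact_mod_cast hxN
  have hNpos : 0 < N := by linarith
  have hn0 : 0 ≤ n := by rw [hn]; positivity
  have hn4 : n ^ 2 ≤ 4 * N := card_sq_le hS hb (by omega)
  set μ : ℝ := n * U / (N + U) with hμ
  have hμ0 : 0 ≤ μ := by positivity
  have hμeq : μ * (N + U) = n * U := by rw [hμ]; field_simp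
  set V : ℝ := ∑ y ∈ Finset.range (hi - lo + u), (((win A lo u y).card : ℝ) - μ) ^ 2 with hV
  have hsum1 : ∑ y ∈ Finset.range (hi - lo + u), ((win A lo u y).card : ℝ) = n * U := by
    have := sum_win (u := u) hb
    have h' : ((∑ y ∈ Finset.range (hi - lo + u), (win A lo u y).card : ℕ) : ℝ) =
        ((A.card * u : ℕ) : ℝ) := by exact_mod_cast this
    push_cast at h'
    exact h'
  have hsum2 := sum_win_sq (u := u) hS hb
  have hVle : V ≤ n * U + U ^ 2 - μ * (n * U) := by
    have hexp : V = ∑ y ∈ Finset.range (hi - lo + u), ((win A lo u y).card : ℝ) ^ 2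
        - 2 * μ * ∑ y ∈ Finset.range (hi - lo + u), ((win A lo u y).card : ℝ)
        + μ ^ 2 * (N + U) := by
      have : (N + U) = ((Finset.range (hi - lo + u)).card : ℝ) := by
        rw [Finset.card_range]; push_cast; ring
      rw [hV, this]
      rw [Finset.mul_sum, ← Finset.sum_sub_distrib, mul_comm (μ ^ 2), ← nsmul_eq_mul,
        ← Finset.sum_const, ← Finset.sum_add_distrib]
      apply Finset.sum_congr rfl
      intro y _; ring
    rw [hexp, hsum1]
    have h5 : μ ^ 2 * (N + U) = μ * (n * U) := by rw [sq, mul_assoc, hμeq]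
    rw [h5]
    nlinarith [hsum2]
  have hV0 : 0 ≤ V := Finset.sum_nonneg (fun _ _ => sq_nonneg _)
  have hV3 : V ≤ 3 * ε * U ^ 2 := by
    have h5 : (1 - 2 * ε) * U ^ 2 ≤ μ * (n * U) := by
      have h6 : (1 - 2 * ε) * (N + U) ≤ n ^ 2 := by nlinarith
      have h7 : μ * (n * U) = (n ^ 2 / (N + U)) * U ^ 2 := by rw [hμ]; ring
      rw [h7]
      apply mul_le_mul_of_nonneg_right _ (sq_nonneg U)
      rw [le_div_iff₀ (by linarith)]
      exact h6
    have h8 : n * U ≤ ε * U ^ 2 := by nlinarith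
    nlinarith
  set L : ℝ := ((A.filter (fun a => a < lo + x)).card : ℝ) with hL
  have hL0 : 0 ≤ L := by rw [hL]; positivity
  set R : ℝ := ∑ y ∈ Finset.range (x + u), (((win A lo u y).card : ℝ) - μ) with hR
  have hlow : L * U ≤ R + μ * (X + U) := by
    have h5 := sum_win_low (u := u) (x := x) hb
    have h6 : (((A.filter (fun a => a < lo + x)).card * u : ℕ) : ℝ) ≤
        ((∑ y ∈ Finset.range (x + u), (win A lo u y).card : ℕ) : ℝ) := by exact_mod_cast h5
    push_cast at h6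
    have h7 : R = ∑ y ∈ Finset.range (x + u), ((win A lo u y).card : ℝ) - (X + U) * μ := by
      rw [hR, Finset.sum_sub_distrib, Finset.sum_const, Finset.card_range, nsmul_eq_mul]
      push_cast; ring
    rw [h7]
    linarith [h6, mul_comm μ (X + U)]
  have hRsq : R ^ 2 ≤ (X + U) * V := by
    have h5 : R ^ 2 ≤ ((Finset.range (x + u)).card : ℝ) *
        ∑ y ∈ Finset.range (x + u), (((win A lo u y).card : ℝ) - μ) ^ 2 :=
      sq_sum_le_card_mul_sum_sq
    have h6 : ∑ y ∈ Finset.range (x + u), (((win A lo u y).card : ℝ) - μ) ^ 2 ≤ V := by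
      apply Finset.sum_le_sum_of_subset_of_nonneg
      · intro y hy
        rw [Finset.mem_range] at hy ⊢
        omega
      · intro _ _ _; exact sq_nonneg _
    have h7 : ((Finset.range (x + u)).card : ℝ) = X + U := by
      rw [Finset.card_range]; push_cast; ring
    rw [h7] at h5
    exact h5.trans (mul_le_mul_of_nonneg_left h6 (by linarith))
  have hsq : (L * U) ^ 2 ≤ 2 * (μ * (X + U)) ^ 2 + 2 * ((X + U) * V) := by
    have h5 : 0 ≤ L * U := by positivity
    have h6 : (L * U) ^ 2 ≤ (R + μ * (X + U)) ^ 2 := pow_le_pow_left₀ h5 hlow 2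
    nlinarith [sq_nonneg (R - μ * (X + U))]
  -- first term
  have hμN : μ * N ≤ n * U := by
    have : μ * N ≤ μ * (N + U) := mul_le_mul_of_nonneg_left (by linarith) hμ0
    linarith
  have hμ2 : μ ^ 2 * N ≤ 4 * U ^ 2 := by
    have h5 : (μ * N) ^ 2 ≤ (n * U) ^ 2 := pow_le_pow_left₀ (by positivity) hμN 2
    have h6 : (n * U) ^ 2 ≤ (4 * N) * U ^ 2 := by
      rw [mul_pow]; exact mul_le_mul_of_nonneg_right hn4 (sq_nonneg _)
    have h7 : (μ ^ 2 * N) * N ≤ (4 * U ^ 2) * N := by nlinarith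
    exact le_of_mul_le_mul_right h7 hNpos
  have hXU : X + U ≤ 2 * X := by linarith
  have hterm1 : (μ * (X + U)) ^ 2 * N ≤ 16 * U ^ 2 * X ^ 2 := by
    have h5 : (X + U) ^ 2 ≤ 4 * X ^ 2 := by nlinarith
    calc (μ * (X + U)) ^ 2 * N = (μ ^ 2 * N) * (X + U) ^ 2 := by ring
      _ ≤ (4 * U ^ 2) * (4 * X ^ 2) := by
          apply mul_le_mul hμ2 h5 (sq_nonneg _) (by positivity)
      _ = 16 * U ^ 2 * X ^ 2 := by ring
  have hterm2 : ((X + U) * V) * N ≤ 12 * U ^ 2 * X ^ 2 := by
    calc ((X + U) * V) * N ≤ ((2 * X) * (3 * ε * U ^ 2)) * N := by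
          apply mul_le_mul_of_nonneg_right _ hNpos.le
          apply mul_le_mul hXU hV3 hV0 (by linarith)
      _ = (6 * X * U ^ 2) * (ε * N) := by ring
      _ ≤ (6 * X * U ^ 2) * (2 * X) := by
          apply mul_le_mul_of_nonneg_left (by linarith)
          have : 0 ≤ X := by linarith
          positivity
      _ = 12 * U ^ 2 * X ^ 2 := by ring
  have hfin : (L ^ 2 * N) * U ^ 2 ≤ (56 * X ^ 2) * U ^ 2 := by
    calc (L ^ 2 * N) * U ^ 2 = (L * U) ^ 2 * N := by ring
      _ ≤ (2 * (μ * (X + U)) ^ 2 + 2 * ((X + U) * V)) * N := mul_le_mul_of_nonneg_right hsq hNpos.le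
      _ = 2 * ((μ * (X + U)) ^ 2 * N) + 2 * (((X + U) * V) * N) := by ring
      _ ≤ 2 * (16 * U ^ 2 * X ^ 2) + 2 * (12 * U ^ 2 * X ^ 2) := by linarith
      _ = (56 * X ^ 2) * U ^ 2 := by ring
  exact le_of_mul_le_mul_right hfin (by positivity)

end Pool.Agent.Helper680.Gap
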