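import Pool.Agent.Helper680.GapD

set_option autoImplicit false
open Pointwise

namespace Pool.Agent.Helper680.Gap

/-- mean square gap of `A + A` -/
noncomputable def msg (A : Finset ℕ) : ℝ :=
  (1 / ((A + A).card : ℝ)) * ∑ p ∈ consec (A + A), ((p.2 : ℝ) - (p.1 : ℝ)) ^ 2

lemma card_add_self_le (A : Finset ℕ) : ((A + A).card : ℝ) ≤ (A.card : ℝ) ^ 2 := by
  have h : (A + A).card ≤ A.card * A.card := Finset.card_add_le
  rw [sq]; exact_mod_cast h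

lemma card_add_self_pos {A : Finset ℕ} (hA : A.Nonempty) : (0 : ℝ) < ((A + A).card : ℝ) := by
  have : (A + A).Nonempty := hA.add hA
  exact_mod_cast Finset.card_pos.2 this

/-- trivial bound by Cauchy–Schwarz -/
lemma msg_trivial {A : Finset ℕ} {lo hi : ℕ} (hlo : lo ∈ A) (hhi : hi ∈ A)
    (hb : ∀ a ∈ A, lo ≤ a ∧ a ≤ hi) (hlt : lo < hi) :
    4 * ((hi - lo : ℕ) : ℝ) ^ 2 / (A.card : ℝ) ^ 4 ≤ msg A := by
  classical
  have hlo2 : 2 * lo ∈ A + A := by rw [two_mul]; exact Finset.add_mem_add hlo hlo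
  have hhi2 : 2 * hi ∈ A + A := by rw [two_mul]; exact Finset.add_mem_add hhi hhi
  have hblock := block_ineq hlo2 hhi2 (α := 2 * lo) (β := 2 * hi) le_rfl le_rfl
  have hsub : (A + A).filter (fun z => 2 * lo < z ∧ z < 2 * hi) ⊆ (A + A).erase (2 * lo) := by
    intro z hz
    rw [Finset.mem_filter] at hz
    rw [Finset.mem_erase]
    exact ⟨by omega, hz.1⟩
  have hc := Finset.card_le_card hsub
  rw [Finset.card_erase_of_mem hlo2] at hc
  have hpos : 0 < (A + A).card := Finset.card_pos.2 ⟨_, hlo2⟩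
  have hc' : 1 + (((A + A).filter (fun z => 2 * lo < z ∧ z < 2 * hi)).card : ℝ) ≤
      ((A + A).card : ℝ) := by
    have : 1 + ((A + A).filter (fun z => 2 * lo < z ∧ z < 2 * hi)).card ≤ (A + A).card := by omega
    exact_mod_cast this
  have hI : ((Finset.Ico (2 * lo) (2 * hi)).card : ℝ) = 2 * ((hi - lo : ℕ) : ℝ) := by
    rw [Nat.card_Ico]
    have : 2 * hi - 2 * lo = 2 * (hi - lo) := by omega
    rw [this]; push_cast; ring
  rw [hI] at hblock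
  set G := ∑ p ∈ consec (A + A), ((p.2 : ℝ) - (p.1 : ℝ)) ^ 2 with hG
  have hQG : ∑ p ∈ consec (A + A),
      (((Finset.Ico p.1 p.2 ∩ Finset.Ico (2 * lo) (2 * hi)).card : ℝ)) ^ 2 ≤ G := by
    apply Finset.sum_le_sum
    intro p hp
    rw [mem_consec] at hp
    have h1 : ((Finset.Ico p.1 p.2 ∩ Finset.Ico (2 * lo) (2 * hi)).card : ℝ) ≤
        (p.2 : ℝ) - (p.1 : ℝ) := by
      have h2 := Finset.card_le_card
        (Finset.inter_subset_left : Finset.Ico p.1 p.2 ∩ Finset.Ico (2 * lo) (2 * hi) ⊆ _)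
      rw [Nat.card_Ico] at h2
      have h3 : ((Finset.Ico p.1 p.2 ∩ Finset.Ico (2 * lo) (2 * hi)).card : ℝ) ≤
        ((p.2 - p.1 : ℕ) : ℝ) := by exact_mod_cast h2
      rwa [Nat.cast_sub hp.2.1.le] at h3
    exact pow_le_pow_left₀ (by positivity) h1 2
  have hQ0 : 0 ≤ ∑ p ∈ consec (A + A),
      (((Finset.Ico p.1 p.2 ∩ Finset.Ico (2 * lo) (2 * hi)).card : ℝ)) ^ 2 :=
    Finset.sum_nonneg (fun _ _ => sq_nonneg _)
  set t : ℝ := ((A + A).card : ℝ) with ht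
  have htpos : 0 < t := card_add_self_pos ⟨lo, hlo⟩
  have hG0 : 0 ≤ G := Finset.sum_nonneg (fun _ _ => sq_nonneg _)
  have h5 : (2 * ((hi - lo : ℕ) : ℝ)) ^ 2 ≤ t * G := by
    refine hblock.trans ?_
    calc _ ≤ t * _ := mul_le_mul_of_nonneg_right hc' hQ0
      _ ≤ t * G := mul_le_mul_of_nonneg_left hQG htpos.le
  have ht2 : t ≤ (A.card : ℝ) ^ 2 := card_add_self_le A
  have hnpos : (0 : ℝ) < (A.card : ℝ) ^ 2 := lt_of_lt_of_le htpos ht2
  have hn4 : (A.card : ℝ) ^ 4 = ((A.card : ℝ) ^ 2) ^ 2 := by ring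
  have hmsg : msg A = G / t := by rw [msg, one_div, inv_mul_eq_div]
  rw [hmsg, hn4, div_le_div_iff₀ (by positivity) htpos]
  have h6 : 4 * ((hi - lo : ℕ) : ℝ) ^ 2 ≤ t * G := by nlinarith
  calc 4 * ((hi - lo : ℕ) : ℝ) ^ 2 * t ≤ (t * G) * t := mul_le_mul_of_nonneg_right h6 htpos.le
    _ = G * t ^ 2 := by ring
    _ ≤ G * ((A.card : ℝ) ^ 2) ^ 2 :=
        mul_le_mul_of_nonneg_left (pow_le_pow_left₀ htpos.le ht2 2) hG0

lemma div_pow_bounds {N J : ℕ} (h : 2 ^ (J + 1) ≤ N) :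
    2 ^ J * (N / 2 ^ J) ≤ N ∧ N ≤ 2 * (2 ^ J * (N / 2 ^ J)) := by
  have h1 := Nat.div_add_mod N (2 ^ J)
  have h2 := Nat.mod_lt N (show 0 < 2 ^ J by positivity)
  rw [pow_succ] at h
  constructor
  · omega
  · omega

/-- local density bound at the left end implies a logarithmic lower bound -/
lemma msg_local {A : Finset ℕ} {lo hi : ℕ} (hS : IsSidon A) (hlo : lo ∈ A) (hhi : hi ∈ A)
    (hb : ∀ a ∈ A, lo ≤ a ∧ a ≤ hi) (J : ℕ) (D : ℝ) (hD : 0 ≤ D)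
    (hN : 2 ^ (2 * J + 2) ≤ hi - lo)
    (hloc : ∀ j < J, ((A.filter (fun a => a < lo + 2 ^ (j + 1) * ((hi - lo) / 2 ^ J))).card : ℝ) ^ 2
      * ((hi - lo : ℕ) : ℝ) ≤ D * ((2 : ℝ) ^ j * (((hi - lo) / 2 ^ J : ℕ) : ℝ)) ^ 2) :
    (J : ℝ) / (4 * (1 + D)) ≤ msg A := by
  set N : ℝ := ((hi - lo : ℕ) : ℝ) with hNdef
  have hpow : 2 ^ (J + 1) ≤ hi - lo :=
    le_trans (Nat.pow_le_pow_right (by norm_num) (by omega)) hN
  obtain ⟨hw1, hw2⟩ := div_pow_bounds hpow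
  set w := (hi - lo) / 2 ^ J with hw
  have hN1 : (2 : ℝ) ^ (2 * J + 2) ≤ N := by rw [hNdef]; exact_mod_cast hN
  have hNpos : 0 < N := lt_of_lt_of_le (by positivity) hN1
  have hwR : N ≤ 2 * ((2 : ℝ) ^ J * (w : ℝ)) := by rw [hNdef]; exact_mod_cast hw2
  have hwN : N ≤ (w : ℝ) ^ 2 := by
    have h1 : N ^ 2 ≤ (2 * ((2 : ℝ) ^ J * (w : ℝ))) ^ 2 := pow_le_pow_left₀ hNpos.le hwR 2
    have h2 : (2 * ((2 : ℝ) ^ J * (w : ℝ))) ^ 2 = (2 : ℝ) ^ (2 * J + 2) * (w : ℝ) ^ 2 := by ring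
    rw [h2] at h1
    have h3 : (2 : ℝ) ^ (2 * J + 2) * (w : ℝ) ^ 2 ≤ N * (w : ℝ) ^ 2 :=
      mul_le_mul_of_nonneg_right hN1 (sq_nonneg _)
    have h4 : N * N ≤ (w : ℝ) ^ 2 * N := by nlinarith
    exact le_of_mul_le_mul_right h4 hNpos
  have hG := edge_bound hlo hhi hb J w hw1 N D hNpos hD hwN hloc
  set G := ∑ p ∈ consec (A + A), ((p.2 : ℝ) - (p.1 : ℝ)) ^ 2 with hGdef
  have htpos := card_add_self_pos (A := A) ⟨lo, hlo⟩
  have ht2 := card_add_self_le A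
  have hn4 : (A.card : ℝ) ^ 2 ≤ 4 * N := card_sq_le hS hb (le_trans (Nat.one_le_two_pow) hN)
  have hmsg : msg A = G / ((A + A).card : ℝ) := by rw [msg, one_div, inv_mul_eq_div]
  rw [hmsg, div_le_div_iff₀ (by positivity) htpos]
  have hG0 : 0 ≤ G := Finset.sum_nonneg (fun _ _ => sq_nonneg _)
  have hG' : (J : ℝ) * N ≤ G * (1 + D) := by
    have h1 : (J : ℝ) * (N / (1 + D)) = (J * N) / (1 + D) := by ring
    rw [h1, div_le_iff₀ (by linarith)] at hG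
    exact hG
  have hJ0 : (0 : ℝ) ≤ J := by positivity
  calc (J : ℝ) * ((A + A).card : ℝ) ≤ J * (4 * N) :=
        mul_le_mul_of_nonneg_left (ht2.trans hn4) hJ0
    _ = 4 * (J * N) := by ring
    _ ≤ 4 * (G * (1 + D)) := by linarith
    _ = G * (4 * (1 + D)) := by ring

/-- quantitative bound for almost extremal Sidon sets -/
lemma msg_extremal {A : Finset ℕ} {lo hi : ℕ} (hS : IsSidon A) (hlo : lo ∈ A) (hhi : hi ∈ A)
    (hb : ∀ a ∈ A, lo ≤ a ∧ a ≤ hi) (J : ℕ) (hN : 2 ^ (4 * J + 4) ≤ hi - lo)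
    (hc : (1 - 1 / (2 : ℝ) ^ J) * ((hi - lo : ℕ) : ℝ) ≤ (A.card : ℝ) ^ 2) :
    (J : ℝ) / 900 ≤ msg A := by
  have hN2 : 2 ^ (2 * J + 2) ≤ hi - lo :=
    le_trans (Nat.pow_le_pow_right (by norm_num) (by omega)) hN
  have h := msg_local hS hlo hhi hb J 224 (by norm_num) hN2 ?_
  · norm_num at h
    linarith
  intro j hj
  have hpow : 2 ^ (J + 1) ≤ hi - lo :=
    le_trans (Nat.pow_le_pow_right (by norm_num) (by omega)) hN
  obtain ⟨hw1, hw2⟩ := div_pow_bounds hpow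
  set u := (hi - lo) / 2 ^ J with hu
  set N : ℝ := ((hi - lo : ℕ) : ℝ) with hNdef
  have hN1 : (2 : ℝ) ^ (4 * J + 4) ≤ N := by rw [hNdef]; exact_mod_cast hN
  have hNpos : 0 < N := lt_of_lt_of_le (by positivity) hN1
  have hu1 : 1 ≤ u := by
    rcases Nat.eq_zero_or_pos u with h0 | h0
    · rw [h0] at hw2
      have : 0 < 2 ^ (J + 1) := by positivity
      omega
    · exact h0
  have hux : u ≤ 2 ^ (j + 1) * u := Nat.le_mul_of_pos_left _ (by positivity)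
  have hxN : 2 ^ (j + 1) * u ≤ hi - lo :=
    le_trans (Nat.mul_le_mul_right _ (Nat.pow_le_pow_right (by norm_num) (by omega))) hw1
  have hP : (0 : ℝ) < 2 ^ J := by positivity
  have e1 : (u : ℝ) ≤ (1 / (2 : ℝ) ^ J) * N := by
    have : (2 : ℝ) ^ J * (u : ℝ) ≤ N := by rw [hNdef]; exact_mod_cast hw1
    rw [one_div, inv_mul_eq_div, le_div_iff₀ hP]; linarith
  have e2 : (1 / (2 : ℝ) ^ J) * N ≤ 2 * (u : ℝ) := by
    have : N ≤ 2 * ((2 : ℝ) ^ J * (u : ℝ)) := by rw [hNdef]; exact_mod_cast hw2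
    rw [one_div, inv_mul_eq_div, div_le_iff₀ hP]; linarith
  have hn4 : (A.card : ℝ) ^ 2 ≤ 4 * N := card_sq_le hS hb (le_trans (Nat.one_le_two_pow) hN)
  have e4 : (A.card : ℝ) ≤ (1 / (2 : ℝ) ^ J) * u := by
    set ε : ℝ := 1 / (2 : ℝ) ^ J with hε
    have hε0 : 0 < ε := by positivity
    have h5 : ε * N / 2 ≤ u := by linarith
    have h6 : (A.card : ℝ) ^ 2 ≤ (ε * u) ^ 2 := by
      have h7 : (ε * (ε * N / 2)) ^ 2 ≤ (ε * u) ^ 2 :=
        pow_le_pow_left₀ (by positivity) (mul_le_mul_of_nonneg_left h5 hε0.le) 2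
      refine hn4.trans (le_trans ?_ h7)
      have h8 : (ε * (ε * N / 2)) ^ 2 = (ε ^ 4 / 4 * N) * N := by ring
      rw [h8]
      apply mul_le_mul_of_nonneg_right _ hNpos.le
      have h9 : ε ^ 4 * (2 : ℝ) ^ (4 * J + 4) = 16 := by
        rw [hε, pow_add, pow_mul', one_div, inv_pow]
        field_simp
        norm_num
      have h10 : ε ^ 4 * (2 : ℝ) ^ (4 * J + 4) ≤ ε ^ 4 * N :=
        mul_le_mul_of_nonneg_left hN1 (by positivity)
      linarith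
    exact (pow_le_pow_iff_left₀ (by positivity) (by positivity) (by norm_num)).1 h6
  have hmain := local_density hS hb u (2 ^ (j + 1) * u) (1 / (2 : ℝ) ^ J) (by positivity) hu1 hux
    hxN e1 e2 hc e4
  refine hmain.trans (le_of_eq ?_)
  push_cast
  ring

end Pool.Agent.Helper680.Gap
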