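import Pool.Agent.Helper680.GapE

set_option autoImplicit false
open Pointwise

namespace Pool.Agent.Helper680.Gap

/-- reflection of the set of consecutive pairs -/
lemma consec_reflect_sum {S : Finset ℕ} {M : ℕ} (hM : ∀ z ∈ S, z ≤ M) :
    ∑ p ∈ consec (S.image (fun z => M - z)), ((p.2 : ℝ) - (p.1 : ℝ)) ^ 2 =
      ∑ p ∈ consec S, ((p.2 : ℝ) - (p.1 : ℝ)) ^ 2 := by
  classical
  apply Finset.sum_nbij' (fun p : ℕ × ℕ => (M - p.2, M - p.1)) (fun p : ℕ × ℕ => (M - p.2, M - p.1))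
  · intro p hp
    rw [mem_consec] at hp ⊢
    obtain ⟨⟨h1, h2⟩, h3, h4⟩ := hp
    rw [Finset.mem_image] at h1 h2
    obtain ⟨z1, hz1, e1⟩ := h1
    obtain ⟨z2, hz2, e2⟩ := h2
    have b1 := hM z1 hz1
    have b2 := hM z2 hz2
    refine ⟨⟨?_, ?_⟩, ?_, ?_⟩
    · change M - p.2 ∈ S
      have : M - p.2 = z2 := by omega
      rw [this]; exact hz2
    · change M - p.1 ∈ S
      have : M - p.1 = z1 := by omega
      rw [this]; exact hz1
    · change M - p.2 < M - p.1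
      omega
    · intro z hz hzz
      change M - p.2 < z ∧ z < M - p.1 at hzz
      apply h4 (M - z) (Finset.mem_image_of_mem _ hz)
      have := hM z hz
      omega
  · intro p hp
    rw [mem_consec] at hp ⊢
    obtain ⟨⟨h1, h2⟩, h3, h4⟩ := hp
    have b1 := hM _ h1
    have b2 := hM _ h2
    refine ⟨⟨Finset.mem_image_of_mem _ h2, Finset.mem_image_of_mem _ h1⟩, ?_, ?_⟩
    · change M - p.2 < M - p.1
      omega
    · intro z hz hzz
      change M - p.2 < z ∧ z < M - p.1 at hzz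
      rw [Finset.mem_image] at hz
      obtain ⟨z', hz', e⟩ := hz
      have b3 := hM z' hz'
      apply h4 z' hz'
      omega
  · intro p hp
    rw [mem_consec] at hp
    obtain ⟨⟨h1, h2⟩, h3, h4⟩ := hp
    rw [Finset.mem_image] at h1 h2
    obtain ⟨z1, hz1, e1⟩ := h1
    obtain ⟨z2, hz2, e2⟩ := h2
    ext
    · change M - (M - p.1) = p.1
      omega
    · change M - (M - p.2) = p.2
      omega
  · intro p hp
    rw [mem_consec] at hp
    have b1 := hM _ hp.1.1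
    have b2 := hM _ hp.1.2
    ext
    · change M - (M - p.1) = p.1
      omega
    · change M - (M - p.2) = p.2
      omega
  · intro p hp
    rw [mem_consec] at hp
    obtain ⟨⟨h1, h2⟩, h3, h4⟩ := hp
    rw [Finset.mem_image] at h1 h2
    obtain ⟨z1, hz1, e1⟩ := h1
    obtain ⟨z2, hz2, e2⟩ := h2
    have q1 : p.1 ≤ M := by omega
    have q2 : p.2 ≤ M := by omega
    change ((p.2 : ℝ) - (p.1 : ℝ)) ^ 2 = (((M - p.1 : ℕ) : ℝ) - ((M - p.2 : ℕ) : ℝ)) ^ 2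
    rw [Nat.cast_sub q1, Nat.cast_sub q2]
    ring

lemma add_reflect {A : Finset ℕ} {c : ℕ} (hc : ∀ a ∈ A, a ≤ c) :
    A.image (fun a => c - a) + A.image (fun a => c - a) = (A + A).image (fun z => 2 * c - z) := by
  classical
  ext z
  simp only [Finset.mem_add, Finset.mem_image]
  constructor
  · rintro ⟨x, ⟨a, ha, rfl⟩, y, ⟨b, hb, rfl⟩, rfl⟩
    have := hc a ha
    have := hc b hb
    exact ⟨a + b, ⟨a, ha, b, hb, rfl⟩, by omega⟩
  · rintro ⟨s, ⟨a, ha, b, hb, rfl⟩, rfl⟩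
    have := hc a ha
    have := hc b hb
    exact ⟨c - a, ⟨a, ha, rfl⟩, c - b, ⟨b, hb, rfl⟩, by omega⟩

lemma msg_reflect {A : Finset ℕ} {c : ℕ} (hc : ∀ a ∈ A, a ≤ c) :
    msg (A.image (fun a => c - a)) = msg A := by
  classical
  have hM : ∀ z ∈ A + A, z ≤ 2 * c := by
    intro z hz
    rw [Finset.mem_add] at hz
    obtain ⟨a, ha, b, hb, rfl⟩ := hz
    have := hc a ha
    have := hc b hb
    omega
  unfold msg
  rw [add_reflect hc, consec_reflect_sum hM, Finset.card_image_of_injOn]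
  intro x hx y hy hxy
  have h1 := hM x hx
  have h2 := hM y hy
  simp only at hxy
  omega

lemma sidon_reflect {A : Finset ℕ} {c : ℕ} (hS : IsSidon A) (hc : ∀ a ∈ A, a ≤ c) :
    IsSidon (A.image (fun a => c - a)) := by
  classical
  intro x hx y hy z hz w hw h
  rw [Finset.mem_image] at hx hy hz hw
  obtain ⟨a, ha, rfl⟩ := hx
  obtain ⟨b, hb, rfl⟩ := hy
  obtain ⟨a', ha', rfl⟩ := hz
  obtain ⟨b', hb', rfl⟩ := hw
  have := hc a ha
  have := hc b hb
  have := hc a' ha'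
  have := hc b' hb'
  rcases hS a ha b hb a' ha' b' hb' (by omega) with ⟨h1, h2⟩ | ⟨h1, h2⟩
  · left; subst h1; subst h2; exact ⟨rfl, rfl⟩
  · right; subst h1; subst h2; exact ⟨rfl, rfl⟩

/-- left end, `ε`–`C` form -/
lemma left_end (K C : ℝ) : ∃ ε : ℝ, 0 < ε ∧ ∃ n₀ : ℕ, ∀ (A : Finset ℕ) (lo hi : ℕ), IsSidon A →
    lo ∈ A → hi ∈ A → (∀ a ∈ A, lo ≤ a ∧ a ≤ hi) → n₀ ≤ A.card → msg A < K →
    ∃ x : ℝ, ε * ((hi - lo : ℕ) : ℝ) ≤ x ∧ x ≤ ((hi - lo : ℕ) : ℝ) ∧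
      C * x / Real.sqrt ((hi - lo : ℕ) : ℝ) < ((A.filter (fun a : ℕ => (a : ℝ) ≤ (lo : ℝ) + x)).card : ℝ) := by
  classical
  obtain ⟨J, hJ⟩ := exists_nat_ge (K * (4 * (1 + 4 * C ^ 2)))
  refine ⟨1 / (2 : ℝ) ^ (J + 1), by positivity, 2 ^ (J + 2), ?_⟩
  intro A lo hi hS hlo hhi hb hn hK
  by_contra hcon
  push Not at hcon
  apply absurd hK
  rw [not_lt]
  have hlt : lo < hi := by
    by_contra h
    have hsub : A ⊆ {lo} := by
      intro a ha
      have := hb a ha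
      rw [Finset.mem_singleton]; omega
    have h1 := Finset.card_le_card hsub
    rw [Finset.card_singleton] at h1
    have h2 : 1 < 2 ^ (J + 2) := Nat.one_lt_pow (by omega) (by norm_num)
    omega
  have hn4 : (A.card : ℝ) ^ 2 ≤ 4 * ((hi - lo : ℕ) : ℝ) := card_sq_le hS hb (by omega)
  set N : ℝ := ((hi - lo : ℕ) : ℝ) with hNdef
  have hNN : 2 ^ (2 * J + 2) ≤ hi - lo := by
    have h1 : ((2 : ℝ) ^ (J + 2)) ≤ (A.card : ℝ) := by exact_mod_cast hn
    have h2 : ((2 : ℝ) ^ (J + 2)) ^ 2 ≤ 4 * N :=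
      (pow_le_pow_left₀ (by positivity) h1 2).trans hn4
    have h3 : ((2 : ℝ) ^ (J + 2)) ^ 2 = 4 * (2 : ℝ) ^ (2 * J + 2) := by ring
    have h4 : (2 : ℝ) ^ (2 * J + 2) ≤ N := by linarith
    rw [hNdef] at h4
    exact_mod_cast h4
  have hpow : 2 ^ (J + 1) ≤ hi - lo :=
    le_trans (Nat.pow_le_pow_right (by norm_num) (by omega)) hNN
  obtain ⟨hw1, hw2⟩ := div_pow_bounds hpow
  have hmain := msg_local hS hlo hhi hb J (4 * C ^ 2) (by positivity) hNN ?_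
  · refine le_trans ?_ hmain
    rw [le_div_iff₀ (by positivity)]
    exact hJ
  intro j hj
  set w := (hi - lo) / 2 ^ J with hw
  have hNpos : 0 < N := by
    have : 0 < hi - lo := by omega
    rw [hNdef]; exact_mod_cast this
  have hxN : 2 ^ (j + 1) * w ≤ hi - lo :=
    le_trans (Nat.mul_le_mul_right _ (Nat.pow_le_pow_right (by norm_num) (by omega))) hw1
  have hwR : N ≤ 2 * ((2 : ℝ) ^ J * (w : ℝ)) := by rw [hNdef]; exact_mod_cast hw2
  have hx1 : 1 / (2 : ℝ) ^ (J + 1) * N ≤ ((2 ^ (j + 1) * w : ℕ) : ℝ) := by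
    have h1 : 1 / (2 : ℝ) ^ (J + 1) * N ≤ (w : ℝ) := by
      rw [one_div, inv_mul_eq_div, div_le_iff₀ (by positivity), pow_succ]
      linarith
    have h2 : w ≤ 2 ^ (j + 1) * w := Nat.le_mul_of_pos_left _ (by positivity)
    have h3 : (w : ℝ) ≤ ((2 ^ (j + 1) * w : ℕ) : ℝ) := by exact_mod_cast h2
    linarith
  have hx2 : ((2 ^ (j + 1) * w : ℕ) : ℝ) ≤ N := by rw [hNdef]; exact_mod_cast hxN
  have hc := hcon _ hx1 hx2
  have hsub : A.filter (fun a => a < lo + 2 ^ (j + 1) * w) ⊆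
      A.filter (fun a : ℕ => (a : ℝ) ≤ (lo : ℝ) + ((2 ^ (j + 1) * w : ℕ) : ℝ)) := by
    intro a ha
    rw [Finset.mem_filter] at ha ⊢
    refine ⟨ha.1, ?_⟩
    have : a ≤ lo + 2 ^ (j + 1) * w := ha.2.le
    exact_mod_cast this
  have hcard : ((A.filter (fun a => a < lo + 2 ^ (j + 1) * w)).card : ℝ) ≤
      C * ((2 ^ (j + 1) * w : ℕ) : ℝ) / Real.sqrt N :=
    le_trans (by exact_mod_cast Finset.card_le_card hsub) hc
  have hsq := pow_le_pow_left₀ (by positivity) hcard 2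
  have h5 : (C * ((2 ^ (j + 1) * w : ℕ) : ℝ) / Real.sqrt N) ^ 2 * N =
      4 * C ^ 2 * ((2 : ℝ) ^ j * (w : ℝ)) ^ 2 := by
    rw [div_pow, Real.sq_sqrt hNpos.le]
    field_simp
    push_cast
    ring
  calc _ ≤ (C * ((2 ^ (j + 1) * w : ℕ) : ℝ) / Real.sqrt N) ^ 2 * N :=
        mul_le_mul_of_nonneg_right hsq hNpos.le
    _ = _ := h5

end Pool.Agent.Helper680.Gap
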