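import Mathlib
import Pool.Agent.Helper284.PFIneq
import Pool.Agent.Helper284.PFInv
import Pool.Agent.Helper284.PFMono

set_option autoImplicit false

/-!
Loud's centre on the line `F = 1 + D`, `-1 < D < 0`, in log-polar coordinates.
-/

namespace Pool.Agent.Helper680.Loud

open Pool.Agent.Helper284.PFInv Pool.Agent.Helper284.PFMono

/-- The parameter `μ = -D/(1+D)`. -/
noncomputable def mu (D : ℝ) : ℝ := -D / (1 + D)

theorem mu_pos {D : ℝ} (h1 : -1 < D) (h0 : D < 0) : 0 < mu D := by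
  unfold mu
  exact div_pos (by linarith) (by linarith)

theorem one_add_mu {D : ℝ} (h1 : -1 < D) : (1 + D) * (1 + mu D) = 1 := by
  unfold mu
  have : (1 + D) ≠ 0 := by linarith
  field_simp
  ring

theorem mul_mu {D : ℝ} (h1 : -1 < D) : (1 + D) * mu D = -D := by
  unfold mu
  have : (1 + D) ≠ 0 := by linarith
  field_simp

/-- First integral in log-polar coordinates. -/
noncomputable def Jf (D l φ : ℝ) : ℝ :=
  (1 - Real.exp l * Real.cos φ) * Real.exp (-((1 + mu D) * l))

/-- Logarithm of the amplitude. -/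
noncomputable def eps (D J : ℝ) : ℝ := -((1 + D) * Real.log J)

theorem eps_eq {D : ℝ} (h1 : -1 < D) (J : ℝ) : (1 + mu D) * eps D J = -Real.log J := by
  unfold eps
  linear_combination -Real.log J * one_add_mu h1

theorem J_const {D : ℝ} (h1 : -1 < D) {l φ : ℝ → ℝ}
    (hl : ∀ t, HasDerivAt l ((1 + D) * (Real.exp (l t) * Real.sin (φ t))) t)
    (hφ : ∀ t, HasDerivAt φ (1 + D * (Real.exp (l t) * Real.cos (φ t))) t)
    (t : ℝ) : Jf D (l t) (φ t) = Jf D (l 0) (φ 0) := by
  have hder : ∀ t, HasDerivAt (fun t => Jf D (l t) (φ t)) 0 t := by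
    intro t
    unfold Jf
    have e1 := (hl t).exp
    have e2 := (hφ t).cos
    have e3 := (((hl t).const_mul (1 + mu D)).neg).exp
    have e4 := ((e1.mul e2).const_sub 1).mul e3
    refine e4.congr_deriv ?_
    simp only [Pi.mul_apply, Pi.neg_apply]
    have h2 := one_add_mu h1
    linear_combination (-(Real.exp (l t) * Real.sin (φ t) * (1 - Real.exp (l t) * Real.cos (φ t)) *
      Real.exp (-((1 + mu D) * l t)))) * h2
  exact is_const_of_deriv_eq_zero (fun t => (hder t).differentiableAt) (fun t => (hder t).deriv) t 0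

theorem aux_exp {D : ℝ} (h1 : -1 < D) {l φ J : ℝ} (hJ : 0 < J) (hJl : Jf D l φ = J) :
    Real.exp (-(mu D * (eps D J - l))) =
      Real.exp (eps D J) * (1 - Real.exp l * Real.cos φ) * Real.exp (-l) := by
  have e1 : -(mu D * (eps D J - l)) = eps D J + (Real.log J + mu D * l) := by
    linear_combination (-1) * eps_eq h1 J
  rw [e1, Real.exp_add, Real.exp_add, Real.exp_log hJ, mul_assoc]
  congr 1
  rw [← hJl]
  unfold Jf
  have h2 : Real.exp (-((1 + mu D) * l)) = Real.exp (-l) * Real.exp (-(mu D * l)) := by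
    rw [← Real.exp_add]; congr 1; ring
  have h3 : Real.exp (-(mu D * l)) * Real.exp (mu D * l) = 1 := by
    rw [← Real.exp_add]; simp
  rw [h2]
  linear_combination ((1 - Real.exp l * Real.cos φ) * Real.exp (-l)) * h3

theorem fx_level {D : ℝ} (h1 : -1 < D) {l φ J : ℝ} (hJ : 0 < J) (hJl : Jf D l φ = J) :
    fx (mu D) (eps D J - l) = Real.exp (eps D J) * Real.cos φ := by
  unfold fx
  rw [aux_exp h1 hJ hJl, sub_eq_add_neg (eps D J), Real.exp_add]
  have h3 : Real.exp (-l) * Real.exp l = 1 := by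
    rw [← Real.exp_add]; simp
  linear_combination (Real.exp (eps D J) * Real.cos φ) * h3

theorem G_level {D : ℝ} (h1 : -1 < D) (h0 : D < 0) {l φ J : ℝ} (hJ : 0 < J) (hJl : Jf D l φ = J) :
    G (mu D) (Real.exp (eps D J) * Real.cos φ) = eps D J - l := by
  rw [← fx_level h1 hJ hJl, G_fx (mu_pos h1 h0)]

theorem P_level {D : ℝ} (h1 : -1 < D) (h0 : D < 0) {l φ J : ℝ} (hJ : 0 < J) (hJl : Jf D l φ = J) :
    (1 + mu D) * P (mu D) (Real.exp (eps D J) * Real.cos φ)
      * (1 + D * (Real.exp l * Real.cos φ)) = 1 := by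
  have hG := G_level h1 h0 hJ hJl
  have hd := den_pos (mu_pos h1 h0) (Real.exp (eps D J) * Real.cos φ)
  unfold P
  unfold g b at hd ⊢
  rw [hG] at hd ⊢
  rw [aux_exp h1 hJ hJl, sub_eq_add_neg (eps D J), Real.exp_add] at hd ⊢
  rw [mul_div_assoc', div_mul_eq_mul_div, div_eq_one_iff_eq hd.ne']
  have h2 := one_add_mu h1
  have h3 := mul_mu h1
  -- `(1 + μ) D = -μ`
  have h4 : (1 + mu D) * D = -mu D := by linear_combination h3
  linear_combination (Real.exp (eps D J) * Real.exp (-l) * (Real.exp l * Real.cos φ)) * h4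

theorem speed_lb {D : ℝ} (h1 : -1 < D) (h0 : D < 0) {l φ J : ℝ} (hJ : 0 < J)
    (hJl : Jf D l φ = J) : 1 / (1 + mu D) < 1 + D * (Real.exp l * Real.cos φ) := by
  have h := P_level h1 h0 hJ hJl
  have hm := mu_pos h1 h0
  set u := Real.exp (eps D J) * Real.cos φ
  have hP : P (mu D) u < 1 := by
    unfold P
    rw [div_lt_one (den_pos hm u)]
    have := mul_pos hm (b_pos (mu D) u)
    linarith
  have hP0 : 0 < P (mu D) u := div_pos (g_pos _ _) (den_pos hm u)
  set w := 1 + D * (Real.exp l * Real.cos φ)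
  have hw : 0 < w := by
    by_contra hcon
    push Not at hcon
    have : (1 + mu D) * P (mu D) u * w ≤ 0 :=
      mul_nonpos_of_nonneg_of_nonpos (by positivity) hcon
    linarith
  rw [div_lt_iff₀ (by positivity)]
  have h5 : P (mu D) u * (w * (1 + mu D)) < 1 * (w * (1 + mu D)) :=
    mul_lt_mul_of_pos_right hP (by positivity)
  have h6 : P (mu D) u * (w * (1 + mu D)) = 1 := by linear_combination h
  linarith

/-- The vector field. -/
noncomputable def VF (D F : ℝ) (p : ℝ × ℝ) : ℝ × ℝ :=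
  (-p.2 + p.1 * p.2, p.1 + D * p.1 ^ 2 + F * p.2 ^ 2)

/-- A solution through `(u, 0)`, `u > 0`, has a global polar form. -/
theorem polar {D u : ℝ} (hu : 0 < u) {γ : ℝ → ℝ × ℝ}
    (hγ : ∀ t : ℝ, HasDerivAt γ (VF D (1 + D) (γ t)) t) (hγ0 : γ 0 = (u, 0)) :
    ∃ l φ : ℝ → ℝ, l 0 = Real.log u ∧ φ 0 = 0 ∧
      (∀ t, γ t = (Real.exp (l t) * Real.cos (φ t), Real.exp (l t) * Real.sin (φ t))) ∧
      (∀ t, HasDerivAt l ((1 + D) * (Real.exp (l t) * Real.sin (φ t))) t) ∧
      (∀ t, HasDerivAt φ (1 + D * (Real.exp (l t) * Real.cos (φ t))) t) := by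
  have hx : ∀ t, HasDerivAt (fun t => (γ t).1) (-(γ t).2 + (γ t).1 * (γ t).2) t := fun t =>
    (hγ t).fst
  have hy : ∀ t, HasDerivAt (fun t => (γ t).2) ((γ t).1 + D * (γ t).1 ^ 2 + (1 + D) * (γ t).2 ^ 2) t :=
    fun t => (hγ t).snd
  have hxc : Continuous (fun t => (γ t).1) :=
    continuous_iff_continuousAt.mpr (fun t => (hx t).continuousAt)
  have hyc : Continuous (fun t => (γ t).2) :=
    continuous_iff_continuousAt.mpr (fun t => (hy t).continuousAt)
  set l : ℝ → ℝ := fun t => Real.log u + ∫ x in (0:ℝ)..t, (1 + D) * (γ x).2 with hl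
  set φ : ℝ → ℝ := fun t => ∫ x in (0:ℝ)..t, (1 + D * (γ x).1) with hφ
  have hld : ∀ t, HasDerivAt l ((1 + D) * (γ t).2) t := by
    intro t
    have hc : Continuous (fun x => (1 + D) * (γ x).2) := by fun_prop
    exact (hc.integral_hasStrictDerivAt 0 t).hasDerivAt.const_add _
  have hφd : ∀ t, HasDerivAt φ (1 + D * (γ t).1) t := by
    intro t
    have hc : Continuous (fun x => 1 + D * (γ x).1) := by fun_prop
    exact (hc.integral_hasStrictDerivAt 0 t).hasDerivAt
  have hl0 : l 0 = Real.log u := by simp [hl]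
  have hφ0 : φ 0 = 0 := by simp [hφ]
  -- rotate back
  have hc1 : ∀ t, HasDerivAt (fun t => Real.exp (-l t) *
      ((γ t).1 * Real.cos (φ t) + (γ t).2 * Real.sin (φ t))) 0 t := by
    intro t
    have e1 := ((hld t).neg).exp
    have e2 := ((hx t).mul (hφd t).cos).add ((hy t).mul (hφd t).sin)
    refine (e1.mul e2).congr_deriv ?_
    simp only [Pi.mul_apply, Pi.add_apply, Pi.neg_apply]
    ring
  have hc2 : ∀ t, HasDerivAt (fun t => Real.exp (-l t) *
      ((γ t).2 * Real.cos (φ t) - (γ t).1 * Real.sin (φ t))) 0 t := by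
    intro t
    have e1 := ((hld t).neg).exp
    have e2 := ((hy t).mul (hφd t).cos).sub ((hx t).mul (hφd t).sin)
    refine (e1.mul e2).congr_deriv ?_
    simp only [Pi.mul_apply, Pi.sub_apply, Pi.neg_apply]
    ring
  have hk1 : ∀ t, Real.exp (-l t) * ((γ t).1 * Real.cos (φ t) + (γ t).2 * Real.sin (φ t)) = 1 := by
    intro t
    have h := is_const_of_deriv_eq_zero (fun t => (hc1 t).differentiableAt)
      (fun t => (hc1 t).deriv) t 0
    rw [h, hl0, hφ0, hγ0, Real.exp_neg, Real.exp_log hu]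
    simp [hu.ne']
  have hk2 : ∀ t, Real.exp (-l t) * ((γ t).2 * Real.cos (φ t) - (γ t).1 * Real.sin (φ t)) = 0 := by
    intro t
    have h := is_const_of_deriv_eq_zero (fun t => (hc2 t).differentiableAt)
      (fun t => (hc2 t).deriv) t 0
    rw [h, hl0, hφ0, hγ0]
    simp
  have hmain : ∀ t, (γ t).1 = Real.exp (l t) * Real.cos (φ t) ∧
      (γ t).2 = Real.exp (l t) * Real.sin (φ t) := by
    intro t
    have h1 := hk1 t
    have h2 := hk2 t
    have h3 : Real.exp (-l t) * Real.exp (l t) = 1 := by rw [← Real.exp_add]; simp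
    have h4 := Real.sin_sq_add_cos_sq (φ t)
    constructor
    · linear_combination (-(γ t).1) * h3 * (1 : ℝ) + 0 * h4 + (Real.exp (l t) * Real.cos (φ t)) * h1
        - (Real.exp (l t) * Real.sin (φ t)) * h2 - (γ t).1 * (Real.exp (-l t) * Real.exp (l t)) * h4
        + 0 * h3
    · linear_combination (-(γ t).2) * h3 + (Real.exp (l t) * Real.sin (φ t)) * h1
        + (Real.exp (l t) * Real.cos (φ t)) * h2 - (γ t).2 * (Real.exp (-l t) * Real.exp (l t)) * h4
  refine ⟨l, φ, hl0, hφ0, fun t => Prod.ext (hmain t).1 (hmain t).2, ?_, ?_⟩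
  · intro t
    rw [← (hmain t).2]
    exact hld t
  · intro t
    rw [← (hmain t).1]
    exact hφd t

end Pool.Agent.Helper680.Loud
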