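import Mathlib
import Pool.Agent.Helper284.PFPeriod
import Pool.Agent.Helper680.LoudA

set_option autoImplicit false

/-!
The period formula for Loud's centre on the line `F = 1 + D`, `-1 < D < 0`.
-/

namespace Pool.Agent.Helper680.Loud

open Pool.Agent.Helper284.PFInv Pool.Agent.Helper284.PFMono Pool.Agent.Helper284.PFPeriod

/-- `τ` is the minimal period of the orbit through `(u, 0)`. -/
def Per (D F u τ : ℝ) : Prop :=
  0 < τ ∧ ∃ γ : ℝ → ℝ × ℝ,
    (∀ t : ℝ, HasDerivAt γ (-(γ t).2 + (γ t).1 * (γ t).2,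
      (γ t).1 + D * (γ t).1 ^ 2 + F * (γ t).2 ^ 2) t) ∧
    γ 0 = (u, 0) ∧ γ τ = (u, 0) ∧ ∀ t ∈ Set.Ioo (0:ℝ) τ, γ t ≠ (u, 0)

/-- The amplitude belonging to the orbit through `(u,0)`. -/
noncomputable def amp (D u : ℝ) : ℝ := Real.exp (Real.log u - (1 + D) * Real.log (1 - u))

theorem J0_pos {D u : ℝ} (hu1 : u < 1) (hu : 0 < u) : 0 < Jf D (Real.log u) 0 := by
  unfold Jf
  rw [Real.exp_log hu, Real.cos_zero, mul_one]
  exact mul_pos (by linarith) (Real.exp_pos _)

theorem amp_eq {D u : ℝ} (h1 : -1 < D) (hu1 : u < 1) (hu : 0 < u) :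
    Real.exp (eps D (Jf D (Real.log u) 0)) = amp D u := by
  unfold amp eps Jf
  rw [Real.exp_log hu, Real.cos_zero, mul_one, Real.log_mul (by linarith) (Real.exp_ne_zero _),
    Real.log_exp]
  congr 1
  linear_combination Real.log u * one_add_mu h1

theorem integral_cos {H : ℝ → ℝ} :
    ∫ x in (0:ℝ)..(2 * Real.pi), H (Real.cos x) = ∫ x in (0:ℝ)..(2 * Real.pi), H (Real.sin x) := by
  have e1 : ∫ x in (0:ℝ)..(2 * Real.pi), H (Real.cos x) =
      ∫ x in (0:ℝ)..(2 * Real.pi), (fun y => H (Real.sin y)) (x + Real.pi / 2) := by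
    apply intervalIntegral.integral_congr
    intro x _
    simp only [Real.sin_add_pi_div_two]
  rw [e1, intervalIntegral.integral_comp_add_right (fun y => H (Real.sin y))]
  have hper : Function.Periodic (fun y : ℝ => H (Real.sin y)) (2 * Real.pi) := by
    intro x
    simp only [Real.sin_add_two_pi]
  have := hper.intervalIntegral_add_eq (0 + Real.pi / 2) 0
  rw [zero_add (2 * Real.pi)] at this
  rw [← this]
  congr 1
  ring

/-- The period formula. -/
theorem period_formula' {D u τ : ℝ} (h1 : -1 < D) (h0 : D < 0) (hu : 0 < u) (hu1 : u < 1)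
    (hper : Per D (1 + D) u τ) : τ = (1 + mu D) * S (mu D) 1 (amp D u) := by
  obtain ⟨hτ, γ, hγ, hγ0, hγτ, hmin⟩ := hper
  obtain ⟨l, φ, hl0, hφ0, hpol, hl, hφ⟩ := polar hu hγ hγ0
  have hm := mu_pos h1 h0
  set J := Jf D (Real.log u) 0 with hJdef
  have hJ : 0 < J := J0_pos hu1 hu
  have hJt : ∀ t, Jf D (l t) (φ t) = J := by
    intro t
    rw [J_const h1 hl hφ t, hl0, hφ0]
  have hc0 : 0 < 1 / (1 + mu D) := by positivity
  have hspeed : ∀ t, 1 / (1 + mu D) ≤ 1 + D * (Real.exp (l t) * Real.cos (φ t)) :=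
    fun t => (speed_lb h1 h0 hJ (hJt t)).le
  have hmono := strictMono_of_deriv hc0 hφ hspeed
  have hφcont : Continuous φ := continuous_iff_continuousAt.mpr (fun t => (hφ t).continuousAt)
  have hlcont : Continuous l := continuous_iff_continuousAt.mpr (fun t => (hl t).continuousAt)
  -- same angle mod 2π implies same point
  have hret : ∀ t, φ t = 2 * Real.pi → γ t = (u, 0) := by
    intro t hj
    have e1 := G_level h1 h0 hJ (hJt t)
    have e2 := G_level h1 h0 hJ (hJt 0)
    rw [hj, Real.cos_two_pi] at e1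
    rw [hφ0, Real.cos_zero] at e2
    have h4 : l t = l 0 := by linarith
    rw [hpol t, hj, h4, hl0, Real.exp_log hu, Real.cos_two_pi, Real.sin_two_pi]
    simp
  have hang : φ τ = 2 * Real.pi := by
    rw [hpol τ] at hγτ
    have e1 : Real.exp (l τ) * Real.cos (φ τ) = u := congrArg Prod.fst hγτ
    have e2 : Real.exp (l τ) * Real.sin (φ τ) = 0 := congrArg Prod.snd hγτ
    have he := Real.exp_pos (l τ)
    have hs : Real.sin (φ τ) = 0 := by
      rcases mul_eq_zero.mp e2 with h | h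
      · exact absurd h he.ne'
      · exact h
    have hc : Real.cos (φ τ) = 1 := by
      have hcp : 0 < Real.cos (φ τ) := by
        by_contra hcon
        push Not at hcon
        have := mul_nonpos_of_nonneg_of_nonpos he.le hcon
        linarith
      have := Real.sin_sq_add_cos_sq (φ τ)
      rw [hs] at this
      nlinarith
    obtain ⟨j, hj⟩ := (Real.cos_eq_one_iff _).1 hc
    have hlt : φ 0 < φ τ := hmono hτ
    rw [hφ0] at hlt
    have hj0 : 0 < j := by
      by_contra hcon
      push Not at hcon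
      have : (j:ℝ) ≤ 0 := by exact_mod_cast hcon
      have := mul_nonpos_of_nonpos_of_nonneg this (by positivity : (0:ℝ) ≤ 2 * Real.pi)
      linarith
    rcases eq_or_lt_of_le (Int.add_one_le_iff.mpr hj0) with h | h
    · rw [← hj, ← h]; simp
    · exfalso
      have hj1 : (2:ℝ) ≤ j := by
        have : (2:ℤ) ≤ j := by omega
        exact_mod_cast this
      have hmem : 2 * Real.pi ∈ Set.Ioo (φ 0) (φ τ) := by
        rw [hφ0]
        constructor
        · have := Real.pi_pos; linarith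
        · rw [← hj]; nlinarith [Real.pi_pos]
      obtain ⟨t, ht0, ht⟩ := intermediate_value_Ioo hτ.le hφcont.continuousOn hmem
      exact hmin t ht0 (hret t ht)
  have hPc := P_cont hm
  set e := Real.exp (eps D J) with he
  have hint : ∫ t in (0:ℝ)..τ, ((fun x => (1 + mu D) * P (mu D) (e * Real.cos x)) ∘ φ) t
        * (1 + D * (Real.exp (l t) * Real.cos (φ t))) = τ := by
    have : ∀ t, ((fun x => (1 + mu D) * P (mu D) (e * Real.cos x)) ∘ φ) t
        * (1 + D * (Real.exp (l t) * Real.cos (φ t))) = 1 := by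
      intro t
      exact P_level h1 h0 hJ (hJt t)
    simp_rw [this]
    simp
  have hsub : ∫ t in (0:ℝ)..τ, ((fun x => (1 + mu D) * P (mu D) (e * Real.cos x)) ∘ φ) t
        * (1 + D * (Real.exp (l t) * Real.cos (φ t)))
      = ∫ x in (φ 0)..(φ τ), (1 + mu D) * P (mu D) (e * Real.cos x) := by
    apply intervalIntegral.integral_comp_mul_deriv (fun t _ => hφ t)
    · apply Continuous.continuousOn
      fun_prop
    · fun_prop
  rw [hφ0, hang, intervalIntegral.integral_const_mul,
    integral_cos (H := fun y => P (mu D) (e * y))] at hsub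
  have hS : ∫ x in (0:ℝ)..(2 * Real.pi), P (mu D) (e * Real.sin x) = S (mu D) 1 (amp D u) := by
    unfold S
    rw [← amp_eq h1 hu1 hu]
    simp [he, hJdef]
  rw [hS] at hsub
  rw [← hsub, hint]

/-- No periodic orbit passes through `(1, 0)`. -/
theorem not_per_one {D τ : ℝ} (h1 : -1 < D) : ¬ Per D (1 + D) 1 τ := by
  rintro ⟨hτ, γ, hγ, hγ0, hγτ, -⟩
  obtain ⟨l, φ, hl0, hφ0, hpol, hl, hφ⟩ := polar one_pos hγ hγ0
  have hJ : ∀ t, Jf D (l t) (φ t) = 0 := by
    intro t
    rw [J_const h1 hl hφ t, hl0, hφ0]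
    unfold Jf
    simp
  have hx : ∀ t, (γ t).1 = 1 := by
    intro t
    have h := hJ t
    unfold Jf at h
    rcases mul_eq_zero.mp h with h | h
    · rw [hpol t]
      show Real.exp (l t) * Real.cos (φ t) = 1
      linarith
    · exact absurd h (Real.exp_ne_zero _)
  have hy : ∀ t, HasDerivAt (fun t => (γ t).2) ((γ t).1 + D * (γ t).1 ^ 2 + (1 + D) * (γ t).2 ^ 2) t :=
    fun t => (hγ t).snd
  have hmono : StrictMono (fun t => (γ t).2) := by
    refine strictMono_of_deriv (c := 1 + D) (by linarith) hy ?_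
    intro t
    rw [hx t]
    nlinarith [sq_nonneg (γ t).2]
  have := hmono hτ
  simp only [hγ0, hγτ] at this
  exact lt_irrefl _ this

/-- The intersection of the period annulus with the positive `x`-axis. -/
def Ann (D F : ℝ) : Set ℝ := {s | 0 < s ∧ ∀ u ∈ Set.Ioc (0:ℝ) s, ∃ τ : ℝ, Per D F u τ}

theorem ann_lt_one {D s : ℝ} (h1 : -1 < D) (hs : s ∈ Ann D (1 + D)) : s < 1 := by
  by_contra hcon
  push Not at hcon
  obtain ⟨τ, hτ⟩ := hs.2 1 ⟨one_pos, hcon⟩
  exact not_per_one h1 hτ

/-- Sign of the derivative of `S` for `μ > 1`. -/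
theorem S_deriv_pos {μ : ℝ} (h1 : 1 < μ) {e : ℝ} (he : 0 < e) :
    0 < ∫ x in (0:ℝ)..(2 * Real.pi), DP μ (e * Real.sin ((1:ℕ) * x)) * Real.sin ((1:ℕ) * x) := by
  have h0 : 0 < μ := by linarith
  have hν0 : 0 < μ⁻¹ := inv_pos.mpr h0
  have hν1 : μ⁻¹ < 1 := inv_lt_one_of_one_lt₀ h1
  have hG : ∀ u, G μ⁻¹ (-u) = -(μ * G μ u) := by
    intro u
    have h2 : fx μ⁻¹ (-(μ * G μ u)) = -u := by
      have h3 : fx μ⁻¹ (-(μ * G μ u)) = -(fx μ (G μ u)) := by
        unfold fx
        have : -(μ⁻¹ * -(μ * G μ u)) = G μ u := by field_simp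
        rw [this]
        ring
      rw [h3, fx_G h0]
    rw [← h2, G_fx hν0]
  have hDP : ∀ u, DP μ u = DP μ⁻¹ (-u) := by
    intro u
    have hd := (den_pos h0 u).ne'
    unfold DP g b at *
    rw [hG u]
    have e1 : -(μ⁻¹ * -(μ * G μ u)) = G μ u := by field_simp
    rw [e1]
    set x := Real.exp (G μ u) with hx
    set y := Real.exp (-(μ * G μ u)) with hy
    have hx0 : 0 < x := Real.exp_pos _
    have hy0 : 0 < y := Real.exp_pos _
    have hd2 : y + μ⁻¹ * x ≠ 0 := by positivity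
    have e2 : y + μ⁻¹ * x = μ⁻¹ * (x + μ * y) := by field_simp; ring
    rw [e2]
    field_simp
    ring
  have hneg := S_deriv_neg hν0 hν1 (k := 1) one_pos he
  have hsym := integral_sin_neg (H := fun y => DP μ⁻¹ (e * y) * y) 1
  have e3 : ∫ x in (0:ℝ)..(2 * Real.pi), DP μ (e * Real.sin ((1:ℕ) * x)) * Real.sin ((1:ℕ) * x) =
      -∫ x in (0:ℝ)..(2 * Real.pi), DP μ⁻¹ (e * -Real.sin ((1:ℕ) * x)) * -Real.sin ((1:ℕ) * x) := by
    rw [← intervalIntegral.integral_neg]
    apply intervalIntegral.integral_congr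
    intro x _
    simp only
    rw [hDP]
    have : -(e * Real.sin ((1:ℕ) * x)) = e * -Real.sin ((1:ℕ) * x) := by ring
    rw [this]
    ring
  rw [e3, hsym]
  linarith

/-- The period as an explicit function. -/
noncomputable def TT (D u : ℝ) : ℝ := (1 + mu D) * S (mu D) 1 (amp D u)

theorem TT_hasDerivAt {D u : ℝ} (h1 : -1 < D) (h0 : D < 0) (hu : 0 < u) (hu1 : u < 1) :
    HasDerivAt (TT D) ((1 + mu D) * ((∫ x in (0:ℝ)..(2 * Real.pi),
      DP (mu D) (amp D u * Real.sin ((1:ℕ) * x)) * Real.sin ((1:ℕ) * x)) *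
        (amp D u * (1 / u + (1 + D) / (1 - u))))) u := by
  have hm := mu_pos h1 h0
  have e1 : HasDerivAt (fun u => Real.log u - (1 + D) * Real.log (1 - u))
      (1 / u + (1 + D) / (1 - u)) u := by
    have a1 := Real.hasDerivAt_log hu.ne'
    have a2 : HasDerivAt (fun u : ℝ => 1 - u) (-1) u := by
      simpa using (hasDerivAt_id u).const_sub 1
    have a3 := (a2.log (by linarith : (1 - u) ≠ 0)).const_mul (1 + D)
    refine (a1.sub a3).congr_deriv ?_
    field_simp
    ring
  have e2 : HasDerivAt (amp D) (amp D u * (1 / u + (1 + D) / (1 - u))) u := e1.exp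
  exact ((S_hasDerivAt hm 1 (amp D u)).comp u e2).const_mul (1 + mu D)

theorem TT_deriv_neg {D u : ℝ} (h1 : -1/2 < D) (h0 : D < 0) (hu : 0 < u) (hu1 : u < 1) :
    ∃ d < 0, HasDerivAt (TT D) d u := by
  have h1' : -1 < D := by linarith
  have hm := mu_pos h1' h0
  have hm1 : mu D < 1 := by
    unfold mu
    rw [div_lt_one (by linarith)]
    linarith
  refine ⟨_, ?_, TT_hasDerivAt h1' h0 hu hu1⟩
  have hA : 0 < amp D u := Real.exp_pos _
  have hneg := S_deriv_neg hm hm1 (k := 1) one_pos hA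
  have hpos : 0 < amp D u * (1 / u + (1 + D) / (1 - u)) := by
    apply mul_pos hA
    have a1 : 0 < 1 / u := by positivity
    have a2 : 0 < (1 + D) / (1 - u) := div_pos (by linarith) (by linarith)
    linarith
  exact mul_neg_of_pos_of_neg (by linarith) (mul_neg_of_neg_of_pos hneg hpos)

theorem TT_deriv_pos {D u : ℝ} (h1 : -1 < D) (h0 : D < -1/2) (hu : 0 < u) (hu1 : u < 1) :
    ∃ d, 0 < d ∧ HasDerivAt (TT D) d u := by
  have h0' : D < 0 := by linarith
  have hm := mu_pos h1 h0'
  have hm1 : 1 < mu D := by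
    unfold mu
    rw [one_lt_div (by linarith)]
    linarith
  refine ⟨_, ?_, TT_hasDerivAt h1 h0' hu hu1⟩
  have hA : 0 < amp D u := Real.exp_pos _
  have hpos' := S_deriv_pos hm1 hA
  have hpos : 0 < amp D u * (1 / u + (1 + D) / (1 - u)) := by
    apply mul_pos hA
    have a1 : 0 < 1 / u := by positivity
    have a2 : 0 < (1 + D) / (1 - u) := div_pos (by linarith) (by linarith)
    linarith
  exact mul_pos (by linarith) (mul_pos hpos' hpos)

end Pool.Agent.Helper680.Loud
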