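import Mathlib
import Pool.Agent.Helper680.LoudB

set_option autoImplicit false

/-!
Existence of the periodic orbits: the period annulus meets the positive `x`-axis in `(0,1)`.
-/

namespace Pool.Agent.Helper680.Loud

open Pool.Agent.Helper284.PFInv Pool.Agent.Helper284.PFMono Pool.Agent.Helper284.PFPeriod

/-- Radius as a function of the angle. -/
theorem level_of_angle {D J : ℝ} (h1 : -1 < D) (h0 : D < 0) (hJ : 0 < J) (x : ℝ) :
    Jf D (eps D J - G (mu D) (Real.exp (eps D J) * Real.cos x)) x = J := by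
  have hm := mu_pos h1 h0
  set w := G (mu D) (Real.exp (eps D J) * Real.cos x) with hw
  have hf : Real.exp w - Real.exp (-(mu D * w)) = Real.exp (eps D J) * Real.cos x := fx_G hm _
  unfold Jf
  have e1 : Real.exp (eps D J - w) = Real.exp (eps D J) * Real.exp (-w) := by
    rw [← Real.exp_add]; congr 1
  have e2 : Real.exp (-w) * Real.exp w = 1 := by rw [← Real.exp_add]; simp
  have e3 : 1 - Real.exp (eps D J - w) * Real.cos x = Real.exp (-((1 + mu D) * w)) := by
    have e4 : Real.exp (-((1 + mu D) * w)) = Real.exp (-w) * Real.exp (-(mu D * w)) := by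
      rw [← Real.exp_add]; congr 1; ring
    rw [e1, e4]
    linear_combination Real.exp (-w) * hf - e2
  rw [e3, ← Real.exp_add]
  have e5 : -((1 + mu D) * w) + -((1 + mu D) * (eps D J - w)) = Real.log J := by
    linear_combination (-1) * eps_eq h1 J
  rw [e5, Real.exp_log hJ]

theorem exists_per {D u : ℝ} (h1 : -1 < D) (h0 : D < 0) (hu : 0 < u) (hu1 : u < 1) :
    ∃ τ, Per D (1 + D) u τ := by
  have hm := mu_pos h1 h0
  set m := mu D with hmdef
  set J := Jf D (Real.log u) 0 with hJdef
  have hJ : 0 < J := J0_pos hu1 hu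
  set e := Real.exp (eps D J) with hedef
  have he : 0 < e := Real.exp_pos _
  set ll : ℝ → ℝ := fun x => eps D J - G m (e * Real.cos x) with hll
  have hlev : ∀ x, Jf D (ll x) x = J := level_of_angle h1 h0 hJ
  set Q : ℝ → ℝ := fun x => (1 + m) * P m (e * Real.cos x) with hQ
  have hPc := P_cont hm
  have hQc : Continuous Q := by rw [hQ]; fun_prop
  have hPpos : ∀ y, 0 < P m y := fun y => div_pos (g_pos _ _) (den_pos hm y)
  -- lower bound
  obtain ⟨y0, -, hy0⟩ := (isCompact_Icc (a := -e) (b := e)).exists_isMinOn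
    ⟨0, by constructor <;> linarith⟩ hPc.continuousOn
  set c := (1 + m) * P m y0 with hc
  have hc0 : 0 < c := mul_pos (by linarith) (hPpos y0)
  have hQlb : ∀ x, c ≤ Q x := by
    intro x
    have hmem : e * Real.cos x ∈ Set.Icc (-e) e := by
      have a1 := Real.neg_one_le_cos x
      have a2 := Real.cos_le_one x
      constructor <;> nlinarith
    have := hy0 hmem
    simp only [Set.mem_ofPred_eq] at this
    rw [hc, hQ]
    exact mul_le_mul_of_nonneg_left this (by linarith)
  set Θ : ℝ → ℝ := fun x => ∫ y in (0:ℝ)..x, Q y with hΘ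
  have hΘd : ∀ x, HasDerivAt Θ (Q x) x := fun x => (hQc.integral_hasStrictDerivAt 0 x).hasDerivAt
  have hΘmono := strictMono_of_deriv hc0 hΘd hQlb
  have hΘsurj := surj_of_deriv hc0 hΘd hQlb
  have hΘ0 : Θ 0 = 0 := by simp [hΘ]
  set φ : ℝ → ℝ := Function.invFun Θ with hφ
  have hΘφ : ∀ t, Θ (φ t) = t := Function.rightInverse_invFun hΘsurj
  have hφΘ : ∀ x, φ (Θ x) = x := Function.leftInverse_invFun hΘmono.injective
  have hφmono : StrictMono φ := by
    intro a b hab
    rw [← hΘmono.lt_iff_lt, hΘφ, hΘφ]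
    exact hab
  have hφcont : Continuous φ :=
    hφmono.monotone.continuous_of_surjective (fun x => ⟨Θ x, hφΘ x⟩)
  have hφd : ∀ t, HasDerivAt φ (Q (φ t))⁻¹ t := fun t =>
    HasDerivAt.of_local_left_inverse hφcont.continuousAt (hΘd (φ t))
      (lt_of_lt_of_le hc0 (hQlb (φ t))).ne' (Filter.Eventually.of_forall hΘφ)
  have hQinv : ∀ x, (Q x)⁻¹ = 1 + D * (Real.exp (ll x) * Real.cos x) := by
    intro x
    have := P_level h1 h0 hJ (hlev x)
    exact inv_eq_of_mul_eq_one_right this
  have hφ0 : φ 0 = 0 := by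
    have := hφΘ 0
    rwa [hΘ0] at this
  set l : ℝ → ℝ := fun t => ll (φ t) with hl
  have hφd' : ∀ t, HasDerivAt φ (1 + D * (Real.exp (l t) * Real.cos (φ t))) t := by
    intro t
    rw [← hQinv (φ t)]
    exact hφd t
  have hld : ∀ t, HasDerivAt l ((1 + D) * (Real.exp (l t) * Real.sin (φ t))) t := by
    intro t
    have a1 : HasDerivAt (fun t => e * Real.cos (φ t)) (e * (-Real.sin (φ t) * (Q (φ t))⁻¹)) t :=
      ((hφd t).cos).const_mul e
    have a2 := ((G_hasDerivAt hm (e * Real.cos (φ t))).comp t a1).const_sub (eps D J)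
    refine a2.congr_deriv ?_
    have hw : Real.exp (l t) = e * Real.exp (-(G m (e * Real.cos (φ t)))) := by
      rw [hedef, ← Real.exp_add]
      rfl
    rw [hw]
    simp only [hQ]
    unfold P g b
    have hd : 0 < Real.exp (G m (e * Real.cos (φ t))) + m * Real.exp (-(m * G m (e * Real.cos (φ t)))) :=
      den_pos hm _
    rw [Real.exp_neg (G m (e * Real.cos (φ t)))]
    set w := Real.exp (G m (e * Real.cos (φ t))) with hwdef
    have hw0 : 0 < w := Real.exp_pos _
    set v := Real.exp (-(m * G m (e * Real.cos (φ t)))) with hvdef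
    have h3 := one_add_mu h1
    rw [← hmdef] at h3
    have h4 : (1 + m) ≠ 0 := by positivity
    have h5 : (1 + D) = 1 / (1 + m) := by field_simp; linarith
    rw [h5]
    field_simp
  have hl0 : l 0 = Real.log u := by
    have := G_level h1 h0 hJ (l := Real.log u) (φ := 0) rfl
    rw [Real.cos_zero] at this
    show eps D J - G m (e * Real.cos (φ 0)) = Real.log u
    rw [hφ0, Real.cos_zero, this]
    ring
  refine ⟨Θ (2 * Real.pi), ?_, fun t => (Real.exp (l t) * Real.cos (φ t), Real.exp (l t) * Real.sin (φ t)),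
    ?_, ?_, ?_, ?_⟩
  · have := hΘmono (show (0:ℝ) < 2 * Real.pi by positivity)
    rw [hΘ0] at this
    exact this
  · intro t
    have b1 := (hld t).exp.mul (hφd' t).cos
    have b2 := (hld t).exp.mul (hφd' t).sin
    refine (b1.prodMk b2).congr_deriv ?_
    refine Prod.ext ?_ ?_
    · simp only
      ring
    · simp only
      ring
  · simp only [hl0, hφ0, Real.exp_log hu, Real.cos_zero, Real.sin_zero, mul_one, mul_zero]
  · have a1 : φ (Θ (2 * Real.pi)) = 2 * Real.pi := hφΘ _
    have a2 : l (Θ (2 * Real.pi)) = l 0 := by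
      show eps D J - G m (e * Real.cos (φ (Θ (2 * Real.pi)))) = eps D J - G m (e * Real.cos (φ 0))
      rw [a1, hφ0, Real.cos_two_pi, Real.cos_zero]
    simp only [a1, a2, hl0, Real.exp_log hu, Real.cos_two_pi, Real.sin_two_pi, mul_one, mul_zero]
  · intro t ht heq
    have c1 : Real.exp (l t) * Real.cos (φ t) = u := congrArg Prod.fst heq
    have c2 : Real.exp (l t) * Real.sin (φ t) = 0 := congrArg Prod.snd heq
    have hE := Real.exp_pos (l t)
    have hs : Real.sin (φ t) = 0 := by
      rcases mul_eq_zero.mp c2 with h | h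
      · exact absurd h hE.ne'
      · exact h
    have hc : Real.cos (φ t) = 1 := by
      have hcp : 0 < Real.cos (φ t) := by
        by_contra hcon
        push Not at hcon
        have := mul_nonpos_of_nonneg_of_nonpos hE.le hcon
        linarith
      have := Real.sin_sq_add_cos_sq (φ t)
      rw [hs] at this
      nlinarith
    obtain ⟨j, hj⟩ := (Real.cos_eq_one_iff _).1 hc
    have d1 : 0 < φ t := by
      have := hφmono ht.1
      rwa [hφ0] at this
    have d2 : φ t < 2 * Real.pi := by
      have := hφmono ht.2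
      rwa [hφΘ] at this
    rw [← hj] at d1 d2
    have hpi := Real.pi_pos
    have j0 : (0:ℝ) < j := by
      by_contra hcon
      push Not at hcon
      nlinarith
    have j1 : (j:ℝ) < 1 := by
      by_contra hcon
      push Not at hcon
      nlinarith
    have j0' : 0 < j := by exact_mod_cast j0
    have j1' : j < 1 := by exact_mod_cast j1
    omega

theorem ann_eq {D : ℝ} (h1 : -1 < D) (h0 : D < 0) : Ann D (1 + D) = Set.Ioo 0 1 := by
  ext s
  constructor
  · intro hs
    exact ⟨hs.1, ann_lt_one h1 hs⟩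
  · rintro ⟨hs0, hs1⟩
    exact ⟨hs0, fun u hu => exists_per h1 h0 hu.1 (lt_of_le_of_lt hu.2 hs1)⟩

end Pool.Agent.Helper680.Loud
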