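import Mathlib
import Pool.Agent.Helper256.KM.Mertens

set_option autoImplicit false

/-! A Davenport-Erdos type theorem for sets closed under multiplication by rough numbers. -/

namespace Pool.Agent.Helper680.SigA

open Finset Filter Topology

/-- the indicator function of a set of natural numbers -/
noncomputable def ind (A : Set ℕ) (n : ℕ) : ℝ := A.indicator (fun _ => (1 : ℝ)) n

/-- counting function over `1..N` -/
noncomputable def cnt (A : Set ℕ) (N : ℕ) : ℝ := ∑ n ∈ Finset.Icc 1 N, ind A n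

/-- harmonic counting function over `1..N` -/
noncomputable def hsum (A : Set ℕ) (N : ℕ) : ℝ := ∑ n ∈ Finset.Icc 1 N, ind A n / n

lemma ind_nonneg (A : Set ℕ) (n : ℕ) : 0 ≤ ind A n := by
  unfold ind; exact Set.indicator_nonneg (fun _ _ => zero_le_one) n

lemma ind_le_one (A : Set ℕ) (n : ℕ) : ind A n ≤ 1 := by
  unfold ind
  by_cases h : n ∈ A
  · simp [h]
  · simp [h]

lemma ind_mem {A : Set ℕ} {n : ℕ} (h : n ∈ A) : ind A n = 1 := by
  unfold ind; simp [h]

lemma ind_notMem {A : Set ℕ} {n : ℕ} (h : n ∉ A) : ind A n = 0 := by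
  unfold ind; simp [h]

lemma ind_congr {A B : Set ℕ} {n m : ℕ} (h : n ∈ A ↔ m ∈ B) : ind A n = ind B m := by
  by_cases h1 : n ∈ A
  · rw [ind_mem h1, ind_mem (h.1 h1)]
  · rw [ind_notMem h1, ind_notMem (fun h2 => h1 (h.2 h2))]

lemma ind_mono {A B : Set ℕ} {n m : ℕ} (h : n ∈ A → m ∈ B) : ind A n ≤ ind B m := by
  by_cases h1 : n ∈ A
  · rw [ind_mem h1, ind_mem (h h1)]
  · rw [ind_notMem h1]; exact ind_nonneg _ _

/-- partial summation -/
lemma abel (f : ℕ → ℝ) (N : ℕ) :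
    ∑ n ∈ Finset.Icc 1 N, f n / n = (∑ n ∈ Finset.Icc 1 N, f n) / (N + 1) +
      ∑ n ∈ Finset.Icc 1 N, (∑ k ∈ Finset.Icc 1 n, f k) / (n * (n + 1)) := by
  induction N with
  | zero => simp
  | succ N ih =>
    rw [Finset.sum_Icc_succ_top (by omega), Finset.sum_Icc_succ_top (f := fun n =>
      (∑ k ∈ Finset.Icc 1 n, f k) / ((n : ℝ) * (n + 1))) (by omega), ih,
      Finset.sum_Icc_succ_top (f := f) (by omega)]
    have h1 : ((N : ℝ) + 1) ≠ 0 := by positivity
    have h2 : ((N : ℝ) + 1 + 1) ≠ 0 := by positivity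
    push_cast
    field_simp
    ring

lemma tele (N : ℕ) : ∑ n ∈ Finset.Icc 1 N, (1 : ℝ) / (n * (n + 1)) = 1 - 1 / (N + 1) := by
  induction N with
  | zero => simp
  | succ N ih =>
    rw [Finset.sum_Icc_succ_top (by omega), ih]
    have h1 : ((N : ℝ) + 1) ≠ 0 := by positivity
    have h2 : ((N : ℝ) + 1 + 1) ≠ 0 := by positivity
    push_cast
    field_simp
    ring

/-- harmonic number -/
noncomputable def hh (N : ℕ) : ℝ := ∑ n ∈ Finset.Icc 1 N, (1 : ℝ) / n

lemma abel_bd (f : ℕ → ℝ) (d K : ℝ)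
    (h : ∀ n : ℕ, |∑ k ∈ Finset.Icc 1 n, f k - d * n| ≤ K) (N : ℕ) :
    |∑ n ∈ Finset.Icc 1 N, f n / n - d * hh N| ≤ 2 * K := by
  have hK : 0 ≤ K := (abs_nonneg _).trans (h 0)
  have h1 : ∑ n ∈ Finset.Icc 1 N, f n / n - d * hh N = ∑ n ∈ Finset.Icc 1 N, (f n - d) / n := by
    unfold hh
    rw [Finset.mul_sum, ← Finset.sum_sub_distrib]
    refine Finset.sum_congr rfl fun n _ => ?_
    ring
  have h2 : ∀ n : ℕ, ∑ k ∈ Finset.Icc 1 n, (f k - d) = ∑ k ∈ Finset.Icc 1 n, f k - d * n := by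
    intro n
    rw [Finset.sum_sub_distrib, Finset.sum_const, Nat.card_Icc]
    simp [mul_comm]
  rw [h1, abel (fun n => f n - d) N]
  have h3 : |(∑ n ∈ Finset.Icc 1 N, (f n - d)) / ((N : ℝ) + 1)| ≤ K := by
    rw [h2, abs_div, abs_of_pos (by positivity : (0 : ℝ) < (N : ℝ) + 1)]
    rw [div_le_iff₀ (by positivity)]
    have : (0 : ℝ) ≤ N := by positivity
    nlinarith [h N]
  have h4 : |∑ n ∈ Finset.Icc 1 N, (∑ k ∈ Finset.Icc 1 n, (f k - d)) / ((n : ℝ) * (n + 1))| ≤ K := by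
    calc _ ≤ ∑ n ∈ Finset.Icc 1 N, |(∑ k ∈ Finset.Icc 1 n, (f k - d)) / ((n : ℝ) * (n + 1))| :=
          Finset.abs_sum_le_sum_abs _ _
      _ ≤ ∑ n ∈ Finset.Icc 1 N, K * ((1 : ℝ) / (n * (n + 1))) := by
          refine Finset.sum_le_sum fun n hn => ?_
          rw [Finset.mem_Icc] at hn
          have hn1 : (0 : ℝ) < n := by exact_mod_cast hn.1
          rw [h2, abs_div, abs_of_pos (by positivity : (0 : ℝ) < (n : ℝ) * (n + 1)), mul_one_div]
          exact div_le_div_of_nonneg_right (h n) (by positivity)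
      _ = K * (1 - 1 / (N + 1)) := by rw [← Finset.mul_sum, tele]
      _ ≤ K * 1 := by
          refine mul_le_mul_of_nonneg_left ?_ hK
          have : (0 : ℝ) < 1 / ((N : ℝ) + 1) := by positivity
          linarith
      _ = K := mul_one K
  calc _ ≤ _ := abs_add_le _ _
    _ ≤ K + K := add_le_add h3 h4
    _ = 2 * K := by ring

/-- `A` has density `d` with bounded error -/
def HasD (A : Set ℕ) (d : ℝ) : Prop := ∃ K : ℝ, ∀ N : ℕ, |cnt A N - d * N| ≤ K

lemma le_of_lin (a b K : ℝ) (h : ∀ N : ℕ, a * N ≤ b * N + K) : a ≤ b := by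
  by_contra hc
  push Not at hc
  have h1 : 0 < a - b := by linarith
  obtain ⟨n, hn⟩ := exists_nat_gt (K / (a - b))
  rw [div_lt_iff₀ h1] at hn
  have := h n
  nlinarith

lemma cnt_mono {A B : Set ℕ} (h : ∀ n, 1 ≤ n → n ∈ A → n ∈ B) (N : ℕ) : cnt A N ≤ cnt B N := by
  unfold cnt
  refine Finset.sum_le_sum fun n hn => ?_
  exact ind_mono (h n (Finset.mem_Icc.1 hn).1)

lemma hsum_mono {A B : Set ℕ} (h : ∀ n, 1 ≤ n → n ∈ A → n ∈ B) (N : ℕ) : hsum A N ≤ hsum B N := by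
  unfold hsum
  refine Finset.sum_le_sum fun n hn => ?_
  exact div_le_div_of_nonneg_right (ind_mono (h n (Finset.mem_Icc.1 hn).1)) (by positivity)

lemma cnt_nonneg (A : Set ℕ) (N : ℕ) : 0 ≤ cnt A N := Finset.sum_nonneg fun n _ => ind_nonneg A n

lemma cnt_le (A : Set ℕ) (N : ℕ) : cnt A N ≤ N := by
  unfold cnt
  calc _ ≤ ∑ n ∈ Finset.Icc 1 N, (1 : ℝ) := Finset.sum_le_sum fun n _ => ind_le_one A n
    _ = N := by simp

lemma HasD.mono {A B : Set ℕ} {a b : ℝ} (hA : HasD A a) (hB : HasD B b)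
    (h : ∀ n, 1 ≤ n → n ∈ A → n ∈ B) : a ≤ b := by
  obtain ⟨K, hK⟩ := hA
  obtain ⟨L, hL⟩ := hB
  refine le_of_lin a b (K + L) fun N => ?_
  have h1 := abs_le.1 (hK N)
  have h2 := abs_le.1 (hL N)
  have h3 := cnt_mono h N
  linarith [h1.1, h2.2]

lemma HasD.le_one {A : Set ℕ} {a : ℝ} (hA : HasD A a) : a ≤ 1 := by
  obtain ⟨K, hK⟩ := hA
  refine le_of_lin a 1 K fun N => ?_
  have h1 := abs_le.1 (hK N)
  have h3 := cnt_le A N
  linarith [h1.1]

lemma HasD.nonneg {A : Set ℕ} {a : ℝ} (hA : HasD A a) : 0 ≤ a := by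
  obtain ⟨K, hK⟩ := hA
  refine le_of_lin 0 a K fun N => ?_
  have h1 := abs_le.1 (hK N)
  have h3 := cnt_nonneg A N
  linarith [h1.2]

lemma HasD.hsum {A : Set ℕ} {a : ℝ} (hA : HasD A a) : ∃ K : ℝ, ∀ N : ℕ, |hsum A N - a * hh N| ≤ K := by
  obtain ⟨K, hK⟩ := hA
  exact ⟨2 * K, abel_bd (ind A) a K hK⟩

lemma cnt_add (A : Set ℕ) (M : ℕ) (h : ∀ n, 1 ≤ n → (n ∈ A ↔ n + M ∈ A)) (N : ℕ) :
    cnt A (N + M) = cnt A N + cnt A M := by
  induction N with
  | zero => simp [cnt]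
  | succ N ih =>
    have e : N + 1 + M = (N + M) + 1 := by ring
    rw [e]
    unfold cnt at ih ⊢
    rw [Finset.sum_Icc_succ_top (by omega), ih, Finset.sum_Icc_succ_top (by omega : 1 ≤ N + 1)]
    have h1 : ind A (N + M + 1) = ind A (N + 1) := by
      refine ind_congr ?_
      rw [← e]
      exact (h (N + 1) (by omega)).symm
    rw [h1]; ring

lemma cnt_mul (A : Set ℕ) (M : ℕ) (h : ∀ n, 1 ≤ n → (n ∈ A ↔ n + M ∈ A)) (r q : ℕ) :
    cnt A (r + M * q) = cnt A r + q * cnt A M := by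
  induction q with
  | zero => simp
  | succ q ih =>
    have e : r + M * (q + 1) = (r + M * q) + M := by ring
    rw [e, cnt_add A M h, ih]
    push_cast; ring

lemma HasD.periodic (A : Set ℕ) (M : ℕ) (hM : 0 < M) (h : ∀ n, 1 ≤ n → (n ∈ A ↔ n + M ∈ A)) :
    HasD A (cnt A M / M) := by
  refine ⟨M, fun N => ?_⟩
  have hM' : (0 : ℝ) < M := by exact_mod_cast hM
  have e : N = N % M + M * (N / M) := (Nat.mod_add_div N M).symm
  have h1 : cnt A N = cnt A (N % M) + (N / M : ℕ) * cnt A M := by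
    conv_lhs => rw [e]
    exact cnt_mul A M h _ _
  have h2 : (N : ℝ) = (N % M : ℕ) + M * (N / M : ℕ) := by exact_mod_cast e
  have h3 : cnt A N - cnt A M / M * N = cnt A (N % M) - cnt A M / M * (N % M : ℕ) := by
    rw [h1]
    conv_lhs => rw [h2]
    field_simp
    ring
  rw [h3, abs_le]
  have h4 := cnt_nonneg A (N % M)
  have h5 := cnt_le A (N % M)
  have h6 : ((N % M : ℕ) : ℝ) ≤ M := by exact_mod_cast (Nat.mod_lt N hM).le
  have h7 := cnt_nonneg A M
  have h8 := cnt_le A M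
  have h9 : cnt A M / M ≤ 1 := by rw [div_le_one hM']; exact h8
  have h10 : 0 ≤ cnt A M / M := by positivity
  have h11 : (0 : ℝ) ≤ (N % M : ℕ) := by positivity
  constructor <;> nlinarith

lemma cnt_union {A B : Set ℕ} (h : ∀ n, n ∈ A → n ∉ B) (N : ℕ) :
    cnt (A ∪ B) N = cnt A N + cnt B N := by
  unfold cnt
  rw [← Finset.sum_add_distrib]
  refine Finset.sum_congr rfl fun n _ => ?_
  by_cases h1 : n ∈ A
  · rw [ind_mem (Set.mem_union_left B h1), ind_mem h1, ind_notMem (h n h1)]; ring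
  · by_cases h2 : n ∈ B
    · rw [ind_mem (Set.mem_union_right A h2), ind_notMem h1, ind_mem h2]; ring
    · rw [ind_notMem (fun h3 => h3.elim h1 h2), ind_notMem h1, ind_notMem h2]; ring

lemma HasD.union {A B : Set ℕ} {a b : ℝ} (hA : HasD A a) (hB : HasD B b)
    (h : ∀ n, n ∈ A → n ∉ B) : HasD (A ∪ B) (a + b) := by
  obtain ⟨K, hK⟩ := hA
  obtain ⟨L, hL⟩ := hB
  refine ⟨K + L, fun N => ?_⟩
  rw [cnt_union h]
  calc |cnt A N + cnt B N - (a + b) * N| = |(cnt A N - a * N) + (cnt B N - b * N)| := by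
        congr 1; ring
    _ ≤ _ := abs_add_le _ _
    _ ≤ K + L := add_le_add (hK N) (hL N)

lemma HasD.empty : HasD ∅ 0 := ⟨0, fun N => by simp [cnt, ind]⟩

lemma HasD.biUnion {ι : Type*} [DecidableEq ι] (F : Finset ι) (A : ι → Set ℕ) (a : ι → ℝ)
    (hA : ∀ i ∈ F, HasD (A i) (a i)) (h : ∀ i ∈ F, ∀ j ∈ F, i ≠ j → ∀ n, n ∈ A i → n ∉ A j) :
    HasD (⋃ i ∈ F, A i) (∑ i ∈ F, a i) := by
  induction F using Finset.induction_on with
  | empty => simpa using HasD.empty
  | insert i F hi ih =>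
    rw [Finset.sum_insert hi, Finset.set_biUnion_insert]
    refine HasD.union (hA i (Finset.mem_insert_self i F)) (ih (fun j hj => hA j
      (Finset.mem_insert_of_mem hj)) (fun j hj k hk => h j (Finset.mem_insert_of_mem hj) k
      (Finset.mem_insert_of_mem hk))) ?_
    intro n hn hn2
    simp only [Set.mem_iUnion] at hn2
    obtain ⟨j, hj, hnj⟩ := hn2
    exact h i (Finset.mem_insert_self i F) j (Finset.mem_insert_of_mem hj)
      (fun e => hi (e ▸ hj)) n hn hnj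

/-- the multiples `s t` with `t` coprime to `m` -/
def Tm (s m : ℕ) : Set ℕ := {n | ∃ t, n = s * t ∧ t.Coprime m}

lemma cnt_cop (m : ℕ) (hm : 0 < m) : HasD {n | n.Coprime m} ((m.totient : ℝ) / m) := by
  have h := HasD.periodic {n | n.Coprime m} m hm (fun n _ => by simp)
  have h2 : cnt {n | n.Coprime m} m = m.totient := by
    have h3 : ∑ n ∈ Finset.range (m + 1), ind {n | n.Coprime m} n =
        ind {n | n.Coprime m} 0 + cnt {n | n.Coprime m} m := by
      rw [Finset.range_eq_Ico, Finset.sum_eq_sum_Ico_succ_bot (by omega)]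
      rfl
    rw [Finset.sum_range_succ] at h3
    have h4 : ind {n | n.Coprime m} m = ind {n | n.Coprime m} 0 := ind_congr (by simp)
    have h5 : ∑ n ∈ Finset.range m, ind {n | n.Coprime m} n = m.totient := by
      rw [Nat.totient_eq_card_coprime, Finset.card_filter]
      push_cast
      refine Finset.sum_congr rfl fun n _ => ?_
      by_cases h6 : m.Coprime n
      · rw [if_pos h6, ind_mem (show n ∈ {n : ℕ | n.Coprime m} from h6.symm)]
      · rw [if_neg h6, ind_notMem (fun h7 : n ∈ {n : ℕ | n.Coprime m} => h6 (Nat.Coprime.symm h7))]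
    linarith
  rwa [h2] at h

lemma cnt_Tm (s m : ℕ) (hs : 0 < s) (N : ℕ) : cnt (Tm s m) N = cnt {n | n.Coprime m} (N / s) := by
  unfold cnt
  have h1 : ∑ t ∈ Finset.Icc 1 (N / s), ind {n | n.Coprime m} t =
      ∑ n ∈ (Finset.Icc 1 (N / s)).image (fun t => s * t), ind (Tm s m) n := by
    rw [Finset.sum_image (fun a _ b _ hab => Nat.eq_of_mul_eq_mul_left hs hab)]
    refine Finset.sum_congr rfl fun t _ => ind_congr ?_
    constructor
    · intro h
      exact ⟨t, rfl, h⟩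
    · rintro ⟨t', ht, hc⟩
      have := Nat.eq_of_mul_eq_mul_left hs ht
      subst this
      exact hc
  rw [h1]
  symm
  refine Finset.sum_subset ?_ ?_
  · intro n hn
    rw [Finset.mem_image] at hn
    obtain ⟨t, ht, rfl⟩ := hn
    rw [Finset.mem_Icc] at ht ⊢
    refine ⟨Nat.mul_pos hs ht.1, ?_⟩
    calc s * t ≤ s * (N / s) := Nat.mul_le_mul_left _ ht.2
      _ ≤ N := Nat.mul_div_le N s
  · intro n hn hn2
    refine ind_notMem ?_
    rintro ⟨t, rfl, _⟩
    apply hn2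
    rw [Finset.mem_image]
    rw [Finset.mem_Icc] at hn
    refine ⟨t, ?_, rfl⟩
    rw [Finset.mem_Icc]
    constructor
    · by_contra h
      have : t = 0 := by omega
      subst this
      simp at hn
    · rw [Nat.le_div_iff_mul_le hs, mul_comm]; exact hn.2

lemma HasD.Tm (s m : ℕ) (hs : 0 < s) (hm : 0 < m) :
    HasD (Tm s m) ((m.totient : ℝ) / m / s) := by
  obtain ⟨K, hK⟩ := cnt_cop m hm
  have hd : 0 ≤ (m.totient : ℝ) / m := by positivity
  have hd1 : (m.totient : ℝ) / m ≤ 1 := by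
    rw [div_le_one (by exact_mod_cast hm)]; exact_mod_cast Nat.totient_le m
  refine ⟨K + 1, fun N => ?_⟩
  rw [cnt_Tm s m hs]
  have h1 := abs_le.1 (hK (N / s))
  have hs' : (0 : ℝ) < s := by exact_mod_cast hs
  have h2 : ((N / s : ℕ) : ℝ) ≤ N / s := Nat.cast_div_le
  have h3 : (N : ℝ) / s < ((N / s : ℕ) : ℝ) + 1 := by
    rw [← Nat.floor_div_eq_div (K := ℝ)]
    exact Nat.lt_floor_add_one _
  have h4 : (m.totient : ℝ) / m / s * N = (m.totient : ℝ) / m * (N / s) := by ring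
  rw [h4, abs_le]
  constructor <;> nlinarith [h1.1, h1.2]

end Pool.Agent.Helper680.SigA
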