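import Mathlib
import Pool.Agent.Helper680.SigA

set_option autoImplicit false

/-! Rationals `r/s` all of whose powers have odd integer part: for fixed `s` they are sparse. -/

namespace Pool.Agent.Helper680.OddP

open Finset Pool.Agent.Helper680.SigA

/-- numerators surviving the first `k` conditions -/
def G (s k : ℕ) : Set ℕ := {r | r.Coprime s ∧ ∀ n, 1 ≤ n → n ≤ k → Odd (r ^ n / s ^ n)}

lemma G_anti (s : ℕ) {k l : ℕ} (h : k ≤ l) : G s l ⊆ G s k := fun _ hr =>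
  ⟨hr.1, fun n h1 h2 => hr.2 n h1 (h2.trans h)⟩

lemma odd_div_iff (x m : ℕ) (hm : 0 < m) : Odd (x / m) ↔ m ≤ x % (2 * m) := by
  have h1 : x = 2 * m * (x / (2 * m)) + x % (2 * m) := (Nat.div_add_mod x (2 * m)).symm
  have h2 : x % (2 * m) < 2 * m := Nat.mod_lt _ (by omega)
  have h3 : x / m = 2 * (x / (2 * m)) + x % (2 * m) / m := by
    conv_lhs => rw [h1]
    rw [show 2 * m * (x / (2 * m)) + x % (2 * m) = x % (2 * m) + m * (2 * (x / (2 * m))) by ring,
      Nat.add_mul_div_left _ _ hm]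
    ring
  rw [h3, Nat.odd_add]
  constructor
  · intro h
    by_contra hc
    push Not at hc
    have h4 : x % (2 * m) / m = 0 := Nat.div_eq_of_lt hc
    rw [h4] at h
    have h5 : Odd (2 * (x / (2 * m))) := h.2 (by decide)
    exact (Nat.not_odd_iff_even.2 (even_two_mul _)) h5
  · intro h
    have h4 : x % (2 * m) / m = 1 := by
      apply Nat.div_eq_of_lt_le
      · rw [one_mul]; exact h
      · show x % (2 * m) < (1 + 1) * m
        omega
    rw [h4]
    constructor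
    · intro h5; exact absurd h5 (Nat.not_odd_iff_even.2 (even_two_mul _))
    · intro h5; exact absurd h5 (by decide)

/-- dependence on residue classes -/
lemma pow_mod_eq (r M n k : ℕ) (s : ℕ) (hnk : n ≤ k) (hM : M = 2 * s ^ k) :
    (r + M) ^ n % (2 * s ^ n) = r ^ n % (2 * s ^ n) := by
  have h1 : 2 * s ^ n ∣ M := by
    rw [hM]; exact Nat.mul_dvd_mul_left 2 (pow_dvd_pow s hnk)
  obtain ⟨c, hc⟩ := h1
  rw [hc]
  have : r + 2 * s ^ n * c ≡ r [MOD 2 * s ^ n] := by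
    have := Nat.modEq_zero_iff_dvd.2 (Dvd.intro c rfl : 2 * s ^ n ∣ 2 * s ^ n * c)
    simpa using (Nat.ModEq.refl (n := 2 * s ^ n) r).add this
  exact this.pow n

lemma G_period (s k : ℕ) (hs : 0 < s) (hk : 1 ≤ k) (r : ℕ) : r ∈ G s k ↔ r + 2 * s ^ k ∈ G s k := by
  have h1 : (r + 2 * s ^ k).Coprime s ↔ r.Coprime s := by
    obtain ⟨j, rfl⟩ : ∃ j, k = j + 1 := ⟨k - 1, by omega⟩
    rw [show r + 2 * s ^ (j + 1) = r + (2 * s ^ j) * s by ring, Nat.coprime_add_mul_right_left]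
  have h2 : ∀ n, n ≤ k → (Odd ((r + 2 * s ^ k) ^ n / s ^ n) ↔ Odd (r ^ n / s ^ n)) := by
    intro n hn
    rw [odd_div_iff _ _ (pow_pos hs n), odd_div_iff _ _ (pow_pos hs n),
      pow_mod_eq r (2 * s ^ k) n k s hn rfl]
  constructor
  · rintro ⟨h3, h4⟩
    exact ⟨h1.2 h3, fun n hn hnk => (h2 n hnk).2 (h4 n hn hnk)⟩
  · rintro ⟨h3, h4⟩
    exact ⟨h1.1 h3, fun n hn hnk => (h2 n hnk).1 (h4 n hn hnk)⟩

/-- binomial expansion modulo `2 s^k` -/
lemma expand (s k r j : ℕ) (hk : 2 ≤ k) :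
    (r + 2 * s ^ (k - 1) * j) ^ k ≡ r ^ k + 2 * s ^ (k - 1) * (k * r ^ (k - 1) * j)
      [MOD 2 * s ^ k] := by
  obtain ⟨l, rfl⟩ : ∃ l, k = l + 2 := ⟨k - 2, by omega⟩
  simp only [Nat.add_sub_cancel, show l + 2 - 1 = l + 1 by omega]
  set y : ℕ := 2 * s ^ (l + 1) * j with hy
  have hyy : y ^ 2 ≡ 0 [MOD 2 * s ^ (l + 2)] := by
    rw [Nat.modEq_zero_iff_dvd]
    refine ⟨2 * s ^ l * j ^ 2, ?_⟩
    rw [hy]; ring
  have key : ∀ n : ℕ, (r + y) ^ (n + 1) ≡ r ^ (n + 1) + (n + 1) * r ^ n * y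
      [MOD 2 * s ^ (l + 2)] := by
    intro n
    induction n with
    | zero => simp; exact Nat.ModEq.refl _
    | succ n ih =>
      calc (r + y) ^ (n + 1 + 1) = (r + y) ^ (n + 1) * (r + y) := pow_succ _ _
        _ ≡ (r ^ (n + 1) + (n + 1) * r ^ n * y) * (r + y) [MOD 2 * s ^ (l + 2)] := ih.mul_right _
        _ = r ^ (n + 1 + 1) + (n + 1 + 1) * r ^ (n + 1) * y + (n + 1) * r ^ n * y ^ 2 := by ring
        _ ≡ r ^ (n + 1 + 1) + (n + 1 + 1) * r ^ (n + 1) * y + (n + 1) * r ^ n * 0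
            [MOD 2 * s ^ (l + 2)] := (Nat.ModEq.refl _).add (hyy.mul_left _)
        _ = _ := by push_cast; ring
  have := key (l + 1)
  refine this.trans ?_
  rw [hy]
  have e : r ^ (l + 1 + 1) + (l + 1 + 1) * r ^ (l + 1) * (2 * s ^ (l + 1) * j) =
      r ^ (l + 2) + 2 * s ^ (l + 1) * ((l + 2) * r ^ (l + 1) * j) := by ring
  rw [e]

/-- about half of the lifts survive -/
lemma lifts (s k r : ℕ) (hs : 2 ≤ s) (hk : 2 ≤ k) (hks : k.Coprime s) (hr : r.Coprime s) :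
    ((Finset.range s).filter (fun j => Odd ((r + 2 * s ^ (k - 1) * j) ^ k / s ^ k))).card ≤
      s - s / 2 := by
  have hs0 : 0 < s := by omega
  set x : ℕ → ℕ := fun j => (r + 2 * s ^ (k - 1) * j) ^ k with hx
  have hsk : s ^ k = s * s ^ (k - 1) := by
    obtain ⟨l, rfl⟩ : ∃ l, k = l + 1 := ⟨k - 1, by omega⟩
    rw [Nat.add_sub_cancel, pow_succ, mul_comm]
  have hP : 0 < s ^ (k - 1) := pow_pos hs0 _
  have hcard : (Finset.Ico (s / 2) s).card = s - s / 2 := Nat.card_Ico _ _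
  rw [← hcard]
  refine Finset.card_le_card_of_injOn (fun j => x j % (2 * s ^ k) / (2 * s ^ (k - 1))) ?_ ?_
  · intro j hj
    simp only [Finset.coe_filter, Set.mem_setOf_eq] at hj
    have h1 := (odd_div_iff (x j) (s ^ k) (pow_pos hs0 k)).1 hj.2
    simp only [Finset.coe_Ico, Set.mem_Ico]
    constructor
    · rw [Nat.le_div_iff_mul_le (by omega)]
      refine le_trans ?_ h1
      rw [hsk]
      calc s / 2 * (2 * s ^ (k - 1)) = (s / 2 * 2) * s ^ (k - 1) := by ring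
        _ ≤ s * s ^ (k - 1) := Nat.mul_le_mul_right _ (Nat.div_mul_le_self s 2)
    · rw [Nat.div_lt_iff_lt_mul (by omega)]
      have := Nat.mod_lt (x j) (show 0 < 2 * s ^ k by have := pow_pos hs0 k; omega)
      calc x j % (2 * s ^ k) < 2 * s ^ k := this
        _ = s * (2 * s ^ (k - 1)) := by rw [hsk]; ring
  · intro i hi j hj he
    simp only [Finset.coe_filter, Finset.mem_range, Set.mem_setOf_eq] at hi hj
    simp only at he
    have hmod : ∀ j, x j % (2 * s ^ k) % (2 * s ^ (k - 1)) = r ^ k % (2 * s ^ (k - 1)) := by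
      intro j
      rw [Nat.mod_mod_of_dvd _ (show 2 * s ^ (k - 1) ∣ 2 * s ^ k by
        rw [hsk]; exact ⟨s, by ring⟩)]
      have : r + 2 * s ^ (k - 1) * j ≡ r [MOD 2 * s ^ (k - 1)] := by
        have := Nat.modEq_zero_iff_dvd.2 (Dvd.intro j rfl : 2 * s ^ (k - 1) ∣ 2 * s ^ (k - 1) * j)
        simpa using (Nat.ModEq.refl (n := 2 * s ^ (k - 1)) r).add this
      exact this.pow k
    have h1 : x i % (2 * s ^ k) = x j % (2 * s ^ k) := by
      rw [← Nat.div_add_mod (x i % (2 * s ^ k)) (2 * s ^ (k - 1)),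
        ← Nat.div_add_mod (x j % (2 * s ^ k)) (2 * s ^ (k - 1)), he, hmod i, hmod j]
    have h2 : r ^ k + 2 * s ^ (k - 1) * (k * r ^ (k - 1) * i) ≡
        r ^ k + 2 * s ^ (k - 1) * (k * r ^ (k - 1) * j) [MOD 2 * s ^ k] :=
      ((expand s k r i hk).symm.trans h1).trans (expand s k r j hk)
    have h3 : 2 * s ^ (k - 1) * (k * r ^ (k - 1) * i) ≡ 2 * s ^ (k - 1) * (k * r ^ (k - 1) * j)
        [MOD 2 * s ^ (k - 1) * s] := by
      have e : 2 * s ^ (k - 1) * s = 2 * s ^ k := by rw [hsk]; ring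
      rw [e]
      exact Nat.ModEq.add_left_cancel' (r ^ k) h2
    have h4 : k * r ^ (k - 1) * i ≡ k * r ^ (k - 1) * j [MOD s] :=
      Nat.ModEq.mul_left_cancel' (by omega) h3
    have hc : Nat.gcd s (k * r ^ (k - 1)) = 1 :=
      (Nat.Coprime.mul_left hks (Nat.Coprime.pow_left (k - 1) hr)).symm
    have h5 : i ≡ j [MOD s] := Nat.ModEq.cancel_left_of_coprime hc h4
    have h6 : i % s = j % s := h5
    rwa [Nat.mod_eq_of_lt hi.1, Nat.mod_eq_of_lt hj.1] at h6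

end Pool.Agent.Helper680.OddP
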