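import Mathlib
import Pool.Agent.Helper680.OddP

set_option autoImplicit false

namespace Pool.Agent.Helper680.OddP

open Finset Pool.Agent.Helper680.SigA

lemma sum_blocks (f : ℕ → ℝ) (M s : ℕ) : ∑ n ∈ Finset.Icc 1 (M * s), f n =
    ∑ r ∈ Finset.Icc 1 M, ∑ j ∈ Finset.range s, f (r + M * j) := by
  induction s with
  | zero => simp
  | succ s ih =>
    have h1 : ∀ K : ℕ, ∑ n ∈ Finset.Icc 1 (M * s + K), f n = ∑ n ∈ Finset.Icc 1 (M * s), f n +
        ∑ r ∈ Finset.Icc 1 K, f (r + M * s) := by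
      intro K
      induction K with
      | zero => simp
      | succ K ihK =>
        rw [← add_assoc, Finset.sum_Icc_succ_top (by omega), ihK,
          Finset.sum_Icc_succ_top (by omega : 1 ≤ K + 1), add_assoc]
        congr 2
        rw [show M * s + K + 1 = K + 1 + M * s by ring]
    rw [mul_add, mul_one, h1 M, ih, ← Finset.sum_add_distrib]
    refine Finset.sum_congr rfl fun r _ => ?_
    rw [Finset.sum_range_succ]

lemma G_period_mul (s k : ℕ) (hs : 0 < s) (hk : 1 ≤ k) (r j : ℕ) :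
    r ∈ G s k ↔ r + 2 * s ^ k * j ∈ G s k := by
  induction j with
  | zero => simp
  | succ j ih =>
    rw [ih, G_period s k hs hk (r + 2 * s ^ k * j)]
    rw [show r + 2 * s ^ k * j + 2 * s ^ k = r + 2 * s ^ k * (j + 1) by ring]

lemma count_step (s k : ℕ) (hs : 2 ≤ s) (hk : 1 ≤ k) (hks : (k + 1).Coprime s) :
    cnt (G s (k + 1)) (2 * s ^ (k + 1)) ≤ ((s - s / 2 : ℕ) : ℝ) * cnt (G s k) (2 * s ^ k) := by
  have hs0 : 0 < s := by omega
  unfold cnt
  rw [show 2 * s ^ (k + 1) = 2 * s ^ k * s by ring, sum_blocks, Finset.mul_sum]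
  refine Finset.sum_le_sum fun r _ => ?_
  by_cases hr : r ∈ G s k
  · rw [ind_mem hr, mul_one]
    have h1 := lifts s (k + 1) r hs (by omega) hks hr.1
    rw [Nat.add_sub_cancel] at h1
    calc ∑ j ∈ Finset.range s, ind (G s (k + 1)) (r + 2 * s ^ k * j)
        ≤ ∑ j ∈ Finset.range s, (if Odd ((r + 2 * s ^ k * j) ^ (k + 1) / s ^ (k + 1)) then (1 : ℝ)
            else 0) := by
          refine Finset.sum_le_sum fun j _ => ?_
          by_cases hj : r + 2 * s ^ k * j ∈ G s (k + 1)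
          · rw [ind_mem hj, if_pos (hj.2 (k + 1) (by omega) le_rfl)]
          · rw [ind_notMem hj]; split_ifs <;> norm_num
      _ = (((Finset.range s).filter (fun j => Odd ((r + 2 * s ^ k * j) ^ (k + 1) /
            s ^ (k + 1)))).card : ℝ) := by
          rw [Finset.card_filter]; push_cast; rfl
      _ ≤ _ := by exact_mod_cast h1
  · rw [ind_notMem hr, mul_zero]
    refine le_of_eq (Finset.sum_eq_zero fun j _ => ind_notMem fun h => hr ?_)
    exact (G_period_mul s k hs0 hk r j).2 (G_anti s (Nat.le_succ k) h)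

/-- density of `G s k` -/
noncomputable def dG (s k : ℕ) : ℝ := cnt (G s k) (2 * s ^ k) / (2 * s ^ k : ℕ)

lemma G_hasD (s k : ℕ) (hs : 0 < s) (hk : 1 ≤ k) : HasD (G s k) (dG s k) :=
  HasD.periodic _ _ (by have := pow_pos hs k; omega) (fun r _ => G_period s k hs hk r)

lemma dG_step (s k : ℕ) (hs : 2 ≤ s) (hk : 1 ≤ k) (hks : (k + 1).Coprime s) :
    dG s (k + 1) ≤ 2 / 3 * dG s k := by
  have h1 := count_step s k hs hk hks
  have h2 : (0 : ℝ) < s := by exact_mod_cast (by omega : 0 < s)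
  have hp : (0 : ℝ) < (s : ℝ) ^ k := by positivity
  have h3 : 3 * (s - s / 2) ≤ 2 * s := by omega
  have h3' : (3 : ℝ) * ((s - s / 2 : ℕ) : ℝ) ≤ 2 * s := by exact_mod_cast h3
  have hc := cnt_nonneg (G s k) (2 * s ^ k)
  unfold dG
  push_cast
  rw [div_le_iff₀ (by positivity)]
  have e : 2 / 3 * (cnt (G s k) (2 * s ^ k) / (2 * (s : ℝ) ^ k)) * (2 * (s : ℝ) ^ (k + 1)) =
      2 / 3 * s * cnt (G s k) (2 * s ^ k) := by
    rw [pow_succ]; field_simp
  rw [e]
  refine h1.trans ?_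
  exact mul_le_mul_of_nonneg_right (by linarith) hc

lemma dG_bound (s i : ℕ) (hs : 2 ≤ s) : dG s (1 + s * i) ≤ (2 / 3 : ℝ) ^ i := by
  induction i with
  | zero =>
    rw [mul_zero, add_zero, pow_zero]
    exact (G_hasD s 1 (by omega) le_rfl).le_one
  | succ i ih =>
    have h1 : (s * (i + 1) + 1).Coprime s := by
      rw [add_comm, mul_comm, Nat.coprime_add_mul_right_left]
      exact Nat.coprime_one_left s
    have hpos : 1 ≤ s * (i + 1) := by nlinarith
    have h2 := dG_step s (s * (i + 1)) hs hpos h1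
    have h3 : dG s (s * (i + 1)) ≤ dG s (1 + s * i) := by
      refine (G_hasD s _ (by omega) hpos).mono (G_hasD s _ (by omega) (by omega)) ?_
      intro r _ hr
      exact G_anti s (by rw [mul_add, mul_one]; omega) hr
    rw [show 1 + s * (i + 1) = s * (i + 1) + 1 by ring, pow_succ]
    linarith

lemma cnt_le_two (s i N : ℕ) (hs : 2 ≤ s) (hN : 2 * s ^ (1 + s * i) ≤ N) :
    cnt (G s (1 + s * i)) N ≤ 2 * N * (2 / 3 : ℝ) ^ i := by
  set M : ℕ := 2 * s ^ (1 + s * i) with hM
  have hs0 : 0 < s := by omega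
  have hMpos : 0 < M := by have := pow_pos hs0 (1 + s * i); omega
  have hMr : (0 : ℝ) < M := by exact_mod_cast hMpos
  have h1 : cnt (G s (1 + s * i)) N = cnt (G s (1 + s * i)) (N % M) +
      (N / M : ℕ) * cnt (G s (1 + s * i)) M := by
    conv_lhs => rw [(Nat.mod_add_div N M).symm]
    exact cnt_mul _ M (fun r _ => G_period s _ hs0 (by omega) r) _ _
  have h2 : cnt (G s (1 + s * i)) (N % M) ≤ cnt (G s (1 + s * i)) M := by
    unfold cnt
    exact Finset.sum_le_sum_of_subset_of_nonneg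
      (Finset.Icc_subset_Icc_right (Nat.mod_lt N hMpos).le) fun _ _ _ => ind_nonneg _ _
  have hc := cnt_nonneg (G s (1 + s * i)) M
  have h3 : (1 : ℝ) ≤ (N / M : ℕ) := by
    exact_mod_cast (Nat.one_le_div_iff hMpos).2 hN
  have h4 : ((N / M : ℕ) : ℝ) ≤ N / M := Nat.cast_div_le
  have h5 : cnt (G s (1 + s * i)) N ≤ 2 * (N / M) * cnt (G s (1 + s * i)) M := by
    rw [h1]; nlinarith
  have h6 := dG_bound s i hs
  unfold dG at h6
  rw [← hM] at h6
  calc cnt (G s (1 + s * i)) N ≤ 2 * (N / M) * cnt (G s (1 + s * i)) M := h5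
    _ = 2 * N * (cnt (G s (1 + s * i)) M / M) := by ring
    _ ≤ _ := mul_le_mul_of_nonneg_left h6 (by positivity)

/-- power saving -/
theorem power (s : ℕ) (hs : 2 ≤ s) (A : Set ℕ) (hA : ∀ k, A ⊆ G s k) (N : ℕ) (hN : 1 ≤ N) :
    cnt A N ≤ 3 * (2 * s : ℝ) ^ (Real.log (3 / 2) / (s * Real.log s)) *
      (N : ℝ) ^ (1 - Real.log (3 / 2) / (s * Real.log s)) := by
  have hs' : (2 : ℝ) ≤ s := by exact_mod_cast hs
  have hs0 : (0 : ℝ) < s := by linarith
  have hls : 0 < Real.log s := Real.log_pos (by linarith)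
  have hl3 : 0 < Real.log (3 / 2) := Real.log_pos (by norm_num)
  set c : ℝ := Real.log (3 / 2) / (s * Real.log s) with hc
  have hc0 : 0 < c := by positivity
  have hNr : (0 : ℝ) < N := by exact_mod_cast hN
  have e1 : 3 * (2 * s : ℝ) ^ c * (N : ℝ) ^ (1 - c) = 3 * N * (2 * s / N : ℝ) ^ c := by
    rw [Real.rpow_sub hNr, Real.rpow_one, Real.div_rpow (by positivity) hNr.le]
    ring
  rw [e1]
  rcases Nat.lt_or_ge N (2 * s) with h | h
  · have h1 : (1 : ℝ) ≤ (2 * s / N : ℝ) := by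
      rw [one_le_div hNr]; exact_mod_cast h.le
    have h2 : (1 : ℝ) ≤ (2 * s / N : ℝ) ^ c := Real.one_le_rpow h1 hc0.le
    have h3 := cnt_le A N
    nlinarith
  · set b : ℕ := s ^ s with hb
    have hb1 : 1 < b := Nat.one_lt_pow (by omega) (by omega)
    set i : ℕ := Nat.log b (N / (2 * s)) with hi
    have hx : N / (2 * s) ≠ 0 := by
      have := (Nat.one_le_div_iff (show 0 < 2 * s by omega)).2 h
      omega
    have h1 : b ^ i ≤ N / (2 * s) := Nat.pow_log_le_self b hx
    have h2 : N / (2 * s) < b ^ (i + 1) := Nat.lt_pow_succ_log_self hb1 _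
    have h3 : 2 * s ^ (1 + s * i) ≤ N := by
      have h4 := (Nat.le_div_iff_mul_le (show 0 < 2 * s by omega)).1 h1
      calc 2 * s ^ (1 + s * i) = b ^ i * (2 * s) := by rw [hb, ← pow_mul, pow_add]; ring
        _ ≤ N := h4
    have h5 : N < b ^ (i + 1) * (2 * s) := (Nat.div_lt_iff_lt_mul (by omega)).1 h2
    have h6 := cnt_le_two s i N hs h3
    have h7 : cnt A N ≤ cnt (G s (1 + s * i)) N := cnt_mono (fun n _ hn => hA _ hn) N
    have h8 : (2 / 3 : ℝ) ^ (i + 1) ≤ (2 * s / N : ℝ) ^ c := by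
      have h9 : ((b : ℝ) ^ (i + 1))⁻¹ ≤ (2 * s / N : ℝ) := by
        have hbp : (0 : ℝ) < (b : ℝ) ^ (i + 1) := by
          have : (0 : ℝ) < b := by exact_mod_cast (by omega : 0 < b)
          positivity
        rw [inv_le_comm₀ hbp (by positivity), inv_div, div_le_iff₀ (by positivity)]
        exact_mod_cast h5.le
      have h10 : (2 / 3 : ℝ) ^ (i + 1) = (((b : ℝ) ^ (i + 1))⁻¹) ^ c := by
        have hbb : (b : ℝ) = Real.exp (s * Real.log s) := by
          rw [hb]; push_cast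
          rw [← Real.rpow_natCast, Real.rpow_def_of_pos hs0, mul_comm]
        have h23 : (2 / 3 : ℝ) = Real.exp (-Real.log (3 / 2)) := by
          rw [Real.exp_neg, Real.exp_log (by norm_num)]; norm_num
        rw [hbb, ← Real.exp_nat_mul, ← Real.exp_neg, ← Real.exp_mul, h23, ← Real.exp_nat_mul]
        congr 1
        rw [hc]
        field_simp
      rw [h10]
      refine Real.rpow_le_rpow ?_ h9 hc0.le
      positivity
    calc cnt A N ≤ 2 * N * (2 / 3 : ℝ) ^ i := h7.trans h6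
      _ = 3 * N * (2 / 3 : ℝ) ^ (i + 1) := by rw [pow_succ]; ring
      _ ≤ _ := mul_le_mul_of_nonneg_left h8 (by positivity)

end Pool.Agent.Helper680.OddP
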