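import Mathlib
import Pool.Agent.Helper680.OddQ

set_option autoImplicit false

/-! Rationals `r/s` with few even integer parts of powers: density zero for fixed `s`. -/

namespace Pool.Agent.Helper680.OddR

open Finset Filter Topology Pool.Agent.Helper680.SigA Pool.Agent.Helper680.OddP

/-- numerators with all `⌊(r/s)^n⌋`, `a ≤ n ≤ k`, odd -/
def H (s a k : ℕ) : Set ℕ := {r | r.Coprime s ∧ ∀ n, a ≤ n → n ≤ k → Odd (r ^ n / s ^ n)}

lemma H_anti (s a : ℕ) {k l : ℕ} (h : k ≤ l) : H s a l ⊆ H s a k := fun _ hr =>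
  ⟨hr.1, fun n h1 h2 => hr.2 n h1 (h2.trans h)⟩

lemma H_period (s a k : ℕ) (hs : 0 < s) (hk : 1 ≤ k) (r : ℕ) :
    r ∈ H s a k ↔ r + 2 * s ^ k ∈ H s a k := by
  have h1 : (r + 2 * s ^ k).Coprime s ↔ r.Coprime s := by
    obtain ⟨j, rfl⟩ : ∃ j, k = j + 1 := ⟨k - 1, by omega⟩
    rw [show r + 2 * s ^ (j + 1) = r + (2 * s ^ j) * s by ring, Nat.coprime_add_mul_right_left]
  have h2 : ∀ n, n ≤ k → (Odd ((r + 2 * s ^ k) ^ n / s ^ n) ↔ Odd (r ^ n / s ^ n)) := by
    intro n hn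
    rw [odd_div_iff _ _ (pow_pos hs n), odd_div_iff _ _ (pow_pos hs n),
      pow_mod_eq r (2 * s ^ k) n k s hn rfl]
  constructor
  · rintro ⟨h3, h4⟩
    exact ⟨h1.2 h3, fun n hn hnk => (h2 n hnk).2 (h4 n hn hnk)⟩
  · rintro ⟨h3, h4⟩
    exact ⟨h1.1 h3, fun n hn hnk => (h2 n hnk).1 (h4 n hn hnk)⟩

lemma H_period_mul (s a k : ℕ) (hs : 0 < s) (hk : 1 ≤ k) (r j : ℕ) :
    r ∈ H s a k ↔ r + 2 * s ^ k * j ∈ H s a k := by
  induction j with
  | zero => simp
  | succ j ih =>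
    rw [ih, H_period s a k hs hk (r + 2 * s ^ k * j)]
    rw [show r + 2 * s ^ k * j + 2 * s ^ k = r + 2 * s ^ k * (j + 1) by ring]

lemma count_step (s a k : ℕ) (hs : 2 ≤ s) (hk : 1 ≤ k) (hak : a ≤ k + 1)
    (hks : (k + 1).Coprime s) :
    cnt (H s a (k + 1)) (2 * s ^ (k + 1)) ≤ ((s - s / 2 : ℕ) : ℝ) * cnt (H s a k) (2 * s ^ k) := by
  have hs0 : 0 < s := by omega
  unfold cnt
  rw [show 2 * s ^ (k + 1) = 2 * s ^ k * s by ring, sum_blocks, Finset.mul_sum]
  refine Finset.sum_le_sum fun r _ => ?_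
  by_cases hr : r ∈ H s a k
  · rw [ind_mem hr, mul_one]
    have h1 := lifts s (k + 1) r hs (by omega) hks hr.1
    rw [Nat.add_sub_cancel] at h1
    calc ∑ j ∈ Finset.range s, ind (H s a (k + 1)) (r + 2 * s ^ k * j)
        ≤ ∑ j ∈ Finset.range s, (if Odd ((r + 2 * s ^ k * j) ^ (k + 1) / s ^ (k + 1)) then (1 : ℝ)
            else 0) := by
          refine Finset.sum_le_sum fun j _ => ?_
          by_cases hj : r + 2 * s ^ k * j ∈ H s a (k + 1)
          · rw [ind_mem hj, if_pos (hj.2 (k + 1) hak le_rfl)]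
          · rw [ind_notMem hj]; split_ifs <;> norm_num
      _ = (((Finset.range s).filter (fun j => Odd ((r + 2 * s ^ k * j) ^ (k + 1) /
            s ^ (k + 1)))).card : ℝ) := by
          rw [Finset.card_filter]; push_cast; rfl
      _ ≤ _ := by exact_mod_cast h1
  · rw [ind_notMem hr, mul_zero]
    refine le_of_eq (Finset.sum_eq_zero fun j _ => ind_notMem fun h => hr ?_)
    exact (H_period_mul s a k hs0 hk r j).2 (H_anti s a (Nat.le_succ k) h)

/-- density of `H s a k` -/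
noncomputable def dH (s a k : ℕ) : ℝ := cnt (H s a k) (2 * s ^ k) / (2 * s ^ k : ℕ)

lemma H_hasD (s a k : ℕ) (hs : 0 < s) (hk : 1 ≤ k) : HasD (H s a k) (dH s a k) :=
  HasD.periodic _ _ (by have := pow_pos hs k; omega) (fun r _ => H_period s a k hs hk r)

lemma dH_step (s a k : ℕ) (hs : 2 ≤ s) (hk : 1 ≤ k) (hak : a ≤ k + 1) (hks : (k + 1).Coprime s) :
    dH s a (k + 1) ≤ 2 / 3 * dH s a k := by
  have h1 := count_step s a k hs hk hak hks
  have h2 : (0 : ℝ) < s := by exact_mod_cast (by omega : 0 < s)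
  have hp : (0 : ℝ) < (s : ℝ) ^ k := by positivity
  have h3 : 3 * (s - s / 2) ≤ 2 * s := by omega
  have h3' : (3 : ℝ) * ((s - s / 2 : ℕ) : ℝ) ≤ 2 * s := by exact_mod_cast h3
  have hc := cnt_nonneg (H s a k) (2 * s ^ k)
  unfold dH
  push_cast
  rw [div_le_iff₀ (by positivity)]
  have e : 2 / 3 * (cnt (H s a k) (2 * s ^ k) / (2 * (s : ℝ) ^ k)) * (2 * (s : ℝ) ^ (k + 1)) =
      2 / 3 * s * cnt (H s a k) (2 * s ^ k) := by
    rw [pow_succ]; field_simp
  rw [e]
  refine h1.trans ?_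
  exact mul_le_mul_of_nonneg_right (by linarith) hc

lemma dH_bound (s a i : ℕ) (hs : 2 ≤ s) : dH s a (s * a + 1 + s * i) ≤ (2 / 3 : ℝ) ^ i := by
  induction i with
  | zero =>
    rw [mul_zero, add_zero, pow_zero]
    exact (H_hasD s a _ (by omega) (by omega)).le_one
  | succ i ih =>
    have h1 : (s * (a + (i + 1)) + 1).Coprime s := by
      rw [add_comm, mul_comm, Nat.coprime_add_mul_right_left]
      exact Nat.coprime_one_left s
    have hpos : 1 ≤ s * (a + (i + 1)) := by nlinarith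
    have hak : a ≤ s * (a + (i + 1)) + 1 := by nlinarith
    have h2 := dH_step s a (s * (a + (i + 1))) hs hpos hak h1
    have h3 : dH s a (s * (a + (i + 1))) ≤ dH s a (s * a + 1 + s * i) := by
      refine (H_hasD s a _ (by omega) hpos).mono (H_hasD s a _ (by omega) (by omega)) ?_
      intro r _ hr
      exact H_anti s a (by rw [mul_add, mul_add, mul_one]; omega) hr
    rw [show s * a + 1 + s * (i + 1) = s * (a + (i + 1)) + 1 by ring, pow_succ]
    linarith

/-- numerators with fewer than `m` even integer parts of index at least `a` -/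
def B (s m a : ℕ) : Set ℕ := {r | r.Coprime s ∧
  ¬ ∃ F : Finset ℕ, F.card = m ∧ ∀ n ∈ F, a ≤ n ∧ ¬ Odd (r ^ n / s ^ n)}

lemma B_succ (s m a k : ℕ) : B s (m + 1) a ⊆ H s a k ∪ B s m (k + 1) := by
  rintro r ⟨hr, h⟩
  by_cases hH : ∀ n, a ≤ n → n ≤ k → Odd (r ^ n / s ^ n)
  · exact Or.inl ⟨hr, hH⟩
  · right
    push Not at hH
    obtain ⟨n, h1, h2, h3⟩ := hH
    refine ⟨hr, ?_⟩
    rintro ⟨F, hF, hF2⟩
    apply h
    have hn : n ∉ F := fun hn => by
      have := (hF2 n hn).1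
      omega
    refine ⟨insert n F, by rw [Finset.card_insert_of_notMem hn, hF], ?_⟩
    intro l hl
    rcases Finset.mem_insert.1 hl with rfl | hl
    · exact ⟨h1, by simpa using h3⟩
    · have := hF2 l hl
      by_cases hal : a ≤ l
      · exact ⟨hal, this.2⟩
      · exfalso
        have := this.1
        omega

lemma cnt_union_le (A C : Set ℕ) (N : ℕ) : cnt (A ∪ C) N ≤ cnt A N + cnt C N := by
  unfold cnt
  rw [← Finset.sum_add_distrib]
  refine Finset.sum_le_sum fun n _ => ?_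
  by_cases h : n ∈ A ∪ C
  · rw [ind_mem h]
    rcases h with h | h
    · rw [ind_mem h]; have := ind_nonneg C n; linarith
    · rw [ind_mem h]; have := ind_nonneg A n; linarith
  · rw [ind_notMem h]
    have := ind_nonneg A n
    have := ind_nonneg C n
    linarith

/-- zero density, epsilon form -/
def Z (A : Set ℕ) : Prop := ∀ ε : ℝ, 0 < ε → ∃ N₀ : ℕ, ∀ N, N₀ ≤ N → cnt A N ≤ ε * N

lemma Z_of (s a : ℕ) (hs : 2 ≤ s) (ε : ℝ) (hε : 0 < ε) : ∃ k N₀ : ℕ, ∀ N, N₀ ≤ N →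
    cnt (H s a k) N ≤ ε * N := by
  obtain ⟨i, hi⟩ : ∃ i : ℕ, (2 / 3 : ℝ) ^ i < ε / 2 :=
    exists_pow_lt_of_lt_one (by linarith) (by norm_num)
  have h1 := dH_bound s a i hs
  obtain ⟨K, hK⟩ := H_hasD s a (s * a + 1 + s * i) (by omega) (by omega)
  obtain ⟨N₀, hN₀⟩ := exists_nat_ge (2 * K / ε)
  refine ⟨s * a + 1 + s * i, N₀, fun N hN => ?_⟩
  have h4 := (abs_le.1 (hK N)).2
  have h5 : (N₀ : ℝ) ≤ N := by exact_mod_cast hN
  have h6 : K ≤ ε / 2 * N := by
    have h7 : 2 * K / ε ≤ N := hN₀.trans h5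
    rw [div_le_iff₀ hε] at h7
    linarith
  have h8 : dH s a (s * a + 1 + s * i) * N ≤ ε / 2 * N :=
    mul_le_mul_of_nonneg_right (by linarith) (Nat.cast_nonneg N)
  linarith

theorem B_zero (s : ℕ) (hs : 2 ≤ s) (m : ℕ) : ∀ a, Z (B s m a) := by
  induction m with
  | zero =>
    intro a ε hε
    refine ⟨0, fun N _ => ?_⟩
    have h0 : B s 0 a = ∅ := by
      rw [Set.eq_empty_iff_forall_notMem]
      rintro r ⟨_, h⟩
      exact h ⟨∅, rfl, by simp⟩
    have : cnt (B s 0 a) N = 0 := by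
      unfold cnt
      refine Finset.sum_eq_zero fun n _ => ind_notMem ?_
      rw [h0]; simp
    rw [this]; positivity
  | succ m ih =>
    intro a ε hε
    obtain ⟨k, N₁, h1⟩ := Z_of s a hs (ε / 2) (by linarith)
    obtain ⟨N₂, h2⟩ := ih (k + 1) (ε / 2) (by linarith)
    refine ⟨max N₁ N₂, fun N hN => ?_⟩
    have h3 := h1 N (le_trans (le_max_left _ _) hN)
    have h4 := h2 N (le_trans (le_max_right _ _) hN)
    have h5 : cnt (B s (m + 1) a) N ≤ cnt (H s a k ∪ B s m (k + 1)) N :=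
      cnt_mono (fun n _ hn => B_succ s m a k hn) N
    have h6 := cnt_union_le (H s a k) (B s m (k + 1)) N
    linarith

end Pool.Agent.Helper680.OddR
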