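import Mathlib

namespace Pool.Agent.Helper680.RigidConfig.Cubic

open MvPolynomial

theorem near_case (l1 l2 q11 q12 q22 c1 c2 δ : ℝ) (hδ : 0 < δ)
    (H : ∀ s t : ℝ, s^2 + t^2 < δ → (s ≠ 0 ∨ t ≠ 0) →
      (l1*s+l2*t) + (q11*s^2+q12*s*t+q22*t^2) + (c1*s^2*t+c2*s*t^2) ≠ 0) :
    l1 = 0 ∧ l2 = 0 ∧ ∀ s t : ℝ, (s ≠ 0 ∨ t ≠ 0) → q11*s^2+q12*s*t+q22*t^2 ≠ 0 := by
  -- the function has the same sign at (s,t) and (-s,-t)
  have key : ∀ s t : ℝ, s^2 + t^2 < δ → (s ≠ 0 ∨ t ≠ 0) →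
      0 < ((l1*s+l2*t) + (q11*s^2+q12*s*t+q22*t^2) + (c1*s^2*t+c2*s*t^2)) *
        (-(l1*s+l2*t) + (q11*s^2+q12*s*t+q22*t^2) - (c1*s^2*t+c2*s*t^2)) := by
    intro s t hst hne
    set F : ℝ → ℝ → ℝ := fun s t => (l1*s+l2*t) + (q11*s^2+q12*s*t+q22*t^2) + (c1*s^2*t+c2*s*t^2) with hF
    set φ : ℝ → ℝ := fun θ => F (s * Real.cos θ - t * Real.sin θ) (s * Real.sin θ + t * Real.cos θ) with hφ
    have hcont : Continuous φ := by
      simp only [hφ, hF]
      fun_prop
    have hnz : ∀ θ, φ θ ≠ 0 := by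
      intro θ
      have h1 : (s * Real.cos θ - t * Real.sin θ)^2 + (s * Real.sin θ + t * Real.cos θ)^2 = s^2 + t^2 := by
        have := Real.sin_sq_add_cos_sq θ
        linear_combination (s^2 + t^2) * this
      apply H
      · rw [h1]; exact hst
      · by_contra hcon
        push Not at hcon
        rw [hcon.1, hcon.2] at h1
        have h2 : s^2 + t^2 = 0 := by linarith
        have hs : s = 0 := by nlinarith [sq_nonneg s, sq_nonneg t]
        have ht : t = 0 := by nlinarith [sq_nonneg s, sq_nonneg t]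
        rcases hne with h | h
        · exact h hs
        · exact h ht
    have h0 : φ 0 = F s t := by simp [hφ]
    have hpi : φ Real.pi = F (-s) (-t) := by simp [hφ]
    have hprod : 0 < φ 0 * φ Real.pi := by
      rcases lt_or_gt_of_ne (hnz 0) with h | h
      · rcases lt_or_gt_of_ne (hnz Real.pi) with h' | h'
        · exact mul_pos_of_neg_of_neg h h'
        · exfalso
          have : (0:ℝ) ∈ φ '' (Set.Icc 0 Real.pi) :=
            intermediate_value_Icc Real.pi_pos.le hcont.continuousOn ⟨h.le, h'.le⟩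
          obtain ⟨θ, _, hθ⟩ := this
          exact hnz θ hθ
      · rcases lt_or_gt_of_ne (hnz Real.pi) with h' | h'
        · exfalso
          have : (0:ℝ) ∈ φ '' (Set.Icc 0 Real.pi) :=
            intermediate_value_Icc' Real.pi_pos.le hcont.continuousOn ⟨h'.le, h.le⟩
          obtain ⟨θ, _, hθ⟩ := this
          exact hnz θ hθ
        · exact mul_pos h h'
    rw [h0, hpi] at hprod
    simp only [hF] at hprod
    convert hprod using 1
    ring
  -- along a ray
  have ray : ∀ s t : ℝ, (s ≠ 0 ∨ t ≠ 0) → (l1*s+l2*t) = 0 ∧ q11*s^2+q12*s*t+q22*t^2 ≠ 0 := by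
    intro s t hne
    set L := l1*s+l2*t with hL
    set Q := q11*s^2+q12*s*t+q22*t^2 with hQ
    set C := c1*s^2*t+c2*s*t^2 with hC
    have hpos : 0 < s^2 + t^2 := by
      rcases hne with h | h
      · have := sq_pos_of_pos (abs_pos.mpr h); rw [sq_abs] at this; nlinarith [sq_nonneg t]
      · have := sq_pos_of_pos (abs_pos.mpr h); rw [sq_abs] at this; nlinarith [sq_nonneg s]
    -- for small ε > 0
    have hsmall : ∀ᶠ ε : ℝ in nhdsWithin 0 (Set.Ioi 0), 0 < ε ∧ (L + ε^2*C)^2 < ε^2 * Q^2 := by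
      have h1 : ∀ᶠ ε : ℝ in nhdsWithin 0 (Set.Ioi 0), ε^2 * (s^2+t^2) < δ := by
        have : Filter.Tendsto (fun ε : ℝ => ε^2 * (s^2+t^2)) (nhdsWithin 0 (Set.Ioi 0)) (nhds (0^2 * (s^2+t^2))) := by
          apply Filter.Tendsto.mono_left _ nhdsWithin_le_nhds
          exact (Continuous.tendsto (by fun_prop) 0)
        apply this.eventually_lt_const
        simpa using hδ
      filter_upwards [h1, self_mem_nhdsWithin] with ε h1 h2
      have hε : 0 < ε := h2
      refine ⟨hε, ?_⟩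
      have := key (ε*s) (ε*t) (by nlinarith) (by
        rcases hne with h | h
        · left; exact mul_ne_zero hε.ne' h
        · right; exact mul_ne_zero hε.ne' h)
      have e1 : l1*(ε*s)+l2*(ε*t) = ε * L := by rw [hL]; ring
      have e2 : q11*(ε*s)^2+q12*(ε*s)*(ε*t)+q22*(ε*t)^2 = ε^2*Q := by rw [hQ]; ring
      have e3 : c1*(ε*s)^2*(ε*t)+c2*(ε*s)*(ε*t)^2 = ε^3*C := by rw [hC]; ring
      rw [e1, e2, e3] at this
      have h3 : 0 < ε^2 * (ε^2*Q^2 - (L+ε^2*C)^2) := by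
        calc 0 < _ := this
          _ = _ := by ring
      have h4 : 0 < ε^2 := by positivity
      have := (pos_iff_pos_of_mul_pos h3).mp h4
      linarith
    have hL0 : L^2 ≤ 0 := by
      have t1 : Filter.Tendsto (fun ε : ℝ => (L + ε^2*C)^2) (nhdsWithin 0 (Set.Ioi 0)) (nhds ((L + 0^2*C)^2)) := by
        apply Filter.Tendsto.mono_left _ nhdsWithin_le_nhds
        exact (Continuous.tendsto (by fun_prop) 0)
      have t2 : Filter.Tendsto (fun ε : ℝ => ε^2 * Q^2) (nhdsWithin 0 (Set.Ioi 0)) (nhds (0^2 * Q^2)) := by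
        apply Filter.Tendsto.mono_left _ nhdsWithin_le_nhds
        exact (Continuous.tendsto (by fun_prop) 0)
      have := le_of_tendsto_of_tendsto t1 t2 (hsmall.mono fun ε h => h.2.le)
      simpa using this
    have hL1 : L = 0 := by nlinarith [sq_nonneg L]
    refine ⟨hL1, ?_⟩
    intro hQ0
    obtain ⟨ε, hε, h⟩ := hsmall.exists
    rw [hQ0] at h
    nlinarith [sq_nonneg (L + ε^2*C)]
  refine ⟨?_, ?_, fun s t h => (ray s t h).2⟩
  · have := (ray 1 0 (by simp)).1; simpa using this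
  · have := (ray 0 1 (by simp)).1; simpa using this

theorem cubic_lemma
    (f : (Fin 3 → ℝ) → ℝ) (g : MvPolynomial (Fin 3) ℝ)
    (u a b d : Fin 3 → ℝ)
    (l1 l2 q11 q12 q22 c1 c2 : ℝ)
    (hf : ∀ α s t : ℝ, f (α • u + s • a + t • b) =
      α^2*(l1*s+l2*t) + α*(q11*s^2+q12*s*t+q22*t^2) + (c1*s^2*t+c2*s*t^2))
    (hindep : ∀ α s t : ℝ, α • u + s • a + t • b = 0 → α = 0 ∧ s = 0 ∧ t = 0)
    (αd sd td : ℝ) (hd : d = αd • u + sd • a + td • b) (hαd : αd ≠ 0)
    (hst : sd ≠ 0 ∨ td ≠ 0) (hfd : f d = 0)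
    (hg : ∀ c : ℂ, c ≠ 0 → MvPolynomial.aeval (fun i => c * (u i : ℂ)) g ≠ 0) :
    ∃ x : Fin 3 → ℝ, f x = 0 ∧ MvPolynomial.eval x g ≠ 0 ∧ ∀ c : ℝ, x ≠ c • u := by
  by_contra hcon
  push Not at hcon
  -- g u ≠ 0
  have hgu : MvPolynomial.eval u g ≠ 0 := by
    intro h0
    apply hg 1 one_ne_zero
    have : (MvPolynomial.aeval (fun i => (1:ℂ) * (u i : ℂ)) g) = ((MvPolynomial.eval u g : ℝ) : ℂ) := by
      simp only [one_mul]
      have h1 := MvPolynomial.aeval_algebraMap_apply ℂ u g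
      rw [MvPolynomial.aeval_eq_eval] at h1
      exact h1
    rw [this, h0]; simp
  -- neighbourhood
  have hnear : ∃ δ > 0, ∀ s t : ℝ, s^2 + t^2 < δ → MvPolynomial.eval (u + s • a + t • b) g ≠ 0 := by
    have hc : Continuous (fun z : ℝ × ℝ => MvPolynomial.eval (u + z.1 • a + z.2 • b) g) := by
      apply (MvPolynomial.continuous_eval g).comp
      fun_prop
    have hopen : IsOpen {z : ℝ × ℝ | MvPolynomial.eval (u + z.1 • a + z.2 • b) g ≠ 0} :=
      isOpen_ne_fun hc continuous_const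
    have hmem : ((0:ℝ),(0:ℝ)) ∈ {z : ℝ × ℝ | MvPolynomial.eval (u + z.1 • a + z.2 • b) g ≠ 0} := by
      simpa using hgu
    obtain ⟨r, hr, hball⟩ := Metric.isOpen_iff.mp hopen _ hmem
    refine ⟨r^2, by positivity, ?_⟩
    intro s t hst
    have hs : |s| < r := abs_lt_of_sq_lt_sq (by nlinarith [sq_nonneg t]) hr.le
    have ht : |t| < r := abs_lt_of_sq_lt_sq (by nlinarith [sq_nonneg s]) hr.le
    have hm : ((s,t) : ℝ × ℝ) ∈ Metric.ball ((0:ℝ),(0:ℝ)) r := by
      rw [Metric.mem_ball, Prod.dist_eq, max_lt_iff, Real.dist_eq, Real.dist_eq]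
      simp only [sub_zero]
      exact ⟨hs, ht⟩
    have h9 := hball hm
    rw [Set.mem_ofPred_eq] at h9
    exact h9
  obtain ⟨δ, hδ, hnear⟩ := hnear
  have hN := near_case l1 l2 q11 q12 q22 c1 c2 δ hδ (by
    intro s t hst hne h0
    have h1 : f (u + s • a + t • b) = 0 := by
      have := hf 1 s t
      simp only [one_smul, one_pow, one_mul] at this
      rw [this]; exact h0
    obtain ⟨c, hc⟩ := hcon _ h1 (hnear s t hst)
    have : (1 - c) • u + s • a + t • b = 0 := by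
      rw [sub_smul, one_smul, ← hc]; abel
    obtain ⟨_, h2, h3⟩ := hindep _ _ _ this
    rcases hne with h | h
    · exact h h2
    · exact h h3)
  obtain ⟨hl1, hl2, hQ⟩ := hN
  subst hl1 hl2
  -- residual points
  set r : ℝ → (Fin 3 → ℝ) := fun s =>
    (c1*s^2+c2*s) • u + (-(q11*s^2+q12*s+q22)*s) • a + (-(q11*s^2+q12*s+q22)) • b with hr
  have hgr : ∀ s : ℝ, MvPolynomial.eval (r s) g = 0 := by
    intro s
    by_contra hne
    have hfr : f (r s) = 0 := by
      simp only [hr]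
      rw [hf]; ring
    obtain ⟨c, hc⟩ := hcon _ hfr hne
    have : ((c1*s^2+c2*s) - c) • u + (-(q11*s^2+q12*s+q22)*s) • a + (-(q11*s^2+q12*s+q22)) • b = 0 := by
      rw [sub_smul, ← hc]; simp only [hr]; abel
    obtain ⟨_, _, h3⟩ := hindep _ _ _ this
    apply hQ s 1 (by simp)
    linarith
  -- polynomial version
  set R : Fin 3 → Polynomial ℝ := fun i =>
    (Polynomial.C c1 * Polynomial.X^2 + Polynomial.C c2 * Polynomial.X) * Polynomial.C (u i)
    + (-(Polynomial.C q11 * Polynomial.X^2 + Polynomial.C q12 * Polynomial.X + Polynomial.C q22) * Polynomial.X) * Polynomial.C (a i)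
    + (-(Polynomial.C q11 * Polynomial.X^2 + Polynomial.C q12 * Polynomial.X + Polynomial.C q22)) * Polynomial.C (b i) with hR
  set G : Polynomial ℝ := MvPolynomial.aeval R g with hG
  have hG0 : G = 0 := by
    apply Polynomial.funext
    intro s
    rw [Polynomial.eval_zero, ← hgr s, hG]
    have h1 : Polynomial.eval s (MvPolynomial.aeval R g) = MvPolynomial.aeval (fun i => Polynomial.aeval s (R i)) g := by
      rw [← Polynomial.coe_aeval_eq_eval]
      have := MvPolynomial.comp_aeval_apply (R := ℝ) R (Polynomial.aeval s : Polynomial ℝ →ₐ[ℝ] ℝ) g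
      simpa using this
    rw [h1, MvPolynomial.aeval_eq_eval]
    congr 1
    congr 1
    funext i
    simp [hR, hr]
  -- complex root
  have hq11 : q11 ≠ 0 := by
    have := hQ 1 0 (by simp)
    simpa using this
  obtain ⟨τ, hτ⟩ : ∃ τ : ℂ, (q11:ℂ)*τ^2 + q12*τ + q22 = 0 := by
    have hdeg : (Polynomial.C (q11:ℂ) * Polynomial.X^2 + Polynomial.C (q12:ℂ) * Polynomial.X + Polynomial.C (q22:ℂ)).degree ≠ 0 := by
      rw [Polynomial.degree_quadratic (by exact_mod_cast hq11)]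
      decide
    obtain ⟨τ, hτ⟩ := IsAlgClosed.exists_root _ hdeg
    refine ⟨τ, ?_⟩
    simpa [Polynomial.IsRoot] using hτ
  have hτim : τ.im ≠ 0 := by
    intro him
    have hre : (τ.re : ℂ) = τ := by
      apply Complex.ext <;> simp [him]
    apply hQ τ.re 1 (by simp)
    rw [← hre] at hτ
    have h2 : ((q11*τ.re^2 + q12*τ.re + q22 : ℝ) : ℂ) = 0 := by
      push_cast; exact hτ
    have h3 := Complex.ofReal_eq_zero.mp h2
    linarith
  have hgτ : MvPolynomial.aeval (fun i => ((c1:ℂ)*τ^2+c2*τ) * (u i : ℂ)) g = 0 := by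
    have h1 : Polynomial.aeval τ G = 0 := by rw [hG0]; simp
    have h2 : Polynomial.aeval τ G = MvPolynomial.aeval (fun i => Polynomial.aeval τ (R i)) g := by
      rw [hG]
      have := MvPolynomial.comp_aeval_apply (R := ℝ) R (Polynomial.aeval τ : Polynomial ℝ →ₐ[ℝ] ℂ) g
      simpa using this
    rw [h2] at h1
    rw [← h1]
    congr 1
    congr 1
    funext i
    simp only [hR, map_add, map_mul, map_neg, Polynomial.aeval_C, Polynomial.aeval_X, map_pow, Complex.coe_algebraMap]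
    linear_combination (-(τ * (a i:ℂ)) - (b i:ℂ)) * (-hτ)
  have hCτ : (c1:ℂ)*τ^2+c2*τ = 0 := by
    by_contra hne
    exact hg _ hne hgτ
  have hτ0 : τ ≠ 0 := by
    intro h; apply hτim; rw [h]; simp
  have hlin : (c1:ℂ)*τ+c2 = 0 := by
    have : τ * ((c1:ℂ)*τ+c2) = 0 := by linear_combination hCτ
    rcases mul_eq_zero.mp this with h | h
    · exact absurd h hτ0
    · exact h
  have hc1 : c1 = 0 := by
    have := congrArg Complex.im hlin
    simp at this
    rcases this with h | h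
    · exact h
    · exact absurd h hτim
  have hc2 : c2 = 0 := by
    rw [hc1] at hlin
    simpa using hlin
  -- conclusion
  rw [hd, hf, hc1, hc2] at hfd
  have h5 : αd * (q11*sd^2+q12*sd*td+q22*td^2) = 0 := by linarith
  rcases mul_eq_zero.mp h5 with h | h
  · exact hαd h
  · exact hQ sd td hst h

end Pool.Agent.Helper680.RigidConfig.Cubic

namespace Pool.Agent.Helper680.RigidConfig.Th

open Matrix

section vec

theorem dot3 {R : Type*} [CommRing R] (x y : Fin 3 → R) :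
    x ⬝ᵥ y = x 0 * y 0 + x 1 * y 1 + x 2 * y 2 := by
  simp [dotProduct, Fin.sum_univ_three]

theorem cross3 {R : Type*} [CommRing R] (x y : Fin 3 → R) :
    x ⨯₃ y = ![x 1 * y 2 - x 2 * y 1, x 2 * y 0 - x 0 * y 2, x 0 * y 1 - x 1 * y 0] := by
  rw [cross_apply]

theorem sq_ne_zero3 {z : Fin 3 → ℝ} (hz : z ≠ 0) : z 0 * z 0 + z 1 * z 1 + z 2 * z 2 ≠ 0 := by
  intro h
  apply hz
  have h0 : z 0 = 0 := by nlinarith [mul_self_nonneg (z 0), mul_self_nonneg (z 1), mul_self_nonneg (z 2)]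
  have h1 : z 1 = 0 := by nlinarith [mul_self_nonneg (z 0), mul_self_nonneg (z 1), mul_self_nonneg (z 2)]
  have h2 : z 2 = 0 := by nlinarith [mul_self_nonneg (z 0), mul_self_nonneg (z 1), mul_self_nonneg (z 2)]
  funext i
  fin_cases i <;> simp [h0, h1, h2]

theorem cross_smul_of_orth {x y z : Fin 3 → ℝ} (hz : z ≠ 0) (hx : x ⬝ᵥ z = 0) (hy : y ⬝ᵥ z = 0) :
    ∃ c : ℝ, x ⨯₃ y = c • z := by
  have hzz := sq_ne_zero3 hz
  rw [dot3] at hx hy
  refine ⟨((x 1 * y 2 - x 2 * y 1) * z 0 + (x 2 * y 0 - x 0 * y 2) * z 1 + (x 0 * y 1 - x 1 * y 0) * z 2) /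
    (z 0 * z 0 + z 1 * z 1 + z 2 * z 2), ?_⟩
  rw [cross3]
  funext i
  fin_cases i
  · simp only [Fin.zero_eta, Fin.isValue, cons_val_zero, Pi.smul_apply, smul_eq_mul]
    rw [eq_comm, div_mul_eq_mul_div, div_eq_iff hzz]
    linear_combination (z 1 * y 2 - z 2 * y 1) * (-hx) - (z 1 * x 2 - z 2 * x 1) * (-hy)
  · simp only [Fin.mk_one, Fin.isValue, cons_val_one, Pi.smul_apply, smul_eq_mul]
    rw [eq_comm, div_mul_eq_mul_div, div_eq_iff hzz]
    simp only [Fin.isValue, cons_val_zero]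
    linear_combination (z 2 * y 0 - z 0 * y 2) * (-hx) - (z 2 * x 0 - z 0 * x 2) * (-hy)
  · simp only [Fin.reduceFinMk, Fin.isValue, cons_val, Pi.smul_apply, smul_eq_mul]
    rw [eq_comm, div_mul_eq_mul_div, div_eq_iff hzz]
    linear_combination (z 0 * y 1 - z 1 * y 0) * (-hx) - (z 0 * x 1 - z 1 * x 0) * (-hy)

theorem prop_of_cross {x y : Fin 3 → ℝ} (hy : y ≠ 0) (h : x ⨯₃ y = 0) : ∃ c : ℝ, x = c • y := by
  have hzz := sq_ne_zero3 hy
  rw [cross3] at h
  have h0 := congrFun h 0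
  have h1 := congrFun h 1
  have h2 := congrFun h 2
  simp only [Fin.isValue, cons_val_zero, cons_val_one, cons_val, Pi.zero_apply] at h0 h1 h2
  refine ⟨(x 0 * y 0 + x 1 * y 1 + x 2 * y 2) / (y 0 * y 0 + y 1 * y 1 + y 2 * y 2), ?_⟩
  funext i
  rw [Pi.smul_apply, smul_eq_mul, div_mul_eq_mul_div, eq_div_iff hzz]
  fin_cases i
  · simp only [Fin.zero_eta, Fin.isValue]
    linear_combination (y 1) * (h2) - (y 2) * h1
  · simp only [Fin.mk_one, Fin.isValue]
    linear_combination (y 2) * h0 - (y 0) * h2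
  · simp only [Fin.reduceFinMk, Fin.isValue]
    linear_combination (y 0) * h1 - (y 1) * h0

end vec

/-- cubic bipartite graph without 4-cycles -/
structure Cfg (V : Type) where
  adj : V → V → Prop
  col : V → Bool
  symm : ∀ {x y}, adj x y → adj y x
  bip : ∀ {x y}, adj x y → col x ≠ col y
  three : ∀ x, ∃ y1 y2 y3, y1 ≠ y2 ∧ y1 ≠ y3 ∧ y2 ≠ y3 ∧ adj x y1 ∧ adj x y2 ∧ adj x y3 ∧
    ∀ w, adj x w → w = y1 ∨ w = y2 ∨ w = y3
  lin : ∀ {x y z w}, x ≠ y → z ≠ w → adj x z → adj x w → adj y z → adj y w → False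

variable {V : Type}

def IsRep (G : Cfg V) (E : V → Fin 3 → ℝ) : Prop :=
  (∀ x, E x ≠ 0) ∧ ∀ x y, G.col x ≠ G.col y → (E x ⬝ᵥ E y = 0 ↔ G.adj x y)

theorem IsRep.dot {G : Cfg V} {E : V → Fin 3 → ℝ} (h : IsRep G E) {x y : V} (hxy : G.adj x y) :
    E x ⬝ᵥ E y = 0 := (h.2 x y (G.bip hxy)).mpr hxy

/-- distinct vertices with a common neighbour are represented by non-proportional vectors -/
theorem IsRep.cross_ne {G : Cfg V} {E : V → Fin 3 → ℝ} (h : IsRep G E) {x y : V}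
    (hne : x ≠ y) (hcol : G.col x = G.col y) : E x ⨯₃ E y ≠ 0 := by
  intro h0
  obtain ⟨c, hc⟩ := prop_of_cross (h.1 y) h0
  have hc0 : c ≠ 0 := by
    intro hc0
    apply h.1 x
    rw [hc, hc0, zero_smul]
  obtain ⟨y1, y2, y3, h12, h13, h23, a1, a2, a3, _⟩ := G.three x
  have t : ∀ w, G.adj x w → G.adj y w := by
    intro w hw
    have hcw : G.col y ≠ G.col w := by rw [← hcol]; exact G.bip hw
    rw [← h.2 y w hcw]
    have := h.dot hw
    rw [hc, smul_dotProduct, smul_eq_mul] at this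
    rcases mul_eq_zero.mp this with h' | h'
    · exact absurd h' hc0
    · exact h'
  exact G.lin hne h12 a1 a2 (t _ a1) (t _ a2)

theorem IsRep.cross_smul {G : Cfg V} {E : V → Fin 3 → ℝ} (h : IsRep G E) {x y z : V}
    (hne : x ≠ y) (hx : G.adj x z) (hy : G.adj y z) : ∃ c : ℝ, c ≠ 0 ∧ E x ⨯₃ E y = c • E z := by
  obtain ⟨c, hc⟩ := cross_smul_of_orth (h.1 z) (h.dot hx) (h.dot hy)
  refine ⟨c, ?_, hc⟩
  intro hc0
  have hcol : G.col x = G.col y := by
    have h1 := G.bip hx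
    have h2 := G.bip hy
    revert h1 h2
    cases G.col x <;> cases G.col y <;> cases G.col z <;> simp
  apply h.cross_ne hne hcol
  rw [hc, hc0, zero_smul]

section T

/-- embedding of real vectors -/
def emb (A : Type) [CommRing A] [Algebra ℝ A] (w : Fin 3 → ℝ) : Fin 3 → A :=
  fun i => algebraMap ℝ A (w i)

def T {A : Type} [CommRing A] [Algebra ℝ A] (w : ℕ → Fin 3 → ℝ) : ℕ → (Fin 3 → A) → (Fin 3 → A)
  | 0, x => x ⨯₃ emb A (w 0)
  | j + 1, x => T w j x ⨯₃ emb A (w (j + 1))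

variable {A B : Type} [CommRing A] [Algebra ℝ A] [CommRing B] [Algebra ℝ B]

theorem map_cross (φ : A →ₐ[ℝ] B) (x y : Fin 3 → A) :
    (fun i => φ ((x ⨯₃ y) i)) = (fun i => φ (x i)) ⨯₃ (fun i => φ (y i)) := by
  rw [cross3, cross3]
  funext i
  fin_cases i <;> simp

theorem map_emb (φ : A →ₐ[ℝ] B) (w : Fin 3 → ℝ) : (fun i => φ (emb A w i)) = emb B w := by
  funext i
  simp [emb]

theorem map_T (φ : A →ₐ[ℝ] B) (w : ℕ → Fin 3 → ℝ) (j : ℕ) (x : Fin 3 → A) :
    (fun i => φ (T w j x i)) = T w j (fun i => φ (x i)) := by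
  induction j with
  | zero => simp only [T]; rw [map_cross, map_emb]
  | succ j ih => simp only [T]; rw [map_cross, map_emb, ih]

theorem T_add (w : ℕ → Fin 3 → ℝ) (j : ℕ) (x y : Fin 3 → A) : T w j (x + y) = T w j x + T w j y := by
  induction j with
  | zero => simp only [T]; simp
  | succ j ih => simp only [T]; rw [ih]; simp

theorem T_smul (w : ℕ → Fin 3 → ℝ) (j : ℕ) (c : A) (x : Fin 3 → A) : T w j (c • x) = c • T w j x := by
  induction j with
  | zero => simp only [T]; simp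
  | succ j ih => simp only [T]; rw [ih]; simp

theorem T_self (w : ℕ → Fin 3 → ℝ) (j : ℕ) : T w j (emb A (w 0)) = 0 := by
  induction j with
  | zero => simp only [T]; simp
  | succ j ih => simp only [T]; rw [ih]; simp

theorem emb_smul (c : ℝ) (w : Fin 3 → ℝ) : emb A (c • w) = (algebraMap ℝ A c) • emb A w := by
  funext i; simp [emb]

theorem emb_cross (x y : Fin 3 → ℝ) : emb A x ⨯₃ emb A y = emb A (x ⨯₃ y) := by
  have h := map_cross (Algebra.ofId ℝ A) x y
  exact h.symm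

theorem emb_dot (x y : Fin 3 → ℝ) : emb A x ⬝ᵥ emb A y = algebraMap ℝ A (x ⬝ᵥ y) := by
  rw [dot3, dot3]; simp [emb]

theorem emb_real (x : Fin 3 → ℝ) : emb ℝ x = x := by
  funext i; simp [emb]

end T

structure Theta (G : Cfg V) (u v : V) where
  k : Fin 3 → ℕ
  q : Fin 3 → ℕ → V
  e : Fin 3 → ℕ → V
  adj0 : ∀ i, G.adj u (q i 0)
  adjS : ∀ i j, j < k i → G.adj (q i j) (q i (j+1))
  adjL : ∀ i, G.adj (q i (k i)) v
  adjE : ∀ i j, j ≤ k i → G.adj (q i j) (e i j)
  envE : ∀ i j, j ≤ k i → ∀ i' j', j' ≤ k i' → e i j ≠ q i' j'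
  e_ne_u : ∀ i j, j ≤ k i → e i j ≠ u
  e_ne_v : ∀ i j, j ≤ k i → e i j ≠ v
  inj : ∀ i j i' j', j ≤ k i → j' ≤ k i' → q i j = q i' j' → i = i' ∧ j = j'
  q_ne_u : ∀ i j, j ≤ k i → q i j ≠ u
  q_ne_v : ∀ i j, j ≤ k i → q i j ≠ v
  u_ne_v : u ≠ v

inductive Code
  | U : Code
  | W : Code
  | Q : Fin 3 → ℕ → Code
  | N : Code

theorem Theta.exists_code {G : Cfg V} {u v : V} (Θ : Theta G u v) :
    ∃ κ : V → Code, (∀ w, κ w = Code.U ↔ w = u) ∧ (∀ w, κ w = Code.W ↔ w = v) ∧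
      (∀ w i j, κ w = Code.Q i j ↔ (j ≤ Θ.k i ∧ w = Θ.q i j)) ∧
      (∀ w, κ w = Code.N ↔ (w ≠ u ∧ w ≠ v ∧ ∀ i j, j ≤ Θ.k i → w ≠ Θ.q i j)) := by
  classical
  have h : ∀ w : V, ∃ c : Code, (c = Code.U ↔ w = u) ∧ (c = Code.W ↔ w = v) ∧
      (∀ i j, c = Code.Q i j ↔ (j ≤ Θ.k i ∧ w = Θ.q i j)) ∧
      (c = Code.N ↔ (w ≠ u ∧ w ≠ v ∧ ∀ i j, j ≤ Θ.k i → w ≠ Θ.q i j)) := by
    intro w
    by_cases h1 : w = u
    · refine ⟨Code.U, by simp [h1], by simp [h1, Θ.u_ne_v], ?_, by simp [h1]⟩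
      intro i j
      constructor
      · intro h; cases h
      · rintro ⟨hj, h⟩
        exact absurd (h1 ▸ h).symm (Θ.q_ne_u i j hj)
    · by_cases h2 : w = v
      · refine ⟨Code.W, by simp [h1], by simp [h2], ?_, by simp [h2]⟩
        intro i j
        constructor
        · intro h; cases h
        · rintro ⟨hj, h⟩
          exact absurd (h2 ▸ h).symm (Θ.q_ne_v i j hj)
      · by_cases h3 : ∃ i j, j ≤ Θ.k i ∧ w = Θ.q i j
        · obtain ⟨i, j, hj, hw⟩ := h3
          refine ⟨Code.Q i j, by simp [h1], by simp [h2], ?_, ?_⟩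
          · intro i' j'
            constructor
            · intro h; cases h; exact ⟨hj, hw⟩
            · rintro ⟨hj', hw'⟩
              obtain ⟨h4, h5⟩ := Θ.inj i j i' j' hj hj' (hw ▸ hw')
              rw [h4, h5]
          · constructor
            · intro h; cases h
            · rintro ⟨_, _, h⟩
              exact absurd hw (h i j hj)
        · refine ⟨Code.N, by simp [h1], by simp [h2], ?_, ?_⟩
          · intro i j
            constructor
            · intro h; cases h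
            · rintro ⟨hj, h⟩
              exact absurd ⟨i, j, hj, h⟩ h3
          · push Not at h3
            simp only [true_iff]
            exact ⟨h1, h2, h3⟩
  choose κ hκ using h
  exact ⟨κ, fun w => (hκ w).1, fun w => (hκ w).2.1, fun w => (hκ w).2.2.1, fun w => (hκ w).2.2.2⟩

section newE

variable {A B : Type} [CommRing A] [Algebra ℝ A] [CommRing B] [Algebra ℝ B]

/-- new position of a vertex, with the branch vertex at x -/
def newE (A : Type) [CommRing A] [Algebra ℝ A] (E : V → Fin 3 → ℝ) (κ : V → Code)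
    (k : Fin 3 → ℕ) (e : Fin 3 → ℕ → V) (x : Fin 3 → A) (w : V) : Fin 3 → A :=
  match κ w with
  | Code.U => x
  | Code.W => T (fun j => E (e 0 j)) (k 0) x ⨯₃ T (fun j => E (e 1 j)) (k 1) x
  | Code.Q i j => T (fun j => E (e i j)) j x
  | Code.N => emb A (E w)

theorem map_newE (φ : A →ₐ[ℝ] B) (E : V → Fin 3 → ℝ) (κ : V → Code)
    (k : Fin 3 → ℕ) (e : Fin 3 → ℕ → V) (x : Fin 3 → A) (w : V) :
    (fun i => φ (newE A E κ k e x w i)) = newE B E κ k e (fun i => φ (x i)) w := by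
  unfold newE
  cases κ w with
  | U => rfl
  | W => simp only; rw [map_cross, map_T, map_T]
  | Q i j => simp only; rw [map_T]
  | N => simp only; rw [map_emb]

end newE

/-- at the original position every T is a nonzero multiple of the original vector -/
theorem Theta.T_orig {G : Cfg V} {u v : V} (Θ : Theta G u v) {E : V → Fin 3 → ℝ} (hE : IsRep G E)
    (i : Fin 3) (j : ℕ) (hj : j ≤ Θ.k i) :
    ∃ c : ℝ, c ≠ 0 ∧ T (A := ℝ) (fun j => E (Θ.e i j)) j (E u) = c • E (Θ.q i j) := by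
  induction j with
  | zero =>
    simp only [T, emb_real]
    apply hE.cross_smul
    · exact (Θ.e_ne_u i 0 hj).symm
    · exact Θ.adj0 i
    · exact G.symm (Θ.adjE i 0 hj)
  | succ j ih =>
    obtain ⟨c, hc, h⟩ := ih (by omega)
    simp only [T, emb_real]
    rw [h]
    obtain ⟨c', hc', h'⟩ := hE.cross_smul (x := Θ.q i j) (y := Θ.e i (j+1)) (z := Θ.q i (j+1))
      (Θ.envE i (j+1) hj i j (by omega)).symm (Θ.adjS i j (by omega)) (G.symm (Θ.adjE i (j+1) hj))
    refine ⟨c * c', mul_ne_zero hc hc', ?_⟩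
    rw [LinearMap.map_smul₂, h', smul_smul]

theorem Theta.newE_orig {G : Cfg V} {u v : V} (Θ : Theta G u v) {E : V → Fin 3 → ℝ} (hE : IsRep G E)
    (κ : V → Code) (hκU : ∀ w, κ w = Code.U ↔ w = u) (hκW : ∀ w, κ w = Code.W ↔ w = v)
    (hκQ : ∀ w i j, κ w = Code.Q i j ↔ (j ≤ Θ.k i ∧ w = Θ.q i j))
    (B : Type) [Field B] [Algebra ℝ B] (c : B) (hc : c ≠ 0) (w : V) :
    ∃ μ : B, μ ≠ 0 ∧ newE B E κ Θ.k Θ.e (c • emb B (E u)) w = μ • emb B (E w) := by
  have hT : ∀ i j, j ≤ Θ.k i → ∃ μ : ℝ, μ ≠ 0 ∧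
      T (A := B) (fun j => E (Θ.e i j)) j (c • emb B (E u)) = (c * algebraMap ℝ B μ) • emb B (E (Θ.q i j)) := by
    intro i j hj
    obtain ⟨μ, hμ, h⟩ := Θ.T_orig hE i j hj
    refine ⟨μ, hμ, ?_⟩
    rw [T_smul]
    have h2 := map_T (Algebra.ofId ℝ B) (fun j => E (Θ.e i j)) j (E u)
    have h3 : T (A := B) (fun j => E (Θ.e i j)) j (emb B (E u)) = emb B (T (A := ℝ) (fun j => E (Θ.e i j)) j (E u)) :=
      h2.symm
    rw [h3, h, emb_smul, smul_smul]
  have hinj : ∀ μ : ℝ, μ ≠ 0 → algebraMap ℝ B μ ≠ 0 := by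
    intro μ hμ h
    exact hμ ((map_eq_zero (algebraMap ℝ B)).mp h)
  cases hw : κ w with
  | U =>
    rw [hκU] at hw
    subst hw
    refine ⟨c, hc, ?_⟩
    unfold newE
    rw [(hκU w).mpr rfl]
  | W =>
    have hw' := (hκW w).mp hw
    obtain ⟨μ0, hμ0, h0⟩ := hT 0 (Θ.k 0) le_rfl
    obtain ⟨μ1, hμ1, h1⟩ := hT 1 (Θ.k 1) le_rfl
    have hne : Θ.q 0 (Θ.k 0) ≠ Θ.q 1 (Θ.k 1) := by
      intro h
      have := (Θ.inj 0 (Θ.k 0) 1 (Θ.k 1) le_rfl le_rfl h).1
      exact absurd this (by decide)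
    obtain ⟨ν, hν, h2⟩ := hE.cross_smul hne (Θ.adjL 0) (Θ.adjL 1)
    refine ⟨(c * algebraMap ℝ B μ1) * ((c * algebraMap ℝ B μ0) * algebraMap ℝ B ν), ?_, ?_⟩
    · exact mul_ne_zero (mul_ne_zero hc (hinj _ hμ1)) (mul_ne_zero (mul_ne_zero hc (hinj _ hμ0)) (hinj _ hν))
    · unfold newE
      rw [hw]
      simp only
      rw [h0, h1, LinearMap.map_smul₂, map_smul, emb_cross, h2, emb_smul, smul_smul, smul_smul, hw']
      congr 1
      ring
  | Q i j =>
    obtain ⟨hj, hw'⟩ := (hκQ w i j).mp hw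
    obtain ⟨μ, hμ, h⟩ := hT i j hj
    refine ⟨c * algebraMap ℝ B μ, mul_ne_zero hc (hinj _ hμ), ?_⟩
    unfold newE
    rw [hw]
    simp only
    rw [h, hw']
  | N =>
    refine ⟨1, one_ne_zero, ?_⟩
    unfold newE
    rw [hw]
    simp

theorem triple_self {R : Type} [CommRing R] (x y : Fin 3 → R) : x ⬝ᵥ (x ⨯₃ y) = 0 := by
  rw [dot3, cross3]; simp; ring

theorem triple_self' {R : Type} [CommRing R] (x y : Fin 3 → R) : y ⬝ᵥ (x ⨯₃ y) = 0 := by
  rw [dot3, cross3]; simp; ring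

/-- third neighbour -/
theorem Cfg.mem_of_three (G : Cfg V) {x y1 y2 y3 : V} (h12 : y1 ≠ y2) (h13 : y1 ≠ y3) (h23 : y2 ≠ y3)
    (a1 : G.adj x y1) (a2 : G.adj x y2) (a3 : G.adj x y3) {w : V} (hw : G.adj x w) :
    w = y1 ∨ w = y2 ∨ w = y3 := by
  obtain ⟨z1, z2, z3, _, _, _, _, _, _, h⟩ := G.three x
  rcases h y1 a1 with rfl | rfl | rfl <;> rcases h y2 a2 with rfl | rfl | rfl <;>
    rcases h y3 a3 with rfl | rfl | rfl <;> rcases h w hw with rfl | rfl | rfl <;> simp_all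

theorem Theta.incid {G : Cfg V} {u v : V} (Θ : Theta G u v) {E : V → Fin 3 → ℝ} (hE : IsRep G E)
    (κ : V → Code) (hκU : ∀ w, κ w = Code.U ↔ w = u) (hκW : ∀ w, κ w = Code.W ↔ w = v)
    (hκQ : ∀ w i j, κ w = Code.Q i j ↔ (j ≤ Θ.k i ∧ w = Θ.q i j))
    (hκN : ∀ w, κ w = Code.N ↔ (w ≠ u ∧ w ≠ v ∧ ∀ i j, j ≤ Θ.k i → w ≠ Θ.q i j))
    (x : Fin 3 → ℝ)
    (hf : T (A := ℝ) (fun j => E (Θ.e 2 j)) (Θ.k 2) x ⬝ᵥ
      (T (A := ℝ) (fun j => E (Θ.e 0 j)) (Θ.k 0) x ⨯₃ T (A := ℝ) (fun j => E (Θ.e 1 j)) (Θ.k 1) x) = 0)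
    (y z : V) (hyz : G.adj y z) :
    newE ℝ E κ Θ.k Θ.e x y ⬝ᵥ newE ℝ E κ Θ.k Θ.e x z = 0 := by
  have eU : newE ℝ E κ Θ.k Θ.e x u = x := by
    unfold newE; rw [(hκU u).mpr rfl]
  have eW : newE ℝ E κ Θ.k Θ.e x v = T (A := ℝ) (fun j => E (Θ.e 0 j)) (Θ.k 0) x ⨯₃ T (A := ℝ) (fun j => E (Θ.e 1 j)) (Θ.k 1) x := by
    unfold newE; rw [(hκW v).mpr rfl]
  have eQ : ∀ i j, j ≤ Θ.k i → newE ℝ E κ Θ.k Θ.e x (Θ.q i j) = T (A := ℝ) (fun j => E (Θ.e i j)) j x := by
    intro i j hj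
    unfold newE; rw [(hκQ _ i j).mpr ⟨hj, rfl⟩]
  have eN : ∀ w, κ w = Code.N → newE ℝ E κ Θ.k Θ.e x w = E w := by
    intro w hw
    unfold newE; rw [hw]; simp [emb_real]
  -- neighbours of u
  have nbU : ∀ w, G.adj u w → ∃ i, w = Θ.q i 0 := by
    intro w hw
    have h01 : Θ.q 0 0 ≠ Θ.q 1 0 := fun h => absurd (Θ.inj 0 0 1 0 (Nat.zero_le _) (Nat.zero_le _) h).1 (by decide)
    have h02 : Θ.q 0 0 ≠ Θ.q 2 0 := fun h => absurd (Θ.inj 0 0 2 0 (Nat.zero_le _) (Nat.zero_le _) h).1 (by decide)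
    have h12 : Θ.q 1 0 ≠ Θ.q 2 0 := fun h => absurd (Θ.inj 1 0 2 0 (Nat.zero_le _) (Nat.zero_le _) h).1 (by decide)
    rcases G.mem_of_three h01 h02 h12 (Θ.adj0 0) (Θ.adj0 1) (Θ.adj0 2) hw with h | h | h
    · exact ⟨0, h⟩
    · exact ⟨1, h⟩
    · exact ⟨2, h⟩
  have nbV : ∀ w, G.adj v w → ∃ i, w = Θ.q i (Θ.k i) := by
    intro w hw
    have h01 : Θ.q 0 (Θ.k 0) ≠ Θ.q 1 (Θ.k 1) := fun h => absurd (Θ.inj _ _ _ _ le_rfl le_rfl h).1 (by decide)
    have h02 : Θ.q 0 (Θ.k 0) ≠ Θ.q 2 (Θ.k 2) := fun h => absurd (Θ.inj _ _ _ _ le_rfl le_rfl h).1 (by decide)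
    have h12 : Θ.q 1 (Θ.k 1) ≠ Θ.q 2 (Θ.k 2) := fun h => absurd (Θ.inj _ _ _ _ le_rfl le_rfl h).1 (by decide)
    rcases G.mem_of_three h01 h02 h12 (G.symm (Θ.adjL 0)) (G.symm (Θ.adjL 1)) (G.symm (Θ.adjL 2)) hw with h | h | h
    · exact ⟨0, h⟩
    · exact ⟨1, h⟩
    · exact ⟨2, h⟩
  -- basic orthogonality facts
  have oU : ∀ i, x ⬝ᵥ newE ℝ E κ Θ.k Θ.e x (Θ.q i 0) = 0 := by
    intro i
    rw [eQ i 0 (Nat.zero_le _)]
    simp only [T]
    exact triple_self _ _
  have oV : ∀ i, newE ℝ E κ Θ.k Θ.e x (Θ.q i (Θ.k i)) ⬝ᵥ newE ℝ E κ Θ.k Θ.e x v = 0 := by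
    intro i
    rw [eQ i (Θ.k i) le_rfl, eW]
    fin_cases i
    · exact triple_self _ _
    · exact triple_self' _ _
    · exact hf
  have oS : ∀ i j, j < Θ.k i → newE ℝ E κ Θ.k Θ.e x (Θ.q i j) ⬝ᵥ newE ℝ E κ Θ.k Θ.e x (Θ.q i (j+1)) = 0 := by
    intro i j hj
    rw [eQ i j hj.le, eQ i (j+1) hj]
    simp only [T]
    exact triple_self _ _
  have oE : ∀ i j, j ≤ Θ.k i → newE ℝ E κ Θ.k Θ.e x (Θ.e i j) ⬝ᵥ newE ℝ E κ Θ.k Θ.e x (Θ.q i j) = 0 := by
    intro i j hj
    rw [eN (Θ.e i j) ((hκN _).mpr ⟨Θ.e_ne_u i j hj, Θ.e_ne_v i j hj, Θ.envE i j hj⟩), eQ i j hj]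
    cases j with
    | zero => simp only [T, emb_real]; exact triple_self' _ _
    | succ j => simp only [T, emb_real]; exact triple_self' _ _
  -- neighbours of q
  have nbQ : ∀ i j, j ≤ Θ.k i → ∀ w, G.adj (Θ.q i j) w →
      newE ℝ E κ Θ.k Θ.e x (Θ.q i j) ⬝ᵥ newE ℝ E κ Θ.k Θ.e x w = 0 := by
    intro i j hj w hw
    -- previous and next
    obtain ⟨p, hp, hpo, hpe⟩ : ∃ p, G.adj (Θ.q i j) p ∧
        newE ℝ E κ Θ.k Θ.e x (Θ.q i j) ⬝ᵥ newE ℝ E κ Θ.k Θ.e x p = 0 ∧
        (p = u ∨ ∃ j', j = j' + 1 ∧ p = Θ.q i j') := by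
      cases j with
      | zero => exact ⟨u, G.symm (Θ.adj0 i), by rw [dotProduct_comm, eU]; exact oU i, Or.inl rfl⟩
      | succ j => exact ⟨Θ.q i j, G.symm (Θ.adjS i j (by omega)), by rw [dotProduct_comm]; exact oS i j (by omega), Or.inr ⟨j, rfl, rfl⟩⟩
    obtain ⟨n, hn, hno, hne⟩ : ∃ n, G.adj (Θ.q i j) n ∧
        newE ℝ E κ Θ.k Θ.e x (Θ.q i j) ⬝ᵥ newE ℝ E κ Θ.k Θ.e x n = 0 ∧
        (n = v ∨ (j + 1 ≤ Θ.k i ∧ n = Θ.q i (j+1))) := by
      rcases Nat.lt_or_ge j (Θ.k i) with h | h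
      · exact ⟨Θ.q i (j+1), Θ.adjS i j h, oS i j h, Or.inr ⟨h, rfl⟩⟩
      · have : j = Θ.k i := by omega
        subst this
        exact ⟨v, Θ.adjL i, oV i, Or.inl rfl⟩
    have h1 : p ≠ n := by
      rintro rfl
      rcases hpe with rfl | ⟨j', rfl, rfl⟩
      · rcases hne with h | ⟨h1, h2⟩
        · exact Θ.u_ne_v h
        · exact Θ.q_ne_u _ _ h1 h2.symm
      · rcases hne with h | ⟨h1, h2⟩
        · exact Θ.q_ne_v i j' (by omega) h
        · have := (Θ.inj _ _ _ _ (by omega) h1 h2).2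
          omega
    have h2 : p ≠ Θ.e i j := by
      rintro rfl
      rcases hpe with h | ⟨j', rfl, h⟩
      · exact Θ.e_ne_u i j hj h
      · exact Θ.envE i _ hj i j' (by omega) h
    have h3 : n ≠ Θ.e i j := by
      rintro rfl
      rcases hne with h | ⟨h1, h⟩
      · exact Θ.e_ne_v i j hj h
      · exact Θ.envE i _ hj i _ h1 h
    rcases G.mem_of_three h1 h2 h3 hp hn (Θ.adjE i j hj) hw with rfl | rfl | rfl
    · exact hpo
    · exact hno
    · rw [dotProduct_comm]; exact oE i j hj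
  -- main case analysis
  cases hy : κ y with
  | U =>
    rw [hκU] at hy; subst hy
    obtain ⟨i, rfl⟩ := nbU z hyz
    rw [eU]; exact oU i
  | W =>
    rw [hκW] at hy; subst hy
    obtain ⟨i, rfl⟩ := nbV z hyz
    rw [dotProduct_comm]; exact oV i
  | Q i j =>
    obtain ⟨hj, rfl⟩ := (hκQ y i j).mp hy
    exact nbQ i j hj z hyz
  | N =>
    cases hz : κ z with
    | U =>
      rw [hκU] at hz; subst hz
      obtain ⟨i, rfl⟩ := nbU y (G.symm hyz)
      rw [dotProduct_comm, eU]; exact oU i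
    | W =>
      rw [hκW] at hz; subst hz
      obtain ⟨i, rfl⟩ := nbV y (G.symm hyz)
      exact oV i
    | Q i j =>
      obtain ⟨hj, rfl⟩ := (hκQ z i j).mp hz
      rw [dotProduct_comm]
      exact nbQ i j hj y (G.symm hyz)
    | N =>
      rw [eN y hy, eN z hz]
      exact hE.dot hyz

/-- there is always a non-neighbour of the other colour -/
theorem Cfg.exists_non (G : Cfg V) (w : V) : ∃ z, G.col w ≠ G.col z ∧ ¬ G.adj w z := by
  obtain ⟨y1, y2, y3, h12, h13, h23, a1, a2, a3, h⟩ := G.three w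
  obtain ⟨w1, w2, w3, g12, g13, g23, b1, b2, b3, h'⟩ := G.three y1
  -- pick w' ≠ w adjacent to y1
  obtain ⟨w', hw', hne⟩ : ∃ w', G.adj y1 w' ∧ w' ≠ w := by
    by_cases h1 : w1 = w
    · exact ⟨w2, b2, fun h2 => g12 (h1.trans h2.symm)⟩
    · exact ⟨w1, b1, h1⟩
  obtain ⟨z1, z2, z3, k12, k13, k23, c1, c2, c3, h''⟩ := G.three w'
  obtain ⟨z, hz, hzne⟩ : ∃ z, G.adj w' z ∧ z ≠ y1 := by
    by_cases h1 : z1 = y1
    · exact ⟨z2, c2, fun h2 => k12 (h1.trans h2.symm)⟩
    · exact ⟨z1, c1, h1⟩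
  refine ⟨z, ?_, ?_⟩
  · have e1 := G.bip a1
    have e2 := G.bip hw'
    have e3 := G.bip hz
    revert e1 e2 e3
    cases G.col w <;> cases G.col z <;> cases G.col y1 <;> cases G.col w' <;> simp
  · intro hadj
    exact G.lin hne hzne hz (G.symm hw') hadj a1

theorem coord {u a b : Fin 3 → ℝ} (h : u ⬝ᵥ (a ⨯₃ b) ≠ 0) (d : Fin 3 → ℝ) :
    d = ((d ⬝ᵥ (a ⨯₃ b)) / (u ⬝ᵥ (a ⨯₃ b))) • u + ((u ⬝ᵥ (d ⨯₃ b)) / (u ⬝ᵥ (a ⨯₃ b))) • a
      + ((u ⬝ᵥ (a ⨯₃ d)) / (u ⬝ᵥ (a ⨯₃ b))) • b := by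
  have key : (u ⬝ᵥ (a ⨯₃ b)) • d = (d ⬝ᵥ (a ⨯₃ b)) • u + (u ⬝ᵥ (d ⨯₃ b)) • a + (u ⬝ᵥ (a ⨯₃ d)) • b := by
    funext i
    simp only [dot3, cross3, Pi.add_apply, Pi.smul_apply, smul_eq_mul]
    fin_cases i <;> simp <;> ring
  calc d = (u ⬝ᵥ (a ⨯₃ b))⁻¹ • ((u ⬝ᵥ (a ⨯₃ b)) • d) := by
        rw [smul_smul, inv_mul_cancel₀ h, one_smul]
    _ = (u ⬝ᵥ (a ⨯₃ b))⁻¹ • ((d ⬝ᵥ (a ⨯₃ b)) • u + (u ⬝ᵥ (d ⨯₃ b)) • a + (u ⬝ᵥ (a ⨯₃ d)) • b) :=
        congrArg (fun z => (u ⬝ᵥ (a ⨯₃ b))⁻¹ • z) key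
    _ = _ := by
        simp only [smul_add, smul_smul, div_eq_inv_mul]

theorem indep {u a b : Fin 3 → ℝ} (h : u ⬝ᵥ (a ⨯₃ b) ≠ 0) (α s t : ℝ)
    (h0 : α • u + s • a + t • b = 0) : α = 0 ∧ s = 0 ∧ t = 0 := by
  have e0 := congrFun h0 0
  have e1 := congrFun h0 1
  have e2 := congrFun h0 2
  simp only [Pi.add_apply, Pi.smul_apply, smul_eq_mul, Pi.zero_apply] at e0 e1 e2
  rw [dot3, cross3] at h
  simp only [Fin.isValue, cons_val_zero, cons_val_one, cons_val] at h
  refine ⟨?_, ?_, ?_⟩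
  · apply mul_right_cancel₀ h
    rw [zero_mul]
    linear_combination (a 1 * b 2 - a 2 * b 1) * e0 + (a 2 * b 0 - a 0 * b 2) * e1 + (a 0 * b 1 - a 1 * b 0) * e2
  · apply mul_right_cancel₀ h
    rw [zero_mul]
    linear_combination (b 1 * u 2 - b 2 * u 1) * e0 + (b 2 * u 0 - b 0 * u 2) * e1 + (b 0 * u 1 - b 1 * u 0) * e2
  · apply mul_right_cancel₀ h
    rw [zero_mul]
    linear_combination (u 1 * a 2 - u 2 * a 1) * e0 + (u 2 * a 0 - u 0 * a 2) * e1 + (u 0 * a 1 - u 1 * a 0) * e2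

/-- the point b is not on the line joining u and a -/
theorem IsRep.det_ne {G : Cfg V} {E : V → Fin 3 → ℝ} (h : IsRep G E) {u a b l : V}
    (hua : u ≠ a) (hu : G.adj u l) (ha : G.adj a l) (hcol : G.col b = G.col u) (hb : ¬ G.adj b l) :
    E u ⬝ᵥ (E a ⨯₃ E b) ≠ 0 := by
  obtain ⟨c, hc, hx⟩ := h.cross_smul hua hu ha
  have h1 : E u ⬝ᵥ (E a ⨯₃ E b) = E b ⬝ᵥ (E u ⨯₃ E a) := by
    simp only [dot3, cross3]; simp; ring
  rw [h1, hx, dotProduct_smul, smul_eq_mul]
  apply mul_ne_zero hc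
  intro h0
  apply hb
  rw [← h.2 b l (by rw [hcol]; exact G.bip hu)]
  exact h0

theorem theta_main [Fintype V] (G : Cfg V) (E : V → Fin 3 → ℝ) (hE : IsRep G E) (u v : V) (Θ : Theta G u v)
    (hcu : E (Θ.e 0 0) ⬝ᵥ (E (Θ.e 1 0) ⨯₃ E (Θ.e 2 0)) ≠ 0) :
    ∃ E', IsRep G E' ∧ (∀ w, w ≠ u → w ≠ v → (∀ i j, j ≤ Θ.k i → w ≠ Θ.q i j) → E' w = E w) ∧
      ∀ c : ℝ, E' u ≠ c • E u := by
  classical
  obtain ⟨κ, hκU, hκW, hκQ, hκN⟩ := Θ.exists_code
  set f : (Fin 3 → ℝ) → ℝ := fun x => T (A := ℝ) (fun j => E (Θ.e 2 j)) (Θ.k 2) x ⬝ᵥ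
      (T (A := ℝ) (fun j => E (Θ.e 0 j)) (Θ.k 0) x ⨯₃ T (A := ℝ) (fun j => E (Θ.e 1 j)) (Θ.k 1) x) with hfdef
  set S : Finset (V × V) := Finset.univ.filter (fun p => G.col p.1 ≠ G.col p.2 ∧ ¬ G.adj p.1 p.2) with hS
  set g : MvPolynomial (Fin 3) ℝ := ∏ p ∈ S,
    (newE (MvPolynomial (Fin 3) ℝ) E κ Θ.k Θ.e (fun i => MvPolynomial.X i) p.1 ⬝ᵥ
     newE (MvPolynomial (Fin 3) ℝ) E κ Θ.k Θ.e (fun i => MvPolynomial.X i) p.2) with hg
  have hgB : ∀ (B : Type) [Field B] [Algebra ℝ B] (y : Fin 3 → B), MvPolynomial.aeval y g =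
      ∏ p ∈ S, (newE B E κ Θ.k Θ.e y p.1 ⬝ᵥ newE B E κ Θ.k Θ.e y p.2) := by
    intro B _ _ y
    rw [hg, map_prod]
    apply Finset.prod_congr rfl
    intro p _
    have h1 := map_newE (MvPolynomial.aeval y : MvPolynomial (Fin 3) ℝ →ₐ[ℝ] B) E κ Θ.k Θ.e (fun i => MvPolynomial.X i) p.1
    have h2 := map_newE (MvPolynomial.aeval y : MvPolynomial (Fin 3) ℝ →ₐ[ℝ] B) E κ Θ.k Θ.e (fun i => MvPolynomial.X i) p.2
    simp only [MvPolynomial.aeval_X] at h1 h2
    rw [← h1, ← h2, dot3, dot3]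
    simp only [map_add, map_mul]
  set a := E (Θ.e 0 0) with ha
  set b := E (Θ.e 1 0) with hb
  set d := E (Θ.e 2 0) with hd
  -- colours
  have hcol : ∀ i, G.col (Θ.e i 0) = G.col u := by
    intro i
    have h1 := G.bip (Θ.adj0 i)
    have h2 := G.bip (Θ.adjE i 0 (Nat.zero_le _))
    revert h1 h2
    cases G.col u <;> cases G.col (Θ.q i 0) <;> cases G.col (Θ.e i 0) <;> simp
  have hq01 : Θ.q 0 0 ≠ Θ.q 1 0 := fun h => absurd (Θ.inj 0 0 1 0 (Nat.zero_le _) (Nat.zero_le _) h).1 (by decide)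
  have hdet : E u ⬝ᵥ (a ⨯₃ b) ≠ 0 := by
    apply hE.det_ne (l := Θ.q 0 0) (Θ.e_ne_u 0 0 (Nat.zero_le _)).symm (Θ.adj0 0) (G.symm (Θ.adjE 0 0 (Nat.zero_le _))) (hcol 1)
    intro hadj
    exact G.lin (Θ.e_ne_u 1 0 (Nat.zero_le _)) hq01 hadj (G.symm (Θ.adjE 1 0 (Nat.zero_le _))) (Θ.adj0 0) (Θ.adj0 1)
  have hfu : f (E u) = 0 := by
    simp only [hfdef]
    obtain ⟨c0, _, h0⟩ := Θ.T_orig hE 0 (Θ.k 0) le_rfl
    obtain ⟨c1, _, h1⟩ := Θ.T_orig hE 1 (Θ.k 1) le_rfl
    obtain ⟨c2, _, h2⟩ := Θ.T_orig hE 2 (Θ.k 2) le_rfl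
    rw [h0, h1, h2]
    obtain ⟨c, hc⟩ := cross_smul_of_orth (hE.1 v) (hE.dot (Θ.adjL 0)) (hE.dot (Θ.adjL 1))
    rw [LinearMap.map_smul₂, map_smul, hc, smul_dotProduct, dotProduct_smul, dotProduct_smul, dotProduct_smul,
      hE.dot (Θ.adjL 2)]
    simp
  have hT0a : T (A := ℝ) (fun j => E (Θ.e 0 j)) (Θ.k 0) a = 0 := by
    have := T_self (A := ℝ) (fun j => E (Θ.e 0 j)) (Θ.k 0)
    rwa [emb_real] at this
  have hT1b : T (A := ℝ) (fun j => E (Θ.e 1 j)) (Θ.k 1) b = 0 := by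
    have := T_self (A := ℝ) (fun j => E (Θ.e 1 j)) (Θ.k 1)
    rwa [emb_real] at this
  have hT2d : T (A := ℝ) (fun j => E (Θ.e 2 j)) (Θ.k 2) d = 0 := by
    have := T_self (A := ℝ) (fun j => E (Θ.e 2 j)) (Θ.k 2)
    rwa [emb_real] at this
  have hfd : f d = 0 := by
    simp only [hfdef]
    rw [hT2d]; simp
  have hcoord := coord hdet d
  have hαd : (d ⬝ᵥ (a ⨯₃ b)) / (E u ⬝ᵥ (a ⨯₃ b)) ≠ 0 := by
    apply div_ne_zero _ hdet
    have : d ⬝ᵥ (a ⨯₃ b) = a ⬝ᵥ (b ⨯₃ d) := by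
      simp only [dot3, cross3]; simp; ring
    rw [this]; exact hcu
  have hst : (E u ⬝ᵥ (d ⨯₃ b)) / (E u ⬝ᵥ (a ⨯₃ b)) ≠ 0 ∨ (E u ⬝ᵥ (a ⨯₃ d)) / (E u ⬝ᵥ (a ⨯₃ b)) ≠ 0 := by
    by_contra hcon
    push Not at hcon
    rw [hcon.1, hcon.2, zero_smul, zero_smul, add_zero, add_zero] at hcoord
    apply hE.cross_ne (Θ.e_ne_u 2 0 (Nat.zero_le _)) (hcol 2)
    rw [← hd, hcoord, LinearMap.map_smul₂, cross_self, smul_zero]
  set U0 := T (A := ℝ) (fun j => E (Θ.e 0 j)) (Θ.k 0) (E u) with hU0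
  set U1 := T (A := ℝ) (fun j => E (Θ.e 1 j)) (Θ.k 1) (E u) with hU1
  set U2 := T (A := ℝ) (fun j => E (Θ.e 2 j)) (Θ.k 2) (E u) with hU2
  set B0 := T (A := ℝ) (fun j => E (Θ.e 0 j)) (Θ.k 0) b with hB0
  set A1 := T (A := ℝ) (fun j => E (Θ.e 1 j)) (Θ.k 1) a with hA1
  set A2 := T (A := ℝ) (fun j => E (Θ.e 2 j)) (Θ.k 2) a with hA2
  set B2 := T (A := ℝ) (fun j => E (Θ.e 2 j)) (Θ.k 2) b with hB2
  obtain ⟨x, hx1, hx2, hx3⟩ := Cubic.cubic_lemma f g (E u) a b d
    (U2 ⬝ᵥ (U0 ⨯₃ A1) + A2 ⬝ᵥ (U0 ⨯₃ U1))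
    (U2 ⬝ᵥ (B0 ⨯₃ U1) + B2 ⬝ᵥ (U0 ⨯₃ U1))
    (A2 ⬝ᵥ (U0 ⨯₃ A1))
    (U2 ⬝ᵥ (B0 ⨯₃ A1) + A2 ⬝ᵥ (B0 ⨯₃ U1) + B2 ⬝ᵥ (U0 ⨯₃ A1))
    (B2 ⬝ᵥ (B0 ⨯₃ U1))
    (A2 ⬝ᵥ (B0 ⨯₃ A1))
    (B2 ⬝ᵥ (B0 ⨯₃ A1))
    (by
      intro α s t
      have hu3 : U2 ⬝ᵥ (U0 ⨯₃ U1) = 0 := hfu
      simp only [hfdef, T_add, T_smul, hT0a, hT1b, smul_zero, add_zero]
      rw [← hU0, ← hU1, ← hU2, ← hB0, ← hA1, ← hA2, ← hB2]
      simp only [map_add, map_smul, LinearMap.add_apply, LinearMap.smul_apply, dotProduct_add, add_dotProduct,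
        smul_dotProduct, dotProduct_smul, smul_eq_mul, hu3]
      ring)
    (indep hdet) _ _ _ hcoord hαd hst hfd
    (by
      intro c hc
      have : (fun i => c * ((E u i : ℝ) : ℂ)) = c • emb ℂ (E u) := by
        funext i; simp [emb]
      rw [this, hgB]
      rw [Finset.prod_ne_zero_iff]
      intro p hp
      obtain ⟨μ1, h1, e1⟩ := Θ.newE_orig hE κ hκU hκW hκQ ℂ c hc p.1
      obtain ⟨μ2, h2, e2⟩ := Θ.newE_orig hE κ hκU hκW hκQ ℂ c hc p.2
      rw [e1, e2, smul_dotProduct, dotProduct_smul, emb_dot, smul_eq_mul, smul_eq_mul]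
      apply mul_ne_zero h1 (mul_ne_zero h2 _)
      rw [hS, Finset.mem_filter] at hp
      intro h0
      apply hp.2.2
      rw [← hE.2 _ _ hp.2.1]
      exact (map_eq_zero (algebraMap ℝ ℂ)).mp h0)
  refine ⟨newE ℝ E κ Θ.k Θ.e x, ?_, ?_, ?_⟩
  · have hnon : ∀ y z, G.col y ≠ G.col z → ¬ G.adj y z →
        newE ℝ E κ Θ.k Θ.e x y ⬝ᵥ newE ℝ E κ Θ.k Θ.e x z ≠ 0 := by
      intro y z h1 h2
      have h3 := hgB ℝ x
      rw [MvPolynomial.aeval_eq_eval] at h3
      rw [h3, Finset.prod_ne_zero_iff] at hx2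
      exact hx2 (y, z) (by rw [hS, Finset.mem_filter]; exact ⟨Finset.mem_univ _, h1, h2⟩)
    constructor
    · intro w h0
      obtain ⟨z, hz1, hz2⟩ := G.exists_non w
      apply hnon w z hz1 hz2
      rw [h0]; simp
    · intro y z hyz
      constructor
      · intro h0
        by_contra hna
        exact hnon y z hyz hna h0
      · intro hadj
        exact Θ.incid hE κ hκU hκW hκQ hκN x hx1 y z hadj
  · intro w h1 h2 h3
    unfold newE
    rw [(hκN w).mpr ⟨h1, h2, h3⟩]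
    simp only
    rw [emb_real]
  · intro c
    have : newE ℝ E κ Θ.k Θ.e x u = x := by
      unfold newE; rw [(hκU u).mpr rfl]
    rw [this]
    exact hx3 c

def Eqv (G : Cfg V) (E E' : V → Fin 3 → ℝ) : Prop :=
  ∃ g : Matrix (Fin 3) (Fin 3) ℝ, g.det ≠ 0 ∧
    (∀ p, G.col p = true → ∃ c : ℝ, c ≠ 0 ∧ E' p = c • (g *ᵥ E p)) ∧
    (∀ l, G.col l = false → ∃ c : ℝ, c ≠ 0 ∧ gᵀ *ᵥ E' l = c • E l)

theorem transpose_scalar {g : Matrix (Fin 3) (Fin 3) ℝ} {lam : ℝ} (h : ∀ x, g *ᵥ x = lam • x) (y : Fin 3 → ℝ) :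
    gᵀ *ᵥ y = lam • y := by
  funext i
  have h1 := h (Pi.single i 1)
  have : (gᵀ *ᵥ y) i = (g *ᵥ (Pi.single i 1)) ⬝ᵥ y := by
    simp [Matrix.mulVec, dotProduct, Matrix.transpose_apply, Pi.single_apply]
  rw [this, h1]
  simp [dotProduct, Pi.single_apply]

theorem scalar_of_eigen {M : Matrix (Fin 3) (Fin 3) ℝ} {a b d : Fin 3 → ℝ} {lam : ℝ}
    (hdet : a ⬝ᵥ (b ⨯₃ d) ≠ 0) (ha : M *ᵥ a = lam • a) (hb : M *ᵥ b = lam • b) (hd : M *ᵥ d = lam • d)
    (x : Fin 3 → ℝ) : M *ᵥ x = lam • x := by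
  have h := coord hdet x
  set α := (x ⬝ᵥ (b ⨯₃ d)) / (a ⬝ᵥ (b ⨯₃ d))
  set β := (a ⬝ᵥ (x ⨯₃ d)) / (a ⬝ᵥ (b ⨯₃ d))
  set γ := (a ⬝ᵥ (b ⨯₃ x)) / (a ⬝ᵥ (b ⨯₃ d))
  rw [h]
  simp only [Matrix.mulVec_add, Matrix.mulVec_smul, ha, hb, hd, smul_add, smul_smul]
  congr 1
  · congr 1
    · rw [mul_comm]
    · rw [mul_comm]
  · rw [mul_comm]

theorem frameA {g : Matrix (Fin 3) (Fin 3) ℝ} {a b d m : Fin 3 → ℝ} {α β γ μ : ℝ}
    (hdet : a ⬝ᵥ (b ⨯₃ d) ≠ 0) (ha : g *ᵥ a = α • a) (hb : g *ᵥ b = β • b) (hd : g *ᵥ d = γ • d)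
    (hm : gᵀ *ᵥ m = μ • m) (ham : a ⬝ᵥ m ≠ 0) (hbm : b ⬝ᵥ m ≠ 0) (hdm : d ⬝ᵥ m ≠ 0)
    (x : Fin 3 → ℝ) : g *ᵥ x = μ • x := by
  have key : ∀ y : Fin 3 → ℝ, (g *ᵥ y) ⬝ᵥ m = μ * (y ⬝ᵥ m) := by
    intro y
    rw [dotProduct_comm, Matrix.dotProduct_mulVec, ← Matrix.mulVec_transpose, hm, smul_dotProduct, smul_eq_mul,
      dotProduct_comm]
  have e : ∀ (y : Fin 3 → ℝ) (c : ℝ), g *ᵥ y = c • y → y ⬝ᵥ m ≠ 0 → c = μ := by
    intro y c h1 h2
    have h3 := key y
    rw [h1, smul_dotProduct, smul_eq_mul] at h3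
    exact mul_right_cancel₀ h2 h3
  rw [e a α ha ham] at ha
  rw [e b β hb hbm] at hb
  rw [e d γ hd hdm] at hd
  exact scalar_of_eigen hdet ha hb hd x

theorem frameB {g : Matrix (Fin 3) (Fin 3) ℝ} {a b d u : Fin 3 → ℝ} {α β γ μ : ℝ}
    (hdet : a ⬝ᵥ (b ⨯₃ d) ≠ 0) (ha : g *ᵥ a = α • a) (hb : g *ᵥ b = β • b) (hd : g *ᵥ d = γ • d)
    (hu : g *ᵥ u = μ • u) (h1 : u ⬝ᵥ (b ⨯₃ d) ≠ 0) (h2 : a ⬝ᵥ (u ⨯₃ d) ≠ 0) (h3 : a ⬝ᵥ (b ⨯₃ u) ≠ 0)
    (x : Fin 3 → ℝ) : g *ᵥ x = μ • x := by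
  have h := coord hdet u
  set s1 := (u ⬝ᵥ (b ⨯₃ d)) / (a ⬝ᵥ (b ⨯₃ d)) with hs1
  set s2 := (a ⬝ᵥ (u ⨯₃ d)) / (a ⬝ᵥ (b ⨯₃ d)) with hs2
  set s3 := (a ⬝ᵥ (b ⨯₃ u)) / (a ⬝ᵥ (b ⨯₃ d)) with hs3
  have n1 : s1 ≠ 0 := div_ne_zero h1 hdet
  have n2 : s2 ≠ 0 := div_ne_zero h2 hdet
  have n3 : s3 ≠ 0 := div_ne_zero h3 hdet
  have e : (s1 * (α - μ)) • a + (s2 * (β - μ)) • b + (s3 * (γ - μ)) • d = 0 := by
    have h4 := hu
    rw [h] at h4
    simp only [Matrix.mulVec_add, Matrix.mulVec_smul, ha, hb, hd, smul_add, smul_smul] at h4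
    have h5 := sub_eq_zero.mpr h4
    rw [← h5]
    funext i
    simp only [Pi.add_apply, Pi.sub_apply, Pi.smul_apply, smul_eq_mul]
    ring
  obtain ⟨e1, e2, e3⟩ := indep hdet _ _ _ e
  have f1 : α = μ := by
    rcases mul_eq_zero.mp e1 with h' | h'
    · exact absurd h' n1
    · linarith
  have f2 : β = μ := by
    rcases mul_eq_zero.mp e2 with h' | h'
    · exact absurd h' n2
    · linarith
  have f3 : γ = μ := by
    rcases mul_eq_zero.mp e3 with h' | h'
    · exact absurd h' n3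
    · linarith
  rw [f1] at ha; rw [f2] at hb; rw [f3] at hd
  exact scalar_of_eigen hdet ha hb hd x

/-- if three lines through the point x are eigenvectors then the whole pencil is an eigenspace -/
theorem IsRep.pencil {G : Cfg V} {E : V → Fin 3 → ℝ} (h : IsRep G E) {M : Matrix (Fin 3) (Fin 3) ℝ} {x : V}
    (heig : ∀ y, G.adj x y → ∃ c : ℝ, M *ᵥ E y = c • E y) :
    ∃ lam : ℝ, ∀ w : Fin 3 → ℝ, w ⬝ᵥ E x = 0 → M *ᵥ w = lam • w := by
  obtain ⟨y1, y2, y3, h12, h13, h23, a1, a2, a3, _⟩ := G.three x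
  obtain ⟨c1, e1⟩ := heig y1 a1
  obtain ⟨c2, e2⟩ := heig y2 a2
  obtain ⟨c3, e3⟩ := heig y3 a3
  obtain ⟨c, hc, hx⟩ := h.cross_smul h12 (G.symm a1) (G.symm a2)
  have hxx : E x ⬝ᵥ E x ≠ 0 := by
    rw [dot3]; exact sq_ne_zero3 (h.1 x)
  have hdet : E x ⬝ᵥ (E y1 ⨯₃ E y2) ≠ 0 := by
    rw [hx, dotProduct_smul, smul_eq_mul]
    exact mul_ne_zero hc hxx
  have hw : ∀ w : Fin 3 → ℝ, w ⬝ᵥ E x = 0 → w = ((E x ⬝ᵥ (w ⨯₃ E y2)) / (E x ⬝ᵥ (E y1 ⨯₃ E y2))) • E y1
      + ((E x ⬝ᵥ (E y1 ⨯₃ w)) / (E x ⬝ᵥ (E y1 ⨯₃ E y2))) • E y2 := by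
    intro w hw0
    have h1 := coord hdet w
    have h2 : w ⬝ᵥ (E y1 ⨯₃ E y2) = 0 := by
      rw [hx, dotProduct_smul, hw0, smul_zero]
    rw [h2, zero_div, zero_smul, zero_add] at h1
    exact h1
  have h3 := hw (E y3) (by rw [dotProduct_comm]; exact h.dot a3)
  set s := (E x ⬝ᵥ (E y3 ⨯₃ E y2)) / (E x ⬝ᵥ (E y1 ⨯₃ E y2)) with hs
  set t := (E x ⬝ᵥ (E y1 ⨯₃ E y3)) / (E x ⬝ᵥ (E y1 ⨯₃ E y2)) with ht
  have hs0 : s ≠ 0 := by
    apply div_ne_zero _ hdet
    obtain ⟨c', hc', hx'⟩ := h.cross_smul h23.symm (G.symm a3) (G.symm a2)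
    rw [hx', dotProduct_smul, smul_eq_mul]
    exact mul_ne_zero hc' hxx
  have ht0 : t ≠ 0 := by
    apply div_ne_zero _ hdet
    obtain ⟨c', hc', hx'⟩ := h.cross_smul h13 (G.symm a1) (G.symm a3)
    rw [hx', dotProduct_smul, smul_eq_mul]
    exact mul_ne_zero hc' hxx
  have e4 : (0:ℝ) • E x + (s * (c1 - c3)) • E y1 + (t * (c2 - c3)) • E y2 = 0 := by
    have e5 := e3
    rw [h3] at e5
    simp only [Matrix.mulVec_add, Matrix.mulVec_smul, e1, e2, smul_add, smul_smul] at e5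
    have h5 := sub_eq_zero.mpr e5
    rw [← h5]
    funext i
    simp only [Pi.add_apply, Pi.sub_apply, Pi.smul_apply, smul_eq_mul]
    ring
  obtain ⟨_, k1, k2⟩ := indep hdet _ _ _ e4
  have f1 : c1 = c3 := by
    rcases mul_eq_zero.mp k1 with h' | h'
    · exact absurd h' hs0
    · linarith
  have f2 : c2 = c3 := by
    rcases mul_eq_zero.mp k2 with h' | h'
    · exact absurd h' ht0
    · linarith
  refine ⟨c3, ?_⟩
  intro w hw0
  have h6 := hw w hw0
  rw [h6]
  simp only [Matrix.mulVec_add, Matrix.mulVec_smul, e1, e2, smul_add, smul_smul, f1, f2]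
  congr 1
  · rw [mul_comm]
  · rw [mul_comm]

theorem IsRep.scalar_of_two {G : Cfg V} {E : V → Fin 3 → ℝ} (h : IsRep G E) {M : Matrix (Fin 3) (Fin 3) ℝ} {x x' : V}
    (hne : x ≠ x') (hcol : G.col x = G.col x')
    (h1 : ∀ y, G.adj x y → ∃ c : ℝ, M *ᵥ E y = c • E y)
    (h2 : ∀ y, G.adj x' y → ∃ c : ℝ, M *ᵥ E y = c • E y) :
    ∃ lam : ℝ, M = lam • (1 : Matrix (Fin 3) (Fin 3) ℝ) := by
  obtain ⟨lam, hl⟩ := h.pencil h1
  obtain ⟨lam', hl'⟩ := h.pencil h2
  have hw := h.cross_ne hne hcol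
  have e1 := hl (E x ⨯₃ E x') (by rw [dotProduct_comm]; exact triple_self _ _)
  have e2 := hl' (E x ⨯₃ E x') (by rw [dotProduct_comm]; exact triple_self' _ _)
  have hll : lam = lam' := by
    rw [e1] at e2
    have : (lam - lam') • (E x ⨯₃ E x') = 0 := by rw [sub_smul, e2, sub_self]
    rcases smul_eq_zero.mp this with h' | h'
    · linarith
    · exact absurd h' hw
  subst hll
  obtain ⟨y1, y2, y3, h12, h13, h23, a1, a2, a3, _⟩ := G.three x
  obtain ⟨z1, z2, z3, g12, g13, g23, b1, b2, b3, _⟩ := G.three x'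
  obtain ⟨z, hz, hzn⟩ : ∃ z, G.adj x' z ∧ ¬ G.adj x z := by
    by_cases hh : G.adj x z1
    · refine ⟨z2, b2, fun hh2 => G.lin hne g12 hh hh2 b1 b2⟩
    · exact ⟨z1, b1, hh⟩
  have hcz : G.col x ≠ G.col z := by rw [hcol]; exact G.bip hz
  obtain ⟨c, hc, hx⟩ := h.cross_smul h12 (G.symm a1) (G.symm a2)
  have hdet : E z ⬝ᵥ (E y1 ⨯₃ E y2) ≠ 0 := by
    rw [hx, dotProduct_smul, smul_eq_mul]
    apply mul_ne_zero hc
    intro h0
    apply hzn
    rw [← h.2 x z hcz, dotProduct_comm]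
    exact h0
  have hall := scalar_of_eigen hdet (hl' (E z) (by rw [dotProduct_comm]; exact h.dot hz))
    (hl (E y1) (by rw [dotProduct_comm]; exact h.dot a1)) (hl (E y2) (by rw [dotProduct_comm]; exact h.dot a2))
  refine ⟨lam, ?_⟩
  ext i j
  have := congrFun (hall (Pi.single j 1)) i
  simp only [Matrix.mulVec_single_one, Pi.smul_apply, smul_eq_mul, Matrix.col_apply] at this
  rw [this, Matrix.smul_apply, Matrix.one_apply, smul_eq_mul, Pi.single_apply]

theorem adj_pair (N : Matrix (Fin 3) (Fin 3) ℝ) (x y : Fin 3 → ℝ) :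
    ((N.adjugate)ᵀ *ᵥ x) ⬝ᵥ (N *ᵥ y) = N.det * (x ⬝ᵥ y) := by
  rw [Matrix.mulVec_transpose, ← Matrix.dotProduct_mulVec, Matrix.mulVec_mulVec, Matrix.adjugate_mul,
    Matrix.smul_mulVec, Matrix.one_mulVec, dotProduct_smul, smul_eq_mul]

/-- there is a non scalar solution of at most seven linear conditions -/
theorem exists_nonscalar {ι : Type} [Fintype ι] (hι : Fintype.card ι ≤ 7) (p l : ι → (Fin 3 → ℝ)) :
    ∃ M : Matrix (Fin 3) (Fin 3) ℝ, (∀ o, p o ⬝ᵥ (M *ᵥ l o) = 0) ∧ ∀ lam : ℝ, M ≠ lam • (1 : Matrix (Fin 3) (Fin 3) ℝ) := by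
  classical
  set Φ : Matrix (Fin 3) (Fin 3) ℝ →ₗ[ℝ] (ι → ℝ) :=
    { toFun := fun M o => p o ⬝ᵥ (M *ᵥ l o)
      map_add' := by
        intro M N
        funext o
        simp [Matrix.add_mulVec, dotProduct_add]
      map_smul' := by
        intro c M
        funext o
        simp [Matrix.smul_mulVec, dotProduct_smul] } with hΦ
  have h1 := LinearMap.finrank_range_add_finrank_ker Φ
  have h2 : Module.finrank ℝ (Matrix (Fin 3) (Fin 3) ℝ) = 9 := by
    rw [Module.finrank_matrix]; simp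
  have h3 : Module.finrank ℝ (LinearMap.range Φ) ≤ 7 := by
    calc Module.finrank ℝ (LinearMap.range Φ) ≤ Module.finrank ℝ (ι → ℝ) := Submodule.finrank_le _
      _ = Fintype.card ι := by simp
      _ ≤ 7 := hι
  have h4 : 2 ≤ Module.finrank ℝ (LinearMap.ker Φ) := by omega
  by_contra hcon
  push Not at hcon
  have h5 : LinearMap.ker Φ ≤ Submodule.span ℝ {(1 : Matrix (Fin 3) (Fin 3) ℝ)} := by
    intro M hM
    rw [LinearMap.mem_ker] at hM
    obtain ⟨lam, hlam⟩ := hcon M (fun o => congrFun hM o)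
    rw [hlam]
    exact Submodule.smul_mem _ _ (Submodule.mem_span_singleton_self _)
  have h6 : Module.finrank ℝ (LinearMap.ker Φ) ≤ 1 := by
    calc Module.finrank ℝ (LinearMap.ker Φ) ≤ Module.finrank ℝ (Submodule.span ℝ {(1 : Matrix (Fin 3) (Fin 3) ℝ)}) :=
          Submodule.finrank_mono h5
      _ ≤ 1 := (finrank_span_le_card ({(1 : Matrix (Fin 3) (Fin 3) ℝ)} : Set _)).trans (by simp)
  omega

theorem move [Fintype V] (G : Cfg V) (E : V → Fin 3 → ℝ) (hE : IsRep G E) (S : Set V)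
    (closed : ∀ p, p ∈ S → G.col p = true → ∀ l, G.adj p l → l ∈ S)
    (O : Finset (V × V)) (hO : ∀ l p, l ∈ S → G.col l = false → p ∉ S → G.adj l p → (l, p) ∈ O)
    (hcard : O.card ≤ 7)
    (a b d u : V) (ha : a ∉ S) (hb : b ∉ S) (hd : d ∉ S) (hu : u ∉ S)
    (ca : G.col a = true) (cb : G.col b = true) (cd : G.col d = true) (cu : G.col u = true)
    (hdet : E a ⬝ᵥ (E b ⨯₃ E d) ≠ 0) (h1 : E u ⬝ᵥ (E b ⨯₃ E d) ≠ 0) (h2 : E a ⬝ᵥ (E u ⨯₃ E d) ≠ 0)
    (h3 : E a ⬝ᵥ (E b ⨯₃ E u) ≠ 0)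
    (x x' : V) (hx : x ∈ S) (hx' : x' ∈ S) (hne : x ≠ x') (cx : G.col x = true) (cx' : G.col x' = true) :
    ∃ E', IsRep G E' ∧ ¬ Eqv G E E' := by
  classical
  -- keep only the real outgoing pairs
  set O' : Finset (V × V) := O.filter (fun o => G.adj o.1 o.2 ∧ o.1 ∈ S ∧ G.col o.1 = false ∧ o.2 ∉ S) with hO'
  have hcard' : Fintype.card O' ≤ 7 := by
    rw [Fintype.card_coe]
    exact (Finset.card_filter_le _ _).trans hcard
  obtain ⟨M, hM, hMs⟩ := exists_nonscalar hcard' (fun o => E o.1.2) (fun o => E o.1.1)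
  set N : ℝ → Matrix (Fin 3) (Fin 3) ℝ := fun t => 1 + t • M with hN
  set F : ℝ → V → (Fin 3 → ℝ) := fun t w =>
    if w ∈ S then (if G.col w = true then ((N t).adjugate)ᵀ *ᵥ E w else N t *ᵥ E w) else E w with hF
  have hF0 : F 0 = E := by
    funext w
    simp only [hF, hN, zero_smul, add_zero, Matrix.adjugate_one, Matrix.transpose_one, Matrix.one_mulVec, ite_self]
  have hNc : Continuous N := by
    simp only [hN]; fun_prop
  have hFc : ∀ w, Continuous (fun t => F t w) := by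
    intro w
    simp only [hF]
    split_ifs
    · exact Continuous.matrix_mulVec (Continuous.matrix_transpose (Continuous.matrix_adjugate hNc)) continuous_const
    · exact Continuous.matrix_mulVec hNc continuous_const
    · exact continuous_const
  have hpair : ∀ y z, Continuous (fun t => F t y ⬝ᵥ F t z) := by
    intro y z
    exact Continuous.dotProduct (hFc y) (hFc z)
  have ev : ∀ᶠ t in nhds (0:ℝ), (N t).det ≠ 0 ∧ ∀ yz : V × V, G.col yz.1 ≠ G.col yz.2 → ¬ G.adj yz.1 yz.2 →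
      F t yz.1 ⬝ᵥ F t yz.2 ≠ 0 := by
    rw [Filter.eventually_and]
    constructor
    · have hc : Continuous (fun t => (N t).det) := Continuous.matrix_det hNc
      have h0 : (N 0).det ≠ 0 := by simp [hN]
      exact hc.continuousAt.eventually_ne h0
    · rw [Filter.eventually_all]
      intro yz
      by_cases hc : G.col yz.1 ≠ G.col yz.2
      · by_cases hadj : G.adj yz.1 yz.2
        · exact Filter.Eventually.of_forall (fun t _ h => absurd hadj h)
        · have h0 : F 0 yz.1 ⬝ᵥ F 0 yz.2 ≠ 0 := by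
            rw [hF0]
            intro h
            exact hadj ((hE.2 _ _ hc).mp h)
          have := (hpair yz.1 yz.2).continuousAt.eventually_ne h0
          exact this.mono (fun t ht _ _ => ht)
      · exact Filter.Eventually.of_forall (fun t h => absurd h hc)
  have ev2 : ∀ᶠ t in nhdsWithin (0:ℝ) {0}ᶜ, t ≠ 0 ∧ (N t).det ≠ 0 ∧ ∀ yz : V × V, G.col yz.1 ≠ G.col yz.2 → ¬ G.adj yz.1 yz.2 →
      F t yz.1 ⬝ᵥ F t yz.2 ≠ 0 := by
    filter_upwards [self_mem_nhdsWithin, nhdsWithin_le_nhds ev] with t ht1 ht2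
    exact ⟨ht1, ht2⟩
  obtain ⟨t, ht0, htdet, htn⟩ := ev2.exists
  refine ⟨F t, ?_, ?_⟩
  · have hadj0 : ∀ y z, G.col y = true → G.adj y z → F t y ⬝ᵥ F t z = 0 := by
      intro y z hy hyz
      have hz : G.col z = false := by
        have := G.bip hyz
        rw [hy] at this
        cases h : G.col z
        · rfl
        · rw [h] at this; exact absurd rfl this
      by_cases hyS : y ∈ S
      · have hzS := closed y hyS hy z hyz
        simp only [hF, hyS, hzS, if_true, hy, hz]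
        simp only [Bool.false_eq_true, if_false]
        rw [adj_pair, hE.dot hyz, mul_zero]
      · by_cases hzS : z ∈ S
        · simp only [hF, hyS, hzS, if_true, if_false, hz, Bool.false_eq_true]
          have hmem : (z, y) ∈ O' := by
            rw [hO', Finset.mem_filter]
            exact ⟨hO z y hzS hz hyS (G.symm hyz), G.symm hyz, hzS, hz, hyS⟩
          have h4 := hM ⟨(z, y), hmem⟩
          simp only at h4
          simp only [hN, Matrix.add_mulVec, Matrix.one_mulVec, Matrix.smul_mulVec, dotProduct_add, dotProduct_smul,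
            h4, hE.dot hyz, smul_zero, add_zero]
        · simp only [hF, hyS, hzS, if_false]
          exact hE.dot hyz
    have hadj1 : ∀ y z, G.adj y z → F t y ⬝ᵥ F t z = 0 := by
      intro y z hyz
      cases hy : G.col y
      · have hz : G.col z = true := by
          have := G.bip hyz
          rw [hy] at this
          cases h : G.col z
          · rw [h] at this; exact absurd rfl this
          · rfl
        rw [dotProduct_comm]
        exact hadj0 z y hz (G.symm hyz)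
      · exact hadj0 y z hy hyz
    constructor
    · intro w h0
      obtain ⟨z, hz1, hz2⟩ := G.exists_non w
      apply htn (w, z) hz1 hz2
      simp only
      rw [h0]; simp
    · intro y z hyz
      constructor
      · intro h0
        by_contra hna
        exact htn (y, z) hyz hna h0
      · exact hadj1 y z
  · rintro ⟨g, hg, hgp, hgl⟩
    have fix : ∀ w, w ∉ S → G.col w = true → ∃ c : ℝ, g *ᵥ E w = c • E w := by
      intro w hw hcw
      obtain ⟨c, hc, h⟩ := hgp w hcw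
      have : F t w = E w := by simp only [hF, hw, if_false]
      rw [this] at h
      refine ⟨c⁻¹, ?_⟩
      conv_rhs => rw [h]
      rw [smul_smul, inv_mul_cancel₀ hc, one_smul]
    obtain ⟨ga, ea⟩ := fix a ha ca
    obtain ⟨gb, eb⟩ := fix b hb cb
    obtain ⟨gd, ed⟩ := fix d hd cd
    obtain ⟨gu, eu⟩ := fix u hu cu
    have hsc := frameB hdet ea eb ed eu h1 h2 h3
    have hlam : gu ≠ 0 := by
      intro h0
      apply hg
      rw [h0] at hsc
      have : g = 0 := by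
        ext i j
        have := congrFun (hsc (Pi.single j 1)) i
        simp only [Matrix.mulVec_single_one, zero_smul, Matrix.col_apply] at this
        simpa using this
      rw [this]; simp
    have hline : ∀ l, l ∈ S → G.col l = false → ∃ c : ℝ, M *ᵥ E l = c • E l := by
      intro l hl hcl
      obtain ⟨c, hc, h⟩ := hgl l hcl
      rw [transpose_scalar hsc] at h
      have h5 : F t l = N t *ᵥ E l := by
        simp only [hF, hl, if_true, hcl, Bool.false_eq_true, if_false]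
      rw [h5] at h
      simp only [hN, Matrix.add_mulVec, Matrix.one_mulVec, Matrix.smul_mulVec, smul_add, smul_smul] at h
      refine ⟨(gu * t)⁻¹ * (c - gu), ?_⟩
      have h6 : (gu * t) • (M *ᵥ E l) = (c - gu) • E l := by
        rw [sub_smul, ← h]; abel
      rw [mul_smul, ← h6, inv_smul_smul₀ (mul_ne_zero hlam ht0)]
    obtain ⟨lam, hlam2⟩ := hE.scalar_of_two (M := M) hne (by rw [cx, cx'])
      (fun y hy => hline y (closed x hx cx y hy) (by
        have := G.bip hy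
        rw [cx] at this
        cases h : G.col y
        · rfl
        · rw [h] at this; exact absurd rfl this))
      (fun y hy => hline y (closed x' hx' cx' y hy) (by
        have := G.bip hy
        rw [cx'] at this
        cases h : G.col y
        · rfl
        · rw [h] at this; exact absurd rfl this))
    exact hMs lam hlam2

def Reach (A : V → V → Prop) : ℕ → V → V → Prop
  | 0, x, y => x = y
  | n + 1, x, y => ∃ z, Reach A n x z ∧ A z y

theorem Reach.trans {A : V → V → Prop} {i : ℕ} {x y : V} (h : Reach A i x y) :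
    ∀ {j : ℕ} {z : V}, Reach A j y z → Reach A (i + j) x z := by
  intro j
  induction j with
  | zero => intro z hz; simp only [Reach] at hz; subst hz; exact h
  | succ j ih =>
    intro z hz
    obtain ⟨w, hw, hA⟩ := hz
    exact ⟨w, ih hw, hA⟩

theorem Reach.one {A : V → V → Prop} {x y : V} (h : A x y) : Reach A 1 x y := ⟨x, rfl, h⟩

theorem Reach.mono {A B : V → V → Prop} (h : ∀ x y, A x y → B x y) :
    ∀ {n : ℕ} {x y : V}, Reach A n x y → Reach B n x y := by
  intro n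
  induction n with
  | zero => intro x y hxy; exact hxy
  | succ n ih =>
    intro x y hxy
    obtain ⟨z, hz, hA⟩ := hxy
    exact ⟨z, ih hz, h _ _ hA⟩

theorem Reach.seq {A : V → V → Prop} : ∀ {n : ℕ} {x y : V}, Reach A n x y →
    ∃ q : ℕ → V, q 0 = x ∧ q n = y ∧ ∀ j < n, A (q j) (q (j+1)) := by
  intro n
  induction n with
  | zero => intro x y hxy; exact ⟨fun _ => x, rfl, hxy, fun j hj => absurd hj (by omega)⟩
  | succ n ih =>
    intro x y hxy
    obtain ⟨z, hz, hA⟩ := hxy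
    obtain ⟨q, h0, hn, hs⟩ := ih hz
    refine ⟨fun j => if j ≤ n then q j else y, by simp [h0], by simp, ?_⟩
    intro j hj
    rcases Nat.lt_or_ge j n with h | h
    · have h1 : j ≤ n := by omega
      have h2 : j + 1 ≤ n := by omega
      simp only [h1, h2, if_true]
      exact hs j h
    · have h1 : j = n := by omega
      subst h1
      have h2 : ¬ (j + 1 ≤ j) := by omega
      simp only [le_refl, h2, if_true, if_false]
      rw [hn]; exact hA

theorem reach_of_seq {A : V → V → Prop} {q : ℕ → V} {n : ℕ} (h : ∀ j < n, A (q j) (q (j+1))) :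
    ∀ i j, i ≤ j → j ≤ n → Reach A (j - i) (q i) (q j) := by
  intro i j
  induction j with
  | zero =>
    intro h1 _
    have : i = 0 := by omega
    subst this
    rfl
  | succ j ih =>
    intro h1 h2
    rcases Nat.lt_or_ge j i with h3 | h3
    · have : i = j + 1 := by omega
      subst this
      rw [Nat.sub_self]
      rfl
    · have h4 : j + 1 - i = (j - i) + 1 := by omega
      rw [h4]
      exact ⟨q j, ih h3 (by omega), h j (by omega)⟩

theorem geo {A : V → V → Prop} {s : V} {T : V → Prop} (h : ∃ n y, T y ∧ Reach A n s y) :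
    ∃ (K : ℕ) (q : ℕ → V), q 0 = s ∧ T (q K) ∧ (∀ j < K, A (q j) (q (j+1))) ∧
      (∀ i j ℓ, i ≤ j → j ≤ K → Reach A ℓ (q i) (q j) → j - i ≤ ℓ) ∧ (∀ j < K, ¬ T (q j)) := by
  classical
  obtain ⟨y, hy, hr⟩ := Nat.find_spec h
  have hmin : ∀ n y, T y → Reach A n s y → Nat.find h ≤ n := by
    intro n y h1 h2
    exact Nat.find_min' h ⟨y, h1, h2⟩
  obtain ⟨q, h0, hn, hs⟩ := hr.seq
  refine ⟨Nat.find h, q, h0, by rw [hn]; exact hy, hs, ?_, ?_⟩
  · intro i j ℓ hij hj hre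
    have h1 : Reach A (i - 0) (q 0) (q i) := reach_of_seq hs 0 i (by omega) (by omega)
    have h2 : Reach A (Nat.find h - j) (q j) (q (Nat.find h)) := reach_of_seq hs j _ hj le_rfl
    rw [h0] at h1
    have h3 := (h1.trans hre).trans h2
    rw [hn] at h3
    have := hmin _ y hy h3
    omega
  · intro j hj hT
    have h1 : Reach A (j - 0) (q 0) (q j) := reach_of_seq hs 0 j (by omega) (by omega)
    rw [h0] at h1
    have := hmin _ _ hT h1
    omega

theorem Cfg.third (G : Cfg V) (h x y : V) : ∃ e, G.adj h e ∧ e ≠ x ∧ e ≠ y := by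
  obtain ⟨y1, y2, y3, h12, h13, h23, a1, a2, a3, _⟩ := G.three h
  by_cases h1 : y1 ≠ x ∧ y1 ≠ y
  · exact ⟨y1, a1, h1⟩
  · by_cases h2 : y2 ≠ x ∧ y2 ≠ y
    · exact ⟨y2, a2, h2⟩
    · refine ⟨y3, a3, ?_, ?_⟩
      · rintro rfl
        push Not at h1 h2
        have e1 := h1 h13
        have e2 := h2 h23
        exact h12 (e1.trans e2.symm)
      · rintro rfl
        have e1 : y1 = x := by
          by_contra hne; exact h1 ⟨hne, h13⟩
        have e2 : y2 = x := by
          by_contra hne; exact h2 ⟨hne, h23⟩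
        exact h12 (e1.trans e2.symm)

theorem exists_theta (G : Cfg V) (W : Set V) (u l0 l1 l2 x0 x1 x2 y0 y1 y2 : V)
    (hl01 : l0 ≠ l1) (hl02 : l0 ≠ l2) (hl12 : l1 ≠ l2)
    (au0 : G.adj u l0) (au1 : G.adj u l1) (au2 : G.adj u l2)
    (ax0 : G.adj l0 x0) (ax1 : G.adj l1 x1) (ax2 : G.adj l2 x2)
    (ay0 : G.adj l0 y0) (ay1 : G.adj l1 y1) (ay2 : G.adj l2 y2)
    (ux0 : u ≠ x0) (ux1 : u ≠ x1) (ux2 : u ≠ x2) (uy0 : u ≠ y0) (uy1 : u ≠ y1) (uy2 : u ≠ y2)
    (xy0 : x0 ≠ y0) (xy1 : x1 ≠ y1) (xy2 : x2 ≠ y2)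
    (uW : u ∉ W) (l0W : l0 ∉ W) (l1W : l1 ∉ W) (l2W : l2 ∉ W)
    (x0W : x0 ∈ W) (x1W : x1 ∈ W) (x2W : x2 ∈ W) (y0W : y0 ∉ W) (y1W : y1 ∉ W) (y2W : y2 ∉ W)
    (c01 : ∃ n, Reach (fun x y => G.adj x y ∧ x ∈ W ∧ y ∈ W) n x0 x1)
    (c20 : ∃ n, Reach (fun x y => G.adj x y ∧ x ∈ W ∧ y ∈ W) n x2 x0) :
    ∃ (v : V) (Θ : Theta G u v), Θ.e 0 0 = y0 ∧ Θ.e 1 0 = y1 ∧ Θ.e 2 0 = y2 ∧ v ∈ W ∧
      (∀ i j, j ≤ Θ.k i → Θ.q i j ∈ W ∨ Θ.q i j = l0 ∨ Θ.q i j = l1 ∨ Θ.q i j = l2) := by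
  classical
  have nb0 : ∀ w, G.adj l0 w → w = u ∨ w = x0 ∨ w = y0 := fun w hw =>
    G.mem_of_three ux0 uy0 xy0 (G.symm au0) ax0 ay0 hw
  have nb1 : ∀ w, G.adj l1 w → w = u ∨ w = x1 ∨ w = y1 := fun w hw =>
    G.mem_of_three ux1 uy1 xy1 (G.symm au1) ax1 ay1 hw
  have nb2 : ∀ w, G.adj l2 w → w = u ∨ w = x2 ∨ w = y2 := fun w hw =>
    G.mem_of_three ux2 uy2 xy2 (G.symm au2) ax2 ay2 hw
  have nbu : ∀ w, G.adj u w → w = l0 ∨ w = l1 ∨ w = l2 := fun w hw =>
    G.mem_of_three hl01 hl02 hl12 au0 au1 au2 hw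
  -- geodesic P
  set A1 : V → V → Prop := fun x y => G.adj x y ∧ (x ∈ W ∨ x = l0 ∨ x = l1) ∧ (y ∈ W ∨ y = l0 ∨ y = l1) with hA1
  have hex1 : ∃ n y, y = l1 ∧ Reach A1 n l0 y := by
    obtain ⟨n, hn⟩ := c01
    have h1 : Reach A1 1 l0 x0 := Reach.one ⟨ax0, Or.inr (Or.inl rfl), Or.inl x0W⟩
    have h2 : Reach A1 n x0 x1 := hn.mono (fun x y h => ⟨h.1, Or.inl h.2.1, Or.inl h.2.2⟩)
    have h3 : Reach A1 1 x1 l1 := Reach.one ⟨G.symm ax1, Or.inl x1W, Or.inr (Or.inr rfl)⟩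
    exact ⟨_, l1, rfl, (h1.trans h2).trans h3⟩
  obtain ⟨N, p, p0, pN, pstep, pshort, _⟩ := geo hex1
  have pinj : ∀ i j, i ≤ N → j ≤ N → p i = p j → i = j := by
    intro i j hi hj h
    rcases Nat.lt_or_ge i j with h1 | h1
    · have := pshort i j 0 h1.le hj h
      omega
    · have := pshort j i 0 h1 hi h.symm
      omega
  have hN0 : N ≠ 0 := by
    rintro rfl
    exact hl01 (p0.symm.trans pN)
  have pW1 : ∀ j, j ≤ N → (p j ∈ W ∨ p j = l0 ∨ p j = l1) := by
    intro j hj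
    rcases Nat.lt_or_ge j N with h | h
    · exact (pstep j h).2.1
    · have : j = N := by omega
      subst this
      exact Or.inr (Or.inr pN)
  have hN1 : N ≠ 1 := by
    rintro rfl
    have h1 := (pstep 0 (by omega)).1
    rw [p0, Nat.zero_add, pN] at h1
    have e1 := G.bip h1
    have e2 := G.bip au0
    have e3 := G.bip au1
    revert e1 e2 e3
    cases G.col l0 <;> cases G.col l1 <;> cases G.col u <;> simp
  have pW : ∀ j, 1 ≤ j → j < N → p j ∈ W := by
    intro j h1 h2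
    rcases pW1 j h2.le with h | h | h
    · exact h
    · exfalso
      have := pinj j 0 h2.le (by omega) (h.trans p0.symm)
      omega
    · exfalso
      have := pinj j N h2.le le_rfl (h.trans pN.symm)
      omega
  have p1 : p 1 = x0 := by
    have h1 := (pstep 0 (by omega)).1
    rw [p0] at h1
    rcases nb0 _ h1 with h | h | h
    · exfalso; have := pW 1 le_rfl (by omega); rw [Nat.zero_add] at h; rw [h] at this; exact uW this
    · exact h
    · exfalso; have := pW 1 le_rfl (by omega); rw [Nat.zero_add] at h; rw [h] at this; exact y0W this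
  have pN1 : p (N - 1) = x1 := by
    have h1 := (pstep (N-1) (by omega)).1
    rw [Nat.sub_add_cancel (by omega), pN] at h1
    rcases nb1 _ (G.symm h1) with h | h | h
    · exfalso; have := pW (N-1) (by omega) (by omega); rw [h] at this; exact uW this
    · exact h
    · exfalso; have := pW (N-1) (by omega) (by omega); rw [h] at this; exact y1W this
  have padj : ∀ i j, i ≤ N → j ≤ N → G.adj (p i) (p j) → j = i + 1 ∨ i = j + 1 := by
    intro i j hi hj h
    have hne : i ≠ j := by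
      rintro rfl
      exact G.bip h rfl
    rcases Nat.lt_or_ge i j with h1 | h1
    · have := pshort i j 1 h1.le hj (Reach.one ⟨h, pW1 i hi, pW1 j hj⟩)
      omega
    · have := pshort j i 1 h1 hi (Reach.one ⟨G.symm h, pW1 j hj, pW1 i hi⟩)
      omega
  have l2P : ∀ j, j ≤ N → l2 ≠ p j := by
    intro j hj h
    rcases pW1 j hj with h1 | h1 | h1
    · rw [← h] at h1; exact l2W h1
    · exact hl02 (h1.symm.trans h.symm)
    · exact hl12 (h1.symm.trans h.symm)
  -- path R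
  set W2 : Set V := {x | (x ∈ W ∨ x = l2) ∧ ∀ j, j ≤ N → x ≠ p j} with hW2
  set A2 : V → V → Prop := fun x y => G.adj x y ∧ x ∈ W2 ∧ y ∈ W2 with hA2
  set T2 : V → Prop := fun y => y ∈ W2 ∧ ∃ j, j ≤ N ∧ G.adj y (p j) with hT2
  have l2W2 : l2 ∈ W2 := ⟨Or.inr rfl, l2P⟩
  have hex2 : ∃ n y, T2 y ∧ Reach A2 n l2 y := by
    obtain ⟨n, hn⟩ := c20
    set A3 : V → V → Prop := fun x y => G.adj x y ∧ (x ∈ W ∨ x = l2) ∧ (y ∈ W ∨ y = l2) with hA3
    have h1 : Reach A3 1 l2 x2 := Reach.one ⟨ax2, Or.inr rfl, Or.inl x2W⟩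
    have h2 : Reach A3 n x2 x0 := hn.mono (fun x y h => ⟨h.1, Or.inl h.2.1, Or.inl h.2.2⟩)
    obtain ⟨c, c0, cn, cs⟩ := (h1.trans h2).seq
    have hex : ∃ m, m ≤ 1 + n ∧ ∃ j, j ≤ N ∧ c m = p j := ⟨1 + n, le_rfl, 1, by omega, by rw [cn, p1]⟩
    obtain ⟨hm1, j, hj, hmj⟩ := Nat.find_spec hex
    have hmin : ∀ i, i < Nat.find hex → ∀ j, j ≤ N → c i ≠ p j := by
      intro i hi j hj h
      exact Nat.find_min hex hi ⟨by omega, j, hj, h⟩
    have hm0 : Nat.find hex ≠ 0 := by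
      intro h0
      rw [h0, c0] at hmj
      exact l2P j hj hmj
    obtain ⟨m, hm⟩ := Nat.exists_eq_succ_of_ne_zero hm0
    rw [Nat.succ_eq_add_one] at hm
    rw [hm] at hmj hmin hm1
    have hcW : ∀ i, i ≤ m → c i ∈ W2 := by
      intro i hi
      exact ⟨(cs i (by omega)).2.1, hmin i (by omega)⟩
    have h3 : Reach A2 (m - 0) (c 0) (c m) := by
      apply reach_of_seq (n := m) _ 0 m (by omega) le_rfl
      intro i hi
      exact ⟨(cs i (by omega)).1, hcW i (by omega), hcW (i+1) (by omega)⟩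
    rw [c0] at h3
    refine ⟨m - 0, c m, ⟨hcW m le_rfl, j, hj, ?_⟩, h3⟩
    have := (cs m (by omega)).1
    rw [hmj] at this
    exact this
  obtain ⟨K, r, r0, rK, rstep, rshort, rearly⟩ := geo hex2
  have rinj : ∀ i j, i ≤ K → j ≤ K → r i = r j → i = j := by
    intro i j hi hj h
    rcases Nat.lt_or_ge i j with h1 | h1
    · have := rshort i j 0 h1.le hj h
      omega
    · have := rshort j i 0 h1 hi h.symm
      omega
  have rW2 : ∀ j, j ≤ K → r j ∈ W2 := by
    intro j hj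
    rcases Nat.lt_or_ge j K with h | h
    · exact (rstep j h).2.1
    · have : j = K := by omega
      subst this
      exact rK.1
  have rP : ∀ i j, i ≤ K → j ≤ N → r i ≠ p j := fun i j hi hj => (rW2 i hi).2 j hj
  have rW : ∀ j, 1 ≤ j → j ≤ K → r j ∈ W := by
    intro j h1 h2
    rcases (rW2 j h2).1 with h | h
    · exact h
    · exfalso
      have := rinj j 0 h2 (by omega) (h.trans r0.symm)
      omega
  have radj : ∀ i j, i ≤ K → j ≤ K → G.adj (r i) (r j) → j = i + 1 ∨ i = j + 1 := by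
    intro i j hi hj h
    have hne : i ≠ j := by
      rintro rfl
      exact G.bip h rfl
    rcases Nat.lt_or_ge i j with h1 | h1
    · have := rshort i j 1 h1.le hj (Reach.one ⟨h, rW2 i hi, rW2 j hj⟩)
      omega
    · have := rshort j i 1 h1 hi (Reach.one ⟨G.symm h, rW2 j hj, rW2 i hi⟩)
      omega
  obtain ⟨_, i0, hi0, hadj0⟩ := rK
  -- uniqueness of the attachment
  have uniq' : ∀ i j, i < j → j ≤ N → G.adj (r K) (p i) → G.adj (r K) (p j) → False := by
    intro i j hij hj h1 h2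
    rcases (rW2 K le_rfl).1 with h | h
    · have h3 : Reach A1 2 (p i) (p j) := by
        have e1 : Reach A1 1 (p i) (r K) := Reach.one ⟨G.symm h1, pW1 i (by omega), Or.inl h⟩
        have e2 : Reach A1 1 (r K) (p j) := Reach.one ⟨h2, Or.inl h, pW1 j hj⟩
        exact e1.trans e2
      have h4 := pshort i j 2 hij.le hj h3
      have h5 : j = i + 1 ∨ j = i + 2 := by omega
      rcases h5 with rfl | rfl
      · have e1 := G.bip h1
        have e2 := G.bip h2
        have e3 := G.bip (pstep i (by omega)).1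
        revert e1 e2 e3
        cases G.col (r K) <;> cases G.col (p i) <;> cases G.col (p (i+1)) <;> simp
      · refine G.lin (x := p i) (y := p (i+2)) (z := p (i+1)) (w := r K) ?_ ?_ (pstep i (by omega)).1 (G.symm h1)
          (G.symm (pstep (i+1) (by omega)).1) (G.symm h2)
        · intro h
          have := pinj i (i+2) (by omega) hj h
          omega
        · intro h
          exact rP K (i+1) le_rfl (by omega) h.symm
    · rw [h] at h1 h2
      have e : ∀ m, m ≤ N → G.adj l2 (p m) → p m = x2 := by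
        intro m hm hadj
        rcases nb2 _ hadj with h3 | h3 | h3
        · exfalso
          rcases pW1 m hm with h4 | h4 | h4
          · rw [h3] at h4; exact uW h4
          · rw [h3] at h4; rw [← h4] at au0; exact G.bip au0 rfl
          · rw [h3] at h4; rw [← h4] at au1; exact G.bip au1 rfl
        · exact h3
        · exfalso
          rcases pW1 m hm with h4 | h4 | h4
          · rw [h3] at h4; exact y2W h4
          · rw [h3] at h4
            have e1 := G.bip ay2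
            have e2 := G.bip au0
            have e3 := G.bip au2
            rw [h4] at e1
            revert e1 e2 e3
            cases G.col l0 <;> cases G.col l2 <;> cases G.col u <;> simp
          · rw [h3] at h4
            have e1 := G.bip ay2
            have e2 := G.bip au1
            have e3 := G.bip au2
            rw [h4] at e1
            revert e1 e2 e3
            cases G.col l1 <;> cases G.col l2 <;> cases G.col u <;> simp
      have := pinj i j (by omega) hj ((e i (by omega) h1).trans (e j hj h2).symm)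
      omega
  have uniq : ∀ i, i ≤ N → G.adj (r K) (p i) → i = i0 := by
    intro i hi h
    rcases Nat.lt_trichotomy i i0 with h1 | h1 | h1
    · exact absurd h (fun h => uniq' i i0 h1 hi0 h hadj0)
    · exact h1
    · exact absurd h (fun h => uniq' i0 i h1 hi hadj0 h)
  have colr : G.col (r K) ≠ G.col (p i0) := G.bip hadj0
  have i0pos : i0 ≠ 0 := by
    rintro rfl
    rw [p0] at hadj0
    rcases nb0 _ (G.symm hadj0) with h | h | h
    · rcases (rW2 K le_rfl).1 with h1 | h1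
      · rw [h] at h1; exact uW h1
      · rw [h] at h1; rw [← h1] at au2; exact G.bip au2 rfl
    · exact rP K 1 le_rfl (by omega) (h.trans p1.symm)
    · rcases (rW2 K le_rfl).1 with h1 | h1
      · rw [h] at h1; exact y0W h1
      · rw [h1] at hadj0
        have e1 := G.bip hadj0
        have e2 := G.bip au0
        have e3 := G.bip au2
        revert e1 e2 e3
        cases G.col l0 <;> cases G.col l2 <;> cases G.col u <;> simp
  have i0N : i0 ≠ N := by
    rintro rfl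
    rw [pN] at hadj0
    rcases nb1 _ (G.symm hadj0) with h | h | h
    · rcases (rW2 K le_rfl).1 with h1 | h1
      · rw [h] at h1; exact uW h1
      · rw [h] at h1; rw [← h1] at au2; exact G.bip au2 rfl
    · exact rP K (i0-1) le_rfl (by omega) (h.trans pN1.symm)
    · rcases (rW2 K le_rfl).1 with h1 | h1
      · rw [h] at h1; exact y1W h1
      · rw [h1] at hadj0
        have e1 := G.bip hadj0
        have e2 := G.bip au1
        have e3 := G.bip au2
        revert e1 e2 e3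
        cases G.col l1 <;> cases G.col l2 <;> cases G.col u <;> simp
  have vW : p i0 ∈ W := pW i0 (by omega) (by omega)
  -- adjacency with u
  have puadj : ∀ i, i ≤ N → G.adj (p i) u → i = 0 ∨ i = N := by
    intro i hi h
    rcases nbu _ (G.symm h) with h1 | h1 | h1
    · left; exact pinj i 0 hi (by omega) (h1.trans p0.symm)
    · right; exact pinj i N hi le_rfl (h1.trans pN.symm)
    · exact absurd h1.symm (l2P i hi)
  have ruadj : ∀ i, i ≤ K → G.adj (r i) u → i = 0 := by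
    intro i hi h
    rcases nbu _ (G.symm h) with h1 | h1 | h1
    · exact absurd (h1.trans p0.symm) (rP i 0 hi (by omega))
    · exact absurd (h1.trans pN.symm) (rP i N hi le_rfl)
    · exact rinj i 0 hi (by omega) (h1.trans r0.symm)
  have rpadj : ∀ i j, i ≤ K → j ≤ N → G.adj (r i) (p j) → i = K ∧ j = i0 := by
    intro i j hi hj h
    have h1 : i = K := by
      by_contra hne
      exact rearly i (by omega) ⟨rW2 i hi, j, hj, h⟩
    subst h1
    exact ⟨rfl, uniq j hj h⟩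
  have pu : ∀ i, i ≤ N → p i ≠ u := by
    intro i hi h
    rcases pW1 i hi with h4 | h4 | h4
    · rw [h] at h4; exact uW h4
    · rw [h] at h4; rw [← h4] at au0; exact G.bip au0 rfl
    · rw [h] at h4; rw [← h4] at au1; exact G.bip au1 rfl
  have ru : ∀ i, i ≤ K → r i ≠ u := by
    intro i hi h
    rcases (rW2 i hi).1 with h4 | h4
    · rw [h] at h4; exact uW h4
    · rw [h] at h4; rw [← h4] at au2; exact G.bip au2 rfl
  -- membership in the theta graph
  set Mem : V → Prop := fun w => w = u ∨ (∃ i, i ≤ N ∧ w = p i) ∨ (∃ i, i ≤ K ∧ w = r i) with hMem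
  -- external vertices of P
  have extP : ∀ i, ∃ e, i ≤ N → i ≠ i0 → G.adj (p i) e ∧ ¬ Mem e ∧ (i = 0 → e = y0) ∧ (i = N → e = y1) := by
    intro i
    by_cases hi : i ≤ N ∧ i ≠ i0
    swap
    · exact ⟨u, fun h1 h2 => absurd ⟨h1, h2⟩ hi⟩
    obtain ⟨hi, hii⟩ := hi
    by_cases h0 : i = 0
    · subst h0
      refine ⟨y0, fun _ _ => ⟨by rw [p0]; exact ay0, ?_, fun _ => rfl, fun h => absurd h (by omega)⟩⟩
      rintro (h | ⟨j, hj, h⟩ | ⟨j, hj, h⟩)
      · exact uy0 h.symm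
      · have h1 : G.adj (p 0) (p j) := by rw [p0, ← h]; exact ay0
        rcases padj 0 j (by omega) hj h1 with h2 | h2
        · rw [h2, Nat.zero_add, p1] at h; exact xy0 h.symm
        · omega
      · have h1 : G.adj (r j) (p 0) := by rw [p0, ← h]; exact G.symm ay0
        have := (rpadj j 0 hj (by omega) h1).2
        omega
    by_cases hNN : i = N
    · subst hNN
      refine ⟨y1, fun _ _ => ⟨by rw [pN]; exact ay1, ?_, fun h => absurd h (by omega), fun _ => rfl⟩⟩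
      rintro (h | ⟨j, hj, h⟩ | ⟨j, hj, h⟩)
      · exact uy1 h.symm
      · have h1 : G.adj (p i) (p j) := by rw [pN, ← h]; exact ay1
        rcases padj i j (by omega) hj h1 with h2 | h2
        · omega
        · have : j = i - 1 := by omega
          rw [this, pN1] at h; exact xy1 h.symm
      · have h1 : G.adj (r j) (p i) := by rw [pN, ← h]; exact G.symm ay1
        have := (rpadj j i hj le_rfl h1).2
        omega
    obtain ⟨e, he, hne1, hne2⟩ := G.third (p i) (p (i-1)) (p (i+1))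
    refine ⟨e, fun _ _ => ⟨he, ?_, fun h => absurd h h0, fun h => absurd h hNN⟩⟩
    rintro (h | ⟨j, hj, h⟩ | ⟨j, hj, h⟩)
    · rw [h] at he
      rcases puadj i hi he with h1 | h1
      · exact h0 h1
      · exact hNN h1
    · rw [h] at he hne1 hne2
      rcases padj i j hi hj he with h1 | h1
      · rw [h1] at hne2; exact hne2 rfl
      · have : j = i - 1 := by omega
        rw [this] at hne1; exact hne1 rfl
    · rw [h] at he
      exact hii (rpadj j i hj hi (G.symm he)).2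
  have extR : ∀ i, ∃ e, i ≤ K → G.adj (r i) e ∧ ¬ Mem e ∧ (i = 0 → e = y2) := by
    intro i
    by_cases hi : i ≤ K
    swap
    · exact ⟨u, fun h1 => absurd h1 hi⟩
    by_cases h0 : i = 0
    · subst h0
      refine ⟨y2, fun _ => ⟨by rw [r0]; exact ay2, ?_, fun _ => rfl⟩⟩
      rintro (h | ⟨j, hj, h⟩ | ⟨j, hj, h⟩)
      · exact uy2 h.symm
      · rcases pW1 j hj with h4 | h4 | h4
        · rw [← h] at h4; exact y2W h4
        · have e1 := G.bip ay2
          have e2 := G.bip au0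
          have e3 := G.bip au2
          rw [h, h4] at e1
          revert e1 e2 e3
          cases G.col l0 <;> cases G.col l2 <;> cases G.col u <;> simp
        · have e1 := G.bip ay2
          have e2 := G.bip au1
          have e3 := G.bip au2
          rw [h, h4] at e1
          revert e1 e2 e3
          cases G.col l1 <;> cases G.col l2 <;> cases G.col u <;> simp
      · rcases (rW2 j hj).1 with h4 | h4
        · rw [← h] at h4; exact y2W h4
        · rw [← h] at h4; rw [h4] at ay2; exact G.bip ay2 rfl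
    rcases Nat.lt_or_ge i K with hK | hK
    · obtain ⟨e, he, hne1, hne2⟩ := G.third (r i) (r (i-1)) (r (i+1))
      refine ⟨e, fun _ => ⟨he, ?_, fun h => absurd h h0⟩⟩
      rintro (h | ⟨j, hj, h⟩ | ⟨j, hj, h⟩)
      · rw [h] at he
        exact h0 (ruadj i hi he)
      · rw [h] at he
        have := (rpadj i j hi hj he).1
        omega
      · rw [h] at he hne1 hne2
        rcases radj i j hi hj he with h1 | h1
        · rw [h1] at hne2; exact hne2 rfl
        · have : j = i - 1 := by omega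
          rw [this] at hne1; exact hne1 rfl
    · have hiK : i = K := by omega
      obtain ⟨e, he, hne1, hne2⟩ := G.third (r i) (r (i-1)) (p i0)
      refine ⟨e, fun _ => ⟨he, ?_, fun h => absurd h h0⟩⟩
      rintro (h | ⟨j, hj, h⟩ | ⟨j, hj, h⟩)
      · rw [h] at he
        exact h0 (ruadj i hi he)
      · rw [h] at he hne2
        have := (rpadj i j hi hj he).2
        rw [this] at hne2; exact hne2 rfl
      · rw [h] at he hne1 hne2
        rcases radj i j hi hj he with h1 | h1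
        · omega
        · have : j = i - 1 := by omega
          rw [this] at hne1; exact hne1 rfl
  choose eP hP using extP
  choose eR hR using extR
  have memP : ∀ i, i ≤ N → Mem (p i) := fun i hi => Or.inr (Or.inl ⟨i, hi, rfl⟩)
  have memR : ∀ i, i ≤ K → Mem (r i) := fun i hi => Or.inr (Or.inr ⟨i, hi, rfl⟩)
  refine ⟨p i0, {
    k := ![i0 - 1, N - i0 - 1, K]
    q := ![fun j => p j, fun j => p (N - j), fun j => r j]
    e := ![fun j => eP j, fun j => eP (N - j), fun j => eR j]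
    adj0 := ?_
    adjS := ?_
    adjL := ?_
    adjE := ?_
    envE := ?_
    e_ne_u := ?_
    e_ne_v := ?_
    inj := ?_
    q_ne_u := ?_
    q_ne_v := ?_
    u_ne_v := (pu i0 hi0).symm }, ?_, ?_, ?_, vW, ?_⟩
  · intro i
    fin_cases i
    · simp [p0, au0]
    · simp [pN, au1]
    · simp [r0, au2]
  · intro i j hj
    fin_cases i
    · simp only [Fin.zero_eta, Fin.isValue, cons_val_zero] at hj ⊢
      exact (pstep j (by omega)).1
    · simp only [Fin.mk_one, Fin.isValue, cons_val_one, cons_val_zero] at hj ⊢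
      have h1 := (pstep (N - (j+1)) (by omega)).1
      have h2 : N - (j+1) + 1 = N - j := by omega
      rw [h2] at h1
      exact G.symm h1
    · simp only [Fin.reduceFinMk, Fin.isValue, cons_val] at hj ⊢
      exact (rstep j hj).1
  · intro i
    fin_cases i
    · simp only [Fin.zero_eta, Fin.isValue, cons_val_zero]
      have h1 := (pstep (i0 - 1) (by omega)).1
      rw [Nat.sub_add_cancel (by omega)] at h1
      exact h1
    · simp only [Fin.mk_one, Fin.isValue, cons_val_one, cons_val_zero]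
      have h1 := (pstep i0 (by omega)).1
      have h2 : N - (N - i0 - 1) = i0 + 1 := by omega
      rw [h2]
      exact G.symm h1
    · simp only [Fin.reduceFinMk, Fin.isValue, cons_val]
      exact hadj0
  · intro i j hj
    fin_cases i
    · simp only [Fin.zero_eta, Fin.isValue, cons_val_zero] at hj ⊢
      exact (hP j (by omega) (by omega)).1
    · simp only [Fin.mk_one, Fin.isValue, cons_val_one, cons_val_zero] at hj ⊢
      exact (hP (N-j) (by omega) (by omega)).1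
    · simp only [Fin.reduceFinMk, Fin.isValue, cons_val] at hj ⊢
      exact (hR j hj).1
  · intro i j hj i' j' hj'
    have hm : Mem ((![fun j => p j, fun j => p (N - j), fun j => r j] : Fin 3 → ℕ → V) i' j') := by
      fin_cases i'
      · simp only [Fin.zero_eta, Fin.isValue, cons_val_zero] at hj' ⊢
        exact memP _ (by omega)
      · simp only [Fin.mk_one, Fin.isValue, cons_val_one, cons_val_zero] at hj' ⊢
        exact memP _ (by omega)
      · simp only [Fin.reduceFinMk, Fin.isValue, cons_val] at hj' ⊢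
        exact memR _ hj'
    intro heq
    rw [← heq] at hm
    revert hm
    fin_cases i
    · simp only [Fin.zero_eta, Fin.isValue, cons_val_zero] at hj ⊢
      exact (hP j (by omega) (by omega)).2.1
    · simp only [Fin.mk_one, Fin.isValue, cons_val_one, cons_val_zero] at hj ⊢
      exact (hP (N-j) (by omega) (by omega)).2.1
    · simp only [Fin.reduceFinMk, Fin.isValue, cons_val] at hj ⊢
      exact (hR j hj).2.1
  · intro i j hj heq
    have hm : Mem u := Or.inl rfl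
    rw [← heq] at hm
    revert hm
    fin_cases i
    · simp only [Fin.zero_eta, Fin.isValue, cons_val_zero] at hj ⊢
      exact (hP j (by omega) (by omega)).2.1
    · simp only [Fin.mk_one, Fin.isValue, cons_val_one, cons_val_zero] at hj ⊢
      exact (hP (N-j) (by omega) (by omega)).2.1
    · simp only [Fin.reduceFinMk, Fin.isValue, cons_val] at hj ⊢
      exact (hR j hj).2.1
  · intro i j hj heq
    have hm : Mem (p i0) := memP i0 hi0
    rw [← heq] at hm
    revert hm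
    fin_cases i
    · simp only [Fin.zero_eta, Fin.isValue, cons_val_zero] at hj ⊢
      exact (hP j (by omega) (by omega)).2.1
    · simp only [Fin.mk_one, Fin.isValue, cons_val_one, cons_val_zero] at hj ⊢
      exact (hP (N-j) (by omega) (by omega)).2.1
    · simp only [Fin.reduceFinMk, Fin.isValue, cons_val] at hj ⊢
      exact (hR j hj).2.1
  · intro i j i' j' hj hj' heq
    fin_cases i <;> fin_cases i' <;>
      simp only [Fin.zero_eta, Fin.mk_one, Fin.reduceFinMk, Fin.isValue, cons_val_zero, cons_val_one, cons_val] at hj hj' heq ⊢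
    · exact ⟨trivial, pinj j j' (by omega) (by omega) heq⟩
    · exfalso
      have := pinj j (N - j') (by omega) (by omega) heq
      omega
    · exact absurd heq.symm (rP j' j hj' (by omega))
    · exfalso
      have := pinj (N - j) j' (by omega) (by omega) heq
      omega
    · have := pinj (N-j) (N - j') (by omega) (by omega) heq
      exact ⟨trivial, by omega⟩
    · exact absurd heq.symm (rP j' (N-j) hj' (by omega))
    · exact absurd heq (rP j j' hj (by omega))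
    · exact absurd heq (rP j (N-j') hj (by omega))
    · exact ⟨trivial, rinj j j' hj hj' heq⟩
  · intro i j hj
    fin_cases i <;>
      simp only [Fin.zero_eta, Fin.mk_one, Fin.reduceFinMk, Fin.isValue, cons_val_zero, cons_val_one, cons_val] at hj ⊢
    · exact pu j (by omega)
    · exact pu (N-j) (by omega)
    · exact ru j hj
  · intro i j hj
    fin_cases i <;>
      simp only [Fin.zero_eta, Fin.mk_one, Fin.reduceFinMk, Fin.isValue, cons_val_zero, cons_val_one, cons_val] at hj ⊢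
    · intro h
      have := pinj j i0 (by omega) (by omega) h
      omega
    · intro h
      have := pinj (N-j) i0 (by omega) (by omega) h
      omega
    · exact rP j i0 hj hi0
  · simp only [Fin.isValue, cons_val_zero]
    exact (hP 0 (by omega) (by omega)).2.2.1 rfl
  · simp only [Fin.isValue, cons_val_one, cons_val_zero]
    exact (hP (N-0) (by omega) (by omega)).2.2.2 (by omega)
  · simp only [Fin.isValue, cons_val]
    exact (hR 0 (by omega)).2.2 rfl
  · intro i j hj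
    fin_cases i <;>
      simp only [Fin.zero_eta, Fin.mk_one, Fin.reduceFinMk, Fin.isValue, cons_val_zero, cons_val_one, cons_val] at hj ⊢
    · rcases pW1 j (by omega) with h | h | h
      · exact Or.inl h
      · exact Or.inr (Or.inl h)
      · exact Or.inr (Or.inr (Or.inl h))
    · rcases pW1 (N-j) (by omega) with h | h | h
      · exact Or.inl h
      · exact Or.inr (Or.inl h)
      · exact Or.inr (Or.inr (Or.inl h))
    · rcases (rW2 j hj).1 with h | h
      · exact Or.inl h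
      · exact Or.inr (Or.inr (Or.inr h))

theorem Cfg.col_of {G : Cfg V} {x y : V} (h : G.adj x y) : (G.col x = true → G.col y = false) ∧
    (G.col x = false → G.col y = true) ∧ (G.col y = true → G.col x = false) ∧ (G.col y = false → G.col x = true) := by
  have := G.bip h
  cases hx : G.col x <;> cases hy : G.col y <;> simp_all

open Classical in
theorem Cfg.card_nb [Fintype V] (G : Cfg V) (x : V) : (Finset.univ.filter (fun y => G.adj x y)).card = 3 := by
  obtain ⟨y1, y2, y3, h12, h13, h23, a1, a2, a3, h⟩ := G.three x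
  have : Finset.univ.filter (fun y => G.adj x y) = {y1, y2, y3} := by
    ext w
    simp only [Finset.mem_filter, Finset.mem_univ, true_and, Finset.mem_insert, Finset.mem_singleton]
    constructor
    · exact h w
    · rintro (rfl | rfl | rfl) <;> assumption
  rw [this]
  rw [Finset.card_insert_of_notMem (by simp [h12, h13]), Finset.card_insert_of_notMem (by simp [h23]), Finset.card_singleton]

open Classical in
/-- the number of edges leaving a closed set is divisible by three -/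
theorem Cfg.three_dvd [Fintype V] (G : Cfg V) (S : Set V)
    (closed : ∀ p, p ∈ S → G.col p = true → ∀ l, G.adj p l → l ∈ S) :
    3 ∣ (Finset.univ.filter (fun o : V × V => o.1 ∈ S ∧ G.col o.1 = false ∧ o.2 ∉ S ∧ G.adj o.1 o.2)).card := by
  set O := (Finset.univ.filter (fun o : V × V => o.1 ∈ S ∧ G.col o.1 = false ∧ o.2 ∉ S ∧ G.adj o.1 o.2)) with hO
  set I := (Finset.univ.filter (fun o : V × V => o.1 ∈ S ∧ G.col o.1 = false ∧ o.2 ∈ S ∧ G.adj o.1 o.2)) with hI
  set LS := (Finset.univ.filter (fun l : V => l ∈ S ∧ G.col l = false)) with hLS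
  set PS := (Finset.univ.filter (fun l : V => l ∈ S ∧ G.col l = true)) with hPS
  have h1 : O.card + I.card = 3 * LS.card := by
    have e1 : O.card + I.card = (O ∪ I).card := by
      rw [Finset.card_union_of_disjoint]
      rw [Finset.disjoint_left]
      intro o ho hi
      rw [hO, Finset.mem_filter] at ho
      rw [hI, Finset.mem_filter] at hi
      exact ho.2.2.2.1 hi.2.2.2.1
    have e2 : O ∪ I = (LS.sigma (fun l => Finset.univ.filter (fun y => G.adj l y))).image (fun s => (s.1, s.2)) := by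
      ext ⟨a, b⟩
      simp only [hO, hI, hLS, Finset.mem_union, Finset.mem_filter, Finset.mem_univ, true_and, Finset.mem_image,
        Finset.mem_sigma, Prod.mk.injEq, Sigma.exists]
      constructor
      · rintro (⟨h1, h2, h3, h4⟩ | ⟨h1, h2, h3, h4⟩)
        · exact ⟨a, b, ⟨⟨h1, h2⟩, h4⟩, rfl, rfl⟩
        · exact ⟨a, b, ⟨⟨h1, h2⟩, h4⟩, rfl, rfl⟩
      · rintro ⟨a', b', ⟨⟨h1, h2⟩, h4⟩, rfl, rfl⟩
        by_cases h : b' ∈ S
        · exact Or.inr ⟨h1, h2, h, h4⟩
        · exact Or.inl ⟨h1, h2, h, h4⟩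
    rw [e1, e2, Finset.card_image_of_injective, Finset.card_sigma, Finset.sum_congr rfl (fun l _ => G.card_nb l)]
    · rw [Finset.sum_const, smul_eq_mul, mul_comm]
    · rintro ⟨a, b⟩ ⟨a', b'⟩ h
      simp only [Prod.mk.injEq] at h
      obtain ⟨rfl, rfl⟩ := h
      rfl
  have h2 : I.card = 3 * PS.card := by
    have e2 : I = (PS.sigma (fun l => Finset.univ.filter (fun y => G.adj l y))).image (fun s => (s.2, s.1)) := by
      ext ⟨a, b⟩
      simp only [hI, hPS, Finset.mem_filter, Finset.mem_univ, true_and, Finset.mem_image,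
        Finset.mem_sigma, Prod.mk.injEq, Sigma.exists]
      constructor
      · rintro ⟨h1, h2, h3, h4⟩
        exact ⟨b, a, ⟨⟨h3, (Cfg.col_of h4).2.1 h2⟩, G.symm h4⟩, rfl, rfl⟩
      · rintro ⟨a', b', ⟨⟨h1, h2⟩, h4⟩, rfl, rfl⟩
        exact ⟨closed _ h1 h2 _ h4, (Cfg.col_of h4).1 h2, h1, G.symm h4⟩
    rw [e2, Finset.card_image_of_injective, Finset.card_sigma, Finset.sum_congr rfl (fun l _ => G.card_nb l)]
    · rw [Finset.sum_const, smul_eq_mul, mul_comm]
    · rintro ⟨a, b⟩ ⟨a', b'⟩ h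
      simp only [Prod.mk.injEq] at h
      obtain ⟨rfl, rfl⟩ := h
      rfl
  omega

structure Loc (G : Cfg V) (u m : V) (l x y : Fin 3 → V) : Prop where
  cu : G.col u = true
  cm : G.col m = false
  li : ∀ i j, i ≠ j → l i ≠ l j
  au : ∀ i, G.adj u (l i)
  ax : ∀ i, G.adj (l i) (x i)
  ay : ∀ i, G.adj (l i) (y i)
  ux : ∀ i, u ≠ x i
  uy : ∀ i, u ≠ y i
  xy : ∀ i, x i ≠ y i
  mu : ¬ G.adj m u
  my : ∀ i, ¬ G.adj m (y i)
  r3 : ∀ i j k, i ≠ j → i ≠ k → j ≠ k → G.adj m (x i) → ∀ z, G.adj z (x i) → G.adj z (y j) → G.adj z (y k) → False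

namespace Loc

variable {G : Cfg V} {u m : V} {l x y : Fin 3 → V}

def W (_ : Loc G u m l x y) : Set V := {w | w ≠ u ∧ w ≠ m ∧ (∀ i, w ≠ y i) ∧ (∀ i, w ≠ l i)}

theorem cl (h : Loc G u m l x y) (i : Fin 3) : G.col (l i) = false := (Cfg.col_of (h.au i)).1 h.cu
theorem cx (h : Loc G u m l x y) (i : Fin 3) : G.col (x i) = true := (Cfg.col_of (h.ax i)).2.1 (h.cl i)
theorem cy (h : Loc G u m l x y) (i : Fin 3) : G.col (y i) = true := (Cfg.col_of (h.ay i)).2.1 (h.cl i)

theorem nbl (h : Loc G u m l x y) (i : Fin 3) {w : V} (hw : G.adj (l i) w) : w = u ∨ w = x i ∨ w = y i :=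
  G.mem_of_three (h.ux i) (h.uy i) (h.xy i) (G.symm (h.au i)) (h.ax i) (h.ay i) hw

theorem nbu (h : Loc G u m l x y) {w : V} (hw : G.adj u w) : ∃ i, w = l i := by
  rcases G.mem_of_three (h.li 0 1 (by decide)) (h.li 0 2 (by decide)) (h.li 1 2 (by decide)) (h.au 0) (h.au 1) (h.au 2) hw with
    h | h | h
  · exact ⟨0, h⟩
  · exact ⟨1, h⟩
  · exact ⟨2, h⟩

theorem not_on (h : Loc G u m l x y) {i j : Fin 3} (hij : i ≠ j) {w : V} (hu : w ≠ u) (h1 : G.adj (l i) w) (h2 : G.adj (l j) w) :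
    False :=
  G.lin hu (h.li i j hij) (G.symm h1) (G.symm h2) (h.au i) (h.au j)

theorem xW (h : Loc G u m l x y) (i : Fin 3) : x i ∈ h.W := by
  refine ⟨(h.ux i).symm, ?_, ?_, ?_⟩
  · intro h1
    have := h.cx i
    rw [h1, h.cm] at this
    exact absurd this (by decide)
  · intro j h1
    by_cases hij : i = j
    · subst hij; exact h.xy i h1
    · exact h.not_on hij (h.ux i).symm (h.ax i) (h1 ▸ h.ay j)
  · intro j h1
    have := h.cx i
    rw [h1, h.cl] at this
    exact absurd this (by decide)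

def S (_ : Loc G u m l x y) (Z : Set V) : Set V :=
  {w | w ∈ Z ∨ (∃ i, x i ∈ Z ∧ w = l i) ∨ (w = m ∧ ∃ p, p ∈ Z ∧ G.adj m p)}

theorem closedS (h : Loc G u m l x y) {Z : Set V} (hZW : ∀ z ∈ Z, z ∈ h.W)
    (hZ : ∀ z ∈ Z, ∀ w ∈ h.W, G.adj z w → w ∈ Z) :
    ∀ p, p ∈ h.S Z → G.col p = true → ∀ l', G.adj p l' → l' ∈ h.S Z := by
  intro p hp hcp l' hadj
  have hpZ : p ∈ Z := by
    rcases hp with h1 | ⟨i, _, h1⟩ | ⟨h1, _⟩
    · exact h1
    · rw [h1, h.cl] at hcp; exact absurd hcp (by decide)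
    · rw [h1, h.cm] at hcp; exact absurd hcp (by decide)
  have hcl : G.col l' = false := (Cfg.col_of hadj).1 hcp
  by_cases hW : l' ∈ h.W
  · exact Or.inl (hZ p hpZ l' hW hadj)
  · by_cases h1 : l' = m
    · right; right
      exact ⟨h1, p, hpZ, h1 ▸ G.symm hadj⟩
    · by_cases h2 : ∃ i, l' = l i
      · obtain ⟨i, rfl⟩ := h2
        right; left
        rcases h.nbl i (G.symm hadj) with h3 | h3 | h3
        · exact absurd h3 (hZW p hpZ).1
        · exact ⟨i, h3 ▸ hpZ, rfl⟩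
        · exact absurd h3 ((hZW p hpZ).2.2.1 i)
      · exfalso
        apply hW
        push Not at h2
        refine ⟨?_, h1, ?_, h2⟩
        · intro h3; rw [h3, h.cu] at hcl; exact absurd hcl (by decide)
        · intro i h3; rw [h3, h.cy] at hcl; exact absurd hcl (by decide)

theorem outS (h : Loc G u m l x y) {Z : Set V} (hZW : ∀ z ∈ Z, z ∈ h.W)
    (hZ : ∀ z ∈ Z, ∀ w ∈ h.W, G.adj z w → w ∈ Z) :
    ∀ l' p, l' ∈ h.S Z → G.col l' = false → p ∉ h.S Z → G.adj l' p →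
      (∃ i, x i ∈ Z ∧ l' = l i ∧ (p = u ∨ p = y i)) ∨ (l' ∈ Z ∧ ∃ i, p = y i) ∨
      (l' = m ∧ p ∉ Z ∧ ∃ q, q ∈ Z ∧ G.adj m q) := by
  intro l' p hl hcl hp hadj
  have hpZ : p ∉ Z := fun h1 => hp (Or.inl h1)
  rcases hl with h1 | ⟨i, h1, h2⟩ | ⟨h1, h2⟩
  · right; left
    refine ⟨h1, ?_⟩
    have hcp : G.col p = true := (Cfg.col_of hadj).2.1 hcl
    by_contra hcon
    push Not at hcon
    apply hpZ
    apply hZ l' h1 p _ hadj
    refine ⟨?_, ?_, hcon, ?_⟩
    · intro h2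
      rw [h2] at hadj
      obtain ⟨i, hi⟩ := h.nbu (G.symm hadj)
      exact (hZW l' h1).2.2.2 i hi
    · intro h2; rw [h2, h.cm] at hcp; exact absurd hcp (by decide)
    · intro i h2; rw [h2, h.cl] at hcp; exact absurd hcp (by decide)
  · left
    refine ⟨i, h1, h2, ?_⟩
    rw [h2] at hadj
    rcases h.nbl i hadj with h3 | h3 | h3
    · exact Or.inl h3
    · exact absurd (h3 ▸ h1) hpZ
    · exact Or.inr h3
  · right; right
    exact ⟨h1, hpZ, h2⟩

/-- a closed set containing the terminal x i contains a second point -/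
theorem second (h : Loc G u m l x y) {Z : Set V} (hZW : ∀ z ∈ Z, z ∈ h.W)
    (hZ : ∀ z ∈ Z, ∀ w ∈ h.W, G.adj z w → w ∈ Z) (i j k : Fin 3) (hij : i ≠ j) (hik : i ≠ k) (hjk : j ≠ k)
    (hall : ∀ t : Fin 3, t = i ∨ t = j ∨ t = k)
    (hxi : x i ∈ Z) : ∃ p ∈ Z, p ≠ x i ∧ G.col p = true := by
  by_contra hcon
  push Not at hcon
  -- every line through x i other than l i which lies in W contains y j and y k
  have key : ∀ z, G.adj (x i) z → z ≠ l i → z ≠ m → G.adj z (y j) ∧ G.adj z (y k) := by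
    intro z hz hzl hzm
    have hcz : G.col z = false := (Cfg.col_of hz).1 (h.cx i)
    have hzW : z ∈ h.W := by
      refine ⟨?_, hzm, ?_, ?_⟩
      · intro h1; rw [h1, h.cu] at hcz; exact absurd hcz (by decide)
      · intro t h1; rw [h1, h.cy] at hcz; exact absurd hcz (by decide)
      · intro t h1
        by_cases hti : t = i
        · subst hti; exact hzl h1
        · subst h1
          exact h.not_on (i := t) (j := i) hti (h.ux i).symm (G.symm hz) (h.ax i)
    have hzZ : z ∈ Z := hZ (x i) hxi z hzW hz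
    have hpt : ∀ p, G.adj z p → p = x i ∨ p = y j ∨ p = y k := by
      intro p hp
      by_contra hne
      push Not at hne
      have hcp : G.col p = true := (Cfg.col_of hp).2.1 hcz
      have hpW : p ∈ h.W := by
        refine ⟨?_, ?_, ?_, ?_⟩
        · intro h1
          rw [h1] at hp
          obtain ⟨t, ht⟩ := h.nbu (G.symm hp)
          exact hzW.2.2.2 t ht
        · intro h1; rw [h1, h.cm] at hcp; exact absurd hcp (by decide)
        · intro t h1
          rcases hall t with rfl | rfl | rfl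
          · rw [h1] at hp
            exact G.lin (h.xy t) hzl hz (G.symm (h.ax t)) (G.symm hp) (G.symm (h.ay t))
          · exact hne.2.1 h1
          · exact hne.2.2 h1
        · intro t h1; rw [h1, h.cl] at hcp; exact absurd hcp (by decide)
      exact hcon p (hZ z hzZ p hpW hp) hne.1 hcp
    obtain ⟨p1, p2, p3, g12, g13, g23, b1, b2, b3, _⟩ := G.three z
    have e1 := hpt p1 b1
    have e2 := hpt p2 b2
    have e3 := hpt p3 b3
    constructor
    · rcases e1 with rfl | rfl | rfl <;> rcases e2 with rfl | rfl | rfl <;> rcases e3 with rfl | rfl | rfl <;>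
        first | assumption | exact absurd rfl g12 | exact absurd rfl g13 | exact absurd rfl g23
    · rcases e1 with rfl | rfl | rfl <;> rcases e2 with rfl | rfl | rfl <;> rcases e3 with rfl | rfl | rfl <;>
        first | assumption | exact absurd rfl g12 | exact absurd rfl g13 | exact absurd rfl g23
  obtain ⟨z, hz, hzl, hzm⟩ := G.third (x i) (l i) m
  obtain ⟨kj, kk⟩ := key z hz hzl hzm
  obtain ⟨z', hz', hzl', hzz'⟩ := G.third (x i) (l i) z
  by_cases hm : z' = m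
  · rw [hm] at hz'
    exact h.r3 i j k hij hik hjk (G.symm hz') z (G.symm hz) kj kk
  · obtain ⟨kj', _⟩ := key z' hz' hzl' hm
    have : x i ≠ y j := (h.xW i).2.2.1 j
    exact G.lin this hzz' hz' hz (G.symm kj') (G.symm kj)

end Loc

namespace Loc

variable {G : Cfg V} {u m : V} {l x y : Fin 3 → V}

open Classical in
theorem card_B1 (h : Loc G u m l x y) (Z : Set V) :
    (((Finset.univ : Finset (Fin 3)).filter (fun i => x i ∈ Z)).biUnion (fun i => ({(l i, u), (l i, y i)} : Finset (V × V)))).card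
      ≤ 2 * ((Finset.univ : Finset (Fin 3)).filter (fun i => x i ∈ Z)).card := by
  refine (Finset.card_biUnion_le).trans ?_
  refine (Finset.sum_le_sum (fun i _ => Finset.card_le_two)).trans ?_
  rw [Finset.sum_const, smul_eq_mul, mul_comm]

open Classical in
theorem card_Ball [Fintype V] (h : Loc G u m l x y) :
    (Finset.univ.filter (fun o : V × V => (∀ i, o.1 ≠ l i) ∧ (∃ i, o.2 = y i) ∧ G.adj o.1 o.2)).card ≤ 6 := by
  have : Finset.univ.filter (fun o : V × V => (∀ i, o.1 ≠ l i) ∧ (∃ i, o.2 = y i) ∧ G.adj o.1 o.2) ⊆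
      (Finset.univ : Finset (Fin 3)).biUnion (fun i => ((Finset.univ.filter (fun z => G.adj (y i) z)).erase (l i)).image (fun z => (z, y i))) := by
    rintro ⟨a, b⟩ ho
    rw [Finset.mem_filter] at ho
    obtain ⟨_, h1, ⟨i, h2⟩, h3⟩ := ho
    rw [Finset.mem_biUnion]
    refine ⟨i, Finset.mem_univ _, ?_⟩
    rw [Finset.mem_image]
    simp only at h1 h2 h3
    refine ⟨a, ?_, by rw [h2]⟩
    rw [Finset.mem_erase, Finset.mem_filter]
    exact ⟨h1 i, Finset.mem_univ _, h2 ▸ G.symm h3⟩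
  refine (Finset.card_le_card this).trans ?_
  refine (Finset.card_biUnion_le).trans ?_
  have hb : ∀ i ∈ (Finset.univ : Finset (Fin 3)), (((Finset.univ.filter (fun z => G.adj (y i) z)).erase (l i)).image (fun z => (z, y i))).card ≤ 2 := by
    intro i _
    refine Finset.card_image_le.trans ?_
    rw [Finset.card_erase_of_mem, G.card_nb]
    rw [Finset.mem_filter]
    exact ⟨Finset.mem_univ _, G.symm (h.ay i)⟩
  refine (Finset.sum_le_sum hb).trans ?_
  simp

open Classical in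
/-- numerical bound for the number of edges leaving S Z -/
theorem card_out [Fintype V] (h : Loc G u m l x y) {Z : Set V} (hZW : ∀ z ∈ Z, z ∈ h.W)
    (hZ : ∀ z ∈ Z, ∀ w ∈ h.W, G.adj z w → w ∈ Z) :
    (Finset.univ.filter (fun o : V × V => o.1 ∈ h.S Z ∧ G.col o.1 = false ∧ o.2 ∉ h.S Z ∧ G.adj o.1 o.2)).card ≤
      2 * ((Finset.univ : Finset (Fin 3)).filter (fun i => x i ∈ Z)).card
      + (Finset.univ.filter (fun o : V × V => o.1 ∈ Z ∧ (∃ i, o.2 = y i) ∧ G.adj o.1 o.2)).card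
      + (if (∃ q, q ∈ Z ∧ G.adj m q) then (3 - ((Finset.univ.filter (fun p => G.adj m p)).filter (fun p => p ∈ Z)).card) else 0) := by
  set B1 := (((Finset.univ : Finset (Fin 3)).filter (fun i => x i ∈ Z)).biUnion (fun i => ({(l i, u), (l i, y i)} : Finset (V × V)))) with hB1
  set B2 := (Finset.univ.filter (fun o : V × V => o.1 ∈ Z ∧ (∃ i, o.2 = y i) ∧ G.adj o.1 o.2)) with hB2
  set B3 : Finset (V × V) := if (∃ q, q ∈ Z ∧ G.adj m q) then ((Finset.univ.filter (fun p => G.adj m p)).filter (fun p => p ∉ Z)).image (fun p => (m, p)) else ∅ with hB3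
  have hsub : (Finset.univ.filter (fun o : V × V => o.1 ∈ h.S Z ∧ G.col o.1 = false ∧ o.2 ∉ h.S Z ∧ G.adj o.1 o.2)) ⊆ B1 ∪ B2 ∪ B3 := by
    rintro ⟨a, b⟩ ho
    rw [Finset.mem_filter] at ho
    obtain ⟨_, h1, h2, h3, h4⟩ := ho
    simp only at h1 h2 h3 h4
    rw [Finset.mem_union, Finset.mem_union]
    rcases h.outS hZW hZ a b h1 h2 h3 h4 with ⟨i, k1, k2, k3⟩ | ⟨k1, k2⟩ | ⟨k1, k2, k3⟩
    · left; left
      rw [hB1, Finset.mem_biUnion]
      refine ⟨i, by rw [Finset.mem_filter]; exact ⟨Finset.mem_univ _, k1⟩, ?_⟩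
      rw [Finset.mem_insert, Finset.mem_singleton, k2]
      rcases k3 with k3 | k3
      · left; rw [k3]
      · right; rw [k3]
    · left; right
      rw [hB2, Finset.mem_filter]
      exact ⟨Finset.mem_univ _, k1, k2, h4⟩
    · right
      rw [hB3, if_pos k3, Finset.mem_image]
      refine ⟨b, ?_, by rw [k1]⟩
      rw [Finset.mem_filter, Finset.mem_filter]
      exact ⟨⟨Finset.mem_univ _, k1 ▸ h4⟩, k2⟩
  refine (Finset.card_le_card hsub).trans ?_
  refine (Finset.card_union_le _ _).trans ?_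
  refine (Nat.add_le_add (Finset.card_union_le _ _) le_rfl).trans ?_
  refine Nat.add_le_add (Nat.add_le_add (h.card_B1 Z) le_rfl) ?_
  rw [hB3]
  split_ifs with hq
  · refine Finset.card_image_le.trans ?_
    have h5 := Finset.card_filter_add_card_filter_not (s := Finset.univ.filter (fun p => G.adj m p)) (fun p => p ∈ Z)
    rw [G.card_nb] at h5
    omega
  · simp

theorem t_pos [Fintype V] (G : Cfg V) (m : V) (Z : Set V) [DecidablePred (G.adj m)] [DecidablePred (· ∈ Z)]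
    (hq : ∃ q, q ∈ Z ∧ G.adj m q) :
    1 ≤ ((Finset.univ.filter (fun p => G.adj m p)).filter (fun p => p ∈ Z)).card := by
  obtain ⟨q, h1, h2⟩ := hq
  apply Finset.card_pos.mpr
  exact ⟨q, by rw [Finset.mem_filter, Finset.mem_filter]; exact ⟨⟨Finset.mem_univ _, h2⟩, h1⟩⟩

def AW (h : Loc G u m l x y) : V → V → Prop := fun a b => G.adj a b ∧ a ∈ h.W ∧ b ∈ h.W

def comp (h : Loc G u m l x y) (i : Fin 3) : Set V := {w | ∃ n, Reach h.AW n (x i) w}

theorem comp_W (h : Loc G u m l x y) (i : Fin 3) : ∀ z ∈ h.comp i, z ∈ h.W := by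
  rintro z ⟨n, hn⟩
  cases n with
  | zero => simp only [Reach] at hn; rw [← hn]; exact h.xW i
  | succ n => obtain ⟨w, _, hw⟩ := hn; exact hw.2.2

theorem comp_closed (h : Loc G u m l x y) (i : Fin 3) : ∀ z ∈ h.comp i, ∀ w ∈ h.W, G.adj z w → w ∈ h.comp i := by
  rintro z ⟨n, hn⟩ w hw hadj
  exact ⟨n + 1, z, hn, hadj, h.comp_W i z ⟨n, hn⟩, hw⟩

theorem reach_symm {A : V → V → Prop} (hA : ∀ a b, A a b → A b a) : ∀ {n : ℕ} {a b : V}, Reach A n a b → Reach A n b a := by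
  intro n
  induction n with
  | zero => intro a b h; simp only [Reach] at h ⊢; exact h.symm
  | succ n ih =>
    intro a b h
    obtain ⟨z, hz, hAz⟩ := h
    have h1 : Reach A 1 b z := Reach.one (hA _ _ hAz)
    have h2 := h1.trans (ih hz)
    rwa [Nat.add_comm] at h2

theorem AW_symm (h : Loc G u m l x y) : ∀ a b, h.AW a b → h.AW b a := fun a b hab => ⟨G.symm hab.1, hab.2.2, hab.2.1⟩

theorem comp_disj (h : Loc G u m l x y) {i j : Fin 3} (hij : x j ∉ h.comp i) : ∀ w, w ∈ h.comp i → w ∈ h.comp j → False := by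
  rintro w ⟨n, hn⟩ ⟨k, hk⟩
  exact hij ⟨_, hn.trans (reach_symm h.AW_symm hk)⟩

theorem uyS (h : Loc G u m l x y) {Z : Set V} (hZW : ∀ z ∈ Z, z ∈ h.W) : u ∉ h.S Z ∧ ∀ i, y i ∉ h.S Z := by
  constructor
  · rintro (h1 | ⟨i, _, h1⟩ | ⟨h1, _⟩)
    · exact (hZW u h1).1 rfl
    · have := h.cu; rw [h1, h.cl] at this; exact absurd this (by decide)
    · have := h.cu; rw [h1, h.cm] at this; exact absurd this (by decide)
  · rintro i (h1 | ⟨j, _, h1⟩ | ⟨h1, _⟩)
    · exact (hZW _ h1).2.2.1 i rfl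
    · have := h.cy i; rw [h1, h.cl] at this; exact absurd this (by decide)
    · have := h.cy i; rw [h1, h.cm] at this; exact absurd this (by decide)

/-- frame conditions -/
theorem frame (h : Loc G u m l x y) {E : V → Fin 3 → ℝ} (hE : IsRep G E) {i j : Fin 3} (hij : i ≠ j) :
    E u ⬝ᵥ (E (y i) ⨯₃ E (y j)) ≠ 0 := by
  apply hE.det_ne (h.uy i) (h.au i) (G.symm (h.ay i)) (by rw [h.cy, h.cu])
  intro h1
  exact h.not_on hij (h.uy j).symm (G.symm h1) (h.ay j)

open Classical in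
theorem move_of_small [Fintype V] (h : Loc G u m l x y) {E : V → Fin 3 → ℝ} (hE : IsRep G E)
    (hdet : E (y 0) ⬝ᵥ (E (y 1) ⨯₃ E (y 2)) ≠ 0) {Z : Set V} (hZW : ∀ z ∈ Z, z ∈ h.W)
    (hZ : ∀ z ∈ Z, ∀ w ∈ h.W, G.adj z w → w ∈ Z)
    (hcard : (Finset.univ.filter (fun o : V × V => o.1 ∈ h.S Z ∧ G.col o.1 = false ∧ o.2 ∉ h.S Z ∧ G.adj o.1 o.2)).card ≤ 8)
    (p p' : V) (hp : p ∈ Z) (hp' : p' ∈ Z) (hne : p ≠ p') (cp : G.col p = true) (cp' : G.col p' = true) :
    ∃ E', IsRep G E' ∧ ¬ Eqv G E E' := by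
  have h3 := G.three_dvd (h.S Z) (h.closedS hZW hZ)
  have hcard' : (Finset.univ.filter (fun o : V × V => o.1 ∈ h.S Z ∧ G.col o.1 = false ∧ o.2 ∉ h.S Z ∧ G.adj o.1 o.2)).card ≤ 7 := by
    omega
  have hS := h.uyS hZW
  refine move G E hE (h.S Z) (h.closedS hZW hZ) _ ?_ hcard' (y 0) (y 1) (y 2) u (hS.2 0) (hS.2 1) (hS.2 2) hS.1
    (h.cy 0) (h.cy 1) (h.cy 2) h.cu hdet ?_ ?_ ?_ p p' (Or.inl hp) (Or.inl hp') hne cp cp'
  · intro l' q h1 h2 h3 h4
    rw [Finset.mem_filter]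
    exact ⟨Finset.mem_univ _, h1, h2, h3, h4⟩
  · exact h.frame hE (by decide)
  · have := h.frame hE (i := 0) (j := 2) (by decide)
    intro h0
    apply this
    rw [dot3, cross3] at h0 ⊢
    simp only [Fin.isValue, cons_val_zero, cons_val_one, cons_val] at h0 ⊢
    linear_combination -h0
  · have := h.frame hE (i := 0) (j := 1) (by decide)
    intro h0
    apply this
    rw [dot3, cross3] at h0 ⊢
    simp only [Fin.isValue, cons_val_zero, cons_val_one, cons_val] at h0 ⊢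
    linear_combination h0

/-- if the terminal x i is separated from the two others then the representation can be changed -/
theorem isolated [Fintype V] (h : Loc G u m l x y) {E : V → Fin 3 → ℝ} (hE : IsRep G E)
    (hdet : E (y 0) ⬝ᵥ (E (y 1) ⨯₃ E (y 2)) ≠ 0) (i j k : Fin 3) (hij : i ≠ j) (hik : i ≠ k) (hjk : j ≠ k)
    (hall : ∀ t : Fin 3, t = i ∨ t = j ∨ t = k)
    (h1 : x j ∉ h.comp i) (h2 : x k ∉ h.comp i) :
    ∃ E', IsRep G E' ∧ ¬ Eqv G E E' := by
  classical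
  have hXW := h.comp_W i
  have hXc := h.comp_closed i
  have hYW := h.comp_W j
  have hYc := h.comp_closed j
  have xi : x i ∈ h.comp i := ⟨0, rfl⟩
  have xj : x j ∈ h.comp j := ⟨0, rfl⟩
  have xij : x i ∉ h.comp j := fun h3 => h.comp_disj h1 (x i) xi h3
  have cX : ((Finset.univ : Finset (Fin 3)).filter (fun t => x t ∈ h.comp i)).card = 1 := by
    have : ((Finset.univ : Finset (Fin 3)).filter (fun t => x t ∈ h.comp i)) = {i} := by
      ext t
      simp only [Finset.mem_filter, Finset.mem_univ, true_and, Finset.mem_singleton]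
      constructor
      · intro ht
        rcases hall t with rfl | rfl | rfl
        · rfl
        · exact absurd ht h1
        · exact absurd ht h2
      · rintro rfl; exact xi
    rw [this, Finset.card_singleton]
  have outX := h.card_out hXW hXc
  have outY := h.card_out hYW hYc
  rw [cX] at outX
  -- n_X + n_Y ≤ 6
  have nXY : (Finset.univ.filter (fun o : V × V => o.1 ∈ h.comp i ∧ (∃ i, o.2 = y i) ∧ G.adj o.1 o.2)).card +
      (Finset.univ.filter (fun o : V × V => o.1 ∈ h.comp j ∧ (∃ i, o.2 = y i) ∧ G.adj o.1 o.2)).card ≤ 6 := by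
    rw [← Finset.card_union_of_disjoint]
    · refine (Finset.card_le_card ?_).trans h.card_Ball
      intro o ho
      rw [Finset.mem_union, Finset.mem_filter, Finset.mem_filter] at ho
      rw [Finset.mem_filter]
      rcases ho with ⟨_, k1, k2, k3⟩ | ⟨_, k1, k2, k3⟩
      · exact ⟨Finset.mem_univ _, (hXW _ k1).2.2.2, k2, k3⟩
      · exact ⟨Finset.mem_univ _, (hYW _ k1).2.2.2, k2, k3⟩
    · rw [Finset.disjoint_left]
      intro o ho ho'
      rw [Finset.mem_filter] at ho ho'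
      exact h.comp_disj h1 _ ho.2.1 ho'.2.1
  obtain ⟨p, hp, hpne, hpc⟩ := h.second hXW hXc i j k hij hik hjk hall xi
  by_cases hA : (Finset.univ.filter (fun o : V × V => o.1 ∈ h.S (h.comp i) ∧ G.col o.1 = false ∧ o.2 ∉ h.S (h.comp i) ∧ G.adj o.1 o.2)).card ≤ 8
  · exact h.move_of_small hE hdet hXW hXc hA p (x i) hp xi hpne hpc (h.cx i)
  · have hnY : (Finset.univ.filter (fun o : V × V => o.1 ∈ h.comp j ∧ (∃ i, o.2 = y i) ∧ G.adj o.1 o.2)).card ≤ 1 := by
      by_cases hq : ∃ q, q ∈ h.comp i ∧ G.adj m q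
      · rw [if_pos hq] at outX
        have := t_pos G m (h.comp i) hq
        omega
      · rw [if_neg hq] at outX
        omega
    have tY : (if (∃ q, q ∈ h.comp j ∧ G.adj m q) then (3 - ((Finset.univ.filter (fun p => G.adj m p)).filter (fun p => p ∈ h.comp j)).card) else 0) ≤ 2 := by
      split_ifs with hq
      · have := t_pos G m (h.comp j) hq
        omega
      · omega
    by_cases hk : x k ∈ h.comp j
    · have cY : ((Finset.univ : Finset (Fin 3)).filter (fun t => x t ∈ h.comp j)).card ≤ 2 := by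
        have : ((Finset.univ : Finset (Fin 3)).filter (fun t => x t ∈ h.comp j)) ⊆ {j, k} := by
          intro t
          simp only [Finset.mem_filter, Finset.mem_univ, true_and, Finset.mem_insert, Finset.mem_singleton]
          intro ht
          rcases hall t with rfl | rfl | rfl
          · exact absurd ht xij
          · exact Or.inl rfl
          · exact Or.inr rfl
        exact (Finset.card_le_card this).trans Finset.card_le_two
      have hxjk : x j ≠ x k := by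
        intro he
        exact h.not_on hjk (h.ux j).symm (h.ax j) (he ▸ h.ax k)
      exact h.move_of_small hE hdet hYW hYc (by omega) (x j) (x k) xj hk hxjk (h.cx j) (h.cx k)
    · have cY : ((Finset.univ : Finset (Fin 3)).filter (fun t => x t ∈ h.comp j)).card ≤ 1 := by
        have : ((Finset.univ : Finset (Fin 3)).filter (fun t => x t ∈ h.comp j)) ⊆ {j} := by
          intro t
          simp only [Finset.mem_filter, Finset.mem_univ, true_and, Finset.mem_singleton]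
          intro ht
          rcases hall t with rfl | rfl | rfl
          · exact absurd ht xij
          · rfl
          · exact absurd ht hk
        refine (Finset.card_le_card this).trans ?_
        rw [Finset.card_singleton]
      obtain ⟨p', hp', hpne', hpc'⟩ := h.second hYW hYc j i k hij.symm hjk hik
        (fun t => by rcases hall t with h | h | h
                     · exact Or.inr (Or.inl h)
                     · exact Or.inl h
                     · exact Or.inr (Or.inr h)) xj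
      exact h.move_of_small hE hdet hYW hYc (by omega) p' (x j) hp' xj hpne' hpc' (h.cx j)

theorem connect_or_move [Fintype V] (h : Loc G u m l x y) {E : V → Fin 3 → ℝ} (hE : IsRep G E)
    (hdet : E (y 0) ⬝ᵥ (E (y 1) ⨯₃ E (y 2)) ≠ 0) :
    (x 1 ∈ h.comp 0 ∧ x 0 ∈ h.comp 2) ∨ ∃ E', IsRep G E' ∧ ¬ Eqv G E E' := by
  have symc : ∀ i j, x j ∈ h.comp i → x i ∈ h.comp j := by
    rintro i j ⟨n, hn⟩
    exact ⟨n, reach_symm h.AW_symm hn⟩
  have trc : ∀ i j k, x j ∈ h.comp i → x k ∈ h.comp j → x k ∈ h.comp i := by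
    rintro i j k ⟨n, hn⟩ ⟨n', hn'⟩
    exact ⟨_, hn.trans hn'⟩
  by_cases h1 : x 1 ∈ h.comp 0
  · by_cases h2 : x 0 ∈ h.comp 2
    · exact Or.inl ⟨h1, h2⟩
    · right
      refine h.isolated hE hdet 2 0 1 (by decide) (by decide) (by decide) (by decide) h2 ?_
      intro h3
      exact h2 (trc 2 1 0 h3 (symc 0 1 h1))
  · right
    by_cases h2 : x 0 ∈ h.comp 2
    · refine h.isolated hE hdet 1 0 2 (by decide) (by decide) (by decide) (by decide) (fun h3 => h1 (symc 1 0 h3)) ?_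
      intro h3
      exact h1 (trc 0 2 1 (symc 2 0 h2) (symc 1 2 h3))
    · exact h.isolated hE hdet 0 1 2 (by decide) (by decide) (by decide) (by decide) h1 (fun h3 => h2 (symc 0 2 h3))

end Loc

/-- the main alternative: the local data give a second, inequivalent representation -/
theorem second_rep [Fintype V] {G : Cfg V} {u m : V} {l x y : Fin 3 → V} (h : Loc G u m l x y)
    {E : V → Fin 3 → ℝ} (hE : IsRep G E)
    (hdet : E (y 0) ⬝ᵥ (E (y 1) ⨯₃ E (y 2)) ≠ 0) :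
    ∃ E', IsRep G E' ∧ ¬ Eqv G E E' := by
  rcases h.connect_or_move hE hdet with ⟨hc1, hc2⟩ | hmv
  · obtain ⟨v, Θ, e0, e1, e2, vW, hq⟩ := exists_theta G h.W u (l 0) (l 1) (l 2) (x 0) (x 1) (x 2) (y 0) (y 1) (y 2)
      (h.li 0 1 (by decide)) (h.li 0 2 (by decide)) (h.li 1 2 (by decide)) (h.au 0) (h.au 1) (h.au 2)
      (h.ax 0) (h.ax 1) (h.ax 2) (h.ay 0) (h.ay 1) (h.ay 2) (h.ux 0) (h.ux 1) (h.ux 2) (h.uy 0) (h.uy 1) (h.uy 2)
      (h.xy 0) (h.xy 1) (h.xy 2) (fun h1 => h1.1 rfl) (fun h1 => h1.2.2.2 0 rfl) (fun h1 => h1.2.2.2 1 rfl)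
      (fun h1 => h1.2.2.2 2 rfl) (h.xW 0) (h.xW 1) (h.xW 2) (fun h1 => h1.2.2.1 0 rfl) (fun h1 => h1.2.2.1 1 rfl)
      (fun h1 => h1.2.2.1 2 rfl) hc1 hc2
    obtain ⟨E', hE', hfix, hu⟩ := theta_main G E hE u v Θ (by rw [e0, e1, e2]; exact hdet)
    refine ⟨E', hE', ?_⟩
    -- everything outside W, u, l i is fixed
    have fixd : ∀ w, w ≠ u → w ∉ h.W → (∀ i, w ≠ l i) → E' w = E w := by
      intro w h1 h2 h3
      apply hfix w h1
      · rintro rfl; exact h2 vW
      · intro i j hj h4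
        rcases hq i j hj with h5 | h5 | h5 | h5
        · rw [← h4] at h5; exact h2 h5
        · exact h3 0 (h4.trans h5)
        · exact h3 1 (h4.trans h5)
        · exact h3 2 (h4.trans h5)
    have fy : ∀ i, E' (y i) = E (y i) := by
      intro i
      apply fixd _ (h.uy i).symm (fun h1 => h1.2.2.1 i rfl)
      intro j hj
      have := h.cy i
      rw [hj, h.cl] at this
      exact absurd this (by decide)
    have hmu : m ≠ u := by
      intro h1
      have := h.cm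
      rw [h1, h.cu] at this
      exact absurd this (by decide)
    have fm : E' m = E m := by
      apply fixd _ hmu (fun h1 => h1.2.1 rfl)
      intro j hj
      apply h.mu
      rw [hj]
      exact G.symm (h.au j)
    rintro ⟨g, hg, hgp, hgl⟩
    have fix : ∀ i, ∃ c : ℝ, g *ᵥ E (y i) = c • E (y i) := by
      intro i
      obtain ⟨c, hc, h1⟩ := hgp (y i) (h.cy i)
      rw [fy i] at h1
      refine ⟨c⁻¹, ?_⟩
      conv_rhs => rw [h1]
      rw [smul_smul, inv_mul_cancel₀ hc, one_smul]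
    obtain ⟨g0, k0⟩ := fix 0
    obtain ⟨g1, k1⟩ := fix 1
    obtain ⟨g2, k2⟩ := fix 2
    obtain ⟨c, hc, hm⟩ := hgl m h.cm
    rw [fm] at hm
    have ny : ∀ i, E (y i) ⬝ᵥ E m ≠ 0 := by
      intro i h0
      apply h.my i
      apply G.symm
      rw [← hE.2 (y i) m (by rw [h.cy, h.cm]; decide)]
      exact h0
    have hsc := frameA hdet k0 k1 k2 hm (ny 0) (ny 1) (ny 2)
    obtain ⟨c', hc', h5⟩ := hgp u h.cu
    rw [hsc, smul_smul] at h5
    exact hu _ h5
  · exact hmv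

theorem Loc.mk' (G : Cfg V) (u m l0 l1 l2 x0 x1 x2 y0 y1 y2 : V)
    (cu : G.col u = true) (cm : G.col m = false)
    (h01 : l0 ≠ l1) (h02 : l0 ≠ l2) (h12 : l1 ≠ l2)
    (au0 : G.adj u l0) (au1 : G.adj u l1) (au2 : G.adj u l2)
    (ax0 : G.adj l0 x0) (ax1 : G.adj l1 x1) (ax2 : G.adj l2 x2)
    (ay0 : G.adj l0 y0) (ay1 : G.adj l1 y1) (ay2 : G.adj l2 y2)
    (ux0 : u ≠ x0) (ux1 : u ≠ x1) (ux2 : u ≠ x2) (uy0 : u ≠ y0) (uy1 : u ≠ y1) (uy2 : u ≠ y2)
    (xy0 : x0 ≠ y0) (xy1 : x1 ≠ y1) (xy2 : x2 ≠ y2)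
    (mu : ¬ G.adj m u) (my0 : ¬ G.adj m y0) (my1 : ¬ G.adj m y1) (my2 : ¬ G.adj m y2)
    (r0 : G.adj m x0 → ∀ z, G.adj z x0 → G.adj z y1 → G.adj z y2 → False)
    (r1 : G.adj m x1 → ∀ z, G.adj z x1 → G.adj z y0 → G.adj z y2 → False)
    (r2 : G.adj m x2 → ∀ z, G.adj z x2 → G.adj z y0 → G.adj z y1 → False) :
    Loc G u m ![l0, l1, l2] ![x0, x1, x2] ![y0, y1, y2] where
  cu := cu
  cm := cm
  li := by
    intro i j hij
    fin_cases i <;> fin_cases j <;> simp_all [Ne.symm h01, Ne.symm h02, Ne.symm h12]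
  au := by intro i; fin_cases i <;> assumption
  ax := by intro i; fin_cases i <;> assumption
  ay := by intro i; fin_cases i <;> assumption
  ux := by intro i; fin_cases i <;> assumption
  uy := by intro i; fin_cases i <;> assumption
  xy := by intro i; fin_cases i <;> assumption
  mu := mu
  my := by intro i; fin_cases i <;> assumption
  r3 := by
    intro i j k hij hik hjk
    fin_cases i <;> fin_cases j <;> fin_cases k <;>
      first
      | exact absurd rfl hij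
      | exact absurd rfl hik
      | exact absurd rfl hjk
      | exact r0
      | exact r1
      | exact r2
      | exact fun h z a b c => r0 h z a c b
      | exact fun h z a b c => r1 h z a c b
      | exact fun h z a b c => r2 h z a c b

theorem span2 {l x y z : Fin 3 → ℝ} (hl : l ≠ 0) (hx : x ⬝ᵥ l = 0) (hy : y ⬝ᵥ l = 0) (hz : z ⬝ᵥ l = 0)
    (hxy : x ⨯₃ y ≠ 0) : ∃ s t : ℝ, z = s • x + t • y := by
  obtain ⟨c, hc⟩ := cross_smul_of_orth hl hx hy
  have hc0 : c ≠ 0 := by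
    rintro rfl
    apply hxy
    rw [hc, zero_smul]
  have hdet : l ⬝ᵥ (x ⨯₃ y) ≠ 0 := by
    rw [hc, dotProduct_smul, smul_eq_mul]
    apply mul_ne_zero hc0
    rw [dot3]; exact sq_ne_zero3 hl
  have h := coord hdet z
  have h2 : z ⬝ᵥ (x ⨯₃ y) = 0 := by rw [hc, dotProduct_smul, hz, smul_zero]
  rw [h2, zero_div, zero_smul, zero_add] at h
  exact ⟨_, _, h⟩

theorem IsRep.span_pt {G : Cfg V} {E : V → Fin 3 → ℝ} (h : IsRep G E) {p q r l : V}
    (hpq : p ≠ q) (hpr : p ≠ r) (hqr : q ≠ r) (hp : G.adj l p) (hq : G.adj l q) (hr : G.adj l r) :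
    ∃ s t : ℝ, s ≠ 0 ∧ t ≠ 0 ∧ E r = s • E p + t • E q := by
  have cpq : G.col p = G.col q := by
    have h1 := G.bip hp
    have h2 := G.bip hq
    revert h1 h2
    cases G.col p <;> cases G.col q <;> cases G.col l <;> simp
  have cpr : G.col p = G.col r := by
    have h1 := G.bip hp
    have h2 := G.bip hr
    revert h1 h2
    cases G.col p <;> cases G.col r <;> cases G.col l <;> simp
  obtain ⟨s, t, hst⟩ := span2 (h.1 l) (h.dot (G.symm hp)) (h.dot (G.symm hq)) (h.dot (G.symm hr)) (h.cross_ne hpq cpq)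
  refine ⟨s, t, ?_, ?_, hst⟩
  · rintro rfl
    apply h.cross_ne hqr (cpq.symm.trans cpr)
    rw [hst, zero_smul, zero_add, map_smul, cross_self, smul_zero]
  · rintro rfl
    apply h.cross_ne hpr cpr
    rw [hst, zero_smul, add_zero, map_smul, cross_self, smul_zero]

theorem IsRep.det_zero {G : Cfg V} {E : V → Fin 3 → ℝ} (h : IsRep G E) {p q r l : V}
    (hp : G.adj l p) (hq : G.adj l q) (hr : G.adj l r) : E p ⬝ᵥ (E q ⨯₃ E r) = 0 := by
  obtain ⟨c, hc⟩ := cross_smul_of_orth (h.1 l) (h.dot (G.symm hq)) (h.dot (G.symm hr))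
  rw [hc, dotProduct_smul, h.dot (G.symm hp), smul_zero]

/-- the Fano configuration is not real -/
theorem fano {G : Cfg V} {E : V → Fin 3 → ℝ} (h : IsRep G E) {u a a' b b' d d' l0 l1 l2 k ka kb kd : V}
    (cab : G.col b = G.col u)
    (hua : u ≠ a) (hua' : u ≠ a') (haa : a ≠ a') (hub : u ≠ b) (hub' : u ≠ b') (hbb : b ≠ b')
    (hud : u ≠ d) (hud' : u ≠ d') (hdd : d ≠ d') (hab : a ≠ b) (had : a ≠ d) (hbd : b ≠ d)
    (hbl0 : ¬ G.adj l0 b)
    (u0 : G.adj l0 u) (a0 : G.adj l0 a) (a0' : G.adj l0 a')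
    (u1 : G.adj l1 u) (b1 : G.adj l1 b) (b1' : G.adj l1 b')
    (u2 : G.adj l2 u) (d2 : G.adj l2 d) (d2' : G.adj l2 d')
    (k1 : G.adj k a) (k2 : G.adj k b) (k3 : G.adj k d)
    (m1 : G.adj ka a) (m2 : G.adj ka b') (m3 : G.adj ka d')
    (n1 : G.adj kb b) (n2 : G.adj kb a') (n3 : G.adj kb d')
    (o1 : G.adj kd d) (o2 : G.adj kd a') (o3 : G.adj kd b') : False := by
  obtain ⟨α1, α2, hα1, hα2, ea⟩ := h.span_pt hua hua' haa u0 a0 a0'
  obtain ⟨β1, β2, hβ1, hβ2, eb⟩ := h.span_pt hub hub' hbb u1 b1 b1'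
  obtain ⟨γ1, γ2, hγ1, hγ2, ed⟩ := h.span_pt hud hud' hdd u2 d2 d2'
  obtain ⟨δ1, δ2, hδ1, hδ2, e⟩ := h.span_pt hab had hbd k1 k2 k3
  have D : E u ⬝ᵥ (E a ⨯₃ E b) ≠ 0 := h.det_ne hua (G.symm u0) (G.symm a0) cab (fun h1 => hbl0 (G.symm h1))
  have z1 := h.det_zero m1 m2 m3
  have z2 := h.det_zero n1 n2 n3
  have z3 := h.det_zero o1 o2 o3
  rw [eb, ed, e] at z1
  rw [ea, ed, e] at z2
  rw [e, ea, eb] at z3
  rw [dot3, cross3] at z1 z2 z3 D
  simp only [Fin.isValue, cons_val_zero, cons_val_one, cons_val, Pi.add_apply, Pi.smul_apply, smul_eq_mul] at z1 z2 z3 D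
  set DD := E u 0 * (E a 1 * E b 2 - E a 2 * E b 1) + E u 1 * (E a 2 * E b 0 - E a 0 * E b 2) + E u 2 * (E a 0 * E b 1 - E a 1 * E b 0) with hDD
  have f1 : DD * (β2 * γ1 - β1 * γ2 * δ2) = 0 := by
    rw [hDD]; linear_combination z1
  have f2 : DD * (α1 * γ2 * δ1 - α2 * γ1) = 0 := by
    rw [hDD]; linear_combination z2
  have f3 : DD * (δ1 * α1 * β2 + δ2 * α2 * β1) = 0 := by
    rw [hDD]; linear_combination -z3
  have g1 := (mul_eq_zero.mp f1).resolve_left D
  have g2 := (mul_eq_zero.mp f2).resolve_left D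
  have g3 := (mul_eq_zero.mp f3).resolve_left D
  have : γ2 * (2 * (δ2 * α2 * β1)) = 0 := by
    linear_combination γ2 * g3 - β2 * g2 - α2 * g1
  have h5 : γ2 * (2 * (δ2 * α2 * β1)) ≠ 0 :=
    mul_ne_zero hγ2 (mul_ne_zero two_ne_zero (mul_ne_zero (mul_ne_zero hδ2 hα2) hβ1))
  exact h5 this

/-- the Moebius-Kantor configuration is not real -/
theorem mk8 {G : Cfg V} {E : V → Fin 3 → ℝ} (h : IsRep G E) {u z a a' b b' d0 d1 l0 l1 l2 k1 kj ki J J' : V}
    (cab : G.col b = G.col u)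
    (hua : u ≠ a) (hua' : u ≠ a') (haa : a ≠ a') (hub : u ≠ b) (hub' : u ≠ b') (hbb : b ≠ b')
    (hab : a ≠ b) (haz : a ≠ z) (hbz : b ≠ z)
    (hbl0 : ¬ G.adj l0 b)
    (ha'b : a' ≠ b) (ha'd0 : a' ≠ d0) (hbd0 : b ≠ d0) (hzb' : z ≠ b') (hzd0 : z ≠ d0) (hb'd0 : b' ≠ d0)
    (hb'a : b' ≠ a) (hb'd1 : b' ≠ d1) (had1 : a ≠ d1) (hza' : z ≠ a') (hzd1 : z ≠ d1) (ha'd1 : a' ≠ d1)
    (u0 : G.adj l0 u) (a0 : G.adj l0 a) (a0' : G.adj l0 a')
    (u1 : G.adj l1 u) (b1 : G.adj l1 b) (b1' : G.adj l1 b')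
    (u2 : G.adj l2 u) (e0 : G.adj l2 d0) (e1 : G.adj l2 d1)
    (p1 : G.adj k1 z) (p2 : G.adj k1 a) (p3 : G.adj k1 b)
    (q1 : G.adj kj z) (q2 : G.adj kj d0) (q3 : G.adj kj b')
    (r1 : G.adj ki z) (r2 : G.adj ki d1) (r3 : G.adj ki a')
    (s1 : G.adj J a') (s2 : G.adj J b) (s3 : G.adj J d0)
    (t1 : G.adj J' b') (t2 : G.adj J' a) (t3 : G.adj J' d1) : False := by
  obtain ⟨α1, α2, hα1, hα2, ea⟩ := h.span_pt hua hua' haa u0 a0 a0'
  obtain ⟨β1, β2, hβ1, hβ2, eb⟩ := h.span_pt hub hub' hbb u1 b1 b1'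
  obtain ⟨ζ1, ζ2, hζ1, hζ2, ez⟩ := h.span_pt hab haz hbz p2 p3 p1
  obtain ⟨p, q, hp, hq, ed0⟩ := h.span_pt ha'b ha'd0 hbd0 s1 s2 s3
  obtain ⟨r, s, hr, hs, ed0'⟩ := h.span_pt hzb' hzd0 hb'd0 q1 q3 q2
  obtain ⟨p', q', hp', hq', ed1⟩ := h.span_pt hb'a hb'd1 had1 t1 t2 t3
  obtain ⟨r', s', hr', hs', ed1'⟩ := h.span_pt hza' hzd1 ha'd1 r1 r3 r2
  have D : E u ⬝ᵥ (E a ⨯₃ E b) ≠ 0 := h.det_ne hua (G.symm u0) (G.symm a0) cab (fun h1 => hbl0 (G.symm h1))
  have c0 : (p * α1 - s * β1) • E u + (p * α2 - r * ζ1) • E a + (q - r * ζ2 - s * β2) • E b = 0 := by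
    have h1 := ed0.symm.trans ed0'
    rw [ea, eb, ez] at h1
    have h2 := sub_eq_zero.mpr h1
    rw [← h2]
    funext i
    simp only [Pi.add_apply, Pi.sub_apply, Pi.smul_apply, smul_eq_mul]
    ring
  have c1 : (p' * β1 - s' * α1) • E u + (q' - r' * ζ1 - s' * α2) • E a + (p' * β2 - r' * ζ2) • E b = 0 := by
    have h1 := ed1.symm.trans ed1'
    rw [ea, eb, ez] at h1
    have h2 := sub_eq_zero.mpr h1
    rw [← h2]
    funext i
    simp only [Pi.add_apply, Pi.sub_apply, Pi.smul_apply, smul_eq_mul]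
    ring
  obtain ⟨x1, x2, x3⟩ := indep D _ _ _ c0
  obtain ⟨y1, y2, y3⟩ := indep D _ _ _ c1
  have w := h.det_zero u2 e0 e1
  rw [ed0, ed1, ea, eb] at w
  rw [dot3, cross3] at w D
  simp only [Fin.isValue, cons_val_zero, cons_val_one, cons_val, Pi.add_apply, Pi.smul_apply, smul_eq_mul] at w D
  set DD := E u 0 * (E a 1 * E b 2 - E a 2 * E b 1) + E u 1 * (E a 2 * E b 0 - E a 0 * E b 2) + E u 2 * (E a 0 * E b 1 - E a 1 * E b 0) with hDD
  have f1 : DD * (p * α2 * (p' * β2) - q * q') = 0 := by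
    rw [hDD]; linear_combination w
  have g1 := (mul_eq_zero.mp f1).resolve_left D
  set X := ζ2 * α2 * β1 with hX
  set Y := ζ1 * α1 * β2 with hY
  have i1 : q * (α2 * β1) = r * (X + Y) := by
    rw [hX, hY]; linear_combination (α2 * β1) * x3 - (α2 * β2) * x1 + (α1 * β2) * x2
  have i2 : q' * (α1 * β2) = r' * (X + Y) := by
    rw [hX, hY]; linear_combination (α1 * β2) * y2 - (α2 * β2) * y1 + (α2 * β1) * y3
  have i3 : (r * r') * (X^2 + X * Y + Y^2) = 0 := by
    have j1 : q * (α2 * β1) * (q' * (α1 * β2)) = r * (X + Y) * (r' * (X + Y)) := by rw [i1, i2]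
    have j2 : p * α2 = r * ζ1 := by linarith
    have j3 : p' * β2 = r' * ζ2 := by linarith
    rw [j2, j3] at g1
    have j4 : r * r' * (X * Y) = (r * ζ1 * (r' * ζ2)) * (α2 * β1 * (α1 * β2)) := by rw [hX, hY]; ring
    have j5 : r * ζ1 * (r' * ζ2) = q * q' := by linarith
    rw [j5] at j4
    linear_combination -j1 - j4
  have i4 := (mul_eq_zero.mp i3).resolve_left (mul_ne_zero hr hr')
  have hX0 : X = 0 := by nlinarith [sq_nonneg (X + Y), sq_nonneg X, sq_nonneg Y]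
  exact (mul_ne_zero (mul_ne_zero hζ2 hα2) hβ1) hX0

/-- a configuration in which all points are collinear with u is not real -/
theorem exists_noncollinear {G : Cfg V} {E : V → Fin 3 → ℝ} (hE : IsRep G E) (u : V) (cu : G.col u = true) :
    ∃ z, G.col z = true ∧ z ≠ u ∧ ∀ l, G.adj l u → ¬ G.adj l z := by
  by_contra hcon
  push Not at hcon
  obtain ⟨L0, L1, L2, h01, h02, h12, au0, au1, au2, hu⟩ := G.three u
  obtain ⟨a, ha, hau, _⟩ := G.third L0 u u
  obtain ⟨a', ha', hau', haa⟩ := G.third L0 u a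
  have ca : G.col a = true := by
    have h1 := G.bip au0
    have h2 := G.bip ha
    revert h1 h2; rw [cu]
    cases G.col L0 <;> cases G.col a <;> simp
  obtain ⟨k, hk, hkL, _⟩ := G.third a L0 L0
  obtain ⟨b, hb, hba, _⟩ := G.third k a a
  obtain ⟨d, hd, hda, hdb⟩ := G.third k a b
  have cb : G.col b = true := by
    have h1 := G.bip hk
    have h2 := G.bip hb
    revert h1 h2; rw [ca]
    cases G.col k <;> cases G.col b <;> simp
  have cd : G.col d = true := by
    have h1 := G.bip hk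
    have h2 := G.bip hd
    revert h1 h2; rw [ca]
    cases G.col k <;> cases G.col d <;> simp
  -- u is not on k
  have hku : ¬ G.adj k u := by
    intro h1
    exact G.lin hau hkL hk (G.symm ha) (G.symm h1) au0
  have onl : ∀ w, G.col w = true → w ≠ u → G.adj w L0 ∨ G.adj w L1 ∨ G.adj w L2 := by
    intro w hw hwu
    obtain ⟨l, hl1, hl2⟩ := hcon w hw hwu
    rcases hu l (G.symm hl1) with rfl | rfl | rfl
    · exact Or.inl (G.symm hl2)
    · exact Or.inr (Or.inl (G.symm hl2))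
    · exact Or.inr (Or.inr (G.symm hl2))
  have hbu : b ≠ u := by rintro rfl; exact hku hb
  have hdu : d ≠ u := by rintro rfl; exact hku hd
  have nbL0 : ∀ w, G.adj k w → w ≠ a → ¬ G.adj w L0 := by
    intro w h1 h2 h3
    exact G.lin h2 hkL (G.symm h1) h3 hk (G.symm ha)
  -- main part, symmetric in b and d
  have main : ∀ (M1 M2 b d : V), M1 ≠ M2 → M1 ≠ L0 → M2 ≠ L0 → G.adj u M1 → G.adj u M2 →
      (∀ w, G.col w = true → w ≠ u → G.adj w L0 ∨ G.adj w M1 ∨ G.adj w M2) →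
      G.adj k b → G.adj k d → b ≠ a → d ≠ a → d ≠ b → G.adj b M1 → G.adj d M2 → G.col b = true → G.col d = true → False := by
    intro M1 M2 b d hM h10 h20 aM1 aM2 honl hb hd hba hda hdb bM1 dM2 cb cd
    have hbu : b ≠ u := by rintro rfl; exact hku hb
    have hdu : d ≠ u := by rintro rfl; exact hku hd
    obtain ⟨b', hb', hbu', hbb⟩ := G.third M1 u b
    obtain ⟨d', hd', hdu', hdd⟩ := G.third M2 u d
    -- third line of a point of k
    have third : ∀ (p lp q lq q' r lr r' : V), G.adj k p → G.adj k q → G.adj k r → p ≠ q → p ≠ r → q ≠ r →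
        G.adj p lp → G.adj q lq → G.adj r lr → lp ≠ lq → lp ≠ lr → lq ≠ lr → G.adj u lp → G.adj u lq → G.adj u lr →
        G.adj lq q' → q' ≠ u → q' ≠ q → G.adj lr r' → r' ≠ u → r' ≠ r → p ≠ u → q ≠ u → r ≠ u → G.col p = true →
        (∀ w, G.col w = true → w ≠ u → G.adj w lp ∨ G.adj w lq ∨ G.adj w lr) →
        ∃ z, G.adj z p ∧ G.adj z q' ∧ G.adj z r' := by
      intro p lp q lq q' r lr r' kp kq kr hpq hpr hqr plp qlq rlr e1 e2 e3 ulp ulq ulr g1 g2 g3 g4 g5 g6 pu qu ru cp hon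
      obtain ⟨z, hz, hz1, hz2⟩ := G.third p k lp
      have nz : ∀ w, G.adj z w → w = p ∨ w = q' ∨ w = r' := by
        intro w hw
        by_contra hne
        push Not at hne
        have cw : G.col w = true := by
          have h1 := G.bip hz
          have h2 := G.bip hw
          revert h1 h2; rw [cp]
          cases G.col z <;> cases G.col w <;> simp
        have wu : w ≠ u := by
          rintro rfl
          exact G.lin pu hz2 hz plp (G.symm hw) ulp
        rcases hon w cw wu with h1 | h1 | h1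
        · exact G.lin hne.1 hz2 (G.symm hw) h1 hz plp
        · rcases G.mem_of_three qu.symm g2.symm (Ne.symm g3) (G.symm ulq) (G.symm qlq) g1 (G.symm h1) with h2 | h2 | h2
          · exact wu h2
          · rw [h2] at hw
            exact G.lin hpq hz1 hz (G.symm kp) (G.symm hw) (G.symm kq)
          · exact hne.2.1 h2
        · rcases G.mem_of_three ru.symm g5.symm (Ne.symm g6) (G.symm ulr) (G.symm rlr) g4 (G.symm h1) with h2 | h2 | h2
          · exact wu h2
          · rw [h2] at hw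
            exact G.lin hpr hz1 hz (G.symm kp) (G.symm hw) (G.symm kr)
          · exact hne.2.2 h2
      obtain ⟨w1, hw1, hw1p, _⟩ := G.third z p p
      obtain ⟨w2, hw2, hw2p, hw21⟩ := G.third z p w1
      refine ⟨z, G.symm hz, ?_, ?_⟩
      · rcases nz w1 hw1 with h | h | h
        · exact absurd h hw1p
        · exact h ▸ hw1
        · rcases nz w2 hw2 with h' | h' | h'
          · exact absurd h' hw2p
          · exact h' ▸ hw2
          · exact absurd (h'.trans h.symm) hw21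
      · rcases nz w1 hw1 with h | h | h
        · exact absurd h hw1p
        · rcases nz w2 hw2 with h' | h' | h'
          · exact absurd h' hw2p
          · exact absurd (h'.trans h.symm) hw21
          · exact h' ▸ hw2
        · exact h ▸ hw1
    obtain ⟨ka, m1, m2, m3⟩ := third a L0 b M1 b' d M2 d' (G.symm hk) hb hd (Ne.symm hba) (Ne.symm hda) (Ne.symm hdb) (G.symm ha) bM1 dM2
      (Ne.symm h10) (Ne.symm h20) hM au0 aM1 aM2 hb' hbu' hbb hd' hdu' hdd hau hbu hdu ca honl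
    obtain ⟨kb, n1, n2, n3⟩ := third b M1 a L0 a' d M2 d' hb (G.symm hk) hd hba (Ne.symm hdb) (Ne.symm hda) bM1 (G.symm ha) dM2
      h10 hM (Ne.symm h20) aM1 au0 aM2 ha' hau' haa hd' hdu' hdd hbu hau hdu cb
      (fun w h1 h2 => by rcases honl w h1 h2 with h | h | h
                         · exact Or.inr (Or.inl h)
                         · exact Or.inl h
                         · exact Or.inr (Or.inr h))
    obtain ⟨kd, o1, o2, o3⟩ := third d M2 a L0 a' b M1 b' hd (G.symm hk) hb hda hdb (Ne.symm hba) dM2 (G.symm ha) bM1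
      h20 hM.symm (Ne.symm h10) aM2 au0 aM1 ha' hau' haa hb' hbu' hbb hdu hau hbu cd
      (fun w h1 h2 => by rcases honl w h1 h2 with h | h | h
                         · exact Or.inr (Or.inl h)
                         · exact Or.inr (Or.inr h)
                         · exact Or.inl h)
    refine fano hE (u := u) (a := a) (a' := a') (b := b) (b' := b') (d := d) (d' := d') (l0 := L0) (l1 := M1) (l2 := M2) (k := k)
      (ka := ka) (kb := kb) (kd := kd) (by rw [cb, cu]) hau.symm hau'.symm haa.symm hbu.symm hbu'.symm hbb.symm hdu.symm hdu'.symm hdd.symm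
      (Ne.symm hba) (Ne.symm hda) (Ne.symm hdb) ?_ (G.symm au0) ha ha' (G.symm aM1) (G.symm bM1) hb' (G.symm aM2) (G.symm dM2) hd'
      (G.symm hk) hb hd m1 m2 m3 n1 n2 n3 o1 o2 o3
    intro h1
    exact nbL0 b hb hba (G.symm h1)
  rcases onl b cb hbu with h1 | h1 | h1
  · exact nbL0 b hb hba h1
  · rcases onl d cd hdu with h2 | h2 | h2
    · exact nbL0 d hd hda h2
    · -- both on L1
      exact G.lin hdb (fun h3 => hku (h3 ▸ G.symm au1) : k ≠ L1) (G.symm hd) h2 (G.symm hb) h1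
    · exact main L1 L2 b d h12 h01.symm h02.symm au1 au2 onl hb hd hba hda hdb h1 h2 cb cd
  · rcases onl d cd hdu with h2 | h2 | h2
    · exact nbL0 d hd hda h2
    · exact main L1 L2 d b h12 h01.symm h02.symm au1 au2 onl hd hb hda hba (Ne.symm hdb) h2 h1 cd cb
    · exact G.lin hdb (fun h3 => hku (h3 ▸ G.symm au2) : k ≠ L2) (G.symm hd) h2 (G.symm hb) h1

section selection

variable [Fintype V] {G : Cfg V} {E : V → Fin 3 → ℝ}

theorem Cfg.col_true {p q l : V} (hp : G.adj l p) (hq : G.adj l q) (cp : G.col p = true) : G.col q = true := by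
  have h1 := G.bip hp
  have h2 := G.bip hq
  revert h1 h2; rw [cp]
  cases G.col l <;> cases G.col q <;> simp

omit [Fintype V] in
theorem row (hE : IsRep G E) {u a b d0 d1 L0 L1 L2 : V} (cu : G.col u = true)
    (h01 : L0 ≠ L1) (au0 : G.adj u L0) (au1 : G.adj u L1) (au2 : G.adj u L2)
    (ha : G.adj L0 a) (hau : a ≠ u) (hb : G.adj L1 b) (hbu : b ≠ u)
    (hd0 : G.adj L2 d0) (hd1 : G.adj L2 d1) (hd01 : d0 ≠ d1) (hd0u : d0 ≠ u) (hd1u : d1 ≠ u) :
    E a ⬝ᵥ (E b ⨯₃ E d0) ≠ 0 ∨ E a ⬝ᵥ (E b ⨯₃ E d1) ≠ 0 := by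
  by_contra hcon
  push Not at hcon
  obtain ⟨s, t, _, _, e⟩ := hE.span_pt hd01 hd0u hd1u hd0 hd1 (G.symm au2)
  have cb : G.col b = G.col u := by
    have h1 := G.bip au1
    have h2 := G.bip hb
    revert h1 h2
    cases G.col u <;> cases G.col L1 <;> cases G.col b <;> simp
  have D := hE.det_ne (Ne.symm hau) au0 (G.symm ha) cb (fun h => G.lin hbu h01 h (G.symm hb) au0 au1)
  apply D
  have h1 : E u ⬝ᵥ (E a ⨯₃ E b) = E a ⬝ᵥ (E b ⨯₃ E u) := by
    rw [dot3, cross3, dot3, cross3]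
    simp only [Fin.isValue, cons_val_zero, cons_val_one, cons_val]
    ring
  rw [h1, e, map_add, map_smul, map_smul, dotProduct_add, dotProduct_smul, dotProduct_smul, hcon.1, hcon.2]
  simp

theorem case1 (hE : IsRep G E) {u z a b L0 L1 L2 k1 : V} (cu : G.col u = true)
    (h01 : L0 ≠ L1) (h02 : L0 ≠ L2) (h12 : L1 ≠ L2)
    (au0 : G.adj u L0) (au1 : G.adj u L1) (au2 : G.adj u L2)
    (nz : ∀ l, G.adj l u → ¬ G.adj l z) (cz : G.col z = true)
    (ha : G.adj L0 a) (hau : a ≠ u) (hb : G.adj L1 b) (hbu : b ≠ u)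
    (kz : G.adj k1 z) (ka : G.adj k1 a) (kb : G.adj k1 b) :
    ∃ E', IsRep G E' ∧ ¬ Eqv G E E' := by
  by_contra hno
  obtain ⟨a', ha', ha'u, ha'a⟩ := G.third L0 u a
  obtain ⟨b', hb', hb'u, hb'b⟩ := G.third L1 u b
  obtain ⟨d0, hd0, hd0u, _⟩ := G.third L2 u u
  obtain ⟨d1, hd1, hd1u, hd10⟩ := G.third L2 u d0
  have n0 := nz L0 (G.symm au0)
  have n1 := nz L1 (G.symm au1)
  have n2 := nz L2 (G.symm au2)
  have nk : ∀ m, G.adj z m → ¬ G.adj m u := fun m hm h => nz m h (G.symm hm)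
  have ne01 : ∀ p q, G.adj L0 p → p ≠ u → G.adj L1 q → p ≠ q := by
    rintro p q h1 h2 h3 rfl
    exact G.lin h2 h01 (G.symm h1) (G.symm h3) au0 au1
  have ne02 : ∀ p q, G.adj L0 p → p ≠ u → G.adj L2 q → p ≠ q := by
    rintro p q h1 h2 h3 rfl
    exact G.lin h2 h02 (G.symm h1) (G.symm h3) au0 au2
  have ne12 : ∀ p q, G.adj L1 p → p ≠ u → G.adj L2 q → p ≠ q := by
    rintro p q h1 h2 h3 rfl
    exact G.lin h2 h12 (G.symm h1) (G.symm h3) au1 au2
  have hab : a ≠ b := ne01 a b ha hau hb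
  have haz : a ≠ z := by rintro rfl; exact n0 ha
  have hbz : b ≠ z := by rintro rfl; exact n1 hb
  have ca : G.col a = true := Cfg.col_true (G.symm au0) ha cu
  have cb : G.col b = true := Cfg.col_true (G.symm au1) hb cu
  have kd : ∀ d, G.adj L2 d → ¬ G.adj d k1 := by
    intro d hd h
    rcases G.mem_of_three (Ne.symm haz) (Ne.symm hbz) hab kz ka kb (G.symm h) with h1 | h1 | h1
    · rw [h1] at hd; exact n2 hd
    · exact ne02 a d ha hau hd h1.symm
    · exact ne12 b d hb hbu hd h1.symm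
  have blk : ∀ m d d', G.adj z m → m ≠ k1 → G.adj L2 d → G.adj L2 d' → d ≠ d' → d ≠ u → d' ≠ u →
      G.adj m d ∨ (G.adj m a' ∧ ∃ w, G.adj w a' ∧ G.adj w b ∧ G.adj w d) ∨
      (G.adj m b' ∧ ∃ w, G.adj w b' ∧ G.adj w a ∧ G.adj w d) := by
    intro m d d' hm hmk hd hd' hdd hdu hd'u
    by_contra hcon
    push Not at hcon
    obtain ⟨g1, g2, g3⟩ := hcon
    have cm : G.col m = false := (Cfg.col_of hm).1 cz
    have my0 : ¬ G.adj m a := fun h => G.lin haz hmk (G.symm h) (G.symm ka) hm (G.symm kz)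
    have my1 : ¬ G.adj m b := fun h => G.lin hbz hmk (G.symm h) (G.symm kb) hm (G.symm kz)
    have hloc := Loc.mk' G u m L0 L1 L2 a' b' d' a b d cu cm h01 h02 h12 au0 au1 au2 ha' hb' hd' ha hb hd
      ha'u.symm hb'u.symm hd'u.symm hau.symm hbu.symm hdu.symm ha'a hb'b hdd.symm (nk m hm) my0 my1 g1
      (fun h w h1 h2 h3 => g2 h w h1 h2 h3)
      (fun h w h1 h2 h3 => g3 h w h1 h2 h3)
      (fun h w h1 h2 h3 => by
        by_cases hw : w = k1
        · rw [hw] at h1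
          exact kd d' hd' (G.symm h1)
        · exact G.lin hab hw (G.symm h2) (G.symm ka) (G.symm h3) (G.symm kb))
    apply hno
    apply second_rep hloc hE
    simp only [Fin.isValue, cons_val_zero, cons_val_one, cons_val]
    exact hE.det_ne hab (G.symm ka) (G.symm kb) (by rw [Cfg.col_true (G.symm au2) hd cu, ca]) (kd d hd)
  obtain ⟨k2, hk2, hk21, _⟩ := G.third z k1 k1
  obtain ⟨k3, hk3, hk31, hk32⟩ := G.third z k1 k2
  have ex : ∀ p, p ≠ z → G.adj k2 p → G.adj k3 p → False := fun p hp h2 h3 =>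
    G.lin hp (Ne.symm hk32) (G.symm h2) (G.symm h3) hk2 hk3
  have ha'z : a' ≠ z := by rintro rfl; exact n0 ha'
  have hb'z : b' ≠ z := by rintro rfl; exact n1 hb'
  have exD : ∀ m, G.adj z m → G.adj m d0 → G.adj m d1 → False := by
    intro m hm h0 h1
    have : m ≠ L2 := by rintro rfl; exact n2 (G.symm hm)
    exact G.lin (Ne.symm hd10) this (G.symm h0) (G.symm hd0) (G.symm h1) (G.symm hd1)
  have exJ : ∀ (p q : V) (L : V), p ≠ q → G.adj L p → L = L0 ∨ L = L1 → p ≠ u →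
      (∃ w, G.adj w p ∧ G.adj w q ∧ G.adj w d0) → (∃ w, G.adj w p ∧ G.adj w q ∧ G.adj w d1) → False := by
    rintro p q L hpq hL hLL hpu ⟨w, w1, w2, w3⟩ ⟨w', w1', w2', w3'⟩
    have hww : w = w' := by
      by_contra hne
      exact G.lin hpq hne (G.symm w1) (G.symm w1') (G.symm w2) (G.symm w2')
    subst hww
    have hw : w = L2 := by
      by_contra hne
      exact G.lin (Ne.symm hd10) hne (G.symm w3) (G.symm hd0) (G.symm w3') (G.symm hd1)
    subst hw
    rcases hLL with rfl | rfl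
    · exact ne02 p p hL hpu w1 rfl
    · exact ne12 p p hL hpu w1 rfl
  -- final contradiction
  have fin : ∀ d0 d1, G.adj L2 d0 → G.adj L2 d1 → d0 ≠ d1 → d0 ≠ u → d1 ≠ u →
      (∀ m, G.adj z m → G.adj m d0 → G.adj m d1 → False) →
      (∃ w, G.adj w a' ∧ G.adj w b ∧ G.adj w d0) → (∃ w, G.adj w b' ∧ G.adj w a ∧ G.adj w d1) →
      ¬ (∃ w, G.adj w a' ∧ G.adj w b ∧ G.adj w d1) → ¬ (∃ w, G.adj w b' ∧ G.adj w a ∧ G.adj w d0) → False := by
    intro d0 d1 hd0 hd1 hd01 hd0u hd1u exD JA JB nJA nJB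
    have hd0z : d0 ≠ z := by rintro rfl; exact n2 hd0
    have hd1z : d1 ≠ z := by rintro rfl; exact n2 hd1
    have b20 : G.adj k2 d0 ∨ G.adj k2 a' := by
      rcases blk k2 d0 d1 hk2 hk21 hd0 hd1 hd01 hd0u hd1u with h | h | h
      · exact Or.inl h
      · exact Or.inr h.1
      · exact absurd h.2 nJB
    have b30 : G.adj k3 d0 ∨ G.adj k3 a' := by
      rcases blk k3 d0 d1 hk3 hk31 hd0 hd1 hd01 hd0u hd1u with h | h | h
      · exact Or.inl h
      · exact Or.inr h.1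
      · exact absurd h.2 nJB
    have b21 : G.adj k2 d1 ∨ G.adj k2 b' := by
      rcases blk k2 d1 d0 hk2 hk21 hd1 hd0 hd01.symm hd1u hd0u with h | h | h
      · exact Or.inl h
      · exact absurd h.2 nJA
      · exact Or.inr h.1
    have b31 : G.adj k3 d1 ∨ G.adj k3 b' := by
      rcases blk k3 d1 d0 hk3 hk31 hd1 hd0 hd01.symm hd1u hd0u with h | h | h
      · exact Or.inl h
      · exact absurd h.2 nJA
      · exact Or.inr h.1
    obtain ⟨J, s1, s2, s3⟩ := JA
    obtain ⟨J', t1, t2, t3⟩ := JB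
    have geo8 : ∀ kj ki, G.adj z kj → G.adj z ki → G.adj kj d0 → G.adj kj b' → G.adj ki d1 → G.adj ki a' → False := by
      intro kj ki g1 g2 g3 g4 g5 g6
      exact mk8 hE (u := u) (z := z) (a := a) (a' := a') (b := b) (b' := b') (d0 := d0) (d1 := d1) (l0 := L0) (l1 := L1)
        (l2 := L2) (k1 := k1) (kj := kj) (ki := ki) (J := J) (J' := J') (by rw [cb, cu]) hau.symm ha'u.symm ha'a.symm hbu.symm
        hb'u.symm hb'b.symm hab haz hbz (fun h => ne01 b b h hbu hb rfl) (ne01 a' b ha' ha'u hb) (ne02 a' d0 ha' ha'u hd0)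
        (ne12 b d0 hb hbu hd0) hb'z.symm hd0z.symm (ne12 b' d0 hb' hb'u hd0) (ne01 a b' ha hau hb').symm
        (ne12 b' d1 hb' hb'u hd1) (ne02 a d1 ha hau hd1) ha'z.symm hd1z.symm (ne02 a' d1 ha' ha'u hd1)
        (G.symm au0) ha ha' (G.symm au1) hb hb' (G.symm au2) hd0 hd1 kz ka kb (G.symm g1) g3 g4 (G.symm g2) g5 g6
        s1 s2 s3 t1 t2 t3
    by_cases h2 : G.adj k2 d0
    · have h3 : G.adj k3 a' := by
        rcases b30 with h | h
        · exact absurd h (fun h => ex d0 hd0z h2 h)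
        · exact h
      have h4 : G.adj k2 b' := by
        rcases b21 with h | h
        · exact absurd h (fun h => exD k2 hk2 h2 h)
        · exact h
      have h5 : G.adj k3 d1 := by
        rcases b31 with h | h
        · exact h
        · exact absurd h (fun h => ex b' hb'z h4 h)
      exact geo8 k2 k3 hk2 hk3 h2 h4 h5 h3
    · have h3 : G.adj k2 a' := by
        rcases b20 with h | h
        · exact absurd h h2
        · exact h
      have h4 : G.adj k3 d0 := by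
        rcases b30 with h | h
        · exact h
        · exact absurd h (fun h => ex a' ha'z h3 h)
      have h5 : G.adj k3 b' := by
        rcases b31 with h | h
        · exact absurd h (fun h => exD k3 hk3 h4 h)
        · exact h
      have h6 : G.adj k2 d1 := by
        rcases b21 with h | h
        · exact h
        · exact absurd h (fun h => ex b' hb'z h h5)
      exact geo8 k3 k2 hk3 hk2 h4 h5 h6 h3
  have hd0z : d0 ≠ z := by rintro rfl; exact n2 hd0
  have hd1z : d1 ≠ z := by rintro rfl; exact n2 hd1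
  have c0 : (∃ w, G.adj w a' ∧ G.adj w b ∧ G.adj w d0) ∨ (∃ w, G.adj w b' ∧ G.adj w a ∧ G.adj w d0) := by
    rcases blk k2 d0 d1 hk2 hk21 hd0 hd1 (Ne.symm hd10) hd0u hd1u with h | h | h
    · rcases blk k3 d0 d1 hk3 hk31 hd0 hd1 (Ne.symm hd10) hd0u hd1u with h' | h' | h'
      · exact absurd h' (fun h' => ex d0 hd0z h h')
      · exact Or.inl h'.2
      · exact Or.inr h'.2
    · exact Or.inl h.2
    · exact Or.inr h.2
  have c1 : (∃ w, G.adj w a' ∧ G.adj w b ∧ G.adj w d1) ∨ (∃ w, G.adj w b' ∧ G.adj w a ∧ G.adj w d1) := by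
    rcases blk k2 d1 d0 hk2 hk21 hd1 hd0 hd10 hd1u hd0u with h | h | h
    · rcases blk k3 d1 d0 hk3 hk31 hd1 hd0 hd10 hd1u hd0u with h' | h' | h'
      · exact absurd h' (fun h' => ex d1 hd1z h h')
      · exact Or.inl h'.2
      · exact Or.inr h'.2
    · exact Or.inl h.2
    · exact Or.inr h.2
  have xA := exJ a' b L0 (ne01 a' b ha' ha'u hb) ha' (Or.inl rfl) ha'u
  have xB := exJ b' a L1 (ne01 a b' ha hau hb').symm hb' (Or.inr rfl) hb'u
  rcases c0 with h0 | h0
  · rcases c1 with h1 | h1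
    · exact xA h0 h1
    · exact fin d0 d1 hd0 hd1 (Ne.symm hd10) hd0u hd1u exD h0 h1 (fun h => xA h0 h) (fun h => xB h h1)
  · rcases c1 with h1 | h1
    · exact fin d1 d0 hd1 hd0 hd10 hd1u hd0u (fun m hm g1 g0 => exD m hm g0 g1) h1 h0 (fun h => xA h h1) (fun h => xB h0 h)
    · exact xB h0 h1

/-- second case: a line through z contains no second neighbour of u apart from possibly a' -/
theorem case2 (hE : IsRep G E) {u z a a' L0 L1 L2 k1 : V} (cu : G.col u = true)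
    (h01 : L0 ≠ L1) (h02 : L0 ≠ L2) (h12 : L1 ≠ L2)
    (au0 : G.adj u L0) (au1 : G.adj u L1) (au2 : G.adj u L2)
    (nz : ∀ l, G.adj l u → ¬ G.adj l z) (cz : G.col z = true)
    (ha : G.adj L0 a) (hau : a ≠ u) (ha' : G.adj L0 a') (ha'u : a' ≠ u) (ha'a : a' ≠ a)
    (kz : G.adj k1 z)
    (hk : ∀ p, G.adj k1 p → (G.adj p L0 ∨ G.adj p L1 ∨ G.adj p L2) → p = a') :
    ∃ E', IsRep G E' ∧ ¬ Eqv G E E' := by
  have cm : G.col k1 = false := (Cfg.col_of kz).2.2.1 cz
  have nk : ¬ G.adj k1 u := fun h => nz k1 h kz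
  have ne01 : ∀ p q, G.adj L0 p → p ≠ u → G.adj L1 q → p ≠ q := by
    rintro p q h1 h2 h3 rfl
    exact G.lin h2 h01 (G.symm h1) (G.symm h3) au0 au1
  have ne02 : ∀ p q, G.adj L0 p → p ≠ u → G.adj L2 q → p ≠ q := by
    rintro p q h1 h2 h3 rfl
    exact G.lin h2 h02 (G.symm h1) (G.symm h3) au0 au2
  have main : ∀ b d, G.adj L1 b → b ≠ u → G.adj L2 d → d ≠ u → E a ⬝ᵥ (E b ⨯₃ E d) ≠ 0 →
      (G.adj k1 a' → ∀ w, G.adj w a' → G.adj w b → G.adj w d → False) → ∃ E', IsRep G E' ∧ ¬ Eqv G E E' := by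
    intro b d hb hbu hd hdu hdet hJ
    obtain ⟨b', hb', hb'u, hb'b⟩ := G.third L1 u b
    obtain ⟨d', hd', hd'u, hd'd⟩ := G.third L2 u d
    have hloc := Loc.mk' G u k1 L0 L1 L2 a' b' d' a b d cu cm h01 h02 h12 au0 au1 au2 ha' hb' hd' ha hb hd
      ha'u.symm hb'u.symm hd'u.symm hau.symm hbu.symm hdu.symm ha'a hb'b hd'd nk
      (fun h => ha'a (hk a h (Or.inl (G.symm ha))).symm)
      (fun h => ne01 a' b ha' ha'u hb (hk b h (Or.inr (Or.inl (G.symm hb)))).symm)
      (fun h => ne02 a' d ha' ha'u hd (hk d h (Or.inr (Or.inr (G.symm hd)))).symm)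
      hJ
      (fun h => absurd (hk b' h (Or.inr (Or.inl (G.symm hb')))).symm (ne01 a' b' ha' ha'u hb'))
      (fun h => absurd (hk d' h (Or.inr (Or.inr (G.symm hd')))).symm (ne02 a' d' ha' ha'u hd'))
    apply second_rep hloc hE
    simp only [Fin.isValue, cons_val_zero, cons_val_one, cons_val]
    exact hdet
  obtain ⟨b0, hb0, hb0u, _⟩ := G.third L1 u u
  obtain ⟨b1, hb1, hb1u, hb10⟩ := G.third L1 u b0
  obtain ⟨d0, hd0, hd0u, _⟩ := G.third L2 u u
  obtain ⟨d1, hd1, hd1u, hd10⟩ := G.third L2 u d0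
  have r0 : ∃ d, G.adj L2 d ∧ d ≠ u ∧ E a ⬝ᵥ (E b0 ⨯₃ E d) ≠ 0 := by
    rcases row hE cu h01 au0 au1 au2 ha hau hb0 hb0u hd0 hd1 (Ne.symm hd10) hd0u hd1u with h | h
    · exact ⟨d0, hd0, hd0u, h⟩
    · exact ⟨d1, hd1, hd1u, h⟩
  have r1 : ∃ d, G.adj L2 d ∧ d ≠ u ∧ E a ⬝ᵥ (E b1 ⨯₃ E d) ≠ 0 := by
    rcases row hE cu h01 au0 au1 au2 ha hau hb1 hb1u hd0 hd1 (Ne.symm hd10) hd0u hd1u with h | h
    · exact ⟨d0, hd0, hd0u, h⟩
    · exact ⟨d1, hd1, hd1u, h⟩
  obtain ⟨e0, he0, he0u, hdet0⟩ := r0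
  obtain ⟨e1, he1, he1u, hdet1⟩ := r1
  by_cases hA : G.adj k1 a'
  · by_cases hJ : ∃ w, G.adj w a' ∧ G.adj w b0 ∧ G.adj w e0
    · apply main b1 e1 hb1 hb1u he1 he1u hdet1
      intro _ w' w1' w2' w3'
      obtain ⟨w, w1, w2, w3⟩ := hJ
      have wL0 : w ≠ L0 := by rintro rfl; exact ne01 b0 b0 w2 hb0u hb0 rfl
      have wk : w ≠ k1 := by
        rintro rfl
        exact ne01 a' b0 ha' ha'u hb0 (hk b0 w2 (Or.inr (Or.inl (G.symm hb0)))).symm
      have w'L0 : w' ≠ L0 := by rintro rfl; exact ne01 b1 b1 w2' hb1u hb1 rfl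
      have w'k : w' ≠ k1 := by
        rintro rfl
        exact ne01 a' b1 ha' ha'u hb1 (hk b1 w2' (Or.inr (Or.inl (G.symm hb1)))).symm
      have L0k : L0 ≠ k1 := by rintro rfl; exact nk (G.symm au0)
      rcases G.mem_of_three L0k (Ne.symm wL0) (Ne.symm wk) (G.symm ha') (G.symm hA) (G.symm w1) (G.symm w1') with h | h | h
      · exact w'L0 h
      · exact w'k h
      · subst h
        have hw : w' = L1 := by
          by_contra hne
          exact G.lin (Ne.symm hb10) hne (G.symm w2) (G.symm hb0) (G.symm w2') (G.symm hb1)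
        subst hw
        exact ne01 a' a' ha' ha'u w1 rfl
    · apply main b0 e0 hb0 hb0u he0 he0u hdet0
      intro _ w w1 w2 w3
      exact hJ ⟨w, w1, w2, w3⟩
  · exact main b0 e0 hb0 hb0u he0 he0u hdet0 (fun h => absurd h hA)

theorem main_rep (hE : IsRep G E) (u : V) (cu : G.col u = true) : ∃ E', IsRep G E' ∧ ¬ Eqv G E E' := by
  obtain ⟨z, cz, hzu, nz⟩ := exists_noncollinear hE u cu
  obtain ⟨L0, L1, L2, h01, h02, h12, au0, au1, au2, hu⟩ := G.three u
  have n0 := nz L0 (G.symm au0)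
  have n1 := nz L1 (G.symm au1)
  have n2 := nz L2 (G.symm au2)
  obtain ⟨k, hk, _, _⟩ := G.third z z z
  have hku : ¬ G.adj k u := fun h => nz k h (G.symm hk)
  -- is there a pair of second neighbours on k
  by_cases h1 : ∃ p q, p ≠ q ∧ G.adj k p ∧ G.adj k q ∧ (G.adj p L0 ∨ G.adj p L1 ∨ G.adj p L2) ∧ (G.adj q L0 ∨ G.adj q L1 ∨ G.adj q L2)
  · obtain ⟨p, q, hpq, kp, kq, hp, hq⟩ := h1
    have hpu : p ≠ u := by rintro rfl; exact hku kp
    have hqu : q ≠ u := by rintro rfl; exact hku kq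
    have same : ∀ L, G.adj u L → G.adj p L → G.adj q L → False := by
      intro L hL h1 h2
      have : k ≠ L := by rintro rfl; exact hku (G.symm hL)
      exact G.lin hpq this (G.symm kp) h1 (G.symm kq) h2
    have c := fun (M0 M1 M2 : V) (g01 : M0 ≠ M1) (g02 : M0 ≠ M2) (g12 : M1 ≠ M2) (b0 : G.adj u M0) (b1 : G.adj u M1) (b2 : G.adj u M2)
      (hp : G.adj p M0) (hq : G.adj q M1) => case1 hE cu g01 g02 g12 b0 b1 b2 nz cz (G.symm hp) hpu (G.symm hq) hqu (G.symm hk) kp kq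
    rcases hp with hp | hp | hp <;> rcases hq with hq | hq | hq
    · exact absurd hq (fun hq => same L0 au0 hp hq)
    · exact c L0 L1 L2 h01 h02 h12 au0 au1 au2 hp hq
    · exact c L0 L2 L1 h02 h01 h12.symm au0 au2 au1 hp hq
    · exact c L1 L0 L2 h01.symm h12 h02 au1 au0 au2 hp hq
    · exact absurd hq (fun hq => same L1 au1 hp hq)
    · exact c L1 L2 L0 h12 h01.symm h02.symm au1 au2 au0 hp hq
    · exact c L2 L0 L1 h02.symm h12.symm h01 au2 au0 au1 hp hq
    · exact c L2 L1 L0 h12.symm h02.symm h01.symm au2 au1 au0 hp hq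
    · exact absurd hq (fun hq => same L2 au2 hp hq)
  · push Not at h1
    have uniq : ∀ p q, G.adj k p → G.adj k q → (G.adj p L0 ∨ G.adj p L1 ∨ G.adj p L2) → (G.adj q L0 ∨ G.adj q L1 ∨ G.adj q L2) → p = q := by
      intro p q kp kq hp hq
      by_contra hne
      obtain ⟨g1, g2, g3⟩ := h1 p q hne kp kq hp
      rcases hq with h | h | h
      · exact g1 h
      · exact g2 h
      · exact g3 h
    have fin : ∀ (M0 M1 M2 a' : V), M0 ≠ M1 → M0 ≠ M2 → M1 ≠ M2 → G.adj u M0 → G.adj u M1 → G.adj u M2 → G.adj M0 a' → a' ≠ u →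
        (∀ p, G.adj k p → (G.adj p M0 ∨ G.adj p M1 ∨ G.adj p M2) → p = a') → ∃ E', IsRep G E' ∧ ¬ Eqv G E E' := by
      intro M0 M1 M2 a' g01 g02 g12 b0 b1 b2 ha' ha'u hh
      obtain ⟨a, ha, hau, haa⟩ := G.third M0 u a'
      exact case2 hE cu g01 g02 g12 b0 b1 b2 nz cz ha hau ha' ha'u (Ne.symm haa) (G.symm hk) hh
    by_cases h2 : ∃ p, G.adj k p ∧ (G.adj p L0 ∨ G.adj p L1 ∨ G.adj p L2)
    · obtain ⟨p, kp, hp⟩ := h2
      have hpu : p ≠ u := by rintro rfl; exact hku kp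
      rcases hp with hp | hp | hp
      · exact fin L0 L1 L2 p h01 h02 h12 au0 au1 au2 (G.symm hp) hpu (fun q kq hq => uniq q p kq kp hq (Or.inl hp))
      · exact fin L1 L0 L2 p h01.symm h12 h02 au1 au0 au2 (G.symm hp) hpu
          (fun q kq hq => uniq q p kq kp (by rcases hq with h | h | h
                                             · exact Or.inr (Or.inl h)
                                             · exact Or.inl h
                                             · exact Or.inr (Or.inr h)) (Or.inr (Or.inl hp)))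
      · exact fin L2 L0 L1 p h02.symm h12.symm h01 au2 au0 au1 (G.symm hp) hpu
          (fun q kq hq => uniq q p kq kp (by rcases hq with h | h | h
                                             · exact Or.inr (Or.inr h)
                                             · exact Or.inl h
                                             · exact Or.inr (Or.inl h)) (Or.inr (Or.inr hp)))
    · push Not at h2
      obtain ⟨a', ha', ha'u, _⟩ := G.third L0 u u
      exact fin L0 L1 L2 a' h01 h02 h12 au0 au1 au2 ha' ha'u (fun q kq hq => by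
        obtain ⟨g1, g2, g3⟩ := h2 q kq
        rcases hq with h | h | h
        · exact absurd h g1
        · exact absurd h g2
        · exact absurd h g3)

end selection

end Pool.Agent.Helper680.RigidConfig.Th
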