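import Pool.Agent.Helper680.SLBasic

namespace Pool.Agent.Helper680.SafeLink

open Relation Set

universe u
variable {V : Type u}

/-- residual reachability with stage; `false`: arriving, `true`: leaving -/
inductive Rch (E : V → V → Prop) (A D : Set V) (w : Wp V) : ℕ → V → Bool → Prop
  | src {c : V} : c ∈ A → c ∉ D → c ∉ w.X → Rch E A D w 0 c false
  | free {n : ℕ} {v : V} : Rch E A D w n v false → v ∉ w.X → Rch E A D w (n+1) v true
  | edge {n : ℕ} {v x : V} : Rch E A D w n v true → E v x → x ∉ D → Rch E A D w (n+1) x false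
  | back {n : ℕ} {v x : V} : Rch E A D w n x false → w.M v x → Rch E A D w (n+1) v true
  | self {n : ℕ} {v : V} : Rch E A D w n v true → v ∈ w.X → Rch E A D w (n+1) v false

/-- path system, possibly with cycles -/
structure Fl (E : V → V → Prop) (A D : Set V) (w : Wp V) : Prop where
  disj : ∀ x ∈ w.X, x ∉ D
  edge : ∀ x y, w.M x y → E x y
  left : ∀ x y, w.M x y → x ∈ w.X
  right : ∀ x y, w.M x y → y ∈ w.X
  notA : ∀ x y, w.M x y → y ∉ A
  func : ∀ x y z, w.M x y → w.M x z → y = z
  inj : ∀ x y z, w.M x z → w.M y z → x = y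
  anc : ∀ x ∈ w.X, (∃ i ∈ w.X, (∀ y, ¬ w.M y i) ∧ ReflTransGen w.M i x) ∨ TransGen w.M x x

variable {E : V → V → Prop} {A B D : Set V}

theorem Rch.notD {w : Wp V} (hw : ∀ x ∈ w.X, x ∉ D) (hl : ∀ x y, w.M x y → x ∈ w.X)
    {n : ℕ} {v : V} {b : Bool}
    (h : Rch E A D w n v b) : v ∉ D := by
  induction h with
  | src _ h _ => exact h
  | free _ _ ih => exact ih
  | edge _ _ h _ => exact h
  | back _ h _ => exact hw _ (hl _ _ h)
  | self _ _ ih => exact ih

theorem transport {w w' : Wp V} {m : ℕ}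
    (hsrc : ∀ c ∈ A, c ∉ D → c ∉ w.X → c ∉ w'.X)
    (hfree : ∀ k v, k + 1 ≤ m → Rch E A D w k v false → v ∉ w.X → v ∉ w'.X)
    (hback : ∀ k v x, k + 1 ≤ m → Rch E A D w k x false → w.M v x → w'.M v x)
    (hself : ∀ k v, k + 1 ≤ m → Rch E A D w k v true → v ∈ w.X → v ∈ w'.X)
    {k : ℕ} {v : V} {b : Bool} (h : Rch E A D w k v b) :
    k ≤ m → Rch E A D w' k v b := by
  induction h with
  | src h1 h2 h3 => intro _; exact Rch.src h1 h2 (hsrc _ h1 h2 h3)
  | free h1 h2 ih => intro hk; exact Rch.free (ih (by omega)) (hfree _ _ hk h1 h2)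
  | edge h1 h2 h3 ih => intro hk; exact Rch.edge (ih (by omega)) h2 h3
  | back h1 h2 ih => intro hk; exact Rch.back (ih (by omega)) (hback _ _ _ hk h1 h2)
  | self h1 h2 ih => intro hk; exact Rch.self (ih (by omega)) (hself _ _ hk h1 h2)

theorem exists_min {w : Wp V} {n : ℕ} {v : V} {b : Bool} (h : Rch E A D w n v b) :
    ∃ m ≤ n, Rch E A D w m v b ∧ ∀ k < m, ¬ Rch E A D w k v b := by
  classical
  have hex : ∃ m, Rch E A D w m v b := ⟨n, h⟩
  exact ⟨Nat.find hex, Nat.find_min' hex h, Nat.find_spec hex, fun k hk => Nat.find_min hex hk⟩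

theorem tg_mono {r s : V → V → Prop} (h : ∀ x y, r x y → s x y) {x y : V}
    (hc : TransGen r x y) : TransGen s x y := by
  induction hc with
  | single h' => exact TransGen.single (h _ _ h')
  | tail _ h' ih => exact ih.tail (h _ _ h')

theorem chain_split {M M1 : V → V → Prop} {v x : V}
    (hM : ∀ a b, M a b → (a = v ∧ b = x) ∨ M1 a b) {a b : V} (h : ReflTransGen M a b) :
    ReflTransGen M1 a b ∨ ReflTransGen M1 x b := by
  induction h using ReflTransGen.head_induction_on with
  | refl => exact Or.inl ReflTransGen.refl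
  | head hab _ ih =>
    rcases ih with ih | ih
    · rcases hM _ _ hab with ⟨_, rfl⟩ | h1
      · exact Or.inr ih
      · exact Or.inl (ReflTransGen.head h1 ih)
    · exact Or.inr ih

theorem trans_split {M M1 : V → V → Prop} {v x : V}
    (hM : ∀ a b, M a b → (a = v ∧ b = x) ∨ M1 a b) {a b : V} (h : TransGen M a b) :
    TransGen M1 a b ∨ ReflTransGen M1 x b := by
  obtain ⟨c, hac, hcb⟩ := TransGen.head'_iff.mp h
  rcases chain_split hM hcb with h1 | h1
  · rcases hM _ _ hac with ⟨_, rfl⟩ | h2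
    · exact Or.inr h1
    · exact Or.inl (TransGen.head' h2 h1)
  · exact Or.inr h1

theorem cycle_return {M1 : V → V → Prop} (hf : ∀ x y z, M1 x y → M1 x z → y = z) {o x : V}
    (hc : TransGen M1 o o) (h : ReflTransGen M1 o x) : ReflTransGen M1 x o := by
  induction h with
  | refl => exact ReflTransGen.refl
  | @tail y z _ hyz ih =>
    rcases ReflTransGen.cases_head ih with h1 | ⟨c, h1, h2⟩
    · subst h1
      obtain ⟨c, h2, h3⟩ := TransGen.head'_iff.mp hc
      rw [hf _ _ _ hyz h2]; exact h3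
    · rw [hf _ _ _ hyz h1]; exact h2

theorem augment (n : ℕ) : ∀ (w : Wp V) (o : V), Fl E A D w → o ∈ w.X → (∀ y, ¬ w.M y o) →
    (∀ i ∈ w.X, (∀ y, ¬ w.M y i) → i ≠ o → i ∈ A) → Rch E A D w n o false →
    ∃ w', Fl E A D w' ∧ (∀ i ∈ w'.X, (∀ y, ¬ w'.M y i) → i ∈ A) ∧ w'.ter = w.ter := by
  induction n using Nat.strong_induction_on with
  | _ n IH =>
  intro w o hw hoX hopred hnp hR
  by_cases hoA : o ∈ A
  · refine ⟨w, hw, ?_, rfl⟩
    intro i hi hip
    by_cases h : i = o
    · rw [h]; exact hoA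
    · exact hnp i hi hip h
  obtain ⟨n0, hn0, hR0, hmin0⟩ := exists_min hR
  have hnotD : ∀ {k : ℕ} {v : V} {b : Bool}, Rch E A D w k v b → v ∉ D :=
    fun h => h.notD hw.disj hw.left
  cases hR0 with
  | src h1 h2 h3 => exact (h3 hoX).elim
  | @edge n1 v _ hv hE hoD =>
    cases hv with
    | @free n2 _ hv' hvX =>
      -- case (a)
      let w1 : Wp V := ⟨insert v w.X, fun x y => w.M x y ∨ (x = v ∧ y = o)⟩
      have hvo : v ≠ o := fun h => hvX (h ▸ hoX)
      have hvnl : ∀ y, ¬ w.M v y := fun y h => hvX (hw.left _ _ h)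
      have hvnr : ∀ y, ¬ w.M y v := fun y h => hvX (hw.right _ _ h)
      have hmono : ∀ x y, w.M x y → w1.M x y := fun x y h => Or.inl h
      have hvpred : ∀ y, ¬ w1.M y v := by
        rintro y (h | ⟨_, h⟩)
        · exact hvnr _ h
        · exact hvo h
      have hvo1 : w1.M v o := Or.inr ⟨rfl, rfl⟩
      have hw1 : Fl E A D w1 := by
        refine ⟨?_, ?_, ?_, ?_, ?_, ?_, ?_, ?_⟩
        · rintro x (rfl | hx)
          · exact hnotD hv'
          · exact hw.disj _ hx
        · rintro x y (h | ⟨rfl, rfl⟩)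
          · exact hw.edge _ _ h
          · exact hE
        · rintro x y (h | ⟨rfl, rfl⟩)
          · exact Or.inr (hw.left _ _ h)
          · exact Or.inl rfl
        · rintro x y (h | ⟨rfl, rfl⟩)
          · exact Or.inr (hw.right _ _ h)
          · exact Or.inr hoX
        · rintro x y (h | ⟨rfl, rfl⟩)
          · exact hw.notA _ _ h
          · exact hoA
        · rintro x y z (h | ⟨rfl, rfl⟩) (h' | ⟨h1, rfl⟩)
          · exact hw.func _ _ _ h h'
          · subst h1; exact (hvnl _ h).elim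
          · exact (hvnl _ h').elim
          · rfl
        · rintro x y z (h | ⟨rfl, rfl⟩) (h' | ⟨rfl, h1⟩)
          · exact hw.inj _ _ _ h h'
          · subst h1; exact (hopred _ h).elim
          · exact (hopred _ h').elim
          · rfl
        · rintro x (rfl | hx)
          · exact Or.inl ⟨x, Or.inl rfl, hvpred, ReflTransGen.refl⟩
          · rcases hw.anc x hx with ⟨i, hi, hip, hc⟩ | hc
            · by_cases hio : i = o
              · subst hio
                exact Or.inl ⟨v, Or.inl rfl, hvpred, ReflTransGen.head hvo1 (rtg_mono hmono hc)⟩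
              · refine Or.inl ⟨i, Or.inr hi, ?_, rtg_mono hmono hc⟩
                rintro y (h | ⟨_, h⟩)
                · exact hip _ h
                · exact hio h
            · exact Or.inr (tg_mono hmono hc)
      have hnp1 : ∀ i ∈ w1.X, (∀ y, ¬ w1.M y i) → i ≠ v → i ∈ A := by
        rintro i (rfl | hi) hip hiv
        · exact (hiv rfl).elim
        · refine hnp i hi (fun y h => hip y (Or.inl h)) ?_
          rintro rfl
          exact hip v hvo1
      have hter : w1.ter = w.ter := by
        ext x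
        constructor
        · rintro ⟨rfl | hx, hn⟩
          · exact (hn o hvo1).elim
          · exact ⟨hx, fun y h => hn y (Or.inl h)⟩
        · rintro ⟨hx, hn⟩
          refine ⟨Or.inr hx, ?_⟩
          rintro y (h | ⟨rfl, _⟩)
          · exact hn _ h
          · exact hvX hx
      by_cases hvA : v ∈ A
      · refine ⟨w1, hw1, ?_, hter⟩
        intro i hi hip
        by_cases h : i = v
        · rw [h]; exact hvA
        · exact hnp1 i hi hip h
      · obtain ⟨m, hm, hRm, hmin⟩ := exists_min hv'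
        have hRm1 : Rch E A D w1 m v false := by
          refine transport (w := w) (m := m) ?_ ?_ ?_ ?_ hRm le_rfl
          · rintro c hcA _ hcX (rfl | h)
            · exact hvA hcA
            · exact hcX h
          · rintro k u hk hu huX (rfl | h)
            · exact hmin k (by omega) hu
            · exact huX h
          · intro k a b _ _ h; exact Or.inl h
          · intro k a _ _ h; exact Or.inr h
        obtain ⟨w', h1, h2, h3⟩ := IH m (by omega) w1 v hw1 (Or.inl rfl) hvpred hnp1 hRm1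
        exact ⟨w', h1, h2, h3.trans hter⟩
    | @back n2 _ x hx hM =>
      -- case (b): v → x is an edge of w, reroute v → o, new orphan x
      let w1 : Wp V := ⟨w.X, fun a b => (w.M a b ∧ ¬ (a = v ∧ b = x)) ∨ (a = v ∧ b = o)⟩
      have hvX : v ∈ w.X := hw.left _ _ hM
      have hxX : x ∈ w.X := hw.right _ _ hM
      have hxo : x ≠ o := by rintro rfl; exact hopred _ hM
      have hvo1 : w1.M v o := Or.inr ⟨rfl, rfl⟩
      have hsplit : ∀ a b, w.M a b → (a = v ∧ b = x) ∨ w1.M a b := by
        intro a b h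
        by_cases h' : a = v ∧ b = x
        · exact Or.inl h'
        · exact Or.inr (Or.inl ⟨h, h'⟩)
      have hfunc1 : ∀ a b c, w1.M a b → w1.M a c → b = c := by
        rintro a b c (⟨h, h'⟩ | ⟨rfl, rfl⟩) (⟨k, k'⟩ | ⟨k, rfl⟩)
        · exact hw.func _ _ _ h k
        · subst k; exact (h' ⟨rfl, hw.func _ _ _ h hM⟩).elim
        · exact (k' ⟨rfl, hw.func _ _ _ k hM⟩).elim
        · rfl
      have hinj1 : ∀ a b c, w1.M a c → w1.M b c → a = b := by
        rintro a b c (⟨h, h'⟩ | ⟨rfl, rfl⟩) (⟨k, k'⟩ | ⟨rfl, k⟩)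
        · exact hw.inj _ _ _ h k
        · subst k; exact (hopred _ h).elim
        · exact (hopred _ k).elim
        · rfl
      have hxpred : ∀ y, ¬ w1.M y x := by
        rintro y (⟨h, h'⟩ | ⟨_, h⟩)
        · exact h' ⟨hw.inj _ _ _ h hM, rfl⟩
        · exact hxo h
      have hnopred : ∀ i, (∀ y, ¬ w.M y i) → i ≠ o → ∀ y, ¬ w1.M y i := by
        rintro i hi hio y (⟨h, _⟩ | ⟨_, h⟩)
        · exact hi _ h
        · exact hio h
      have hanc1 : ∀ a ∈ w.X,
          (∃ i ∈ w1.X, (∀ y, ¬ w1.M y i) ∧ ReflTransGen w1.M i a) ∨ TransGen w1.M a a := by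
        intro a ha
        rcases hw.anc a ha with ⟨i, hi, hip, hc⟩ | hc
        · rcases chain_split hsplit hc with hc1 | hc1
          · by_cases hio : i = o
            · subst hio
              -- status of v
              rcases hw.anc v hvX with ⟨j, hj, hjp, hcj⟩ | hcj
              · rcases chain_split hsplit hcj with hc2 | hc2
                · by_cases hjo : j = i
                  · subst hjo
                    have hcyc : TransGen w1.M j j := TransGen.tail' hc2 hvo1
                    have hret := cycle_return hfunc1 hcyc hc1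
                    exact Or.inr ((TransGen.trans_right hret hcyc).trans_left hc1)
                  · exact Or.inl ⟨j, hj, hnopred j hjp hjo,
                      (hc2.tail hvo1).trans hc1⟩
                · exact Or.inl ⟨x, hxX, hxpred, (hc2.tail hvo1).trans hc1⟩
              · -- v on a cycle of w
                obtain ⟨c, hvc, hcv⟩ := TransGen.head'_iff.mp hcj
                have hcx : c = x := hw.func _ _ _ hvc hM
                subst hcx
                have hc2 : ReflTransGen w1.M c v := by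
                  rcases chain_split hsplit hcv with h | h <;> exact h
                exact Or.inl ⟨c, hxX, hxpred, (hc2.tail hvo1).trans hc1⟩
            · exact Or.inl ⟨i, hi, hnopred i hip hio, hc1⟩
          · exact Or.inl ⟨x, hxX, hxpred, hc1⟩
        · rcases trans_split hsplit hc with hc1 | hc1
          · exact Or.inr hc1
          · exact Or.inl ⟨x, hxX, hxpred, hc1⟩
      have hw1 : Fl E A D w1 := by
        refine ⟨hw.disj, ?_, ?_, ?_, ?_, hfunc1, hinj1, hanc1⟩
        · rintro a b (⟨h, _⟩ | ⟨rfl, rfl⟩)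
          · exact hw.edge _ _ h
          · exact hE
        · rintro a b (⟨h, _⟩ | ⟨rfl, rfl⟩)
          · exact hw.left _ _ h
          · exact hvX
        · rintro a b (⟨h, _⟩ | ⟨rfl, rfl⟩)
          · exact hw.right _ _ h
          · exact hoX
        · rintro a b (⟨h, _⟩ | ⟨rfl, rfl⟩)
          · exact hw.notA _ _ h
          · exact hoA
      have hnp1 : ∀ i ∈ w1.X, (∀ y, ¬ w1.M y i) → i ≠ x → i ∈ A := by
        intro i hi hip hix
        refine hnp i hi ?_ ?_
        · intro y h
          rcases hsplit _ _ h with ⟨_, h'⟩ | h'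
          · exact hix h'
          · exact hip _ h'
        · rintro rfl
          exact hip v hvo1
      have hter : w1.ter = w.ter := by
        ext a
        constructor
        · rintro ⟨ha, hn⟩
          refine ⟨ha, fun y h => ?_⟩
          rcases hsplit _ _ h with ⟨rfl, _⟩ | h'
          · exact hn _ hvo1
          · exact hn _ h'
        · rintro ⟨ha, hn⟩
          refine ⟨ha, ?_⟩
          rintro y (⟨h, _⟩ | ⟨rfl, _⟩)
          · exact hn _ h
          · exact hn _ hM
      obtain ⟨m, hm, hRm, hmin⟩ := exists_min hx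
      have hRm1 : Rch E A D w1 m x false := by
        refine transport (w := w) (m := m) ?_ ?_ ?_ ?_ hRm le_rfl
        · intro c _ _ h; exact h
        · intro k u _ _ h; exact h
        · intro k a b hk hb h
          rcases hsplit _ _ h with ⟨rfl, rfl⟩ | h'
          · exact (hmin k (by omega) hb).elim
          · exact h'
        · intro k a _ _ h; exact h
      obtain ⟨w', h1, h2, h3⟩ := IH m (by omega) w1 x hw1 hxX hxpred hnp1 hRm1
      exact ⟨w', h1, h2, h3.trans hter⟩
  | @self n1 _ hout _ =>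
    cases hout with
    | @free n2 _ _ hvX => exact (hvX hoX).elim
    | @back n2 _ x hx hM =>
      -- case (c): drop o, new orphan x
      let w1 : Wp V := ⟨{a | a ∈ w.X ∧ a ≠ o}, fun a b => w.M a b ∧ a ≠ o⟩
      have hxX : x ∈ w.X := hw.right _ _ hM
      have hxo : x ≠ o := by rintro rfl; exact hopred _ hM
      have hxpred : ∀ y, ¬ w1.M y x := by
        rintro y ⟨h, h'⟩
        exact h' (hw.inj _ _ _ h hM)
      -- chains from vertices different from o survive
      have hch : ∀ a b, ReflTransGen w.M a b → a ≠ o → ReflTransGen w1.M a b := by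
        intro a b h hao
        induction h with
        | refl => exact ReflTransGen.refl
        | @tail y z h1 h2 ih =>
          refine ih.tail ⟨h2, ?_⟩
          rintro rfl
          rcases ReflTransGen.cases_tail h1 with h3 | ⟨c, _, h3⟩
          · exact hao h3.symm
          · exact hopred _ h3
      have hanc1 : ∀ a ∈ w1.X,
          (∃ i ∈ w1.X, (∀ y, ¬ w1.M y i) ∧ ReflTransGen w1.M i a) ∨ TransGen w1.M a a := by
        rintro a ⟨ha, hao⟩
        rcases hw.anc a ha with ⟨i, hi, hip, hc⟩ | hc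
        · by_cases hio : i = o
          · subst hio
            rcases ReflTransGen.cases_head hc with h1 | ⟨c, h1, h2⟩
            · exact (hao h1.symm).elim
            · have hcx : c = x := hw.func _ _ _ h1 hM
              subst hcx
              exact Or.inl ⟨c, ⟨hxX, hxo⟩, hxpred, hch _ _ h2 hxo⟩
          · exact Or.inl ⟨i, ⟨hi, hio⟩, fun y h => hip y h.1, hch _ _ hc hio⟩
        · obtain ⟨c, hac, hca⟩ := TransGen.head'_iff.mp hc
          have hco : c ≠ o := by rintro rfl; exact hopred _ hac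
          exact Or.inr (TransGen.head' ⟨hac, hao⟩ (hch _ _ hca hco))
      have hw1 : Fl E A D w1 := by
        refine ⟨?_, ?_, ?_, ?_, ?_, ?_, ?_, hanc1⟩
        · rintro a ⟨ha, _⟩; exact hw.disj _ ha
        · rintro a b ⟨h, _⟩; exact hw.edge _ _ h
        · rintro a b ⟨h, h'⟩; exact ⟨hw.left _ _ h, h'⟩
        · rintro a b ⟨h, h'⟩
          refine ⟨hw.right _ _ h, ?_⟩
          rintro rfl
          exact hopred _ h
        · rintro a b ⟨h, _⟩; exact hw.notA _ _ h
        · rintro a b c ⟨h, _⟩ ⟨h', _⟩; exact hw.func _ _ _ h h'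
        · rintro a b c ⟨h, _⟩ ⟨h', _⟩; exact hw.inj _ _ _ h h'
      have hnp1 : ∀ i ∈ w1.X, (∀ y, ¬ w1.M y i) → i ≠ x → i ∈ A := by
        rintro i ⟨hi, hio⟩ hip hix
        refine hnp i hi ?_ hio
        intro y h
        refine hip y ⟨h, ?_⟩
        rintro rfl
        exact hix (hw.func _ _ _ h hM)
      have hter : w1.ter = w.ter := by
        ext a
        constructor
        · rintro ⟨⟨ha, hao⟩, hn⟩
          exact ⟨ha, fun y h => hn y ⟨h, hao⟩⟩
        · rintro ⟨ha, hn⟩
          refine ⟨⟨ha, ?_⟩, fun y h => hn y h.1⟩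
          rintro rfl
          exact hn _ hM
      obtain ⟨m, hm, hRm, hmin⟩ := exists_min hx
      have hRm1 : Rch E A D w1 m x false := by
        refine transport (w := w) (m := m) ?_ ?_ ?_ ?_ hRm le_rfl
        · rintro c _ _ h ⟨h', _⟩; exact h h'
        · rintro k u _ _ h ⟨h', _⟩; exact h h'
        · intro k a b hk hb h
          refine ⟨h, ?_⟩
          rintro rfl
          have : b = x := hw.func _ _ _ h hM
          subst this
          exact hmin k (by omega) hb
        · intro k a hk ha h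
          refine ⟨h, ?_⟩
          rintro rfl
          exact hmin0 (k+1) (by omega) (Rch.self ha h)
      obtain ⟨w', h1, h2, h3⟩ := IH m (by omega) w1 x hw1 ⟨hxX, hxo⟩ hxpred hnp1 hRm1
      exact ⟨w', h1, h2, h3.trans hter⟩

/-- trim cycles off -/
theorem Fl.toWarp {w : Wp V} (hw : Fl E A D w)
    (hnp : ∀ i ∈ w.X, (∀ y, ¬ w.M y i) → i ∈ A) :
    ∃ w', IsWarp E A D w' ∧ w'.ter = w.ter := by
  let w1 : Wp V :=
    ⟨{x | x ∈ w.X ∧ ∃ i ∈ w.X, (∀ y, ¬ w.M y i) ∧ ReflTransGen w.M i x},
     fun a b => w.M a b ∧ ∃ i ∈ w.X, (∀ y, ¬ w.M y i) ∧ ReflTransGen w.M i a⟩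
  refine ⟨w1, ⟨?_, ?_, ?_, ?_, ?_, ?_, ?_, ?_⟩, ?_⟩
  · rintro x ⟨hx, _⟩; exact hw.disj _ hx
  · rintro x y ⟨h, _⟩; exact hw.edge _ _ h
  · rintro x y ⟨h, h'⟩; exact ⟨hw.left _ _ h, h'⟩
  · rintro x y ⟨h, i, hi, hip, hc⟩; exact ⟨hw.right _ _ h, i, hi, hip, hc.tail h⟩
  · rintro x y ⟨h, _⟩; exact hw.notA _ _ h
  · rintro x y z ⟨h, _⟩ ⟨h', _⟩; exact hw.func _ _ _ h h'
  · rintro x y z ⟨h, _⟩ ⟨h', _⟩; exact hw.inj _ _ _ h h'
  · rintro x ⟨hx, i, hi, hip, hc⟩
    refine ⟨i, hnp i hi hip, ⟨hi, i, hi, hip, ReflTransGen.refl⟩, ?_⟩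
    induction hc with
    | refl => exact ReflTransGen.refl
    | @tail y z h1 h2 ih => exact (ih (hw.left _ _ h2)).tail ⟨h2, i, hi, hip, h1⟩
  · ext x
    constructor
    · rintro ⟨⟨hx, hc⟩, hn⟩
      exact ⟨hx, fun y h => hn y ⟨h, hc⟩⟩
    · rintro ⟨hx, hn⟩
      refine ⟨⟨hx, ?_⟩, fun y h => hn y h.1⟩
      rcases hw.anc x hx with h | h
      · exact h
      · obtain ⟨c, h1, _⟩ := TransGen.head'_iff.mp h
        exact (hn _ h1).elim

/-- **The alternating path lemma.** `w` is a warp, `s` a new vertex, `ter w ∪ {s}` is separating. Then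
there is a wave with terminal set `ter w ∪ {s}` or a wave inside `w`. -/
theorem dichotomy {w : Wp V} (hw : IsWarp E A D w) {s : V} (hsX : s ∉ w.X) (hsD : s ∉ D)
    (hsA : s ∉ A) (hsep : ∀ a ∈ A, ¬ Fr E B (D ∪ (w.ter ∪ {s})) a) :
    (∃ w', IsWave E A B D w' ∧ w'.ter = w.ter ∪ {s}) ∨
    (∃ w', IsWave E A B D w' ∧ w'.X ⊆ w.X) := by
  have hnl : ∀ y, ¬ w.M s y := fun y h => hsX (hw.left _ _ h)
  have hnr : ∀ y, ¬ w.M y s := fun y h => hsX (hw.right _ _ h)
  have hnA : ∀ i ∈ A, ∀ y, ¬ w.M y i := fun i hi y h => hw.notA _ _ h hi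
  let w0 : Wp V := ⟨insert s w.X, w.M⟩
  have hw0ter : w0.ter = w.ter ∪ {s} := by
    ext x
    constructor
    · rintro ⟨rfl | hx, hn⟩
      · exact Or.inr rfl
      · exact Or.inl ⟨hx, hn⟩
    · rintro (⟨hx, hn⟩ | hx)
      · exact ⟨Or.inr hx, hn⟩
      · rw [Set.mem_singleton_iff] at hx; subst hx; exact ⟨Or.inl rfl, hnl⟩
  have hw0 : Fl E A D w0 := by
    refine ⟨?_, hw.edge, fun x y h => Or.inr (hw.left _ _ h), fun x y h => Or.inr (hw.right _ _ h),
      hw.notA, hw.func, hw.inj, ?_⟩
    · rintro x (rfl | hx)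
      · exact hsD
      · exact hw.disj _ hx
    · rintro x (rfl | hx)
      · exact Or.inl ⟨x, Or.inl rfl, hnr, ReflTransGen.refl⟩
      · obtain ⟨i, hiA, hiX, hc⟩ := hw.orig x hx
        exact Or.inl ⟨i, Or.inr hiX, hnA i hiA, hc⟩
  have hnp0 : ∀ i ∈ w0.X, (∀ y, ¬ w0.M y i) → i ≠ s → i ∈ A := by
    rintro i (rfl | hi) hip his
    · exact (his rfl).elim
    · obtain ⟨j, hjA, _, hc⟩ := hw.orig i hi
      rcases ReflTransGen.cases_tail hc with h | ⟨c, _, h⟩
      · rw [h]; exact hjA
      · exact (hip _ h).elim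
  by_cases hR : ∃ n, Rch E A D w0 n s false
  · left
    obtain ⟨n, hn⟩ := hR
    obtain ⟨w1, h1, h2, h3⟩ := augment n w0 s hw0 (Or.inl rfl) hnr hnp0 hn
    obtain ⟨w2, h4, h5⟩ := h1.toWarp h2
    have h6 : w2.ter = w.ter ∪ {s} := by rw [h5, h3, hw0ter]
    exact ⟨w2, { h4 with sep := by rw [h6]; exact hsep }, h6⟩
  · right
    have hR' : ∀ n, ¬ Rch E A D w0 n s false := fun n h => hR ⟨n, h⟩
    -- kept vertices
    let keep : V → Prop := fun x => x ∈ A ∨ ∃ n, Rch E A D w0 n x false
    let w1 : Wp V := ⟨{x | x ∈ w.X ∧ keep x}, fun a b => w.M a b ∧ keep b⟩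
    -- predecessors of kept vertices are kept
    have hpred : ∀ a b, w.M a b → keep b → keep a := by
      rintro a b hab (hb | ⟨n, hb⟩)
      · exact (hw.notA _ _ hab hb).elim
      · exact Or.inr ⟨n + 1 + 1, Rch.self (Rch.back hb hab) (Or.inr (hw.left _ _ hab))⟩
    have hw1 : IsWarp E A D w1 := by
      refine ⟨?_, ?_, ?_, ?_, ?_, ?_, ?_, ?_⟩
      · rintro x ⟨hx, _⟩; exact hw.disj _ hx
      · rintro x y ⟨h, _⟩; exact hw.edge _ _ h
      · rintro x y ⟨h, h'⟩; exact ⟨hw.left _ _ h, hpred _ _ h h'⟩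
      · rintro x y ⟨h, h'⟩; exact ⟨hw.right _ _ h, h'⟩
      · rintro x y ⟨h, _⟩; exact hw.notA _ _ h
      · rintro x y z ⟨h, _⟩ ⟨h', _⟩; exact hw.func _ _ _ h h'
      · rintro x y z ⟨h, _⟩ ⟨h', _⟩; exact hw.inj _ _ _ h h'
      · rintro x ⟨hx, hk⟩
        obtain ⟨i, hiA, hiX, hc⟩ := hw.orig x hx
        refine ⟨i, hiA, ⟨hiX, Or.inl hiA⟩, ?_⟩
        induction hc with
        | refl => exact ReflTransGen.refl
        | @tail y z h1 h2 ih =>
          have hy := hpred _ _ h2 hk
          exact (ih (hw.left _ _ h2) hy).tail ⟨h2, hk⟩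
    refine ⟨w1, { hw1 with sep := ?_ }, fun x hx => hx.1⟩
    -- separation
    -- leaving: a vertex in `Rch true`
    have hout : ∀ z, z ∉ D → z ∉ w1.ter → (z ∈ A ∨ ∃ n, Rch E A D w0 n z false) → z ≠ s →
        ∃ n, Rch E A D w0 n z true := by
      intro z hzD hzt hz hzs
      by_cases hX : z ∈ w.X
      · have : ∃ y, w1.M z y := by
          by_contra h
          exact hzt ⟨⟨hX, hz⟩, fun y hy => h ⟨y, hy⟩⟩
        obtain ⟨y, hy, hk⟩ := this
        rcases hk with hk | ⟨n, hk⟩
        · exact (hw.notA _ _ hy hk).elim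
        · exact ⟨n + 1, Rch.back hk hy⟩
      · have hX0 : z ∉ w0.X := by
          rintro (h | h)
          · exact hzs h
          · exact hX h
        rcases hz with hz | ⟨n, hz⟩
        · exact ⟨1, Rch.free (Rch.src hz hzD hX0) hX0⟩
        · exact ⟨n + 1, Rch.free hz hX0⟩
    have key : ∀ z, Fr E B (D ∪ w1.ter) z → (z ∈ A ∨ ∃ n, Rch E A D w0 n z false) →
        Fr E B (D ∪ (w.ter ∪ {s})) z := by
      intro z hz
      have hstep : ∀ z, z ∉ D ∪ w1.ter → (z ∈ A ∨ ∃ n, Rch E A D w0 n z false) →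
          z ∉ D ∪ (w.ter ∪ {s}) := by
        intro z hn hk
        rintro (h | h | h)
        · exact hn (Or.inl h)
        · exact hn (Or.inr ⟨⟨h.1, hk⟩, fun y hy => h.2 _ hy.1⟩)
        · rw [Set.mem_singleton_iff] at h
          subst h
          rcases hk with hk | ⟨n, hk⟩
          · exact hsA hk
          · exact hR' n hk
      induction hz with
      | @base z hz hn => intro hk; exact Fr.base hz (hstep z hn hk)
      | @step z y hn he hy ih =>
        intro hk
        refine Fr.step (hstep z hn hk) he (ih ?_)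
        have hzs : z ≠ s := by
          rintro rfl
          rcases hk with hk | ⟨n, hk⟩
          · exact hsA hk
          · exact hR' n hk
        obtain ⟨n, hn'⟩ := hout z (fun h => hn (Or.inl h)) (fun h => hn (Or.inr h)) hk hzs
        exact Or.inr ⟨n + 1, Rch.edge hn' he (fun h => hy.notMem (Or.inl h))⟩
    intro a ha hf
    exact hsep a ha (key a hf (Or.inl ha))

end Pool.Agent.Helper680.SafeLink
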