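import Mathlib

namespace Pool.Agent.Helper680.SafeLink

open Relation Set

universe u
variable {V : Type u}

theorem rtg_mono {r s : V → V → Prop} (h : ∀ x y, r x y → s x y) {x y : V}
    (hc : ReflTransGen r x y) : ReflTransGen s x y := by
  induction hc with
  | refl => exact ReflTransGen.refl
  | tail _ h' ih => exact ih.tail (h _ _ h')

/-- `Fr E B K z`: some walk from `z` to `B` avoids `K`. -/
inductive Fr (E : V → V → Prop) (B K : Set V) : V → Prop
  | base {z : V} : z ∈ B → z ∉ K → Fr E B K z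
  | step {z y : V} : z ∉ K → E z y → Fr E B K y → Fr E B K z

theorem Fr.notMem {E : V → V → Prop} {B K : Set V} {z : V} (h : Fr E B K z) : z ∉ K := by
  cases h <;> assumption

theorem Fr.anti {E : V → V → Prop} {B K K' : Set V} (hK : K ⊆ K') {z : V}
    (h : Fr E B K' z) : Fr E B K z := by
  induction h with
  | base hz hn => exact Fr.base hz (fun h' => hn (hK h'))
  | step hn he _ ih => exact Fr.step (fun h' => hn (hK h')) he ih

/-- Raw data of a system of disjoint paths: vertices and edges used. -/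
structure Wp (V : Type u) where
  X : Set V
  M : V → V → Prop

namespace Wp
/-- terminal vertices -/
def ter (w : Wp V) : Set V := {x | x ∈ w.X ∧ ∀ y, ¬ w.M x y}

/-- extension -/
def le (v w : Wp V) : Prop := v.X ⊆ w.X ∧ ∀ x y, v.M x y → w.M x y

theorem le_refl (v : Wp V) : v.le v := ⟨fun _ h => h, fun _ _ h => h⟩
theorem le_trans {a b c : Wp V} (h : a.le b) (h' : b.le c) : a.le c :=
  ⟨fun _ hx => h'.1 (h.1 hx), fun x y hx => h'.2 x y (h.2 x y hx)⟩
theorem ter_sub {w : Wp V} : w.ter ⊆ w.X := fun _ h => h.1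
end Wp

structure IsWarp (E : V → V → Prop) (A D : Set V) (w : Wp V) : Prop where
  disj : ∀ x ∈ w.X, x ∉ D
  edge : ∀ x y, w.M x y → E x y
  left : ∀ x y, w.M x y → x ∈ w.X
  right : ∀ x y, w.M x y → y ∈ w.X
  notA : ∀ x y, w.M x y → y ∉ A
  func : ∀ x y z, w.M x y → w.M x z → y = z
  inj : ∀ x y z, w.M x z → w.M y z → x = y
  orig : ∀ x ∈ w.X, ∃ i ∈ A, i ∈ w.X ∧ ReflTransGen w.M i x

structure IsWave (E : V → V → Prop) (A B D : Set V) (w : Wp V) : Prop extends IsWarp E A D w where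
  sep : ∀ a ∈ A, ¬ Fr E B (D ∪ w.ter) a

variable {E : V → V → Prop} {A B D : Set V}

/-- vertices of a wave are roofed -/
theorem IsWave.not_fr {w : Wp V} (hw : IsWave E A B D w) {x : V} (hx : x ∈ w.X) :
    ¬ Fr E B (D ∪ w.ter) x := by
  obtain ⟨i, hiA, hiX, hc⟩ := hw.orig x hx
  induction hc with
  | refl => exact hw.sep i hiA
  | @tail y z hy hyz ih =>
    intro hz
    have hyX := hw.left _ _ hyz
    refine ih hyX (Fr.step ?_ (hw.edge _ _ hyz) hz)
    rintro (h | h)
    · exact hw.disj _ hyX h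
    · exact h.2 _ hyz

/-- if `z` is roofed, not deleted, and has a free out-neighbour then `z` is terminal -/
theorem mem_ter_of_step {w : Wp V} {z y : V} (hzD : z ∉ D) (h : ¬ Fr E B (D ∪ w.ter) z)
    (he : E z y) (hy : Fr E B (D ∪ w.ter) y) : z ∈ w.ter := by
  by_contra hn
  exact h (Fr.step (by rintro (h' | h'); exacts [hzD h', hn h']) he hy)

/-- extension roofs more -/
theorem IsWave.fr_of_le {v w : Wp V} (hw : IsWave E A B D w) (hle : v.le w) {z : V}
    (h : Fr E B (D ∪ w.ter) z) : Fr E B (D ∪ v.ter) z := by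
  have key : ∀ z, Fr E B (D ∪ w.ter) z → z ∉ D ∪ v.ter := by
    intro z hz
    rintro (h' | h')
    · exact hz.notMem (Or.inl h')
    · exact hw.not_fr (hle.1 h'.1) hz
  induction h with
  | @base z hz hn => exact Fr.base hz (key z (Fr.base hz hn))
  | @step z y hn he hy ih => exact Fr.step (key z (Fr.step hn he hy)) he ih

/-! ### Merging -/

/-- follow `v` outside the roofed region of `w` -/
def merge (E : V → V → Prop) (B D : Set V) (w v : Wp V) : Wp V where
  X := w.X ∪ {y | y ∈ v.X ∧ Fr E B (D ∪ w.ter) y}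
  M := fun x y => w.M x y ∨ (v.M x y ∧ Fr E B (D ∪ w.ter) y)

theorem merge_isWarp {w v : Wp V} (hw : IsWave E A B D w) (hv : IsWave E A B D v) :
    IsWarp E A D (merge E B D w v) := by
  have hcross : ∀ x y, v.M x y → Fr E B (D ∪ w.ter) y → ¬ Fr E B (D ∪ w.ter) x → x ∈ w.ter := by
    intro x y hxy hy hx
    exact mem_ter_of_step (hv.disj _ (hv.left _ _ hxy)) hx (hv.edge _ _ hxy) hy
  refine ⟨?_, ?_, ?_, ?_, ?_, ?_, ?_, ?_⟩
  · rintro x (hx | hx)
    · exact hw.disj _ hx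
    · exact hv.disj _ hx.1
  · rintro x y (h | h)
    · exact hw.edge _ _ h
    · exact hv.edge _ _ h.1
  · rintro x y (h | h)
    · exact Or.inl (hw.left _ _ h)
    · by_cases hx : Fr E B (D ∪ w.ter) x
      · exact Or.inr ⟨hv.left _ _ h.1, hx⟩
      · exact Or.inl (hcross x y h.1 h.2 hx).1
  · rintro x y (h | h)
    · exact Or.inl (hw.right _ _ h)
    · exact Or.inr ⟨hv.right _ _ h.1, h.2⟩
  · rintro x y (h | h)
    · exact hw.notA _ _ h
    · exact hv.notA _ _ h.1
  · have aux : ∀ x y z, w.M x y → v.M x z → Fr E B (D ∪ w.ter) z → False := by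
      intro x y z h1 h2 h3
      have hx := hw.not_fr (hw.left _ _ h1)
      exact (hcross x z h2 h3 hx).2 _ h1
    rintro x y z (h | h) (h' | h')
    · exact hw.func _ _ _ h h'
    · exact (aux _ _ _ h h'.1 h'.2).elim
    · exact (aux _ _ _ h' h.1 h.2).elim
    · exact hv.func _ _ _ h.1 h'.1
  · rintro x y z (h | h) (h' | h')
    · exact hw.inj _ _ _ h h'
    · exact (hw.not_fr (hw.right _ _ h) h'.2).elim
    · exact (hw.not_fr (hw.right _ _ h') h.2).elim
    · exact hv.inj _ _ _ h.1 h'.1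
  · have hold : ∀ x ∈ w.X, ∃ i ∈ A, i ∈ (merge E B D w v).X ∧
        ReflTransGen (merge E B D w v).M i x := by
      intro x hx
      obtain ⟨i, hiA, hiX, hc⟩ := hw.orig x hx
      exact ⟨i, hiA, Or.inl hiX, rtg_mono (fun _ _ h => Or.inl h) hc⟩
    rintro x (hx | hx)
    · exact hold x hx
    · obtain ⟨i, hiA, hiX, hc⟩ := hv.orig x hx.1
      have : ∀ y, ReflTransGen v.M i y → Fr E B (D ∪ w.ter) y →
          ∃ i ∈ A, i ∈ (merge E B D w v).X ∧ ReflTransGen (merge E B D w v).M i y := by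
        intro y hy
        induction hy with
        | refl => intro hf; exact (hw.sep i hiA hf).elim
        | @tail y z hy hyz ih =>
          intro hz
          by_cases hf : Fr E B (D ∪ w.ter) y
          · obtain ⟨j, hjA, hjX, hj⟩ := ih hf
            exact ⟨j, hjA, hjX, hj.tail (Or.inr ⟨hyz, hz⟩)⟩
          · obtain ⟨j, hjA, hjX, hj⟩ := hold y (hcross y z hyz hz hf).1
            exact ⟨j, hjA, hjX, hj.tail (Or.inr ⟨hyz, hz⟩)⟩
      exact this x hc hx.2

theorem merge_fr {w v : Wp V} (hw : IsWave E A B D w) (hv : IsWave E A B D v) {z : V}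
    (h : Fr E B (D ∪ (merge E B D w v).ter) z) :
    Fr E B (D ∪ w.ter) z ∧ Fr E B (D ∪ v.ter) z := by
  -- the two key facts
  have k1 : ∀ z, z ∉ D → z ∉ (merge E B D w v).ter → ¬ (z ∈ w.ter ∧ (z ∉ v.X)) := by
    rintro z hzD hzt ⟨h1, h2⟩
    apply hzt
    refine ⟨Or.inl h1.1, ?_⟩
    rintro y (h | h)
    · exact h1.2 _ h
    · exact h2 (hv.left _ _ h.1)
  have k2 : ∀ z, z ∉ D → z ∉ (merge E B D w v).ter → z ∈ w.ter → z ∉ v.ter := by
    intro z hzD hzt h1 h2
    apply hzt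
    refine ⟨Or.inl h1.1, ?_⟩
    rintro y (h | h)
    · exact h1.2 _ h
    · exact h2.2 _ h.1
  have k3 : ∀ z, Fr E B (D ∪ w.ter) z → z ∉ (merge E B D w v).ter → z ∉ v.ter := by
    intro z hf hzt h2
    apply hzt
    refine ⟨Or.inr ⟨h2.1, hf⟩, ?_⟩
    rintro y (h | h)
    · exact hw.not_fr (hw.left _ _ h) hf
    · exact h2.2 _ h.1
  induction h with
  | @base z hz hn =>
    have hzD : z ∉ D := fun h => hn (Or.inl h)
    have hzt : z ∉ (merge E B D w v).ter := fun h => hn (Or.inr h)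
    have hw1 : z ∉ w.ter := by
      intro h1
      have hX : z ∈ v.X := by
        by_contra h2; exact k1 z hzD hzt ⟨h1, h2⟩
      have h3 := k2 z hzD hzt h1
      exact hv.not_fr hX (Fr.base hz (by rintro (h' | h'); exacts [hzD h', h3 h']))
    have hf : Fr E B (D ∪ w.ter) z := Fr.base hz (by rintro (h' | h'); exacts [hzD h', hw1 h'])
    exact ⟨hf, Fr.base hz (by rintro (h' | h'); exacts [hzD h', k3 z hf hzt h'])⟩
  | @step z y hn he _ ih =>
    obtain ⟨ih1, ih2⟩ := ih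
    have hzD : z ∉ D := fun h => hn (Or.inl h)
    have hzt : z ∉ (merge E B D w v).ter := fun h => hn (Or.inr h)
    have hw1 : z ∉ w.ter := by
      intro h1
      have hX : z ∈ v.X := by
        by_contra h2; exact k1 z hzD hzt ⟨h1, h2⟩
      have h3 := k2 z hzD hzt h1
      exact hv.not_fr hX (Fr.step (by rintro (h' | h'); exacts [hzD h', h3 h']) he ih2)
    have hf : Fr E B (D ∪ w.ter) z :=
      Fr.step (by rintro (h' | h'); exacts [hzD h', hw1 h']) he ih1
    exact ⟨hf, Fr.step (by rintro (h' | h'); exacts [hzD h', k3 z hf hzt h']) he ih2⟩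

theorem merge_isWave {w v : Wp V} (hw : IsWave E A B D w) (hv : IsWave E A B D v) :
    IsWave E A B D (merge E B D w v) :=
  { merge_isWarp hw hv with
    sep := fun a ha h => hw.sep a ha (merge_fr hw hv h).1 }

theorem le_merge (w v : Wp V) : w.le (merge E B D w v) :=
  ⟨fun _ h => Or.inl h, fun _ _ h => Or.inl h⟩

/-! ### Limits of chains -/

/-- union of a family -/
def sup (C : Set (Wp V)) : Wp V where
  X := {x | ∃ w ∈ C, x ∈ w.X}
  M := fun x y => ∃ w ∈ C, w.M x y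

theorem sup_isWarp {C : Set (Wp V)} (hC : ∀ w ∈ C, IsWarp E A D w)
    (hchain : ∀ v ∈ C, ∀ w ∈ C, v.le w ∨ w.le v) : IsWarp E A D (sup C) := by
  refine ⟨?_, ?_, ?_, ?_, ?_, ?_, ?_, ?_⟩
  · rintro x ⟨w, hw, hx⟩; exact (hC w hw).disj _ hx
  · rintro x y ⟨w, hw, hx⟩; exact (hC w hw).edge _ _ hx
  · rintro x y ⟨w, hw, hx⟩; exact ⟨w, hw, (hC w hw).left _ _ hx⟩
  · rintro x y ⟨w, hw, hx⟩; exact ⟨w, hw, (hC w hw).right _ _ hx⟩
  · rintro x y ⟨w, hw, hx⟩; exact (hC w hw).notA _ _ hx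
  · rintro x y z ⟨w, hw, hx⟩ ⟨v, hv, hy⟩
    rcases hchain w hw v hv with h | h
    · exact (hC v hv).func _ _ _ (h.2 _ _ hx) hy
    · exact (hC w hw).func _ _ _ hx (h.2 _ _ hy)
  · rintro x y z ⟨w, hw, hx⟩ ⟨v, hv, hy⟩
    rcases hchain w hw v hv with h | h
    · exact (hC v hv).inj _ _ _ (h.2 _ _ hx) hy
    · exact (hC w hw).inj _ _ _ hx (h.2 _ _ hy)
  · rintro x ⟨w, hw, hx⟩
    obtain ⟨i, hiA, hiX, hc⟩ := (hC w hw).orig x hx
    exact ⟨i, hiA, ⟨w, hw, hiX⟩, rtg_mono (fun _ _ h => ⟨w, hw, h⟩) hc⟩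

theorem le_sup {C : Set (Wp V)} {w : Wp V} (hw : w ∈ C) : w.le (sup C) :=
  ⟨fun _ h => ⟨w, hw, h⟩, fun _ _ h => ⟨w, hw, h⟩⟩

theorem sup_isWave {C : Set (Wp V)} (hne : C.Nonempty) (hC : ∀ w ∈ C, IsWave E A B D w)
    (hchain : ∀ v ∈ C, ∀ w ∈ C, v.le w ∨ w.le v) : IsWave E A B D (sup C) := by
  have hwarp := sup_isWarp (fun w hw => (hC w hw).toIsWarp) hchain
  -- a vertex not in ter of the union is eventually not in ter
  have hev : ∀ z, z ∉ (sup C).ter → ∃ w ∈ C, ∀ v ∈ C, w.le v → z ∉ v.ter := by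
    intro z hz
    by_cases hX : z ∈ (sup C).X
    · have : ∃ y, (sup C).M z y := by
        by_contra h
        exact hz ⟨hX, fun y hy => h ⟨y, hy⟩⟩
      obtain ⟨y, w, hw, hy⟩ := this
      exact ⟨w, hw, fun v _ hle ht => ht.2 y (hle.2 _ _ hy)⟩
    · obtain ⟨w, hw⟩ := hne
      exact ⟨w, hw, fun v hv _ ht => hX ⟨v, hv, ht.1⟩⟩
  have key : ∀ z, Fr E B (D ∪ (sup C).ter) z →
      ∃ w ∈ C, ∀ v ∈ C, w.le v → Fr E B (D ∪ v.ter) z := by
    intro z hz
    induction hz with
    | @base z hz hn =>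
      obtain ⟨w, hw, h⟩ := hev z (fun h => hn (Or.inr h))
      refine ⟨w, hw, fun v hv hle => Fr.base hz ?_⟩
      rintro (h' | h')
      · exact hn (Or.inl h')
      · exact h v hv hle h'
    | @step z y hn he _ ih =>
      obtain ⟨w, hw, h⟩ := hev z (fun h => hn (Or.inr h))
      obtain ⟨w', hw', h'⟩ := ih
      have : ∃ w'' ∈ C, w.le w'' ∧ w'.le w'' := by
        rcases hchain w hw w' hw' with hl | hl
        · exact ⟨w', hw', hl, w'.le_refl⟩
        · exact ⟨w, hw, w.le_refl, hl⟩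
      obtain ⟨w'', hw'', h1, h2⟩ := this
      refine ⟨w'', hw'', fun v hv hle => Fr.step ?_ he (h' v hv (Wp.le_trans h2 hle))⟩
      rintro (h3 | h3)
      · exact hn (Or.inl h3)
      · exact h v hv (Wp.le_trans h1 hle) h3
  exact { hwarp with
    sep := by
      intro a ha hf
      obtain ⟨w, hw, h⟩ := key a hf
      exact (hC w hw).sep a ha (h w hw w.le_refl) }

/-- the trivial wave -/
def triv (A D : Set V) : Wp V where
  X := {x | x ∈ A ∧ x ∉ D}
  M := fun _ _ => False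

theorem triv_isWave : IsWave E A B D (triv A D) := by
  refine ⟨⟨?_, ?_, ?_, ?_, ?_, ?_, ?_, ?_⟩, ?_⟩
  · rintro x hx; exact hx.2
  · rintro x y h; exact h.elim
  · rintro x y h; exact h.elim
  · rintro x y h; exact h.elim
  · rintro x y h; exact h.elim
  · rintro x y z h; exact h.elim
  · rintro x y z h; exact h.elim
  · rintro x hx; exact ⟨x, hx.1, hx, ReflTransGen.refl⟩
  · intro a ha h
    apply h.notMem
    by_cases hD : a ∈ D
    · exact Or.inl hD
    · exact Or.inr ⟨⟨ha, hD⟩, fun y h => h⟩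

/-- maximal wave: roofs everything that any wave roofs -/
def IsMax (E : V → V → Prop) (A B D : Set V) (w : Wp V) : Prop :=
  IsWave E A B D w ∧ ∀ v, IsWave E A B D v → ∀ z, Fr E B (D ∪ w.ter) z → Fr E B (D ∪ v.ter) z

theorem exists_max_above {w : Wp V} (hw : IsWave E A B D w) :
    ∃ m, w.le m ∧ IsMax E A B D m := by
  let r : {v : Wp V // IsWave E A B D v ∧ w.le v} → {v : Wp V // IsWave E A B D v ∧ w.le v} → Prop :=
    fun a b => a.1.le b.1
  have hz : ∃ m, ∀ a, r m a → r a m := by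
    apply exists_maximal_of_chains_bounded
    · intro c hc
      by_cases hne : c.Nonempty
      · let C : Set (Wp V) := Subtype.val '' c
        have hCne : C.Nonempty := hne.image _
        have hCw : ∀ v ∈ C, IsWave E A B D v := by
          rintro v ⟨v', _, rfl⟩; exact v'.2.1
        have hch : ∀ v ∈ C, ∀ v' ∈ C, v.le v' ∨ v'.le v := by
          rintro v ⟨a, ha, rfl⟩ v' ⟨b, hb, rfl⟩
          by_cases hab : a = b
          · subst hab; exact Or.inl (Wp.le_refl _)
          · exact hc ha hb hab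
        refine ⟨⟨sup C, sup_isWave hCne hCw hch, ?_⟩, ?_⟩
        · obtain ⟨a, ha⟩ := hne
          exact Wp.le_trans a.2.2 (le_sup ⟨a, ha, rfl⟩)
        · intro a ha
          exact le_sup ⟨a, ha, rfl⟩
      · refine ⟨⟨w, hw, w.le_refl⟩, ?_⟩
        intro a ha
        exact (hne ⟨a, ha⟩).elim
    · intro a b c hab hbc
      exact Wp.le_trans hab hbc
  obtain ⟨⟨m, hm, hwm⟩, hmax⟩ := hz
  refine ⟨m, hwm, hm, ?_⟩
  intro v hv z hz
  have h1 : r ⟨merge E B D m v, merge_isWave hm hv, Wp.le_trans hwm (le_merge m v)⟩ ⟨m, hm, hwm⟩ :=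
    hmax _ (le_merge m v)
  have h2 : (merge E B D m v).le m := h1
  have h3 : (merge E B D m v).ter = m.ter := by
    ext x
    constructor
    · rintro ⟨hx, hn⟩
      exact ⟨h2.1 hx, fun y hy => hn y (Or.inl hy)⟩
    · rintro ⟨hx, hn⟩
      exact ⟨Or.inl hx, fun y hy => hn y (h2.2 _ _ hy)⟩
  rw [← h3] at hz
  exact (merge_fr hm hv hz).2

theorem exists_max : ∃ m, IsMax E A B D m := by
  obtain ⟨m, _, hm⟩ := exists_max_above (E := E) (B := B) (triv_isWave (A := A) (D := D))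
  exact ⟨m, hm⟩

/-- hinderedness after deleting `D` -/
def Hind (E : V → V → Prop) (A B D : Set V) : Prop :=
  ∃ w, IsWave E A B D w ∧ ∃ c ∈ A, c ∉ D ∧ c ∉ w.X

/-- roofed by some wave after deleting `D` -/
def Rf (E : V → V → Prop) (A B D : Set V) (z : V) : Prop :=
  ∃ w, IsWave E A B D w ∧ ¬ Fr E B (D ∪ w.ter) z

theorem IsMax.not_fr {w : Wp V} (hw : IsMax E A B D w) {z : V} (hz : Rf E A B D z) :
    ¬ Fr E B (D ∪ w.ter) z := by
  obtain ⟨v, hv, hn⟩ := hz
  exact fun h => hn (hw.2 v hv z h)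

theorem rf_of_mem {z : V} (h : z ∈ D) : Rf E A B D z :=
  ⟨triv A D, triv_isWave, fun hf => hf.notMem (Or.inl h)⟩

theorem rf_of_memA {z : V} (h : z ∈ A) : Rf E A B D z :=
  ⟨triv A D, triv_isWave, triv_isWave.sep z h⟩

end Pool.Agent.Helper680.SafeLink
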