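import Pool.Agent.Helper680.SLFinal

namespace Pool.Agent.Helper680.SafeLink

open Relation Set

universe u
variable {V : Type u} {E : V → V → Prop} {A B D : Set V}

/-- loop erasure -/
theorem exists_nodup_chain {R : V → V → Prop} {p : V → Prop} {x y : V}
    (h : ReflTransGen (fun u v => R u v ∧ p v) x y) (hp : p x) :
    ∃ l : List V, ∃ ne : l ≠ [], l.Nodup ∧ l.IsChain R ∧ l.head ne = x ∧ l.getLast ne = y ∧
      ∀ z ∈ l, p z := by
  induction h using ReflTransGen.head_induction_on with
  | refl => exact ⟨[y], by simp, by simp, List.isChain_singleton _, rfl, rfl, by simpa using hp⟩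
  | @head x z hxz _ ih =>
    obtain ⟨l, ne, h1, h2, h3, h4, h5⟩ := ih hxz.2
    by_cases hx : x ∈ l
    · obtain ⟨s, t, rfl⟩ := List.append_of_mem hx
      refine ⟨x :: t, by simp, h1.sublist (List.sublist_append_right _ _),
        h2.right_of_append, rfl, ?_, fun z hz => h5 z (by simp at hz ⊢; tauto)⟩
      rw [← h4, List.getLast_append_of_ne_nil]
    · refine ⟨x :: l, by simp, List.nodup_cons.2 ⟨hx, h1⟩, ?_, rfl, ?_, ?_⟩
      · cases l with
        | nil => exact (ne rfl).elim
        | cons w l' =>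
          rw [List.isChain_cons_cons]
          refine ⟨?_, h2⟩
          have : w = z := h3
          rw [this]; exact hxz.1
      · rw [List.getLast_cons ne]; exact h4
      · intro w hw
        rcases List.mem_cons.1 hw with h | h
        · rw [h]; exact hp
        · exact h5 w h

/-- a walk gives a simple path -/
theorem Fr.exists_path {K : Set V} {z : V} (h : Fr E B K z) :
    ∃ l : List V, ∃ ne : l ≠ [], l.Nodup ∧ l.IsChain E ∧ l.head ne = z ∧ l.getLast ne ∈ B ∧
      ∀ x ∈ l, x ∉ K := by
  have : ∃ b ∈ B, ReflTransGen (fun u v => E u v ∧ v ∉ K) z b := by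
    induction h with
    | @base z hz hn => exact ⟨z, hz, ReflTransGen.refl⟩
    | @step z y hn he hy ih =>
      obtain ⟨b, hb, hr⟩ := ih
      exact ⟨b, hb, ReflTransGen.head ⟨he, hy.notMem⟩ hr⟩
  obtain ⟨b, hb, hr⟩ := this
  obtain ⟨l, ne, h1, h2, h3, h4, h5⟩ := exists_nodup_chain (p := fun v => v ∉ K) hr h.notMem
  exact ⟨l, ne, h1, h2, h3, by rw [h4]; exact hb, h5⟩

/-- a list path gives a walk -/
theorem fr_of_list {K : Set V} : ∀ (l : List V) (ne : l ≠ []), l.IsChain E →
    l.getLast ne ∈ B → (∀ x ∈ l, x ∉ K) → Fr E B K (l.head ne)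
  | [], ne, _, _, _ => (ne rfl).elim
  | [x], _, _, hB, hK => Fr.base hB (hK x (by simp))
  | x :: y :: l, _, hc, hB, hK => by
      rw [List.isChain_cons_cons] at hc
      refine Fr.step (hK x (by simp)) hc.1 (fr_of_list (y :: l) (by simp) hc.2 ?_ ?_)
      · rwa [List.getLast_cons (by simp)] at hB
      · intro z hz; exact hK z (List.mem_cons_of_mem _ hz)

theorem nodup_split {x : V} {l2 m2 : List V} : ∀ {l1 m1 : List V}, (l1 ++ x :: l2).Nodup →
    l1 ++ x :: l2 = m1 ++ x :: m2 → l1 = m1 ∧ l2 = m2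
  | [], [], _, h => by simpa using h
  | [], y :: m1, hn, h => by
      simp only [List.nil_append, List.cons_append, List.cons.injEq] at h
      obtain ⟨rfl, rfl⟩ := h
      simp at hn
  | z :: l1, [], hn, h => by
      simp only [List.nil_append, List.cons_append, List.cons.injEq] at h
      obtain ⟨rfl, rfl⟩ := h
      simp at hn
  | z :: l1, y :: m1, hn, h => by
      simp only [List.cons_append, List.cons.injEq] at h
      obtain ⟨rfl, h⟩ := h
      simp only [List.cons_append, List.nodup_cons] at hn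
      obtain ⟨h1, h2⟩ := nodup_split hn.2 h
      exact ⟨by rw [h1], h2⟩

/-- from a family of disjoint list paths to an internal warp: cut each path at its last vertex in `A` -/
def ofLists (A : Set V) (L : Set (List V)) : Wp V where
  X := {x | ∃ l ∈ L, ∃ l1 l2, l = l1 ++ x :: l2 ∧ ∀ z ∈ l2, z ∉ A}
  M := fun x y => ∃ l ∈ L, ∃ l1 l2, l = l1 ++ x :: y :: l2 ∧ ∀ z ∈ y :: l2, z ∉ A

theorem ofLists_isWarp {L : Set (List V)} (hnd : ∀ l ∈ L, l.Nodup) (hch : ∀ l ∈ L, l.IsChain E)
    (hhead : ∀ l ∈ L, ∀ x t, l = x :: t → x ∈ A) (hD : ∀ l ∈ L, ∀ x ∈ l, x ∉ D)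
    (hdisj : ∀ l ∈ L, ∀ l' ∈ L, ∀ x, x ∈ l → x ∈ l' → l = l') :
    IsWarp E A D (ofLists A L) := by
  refine ⟨?_, ?_, ?_, ?_, ?_, ?_, ?_, ?_⟩
  · rintro x ⟨l, hl, l1, l2, rfl, _⟩
    exact hD _ hl x (by simp)
  · rintro x y ⟨l, hl, l1, l2, rfl, _⟩
    exact List.isChain_iff_forall_rel_of_append_cons_cons.1 (hch _ hl) rfl
  · rintro x y ⟨l, hl, l1, l2, rfl, h⟩
    exact ⟨_, hl, l1, y :: l2, rfl, h⟩
  · rintro x y ⟨l, hl, l1, l2, rfl, h⟩
    exact ⟨_, hl, l1 ++ [x], l2, by simp, fun z hz => h z (by simp [hz])⟩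
  · rintro x y ⟨l, hl, l1, l2, rfl, h⟩
    exact h y (by simp)
  · rintro x y z ⟨l, hl, l1, l2, h1, _⟩ ⟨l', hl', m1, m2, h1', _⟩
    have : l = l' := hdisj l hl l' hl' x (by rw [h1]; simp) (by rw [h1']; simp)
    subst this
    have hn := hnd l hl
    rw [h1] at hn h1'
    have := (nodup_split hn h1').2
    simp only [List.cons.injEq] at this
    exact this.1
  · rintro x y z ⟨l, hl, l1, l2, h1, _⟩ ⟨l', hl', m1, m2, h1', _⟩
    have : l = l' := hdisj l hl l' hl' z (by rw [h1]; simp) (by rw [h1']; simp)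
    subst this
    have hn := hnd l hl
    have e1 : l1 ++ x :: z :: l2 = (l1 ++ [x]) ++ z :: l2 := by simp
    have e2 : m1 ++ y :: z :: m2 = (m1 ++ [y]) ++ z :: m2 := by simp
    rw [h1] at hn h1'
    rw [e1] at hn
    rw [e1, e2] at h1'
    have := (nodup_split hn h1').1
    have h2 := List.append_inj_right' this rfl
    simpa using h2
  · rintro x ⟨l, hl, l1, l2, h, hA⟩
    induction l1 using List.reverseRecOn generalizing x l2 with
    | nil =>
      exact ⟨x, hhead l hl x l2 (by simpa using h), ⟨l, hl, [], l2, h, hA⟩, ReflTransGen.refl⟩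
    | append_singleton l1 y ih =>
      by_cases hxA : x ∈ A
      · exact ⟨x, hxA, ⟨l, hl, _, l2, h, hA⟩, ReflTransGen.refl⟩
      · have hA' : ∀ z ∈ x :: l2, z ∉ A := by
          intro z hz
          rcases List.mem_cons.1 hz with h | h
          · rw [h]; exact hxA
          · exact hA z h
        have h' : l = l1 ++ y :: x :: l2 := by rw [h]; simp
        obtain ⟨i, h1, h2, h3⟩ := ih y (x :: l2) h' hA'
        exact ⟨i, h1, h2, h3.tail ⟨l, hl, l1, l2, h', hA'⟩⟩

theorem ofLists_ter {L : Set (List V)} (hnd : ∀ l ∈ L, l.Nodup)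
    (hdisj : ∀ l ∈ L, ∀ l' ∈ L, ∀ x, x ∈ l → x ∈ l' → l = l') {l : List V} (hl : l ∈ L)
    (ne : l ≠ []) : l.getLast ne ∈ (ofLists A L).ter := by
  have hlast : l = l.dropLast ++ l.getLast ne :: [] := (List.dropLast_append_getLast ne).symm
  refine ⟨⟨l, hl, l.dropLast, [], hlast, by simp⟩, ?_⟩
  rintro y ⟨l', hl', m1, m2, h, _⟩
  have : l = l' := hdisj l hl l' hl' (l.getLast ne) (List.getLast_mem ne) (by
    rw [h]; simp)
  subst this
  have hn := hnd l hl
  have h' : l.dropLast ++ l.getLast ne :: [] = m1 ++ l.getLast ne :: y :: m2 := by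
    rw [← hlast]; exact h
  rw [hlast] at hn
  have hn' : (l.dropLast ++ l.getLast ne :: []).Nodup := by
    rw [← hlast] at hn ⊢; exact hn
  have := (nodup_split hn' h').2
  simp at this

/-- uniqueness of maximal chains of a functional relation -/
theorem chain_unique {R : V → V → Prop} (hf : ∀ x y z, R x y → R x z → y = z) :
    ∀ (s s' : List V) (x : V), (x :: s).IsChain R → (x :: s').IsChain R →
      (∀ y, ¬ R ((x :: s).getLast (by simp)) y) → (∀ y, ¬ R ((x :: s').getLast (by simp)) y) →
      s = s'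
  | [], [], _, _, _, _, _ => rfl
  | [], y :: s', x, _, h2, h3, _ => by
      rw [List.isChain_cons_cons] at h2
      exact (h3 y h2.1).elim
  | y :: s, [], x, h1, _, _, h4 => by
      rw [List.isChain_cons_cons] at h1
      exact (h4 y h1.1).elim
  | y :: s, y' :: s', x, h1, h2, h3, h4 => by
      rw [List.isChain_cons_cons] at h1 h2
      have hy : y = y' := hf _ _ _ h1.1 h2.1
      subst hy
      rw [chain_unique hf s s' y h1.2 h2.2
        (by simpa [List.getLast_cons] using h3) (by simpa [List.getLast_cons] using h4)]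

/-- two maximal chains sharing a vertex are equal -/
theorem chain_eq {R : V → V → Prop} (hf : ∀ x y z, R x y → R x z → y = z)
    (hi : ∀ x y z, R x z → R y z → x = y) {l l' : List V} (ne : l ≠ []) (ne' : l' ≠ [])
    (hl : l.IsChain R) (hl' : l'.IsChain R)
    (h1 : ∀ y, ¬ R y (l.head ne)) (h1' : ∀ y, ¬ R y (l'.head ne'))
    (h2 : ∀ y, ¬ R (l.getLast ne) y) (h2' : ∀ y, ¬ R (l'.getLast ne') y) {x : V}
    (hx : x ∈ l) (hx' : x ∈ l') : l = l' := by
  obtain ⟨s, t, rfl⟩ := List.append_of_mem hx
  obtain ⟨s', t', rfl⟩ := List.append_of_mem hx'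
  have ht : t = t' := by
    refine chain_unique hf t t' x hl.right_of_append hl'.right_of_append ?_ ?_
    · rwa [List.getLast_append_of_ne_nil (by simp)] at h2
    · rwa [List.getLast_append_of_ne_nil (by simp)] at h2'
  have hs : s.reverse = s'.reverse := by
    have e1 : (x :: s.reverse) = (s ++ [x]).reverse := by simp
    have e2 : (x :: s'.reverse) = (s' ++ [x]).reverse := by simp
    refine chain_unique (R := fun a b => R b a) (fun a b c hab hac => hi _ _ _ hab hac)
      s.reverse s'.reverse x ?_ ?_ ?_ ?_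
    · rw [e1, List.isChain_reverse]
      have : (s ++ [x] ++ t).IsChain R := by simpa using hl
      exact this.left_of_append
    · rw [e2, List.isChain_reverse]
      have : (s' ++ [x] ++ t').IsChain R := by simpa using hl'
      exact this.left_of_append
    · intro y hy
      apply h1 y
      have : (x :: s.reverse).getLast (by simp) = (s ++ x :: t).head (by simp) := by
        cases s <;> simp
      rwa [← this]
    · intro y hy
      apply h1' y
      have : (x :: s'.reverse).getLast (by simp) = (s' ++ x :: t').head (by simp) := by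
        cases s' <;> simp
      rwa [← this]
  rw [List.reverse_inj] at hs
  rw [hs, ht]

end Pool.Agent.Helper680.SafeLink
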