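import Pool.Agent.Helper680.SLMain

namespace Pool.Agent.Helper680.SafeLink

open Relation Set

universe u
variable {V : Type u} {E : V → V → Prop} {A B D : Set V} {a : V} {T : Set V}

/-- monotonicity inside a good set -/
theorem Good.rf_mono (hT : Good E A B a T) {F F' : Set V} (haF : a ∈ F) (hFF : F ⊆ F')
    (hF' : F' ⊆ T) (hfin : F'.Finite) {z : V} (h : Rf E A B F z) : Rf E A B F' z := by
  refine SafeLink.rf_mono hFF hfin ?_ ?_ h
  · intro x hx hxA
    rw [hT.onlyA x (hF' hx) hxA]; exact haF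
  · intro G h1 h2
    exact hT.fin G (h2.trans hF') (hfin.subset h2) (h1 haF)

/-- closure under out-neighbours -/
theorem Good.closure (haA : a ∈ A) (hT : Good E A B a T)
    (hmax : ∀ T', Good E A B a T' → T ⊆ T' → T' ⊆ T) {t x : V} (ht : t ∈ T) (htx : E t x) :
    x ∈ T ∨ ∃ F, F ⊆ T ∧ F.Finite ∧ a ∈ F ∧ Rf E A B F x := by
  by_cases hxT : x ∈ T
  · exact Or.inl hxT
  right
  by_cases hxA : x ∈ A
  · refine ⟨{a}, ?_, finite_singleton a, rfl, rf_of_memA hxA⟩
    rintro y hy
    rw [mem_singleton_iff] at hy; rw [hy]; exact hT.mem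
  by_contra hcon
  have hgood : Good E A B a (insert x T) := by
    refine ⟨Or.inr hT.mem, ?_, ?_, ?_⟩
    · rintro y (rfl | hy) hyA
      · exact (hxA hyA).elim
      · exact hT.onlyA y hy hyA
    · have h0 : ∀ y ∈ T, ReflTransGen (fun u v => E u v ∧ v ∈ insert x T) a y := by
        intro y hy
        exact rtg_mono (fun _ _ h => ⟨h.1, Or.inr h.2⟩) (hT.reach y hy)
      rintro y (rfl | hy)
      · exact (h0 t ht).tail ⟨htx, Or.inl rfl⟩
      · exact h0 y hy
    · intro F hF hfin haF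
      by_cases hxF : x ∈ F
      · have haF' : a ∈ F \ {x} := ⟨haF, fun h => hxA (by rw [mem_singleton_iff] at h; rw [← h]; exact haA)⟩
        have hsub : F \ {x} ⊆ T := by
          rintro y ⟨hy, hyx⟩
          rcases hF hy with h | h
          · exact (hyx h).elim
          · exact h
        have hfin' : (F \ {x}).Finite := hfin.subset sdiff_subset
        have h1 : ¬ Hind E A B (insert x (F \ {x})) := by
          apply not_hind_insert (hT.fin _ hsub hfin' haF') (fun h => h.2 rfl) hxA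
          intro hr
          exact hcon ⟨F \ {x}, hsub, hfin', haF', hr⟩
        have h2 : insert x (F \ {x}) = F := by
          ext z
          simp only [mem_insert_iff, mem_sdiff, mem_singleton_iff]
          constructor
          · rintro (h | h)
            · rw [h]; exact hxF
            · exact h.1
          · intro h
            by_cases hz : z = x
            · exact Or.inl hz
            · exact Or.inr ⟨h, hz⟩
        rwa [h2] at h1
      · refine hT.fin F ?_ hfin haF
        intro y hy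
        rcases hF hy with h | h
        · exact (hxF (h ▸ hy)).elim
        · exact h
  exact hxT (hmax _ hgood (subset_insert _ _) (mem_insert _ _))

/-- non-redundant elements -/
def NR (E : V → V → Prop) (A B : Set V) (a : V) (T : Set V) : Set V :=
  {t | t ∈ T ∧ ∀ F, F ⊆ T → F.Finite → a ∈ F → t ∉ F → ¬ Rf E A B F t}

theorem exists_wit (d : V) : ∃ F : Set V, (d ∈ T → d ∉ NR E A B a T →
    F ⊆ T ∧ F.Finite ∧ a ∈ F ∧ d ∉ F ∧ Rf E A B F d) := by
  by_cases h : d ∈ T ∧ d ∉ NR E A B a T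
  · obtain ⟨h1, h2⟩ := h
    have : ∃ F, F ⊆ T ∧ F.Finite ∧ a ∈ F ∧ d ∉ F ∧ Rf E A B F d := by
      by_contra hcon
      apply h2
      refine ⟨h1, fun F a1 a2 a3 a4 a5 => hcon ⟨F, a1, a2, a3, a4, a5⟩⟩
    obtain ⟨F, hF⟩ := this
    exact ⟨F, fun _ _ => hF⟩
  · exact ⟨∅, fun h1 h2 => (h ⟨h1, h2⟩).elim⟩

/-- the chosen witness -/
noncomputable def wit (E : V → V → Prop) (A B : Set V) (a : V) (T : Set V) (d : V) : Set V :=
  Classical.choose (exists_wit (E := E) (A := A) (B := B) (a := a) (T := T) d)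

theorem wit_spec {d : V} (h1 : d ∈ T) (h2 : d ∉ NR E A B a T) :
    wit E A B a T d ⊆ T ∧ (wit E A B a T d).Finite ∧ a ∈ wit E A B a T d ∧
      d ∉ wit E A B a T d ∧ Rf E A B (wit E A B a T d) d :=
  Classical.choose_spec (exists_wit (E := E) (A := A) (B := B) (a := a) (T := T) d) h1 h2

/-- the next set -/
def nxt (E : V → V → Prop) (A B : Set V) (a : V) (T : Set V) (X : Set V) : Set V :=
  X ∪ {y | (∃ d ∈ X, d ∉ NR E A B a T ∧ y ∈ wit E A B a T d) ∧ ¬ Rf E A B X y}

/-- state: a finite set `X` and a wave which is maximal for `X`. -/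
structure St (E : V → V → Prop) (A B : Set V) (a : V) (T : Set V) where
  X : Set V
  U : Wp V
  sub : X ⊆ T
  fin : X.Finite
  mem : a ∈ X
  max : IsMax E A B X U

theorem nxt_sub {X : Set V} (hX : X ⊆ T) : nxt E A B a T X ⊆ T := by
  rintro y (h | ⟨⟨d, h1, h2, h3⟩, _⟩)
  · exact hX h
  · exact (wit_spec (hX h1) h2).1 h3

theorem nxt_fin {X : Set V} (hX : X ⊆ T) (hfin : X.Finite) : (nxt E A B a T X).Finite := by
  refine hfin.union (Set.Finite.subset (s := ⋃ d ∈ {d | d ∈ X ∧ d ∉ NR E A B a T},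
    wit E A B a T d) ?_ ?_)
  · refine Set.Finite.biUnion (hfin.subset (fun d h => h.1)) ?_
    rintro d ⟨h1, h2⟩
    exact (wit_spec (hX h1) h2).2.1
  · rintro y ⟨⟨d, h1, h2, h3⟩, _⟩
    simp only [mem_iUnion]
    exact ⟨d, ⟨h1, h2⟩, h3⟩

theorem wave_nxt {X : Set V} {U : Wp V} (hU : IsWave E A B X U) :
    IsWave E A B (nxt E A B a T X) U := by
  refine hU.enlarge (fun x h => Or.inl h) ?_
  rintro x hx (h | ⟨_, h⟩)
  · exact hU.disj x hx h
  · exact h ⟨U, hU, hU.not_fr hx⟩

theorem exists_step (s : St E A B a T) : ∃ s' : St E A B a T,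
    s'.X = nxt E A B a T s.X ∧ s.U.le s'.U := by
  obtain ⟨m, h1, h2⟩ := exists_max_above (wave_nxt (a := a) (T := T) s.max.1)
  exact ⟨⟨nxt E A B a T s.X, m, nxt_sub s.sub, nxt_fin s.sub s.fin, Or.inl s.mem, h2⟩, rfl, h1⟩

/-- the chain of states -/
noncomputable def chn (s : St E A B a T) : ℕ → St E A B a T
  | 0 => s
  | n + 1 => Classical.choose (exists_step (chn s n))

theorem chn_X (s : St E A B a T) (n : ℕ) : (chn s (n+1)).X = nxt E A B a T (chn s n).X :=
  (Classical.choose_spec (exists_step (chn s n))).1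

theorem chn_U (s : St E A B a T) (n : ℕ) : (chn s n).U.le (chn s (n+1)).U :=
  (Classical.choose_spec (exists_step (chn s n))).2

theorem chn_X_mono (s : St E A B a T) {n m : ℕ} (h : n ≤ m) : (chn s n).X ⊆ (chn s m).X := by
  induction h with
  | refl => exact fun _ h => h
  | step _ ih =>
    intro x hx
    rw [chn_X]
    exact Or.inl (ih hx)

theorem chn_U_mono (s : St E A B a T) {n m : ℕ} (h : n ≤ m) : (chn s n).U.le (chn s m).U := by
  induction h with
  | refl => exact Wp.le_refl _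
  | step _ ih => exact Wp.le_trans ih (chn_U s _)

theorem a_mem_NR (hT : Good E A B a T) : a ∈ NR E A B a T :=
  ⟨hT.mem, fun _ _ _ h1 h2 => (h2 h1).elim⟩

/-- redundant elements are redundant in the next set -/
theorem redundant_nxt (haA : a ∈ A) (hT : Good E A B a T) {X : Set V} (hX : X ⊆ T)
    (hfin : X.Finite) (haX : a ∈ X) {d : V} (hd : d ∈ X) (hdN : d ∉ NR E A B a T) :
    Rf E A B (nxt E A B a T X \ {d}) d := by
  obtain ⟨w1, w2, w3, w4, w5⟩ := wit_spec (hX hd) hdN
  set F := wit E A B a T d with hF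
  set X' := nxt E A B a T X with hX'
  have hX'T : X' ⊆ T := nxt_sub hX
  have hX'fin : X'.Finite := nxt_fin hX hfin
  have haX' : a ∈ X' := Or.inl haX
  have hda : d ≠ a := fun h => w4 (h ▸ w3)
  let Z : Set V := insert d (F \ X')
  let E' : Set V := X' ∪ F
  have hE'T : E' ⊆ T := union_subset hX'T w1
  have hE'fin : E'.Finite := hX'fin.union w2
  have hZE : Z ⊆ E' := by
    rintro z (rfl | hz)
    · exact Or.inl (Or.inl hd)
    · exact Or.inr hz.1
  have hZa : ∀ z ∈ Z, z ≠ a := by
    rintro z (rfl | hz)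
    · exact hda
    · rintro rfl; exact hz.2 haX'
  have hZA : ∀ z ∈ Z, z ∉ A := by
    intro z hz hzA
    exact hZa z hz (hT.onlyA z (hE'T (hZE hz)) hzA)
  have hred : ∀ z ∈ Z, Rf E A B (E' \ {z}) z := by
    rintro z (rfl | hz)
    · refine hT.rf_mono w3 ?_ (sdiff_subset.trans hE'T) (hE'fin.subset sdiff_subset) w5
      intro y hy
      refine ⟨Or.inr hy, fun h => ?_⟩
      rw [mem_singleton_iff] at h
      exact w4 (h ▸ hy)
    · have hzX : Rf E A B X z := by
        by_contra h
        exact hz.2 (Or.inr ⟨⟨d, hd, hdN, hz.1⟩, h⟩)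
      refine hT.rf_mono haX ?_ (sdiff_subset.trans hE'T) (hE'fin.subset sdiff_subset) hzX
      intro y hy
      refine ⟨Or.inl (Or.inl hy), fun h => ?_⟩
      rw [mem_singleton_iff] at h
      exact hz.2 (Or.inl (h ▸ hy))
  have h1 := key2_rf hZE hZA (hT.fin E' hE'T hE'fin (Or.inl haX')) hred (mem_insert d _)
  have h2 : E' \ Z = X' \ {d} := by
    ext z
    constructor
    · rintro ⟨h | h, h'⟩
      · exact ⟨h, fun h2 => h' (Or.inl h2)⟩
      · by_cases hz : z ∈ X'
        · exact ⟨hz, fun h2 => h' (Or.inl h2)⟩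
        · exact (h' (Or.inr ⟨h, hz⟩)).elim
    · rintro ⟨h, h'⟩
      refine ⟨Or.inl h, ?_⟩
      rintro (h2 | h2)
      · exact h' h2
      · exact h2.2 h
  rwa [h2] at h1

theorem redundant_chn (haA : a ∈ A) (hT : Good E A B a T) (s : St E A B a T) {d : V} {n m : ℕ}
    (hd : d ∈ (chn s n).X) (hdN : d ∉ NR E A B a T) (hm : n + 1 ≤ m) :
    Rf E A B ((chn s m).X \ {d}) d := by
  have h1 := redundant_nxt haA hT (chn s n).sub (chn s n).fin (chn s n).mem hd hdN
  rw [← chn_X] at h1
  refine hT.rf_mono ?_ ?_ (sdiff_subset.trans (chn s m).sub)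
    ((chn s m).fin.subset sdiff_subset) h1
  · refine ⟨(chn s (n+1)).mem, fun h => ?_⟩
    rw [mem_singleton_iff] at h
    rw [← h] at hdN
    exact hdN (a_mem_NR hT)
  · exact fun x hx => ⟨chn_X_mono s hm hx.1, hx.2⟩

/-- (K1) along the chain -/
theorem key1_chn (haA : a ∈ A) (hT : Good E A B a T) (s : St E A B a T) {d : V} {n m : ℕ}
    (hd : d ∈ (chn s n).X) (hdN : d ∉ NR E A B a T) (hm : n + 1 ≤ m) :
    ¬ Fr E B (((chn s m).X \ {d}) ∪ (chn s m).U.ter) d := by
  have hdm : d ∈ (chn s m).X := chn_X_mono s (Nat.le_of_succ_le hm) hd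
  refine key1 hdm ?_ (hT.fin _ (chn s m).sub (chn s m).fin (chn s m).mem)
    (redundant_chn haA hT s hd hdN hm) (chn s m).max
  intro hdA
  have := hT.onlyA d ((chn s m).sub hdm) hdA
  rw [this] at hdN
  exact hdN (a_mem_NR hT)

theorem limit_wave (haA : a ∈ A) (hT : Good E A B a T) (s : St E A B a T) :
    ∃ W, IsWave E A B (NR E A B a T) W ∧
      ∀ z, Fr E B (NR E A B a T ∪ W.ter) z →
        ∃ N, ∀ m, N ≤ m → Fr E B ((chn s m).X ∪ (chn s m).U.ter) z := by
  let C : Set (Wp V) := Set.range (fun n => (chn s n).U)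
  have hchain : ∀ v ∈ C, ∀ w ∈ C, v.le w ∨ w.le v := by
    rintro v ⟨n, rfl⟩ w ⟨m, rfl⟩
    rcases le_total n m with h | h
    · exact Or.inl (chn_U_mono s h)
    · exact Or.inr (chn_U_mono s h)
  have hwarp : IsWarp E A (NR E A B a T) (sup C) := by
    refine sup_isWarp ?_ hchain
    rintro w ⟨n, rfl⟩
    refine { (chn s n).max.1.toIsWarp with disj := ?_ }
    intro x hx hxN
    exact hxN.2 (chn s n).X (chn s n).sub (chn s n).fin (chn s n).mem
      ((chn s n).max.1.disj x hx) ⟨_, (chn s n).max.1, (chn s n).max.1.not_fr hx⟩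
  have hev : ∀ z, z ∉ (sup C).ter → ∃ N, ∀ m, N ≤ m → z ∉ (chn s m).U.ter := by
    intro z hz
    by_cases hX : z ∈ (sup C).X
    · have : ∃ y, (sup C).M z y := by
        by_contra h
        exact hz ⟨hX, fun y hy => h ⟨y, hy⟩⟩
      obtain ⟨y, w, ⟨n, rfl⟩, hy⟩ := this
      exact ⟨n, fun m hm ht => ht.2 y ((chn_U_mono s hm).2 _ _ hy)⟩
    · exact ⟨0, fun m _ ht => hX ⟨_, ⟨m, rfl⟩, ht.1⟩⟩
  have key : ∀ z, Fr E B (NR E A B a T ∪ (sup C).ter) z →
        ∃ N, ∀ m, N ≤ m → Fr E B ((chn s m).X ∪ (chn s m).U.ter) z := by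
    intro z hz
    induction hz with
    | @base z hzB hn =>
      obtain ⟨N, hN⟩ := hev z (fun h => hn (Or.inr h))
      have hzX : ∀ n, z ∉ (chn s n).X := by
        intro n hzn
        refine key1_chn haA hT s (m := max (n+1) N) hzn (fun h => hn (Or.inl h))
          (le_max_left _ _) (Fr.base hzB ?_)
        rintro (h | h)
        · exact h.2 rfl
        · exact hN _ (le_max_right _ _) h
      refine ⟨N, fun m hm => Fr.base hzB ?_⟩
      rintro (h | h)
      · exact hzX m h
      · exact hN m hm h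
    | @step z y hn he _ ih =>
      obtain ⟨N, hN⟩ := hev z (fun h => hn (Or.inr h))
      obtain ⟨N', hN'⟩ := ih
      have hzX : ∀ n, z ∉ (chn s n).X := by
        intro n hzn
        refine key1_chn haA hT s (m := max (n+1) (max N N')) hzn (fun h => hn (Or.inl h))
          (le_max_left _ _) (Fr.step ?_ he ((hN' _ ((le_max_right _ _).trans
            (le_max_right _ _))).anti (union_subset_union_left _ sdiff_subset)))
        rintro (h | h)
        · exact h.2 rfl
        · exact hN _ ((le_max_left _ _).trans (le_max_right _ _)) h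
      refine ⟨max N N', fun m hm => Fr.step ?_ he (hN' m ((le_max_right _ _).trans hm))⟩
      rintro (h | h)
      · exact hzX m h
      · exact hN m ((le_max_left _ _).trans hm) h
  refine ⟨sup C, { hwarp with sep := ?_ }, key⟩
  intro b hb hf
  obtain ⟨N, hN⟩ := key b hf
  exact (chn s N).max.1.sep b hb (hN N le_rfl)

theorem rf_NR (haA : a ∈ A) (hT : Good E A B a T) {F : Set V} (hF : F ⊆ T) (hfin : F.Finite)
    (haF : a ∈ F) {z : V} (hz : Rf E A B F z) : Rf E A B (NR E A B a T) z := by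
  obtain ⟨U, hU⟩ := exists_max (E := E) (A := A) (B := B) (D := F)
  let s : St E A B a T := ⟨F, U, hF, hfin, haF, hU⟩
  obtain ⟨W, hW, hkey⟩ := limit_wave haA hT s
  refine ⟨W, hW, fun hf => ?_⟩
  obtain ⟨N, hN⟩ := hkey z hf
  have h1 : Rf E A B (chn s N).X z :=
    hT.rf_mono haF (chn_X_mono s (Nat.zero_le N)) (chn s N).sub (chn s N).fin hz
  exact (chn s N).max.not_fr h1 (hN N le_rfl)

/-- **Main theorem, internal form.** -/
theorem main (haA : a ∈ A) (h : ¬ Hind E A B ∅) :
    ∃ T, ∃ b, b ∈ B ∧ Good E A B a T ∧ b ∈ T := by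
  obtain ⟨T, hT, hmax⟩ := exists_maximal_good haA h
  by_contra hcon
  have hTB : ∀ t ∈ T, t ∉ B := fun t ht htB => hcon ⟨T, t, htB, hT, ht⟩
  obtain ⟨W, hW⟩ := exists_max (E := E) (A := A) (B := B) (D := NR E A B a T)
  have hroof : ∀ t ∈ T, ∀ y, E t y → ¬ Fr E B (NR E A B a T ∪ W.ter) y := by
    intro t ht y hy
    rcases hT.closure haA hmax ht hy with hyT | ⟨F, h1, h2, h3, h4⟩
    · by_cases hyN : y ∈ NR E A B a T
      · exact fun hf => hf.notMem (Or.inl hyN)
      · obtain ⟨w1, w2, w3, _, w5⟩ := wit_spec hyT hyN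
        exact hW.not_fr (rf_NR haA hT w1 w2 w3 w5)
    · exact hW.not_fr (rf_NR haA hT h1 h2 h3 h4)
  have hkey : ∀ z, Fr E B (∅ ∪ W.ter) z → Fr E B (NR E A B a T ∪ W.ter) z := by
    intro z hz
    induction hz with
    | @base z hzB hn =>
      refine Fr.base hzB ?_
      rintro (h | h)
      · exact hTB z h.1 hzB
      · exact hn (Or.inr h)
    | @step z y hn he _ ih =>
      refine Fr.step ?_ he ih
      rintro (h | h)
      · exact hroof z h.1 y he ih
      · exact hn (Or.inr h)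
  apply h
  refine ⟨W, { hW.1.toIsWarp.mono (empty_subset _) with sep := ?_ }, a, haA, fun h => h, ?_⟩
  · intro b hb hf
    exact hW.1.sep b hb (hkey b hf)
  · exact fun ha => hW.1.disj a ha (a_mem_NR hT)

end Pool.Agent.Helper680.SafeLink
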