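import Pool.Agent.Helper680.SLAug

namespace Pool.Agent.Helper680.SafeLink

open Relation Set

universe u
variable {V : Type u} {E : V → V → Prop} {A B D : Set V}

/-- a warp/wave for a larger deleted set is a warp for a smaller one -/
theorem IsWarp.mono {D' : Set V} {w : Wp V} (hD : D ⊆ D') (hw : IsWarp E A D' w) :
    IsWarp E A D w :=
  { hw with disj := fun x hx h => hw.disj x hx (hD h) }

/-- **Lemma A.** -/
theorem not_hind_insert {x : V} (hD : ¬ Hind E A B D) (hxD : x ∉ D) (hxA : x ∉ A)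
    (hx : ¬ Rf E A B D x) : ¬ Hind E A B (insert x D) := by
  rintro ⟨H, hH, c, hcA, hcD, hcX⟩
  have hxX : x ∉ H.X := fun h => hH.disj x h (mem_insert _ _)
  have hset : D ∪ (H.ter ∪ {x}) = insert x D ∪ H.ter := by
    ext z; simp only [mem_union, mem_insert_iff, mem_singleton_iff]; tauto
  rcases dichotomy (B := B) (hH.toIsWarp.mono (subset_insert x D)) hxX hxD hxA
    (by rw [hset]; exact hH.sep) with ⟨w, hw, hter⟩ | ⟨w, hw, hsub⟩
  · apply hx
    refine ⟨w, hw, fun h => h.notMem ?_⟩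
    rw [hter]; exact Or.inr (Or.inr rfl)
  · exact hD ⟨w, hw, c, hcA, fun h => hcD (mem_insert_of_mem _ h), fun h => hcX (hsub h)⟩

/-- a wave whose vertices avoid `D'` is a wave for `D' ⊇ D`. -/
theorem IsWave.enlarge {D' : Set V} {w : Wp V} (hD : D ⊆ D') (hw : IsWave E A B D w)
    (hd : ∀ x ∈ w.X, x ∉ D') : IsWave E A B D' w :=
  { hw with
    disj := hd
    sep := fun a ha h => hw.sep a ha (h.anti (union_subset_union_left _ hD)) }

theorem rtg_comparable {M : V → V → Prop} (hf : ∀ x y z, M x y → M x z → y = z) {x y z : V}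
    (h1 : ReflTransGen M x y) (h2 : ReflTransGen M x z) :
    ReflTransGen M y z ∨ ReflTransGen M z y := by
  induction h1 with
  | refl => exact Or.inl h2
  | @tail b c _ hbc ih =>
    rcases ih with ih | ih
    · rcases ReflTransGen.cases_head ih with h | ⟨d, h, h'⟩
      · subst h; exact Or.inr (ReflTransGen.single hbc)
      · rw [hf _ _ _ hbc h]; exact Or.inl h'
    · exact Or.inr (ih.tail hbc)

/-- **Lemma R.** -/
theorem wave_insert {x : V} (hD : ¬ Hind E A B (insert x D)) (hxA : x ∉ A) {U : Wp V}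
    (hU : IsWave E A B D U) :
    x ∉ U.ter ∧ ∃ U', IsWave E A B (insert x D) U' ∧ U'.ter = U.ter := by
  by_cases hxX : x ∈ U.X
  swap
  · refine ⟨fun h => hxX h.1, U, hU.enlarge (subset_insert _ _) ?_, rfl⟩
    rintro y hy (rfl | h)
    · exact hxX hy
    · exact hU.disj _ hy h
  -- the component of x
  obtain ⟨i, hiA, hiX, hix⟩ := hU.orig x hxX
  let C : Set V := {y | ReflTransGen U.M i y}
  let w : Wp V := ⟨{y | y ∈ U.X ∧ y ∉ C}, fun a b => U.M a b ∧ a ∉ C⟩
  have hCstep : ∀ a b, U.M a b → b ∈ C → a ∈ C := by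
    intro a b hab hb
    rcases ReflTransGen.cases_tail hb with h | ⟨c, h, h'⟩
    · exact (hU.notA _ _ hab (by rw [h]; exact hiA)).elim
    · rw [hU.inj _ _ _ hab h']; exact h
  have hw : IsWarp E A (insert x D) w := by
    refine ⟨?_, ?_, ?_, ?_, ?_, ?_, ?_, ?_⟩
    · rintro y ⟨hy, hyC⟩ (rfl | h)
      · exact hyC hix
      · exact hU.disj _ hy h
    · rintro y z ⟨h, _⟩; exact hU.edge _ _ h
    · rintro y z ⟨h, h'⟩; exact ⟨hU.left _ _ h, h'⟩
    · rintro y z ⟨h, h'⟩; exact ⟨hU.right _ _ h, fun h2 => h' (hCstep _ _ h h2)⟩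
    · rintro y z ⟨h, _⟩; exact hU.notA _ _ h
    · rintro y z t ⟨h, _⟩ ⟨h', _⟩; exact hU.func _ _ _ h h'
    · rintro y z t ⟨h, _⟩ ⟨h', _⟩; exact hU.inj _ _ _ h h'
    · rintro y ⟨hy, hyC⟩
      obtain ⟨j, hjA, hjX, hjy⟩ := hU.orig y hy
      have : ∀ z, ReflTransGen U.M j z → z ∉ C →
          (j ∉ C ∧ ReflTransGen w.M j z) := by
        intro z hz
        induction hz with
        | refl => intro h; exact ⟨h, ReflTransGen.refl⟩
        | @tail b c _ hbc ih =>
          intro hc
          have hb : b ∉ C := fun h => hc (ReflTransGen.tail h hbc)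
          obtain ⟨h1, h2⟩ := ih hb
          exact ⟨h1, h2.tail ⟨hbc, hb⟩⟩
      obtain ⟨h1, h2⟩ := this y hjy hyC
      exact ⟨j, hjA, ⟨hjX, h1⟩, h2⟩
  have hiw : i ∉ w.X := fun h => h.2 ReflTransGen.refl
  have hiD : i ∉ insert x D := by
    rintro (rfl | h)
    · exact hxA hiA
    · exact hU.disj _ hiX h
  have hwter : w.ter = {y | y ∈ U.ter ∧ y ∉ C} := by
    ext y
    constructor
    · rintro ⟨⟨h1, h2⟩, h3⟩
      exact ⟨⟨h1, fun z hz => h3 z ⟨hz, h2⟩⟩, h2⟩
    · rintro ⟨⟨h1, h2⟩, h3⟩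
      exact ⟨⟨h1, h3⟩, fun z hz => h2 z hz.1⟩
  -- terminal vertices in C
  have huniq : ∀ s t, s ∈ U.ter → s ∈ C → t ∈ C → ReflTransGen U.M t s := by
    intro s t hs hsC htC
    rcases rtg_comparable hU.func htC hsC with h | h
    · exact h
    · rcases ReflTransGen.cases_head h with h | ⟨c, h, _⟩
      · rw [h]
      · exact (hs.2 _ h).elim
  by_cases ht : ∃ t, t ∈ U.ter ∧ t ∈ C
  swap
  · exfalso
    apply hD
    refine ⟨w, { hw with sep := ?_ }, i, hiA, hiD, hiw⟩
    intro a ha h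
    refine hU.sep a ha (h.anti ?_)
    rintro z (hz | hz)
    · exact Or.inl (mem_insert_of_mem _ hz)
    · refine Or.inr ?_
      rw [hwter]
      exact ⟨hz, fun h => ht ⟨z, hz, h⟩⟩
  obtain ⟨t, htT, htC⟩ := ht
  have hxt : ReflTransGen U.M x t := huniq t x htT htC hix
  by_cases hxeq : x = t
  · exfalso
    subst hxeq
    apply hD
    refine ⟨w, { hw with sep := ?_ }, i, hiA, hiD, hiw⟩
    intro a ha h
    refine hU.sep a ha (h.anti ?_)
    rintro z (hz | hz)
    · exact Or.inl (mem_insert_of_mem _ hz)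
    · by_cases hzC : z ∈ C
      · have h1 : ReflTransGen U.M x z := huniq z x hz hzC hix
        rcases ReflTransGen.cases_head h1 with h | ⟨c, h, _⟩
        · rw [← h]; exact Or.inl (mem_insert _ _)
        · exact (htT.2 _ h).elim
      · refine Or.inr ?_
        rw [hwter]
        exact ⟨hz, hzC⟩
  have hxter : x ∉ U.ter := by
    intro h
    rcases ReflTransGen.cases_head hxt with h' | ⟨c, h', _⟩
    · exact hxeq h'
    · exact h.2 _ h'
  refine ⟨hxter, ?_⟩
  have htA : t ∉ A := by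
    rcases ReflTransGen.cases_tail hxt with h' | ⟨c, _, h'⟩
    · exact (hxeq h'.symm).elim
    · exact hU.notA _ _ h'
  have htD : t ∉ insert x D := by
    rintro (rfl | h)
    · exact hxeq rfl
    · exact hU.disj _ htT.1 h
  have hter : w.ter ∪ {t} = U.ter := by
    ext z
    rw [hwter]
    constructor
    · rintro (hz | hz)
      · exact hz.1
      · rw [mem_singleton_iff] at hz; rw [hz]; exact htT
    · intro hz
      by_cases hzC : z ∈ C
      · right
        have h1 := huniq z t hz hzC htC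
        rcases ReflTransGen.cases_head h1 with h | ⟨c, h, _⟩
        · exact h.symm
        · exact (htT.2 _ h).elim
      · exact Or.inl ⟨hz, hzC⟩
  rcases dichotomy (B := B) hw (fun h => h.2 htC) htD htA (by
    intro a ha h
    rw [hter] at h
    exact hU.sep a ha (h.anti (union_subset_union_left _ (subset_insert _ _))))
    with ⟨w', hw', h1⟩ | ⟨w', hw', h1⟩
  · exact ⟨w', hw', h1.trans hter⟩
  · exact (hD ⟨w', hw', i, hiA, hiD, fun h => hiw (h1 h)⟩).elim

theorem rf_insert {x z : V} (hD : ¬ Hind E A B (insert x D)) (hxA : x ∉ A)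
    (h : Rf E A B D z) : Rf E A B (insert x D) z := by
  obtain ⟨U, hU, hz⟩ := h
  obtain ⟨_, U', hU', hter⟩ := wave_insert hD hxA hU
  refine ⟨U', hU', fun hf => hz (hf.anti ?_)⟩
  rw [hter]
  exact union_subset_union_left _ (subset_insert _ _)

/-- monotonicity of roofing -/
theorem rf_mono {D' : Set V} (hDD : D ⊆ D') (hfin : D'.Finite) (hA : ∀ x ∈ D', x ∈ A → x ∈ D)
    (hun : ∀ F, D ⊆ F → F ⊆ D' → ¬ Hind E A B F) {z : V} (h : Rf E A B D z) :
    Rf E A B D' z := by
  have hfin' : (D' \ D).Finite := hfin.subset sdiff_subset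
  have key : ∀ S : Set V, S.Finite → S ⊆ D' \ D → Rf E A B (D ∪ S) z := by
    intro S hS
    induction S, hS using Set.Finite.induction_on with
    | empty => intro _; rw [union_empty]; exact h
    | @insert x S hx _ ih =>
      intro hsub
      have h1 := ih (fun y hy => hsub (mem_insert_of_mem _ hy))
      have hx' := hsub (mem_insert x S)
      rw [union_insert]
      refine rf_insert (hun _ ?_ ?_) (fun hxA => hx'.2 (hA x hx'.1 hxA)) h1
      · exact fun y hy => mem_insert_of_mem _ (Or.inl hy)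
      · rintro y (rfl | hy | hy)
        · exact hx'.1
        · exact hDD hy
        · exact (hsub (mem_insert_of_mem _ hy)).1
  have := key (D' \ D) hfin' (fun _ h => h)
  rwa [union_sdiff_cancel hDD] at this

/-- last visit -/
theorem Fr.last_visit {K : Set V} {e z : V} (h : Fr E B K z) :
    Fr E B (insert e K) z ∨ (e ∈ B ∨ ∃ y, E e y ∧ Fr E B (insert e K) y) := by
  induction h with
  | @base z hz hn =>
    by_cases hze : z = e
    · subst hze; exact Or.inr (Or.inl hz)
    · exact Or.inl (Fr.base hz (by rintro (h | h); exacts [hze h, hn h]))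
  | @step z y hn he _ ih =>
    rcases ih with ih | ih
    · by_cases hze : z = e
      · subst hze; exact Or.inr (Or.inr ⟨y, he, ih⟩)
      · exact Or.inl (Fr.step (by rintro (h | h); exacts [hze h, hn h]) he ih)
    · exact Or.inr ih

/-- **(K1)** -/
theorem key1 {e : V} (heD : e ∈ D) (heA : e ∉ A) (hD : ¬ Hind E A B D)
    (hr : Rf E A B (D \ {e}) e) {U : Wp V} (hU : IsMax E A B D U) :
    ¬ Fr E B ((D \ {e}) ∪ U.ter) e := by
  intro hf
  have hins : insert e (D \ {e}) = D := by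
    ext z
    simp only [mem_insert_iff, mem_sdiff, mem_singleton_iff]
    constructor
    · rintro (h | h)
      · rw [h]; exact heD
      · exact h.1
    · intro h
      by_cases hz : z = e
      · exact Or.inl hz
      · exact Or.inr ⟨h, hz⟩
  obtain ⟨U', hU', hn⟩ := hr
  obtain ⟨heT, U'', hU'', hter⟩ := wave_insert (x := e) (D := D \ {e}) (by rw [hins]; exact hD) heA hU'
  rw [hins] at hU''
  have hins2 : insert e ((D \ {e}) ∪ U.ter) = D ∪ U.ter := by
    rw [← insert_union, hins]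
  have hnot : e ∉ (D \ {e}) ∪ U'.ter := by
    rintro (h | h)
    · exact h.2 rfl
    · exact heT h
  rcases hf.last_visit (e := e) with h | h | ⟨y, hy, h⟩
  · exact h.notMem (mem_insert _ _)
  · exact hn (Fr.base h hnot)
  · rw [hins2] at h
    have h1 := hU.2 U'' hU'' y h
    rw [hter] at h1
    exact hn (Fr.step hnot hy (h1.anti (union_subset_union_left _ sdiff_subset)))

/-- **(K2)** -/
theorem key2 {Z : Set V} (hZ : Z ⊆ D) (hZA : ∀ z ∈ Z, z ∉ A) (hD : ¬ Hind E A B D)
    (hr : ∀ z ∈ Z, Rf E A B (D \ {z}) z) {U : Wp V} (hU : IsMax E A B D U) {z : V}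
    (h : Fr E B ((D \ Z) ∪ U.ter) z) : Fr E B (D ∪ U.ter) z := by
  induction h with
  | @base z hz hn =>
    refine Fr.base hz ?_
    have h1 : z ∉ Z := by
      intro hzZ
      refine key1 (hZ hzZ) (hZA z hzZ) hD (hr z hzZ) hU (Fr.base hz ?_)
      rintro (h | h)
      · exact h.2 rfl
      · exact hn (Or.inr h)
    rintro (h | h)
    · exact hn (Or.inl ⟨h, h1⟩)
    · exact hn (Or.inr h)
  | @step z y hn he _ ih =>
    have h1 : z ∉ Z := by
      intro hzZ
      refine key1 (hZ hzZ) (hZA z hzZ) hD (hr z hzZ) hU (Fr.step ?_ he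
        (ih.anti (union_subset_union_left _ sdiff_subset)))
      rintro (h | h)
      · exact h.2 rfl
      · exact hn (Or.inr h)
    refine Fr.step ?_ he ih
    rintro (h | h)
    · exact hn (Or.inl ⟨h, h1⟩)
    · exact hn (Or.inr h)

theorem key2_rf {Z : Set V} (hZ : Z ⊆ D) (hZA : ∀ z ∈ Z, z ∉ A) (hD : ¬ Hind E A B D)
    (hr : ∀ z ∈ Z, Rf E A B (D \ {z}) z) {z : V} (hz : z ∈ Z) : Rf E A B (D \ Z) z := by
  obtain ⟨U, hU⟩ := exists_max (E := E) (A := A) (B := B) (D := D)
  refine ⟨U, { hU.1.toIsWarp.mono sdiff_subset with sep := ?_ }, ?_⟩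
  · intro a ha h
    exact hU.1.sep a ha (key2 hZ hZA hD hr hU h)
  · intro h
    exact (key2 hZ hZA hD hr hU h).notMem (Or.inl (hZ hz))

/-- finitarily good sets -/
structure Good (E : V → V → Prop) (A B : Set V) (a : V) (T : Set V) : Prop where
  mem : a ∈ T
  onlyA : ∀ t ∈ T, t ∈ A → t = a
  reach : ∀ t ∈ T, ReflTransGen (fun x y => E x y ∧ y ∈ T) a t
  fin : ∀ F, F ⊆ T → F.Finite → a ∈ F → ¬ Hind E A B F

theorem hind_singleton {a : V} (haA : a ∈ A) (h : ¬ Hind E A B ∅) : ¬ Hind E A B {a} := by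
  rintro ⟨w, hw, c, hcA, hcD, hcX⟩
  apply h
  have haX : a ∉ w.X := fun h => hw.disj a h rfl
  let w' : Wp V := ⟨insert a w.X, w.M⟩
  have hter : w'.ter = {a} ∪ w.ter := by
    ext x
    constructor
    · rintro ⟨rfl | hx, hn⟩
      · exact Or.inl rfl
      · exact Or.inr ⟨hx, hn⟩
    · rintro (hx | hx)
      · rw [mem_singleton_iff] at hx; subst hx
        exact ⟨Or.inl rfl, fun y hy => haX (hw.left _ _ hy)⟩
      · exact ⟨Or.inr hx.1, hx.2⟩
  refine ⟨w', ⟨⟨fun _ _ h => h, hw.edge, fun x y h => Or.inr (hw.left _ _ h),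
    fun x y h => Or.inr (hw.right _ _ h), hw.notA, hw.func, hw.inj, ?_⟩, ?_⟩, c, hcA,
    fun h => h, ?_⟩
  · rintro x (rfl | hx)
    · exact ⟨x, haA, Or.inl rfl, ReflTransGen.refl⟩
    · obtain ⟨i, h1, h2, h3⟩ := hw.orig x hx
      exact ⟨i, h1, Or.inr h2, h3⟩
  · intro b hb hf
    rw [hter, empty_union] at hf
    exact hw.sep b hb hf
  · rintro (h | h)
    · exact hcD h
    · exact hcX h

theorem exists_maximal_good {a : V} (haA : a ∈ A) (h : ¬ Hind E A B ∅) :
    ∃ T, Good E A B a T ∧ ∀ T', Good E A B a T' → T ⊆ T' → T' ⊆ T := by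
  have h0 : Good E A B a {a} := by
    refine ⟨rfl, fun t ht _ => ht, fun t ht => ?_, ?_⟩
    · rw [mem_singleton_iff] at ht; rw [ht]
    · intro F hF _ haF
      have : F = {a} := by
        apply Subset.antisymm hF
        rintro x hx
        rw [mem_singleton_iff] at hx; rw [hx]; exact haF
      rw [this]; exact hind_singleton haA h
  have hz := zorn_subset_nonempty {T | Good E A B a T} (by
    intro c hc hch hne
    refine ⟨⋃₀ c, ?_, fun s hs => subset_sUnion_of_mem hs⟩
    obtain ⟨S, hS⟩ := hne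
    refine ⟨⟨S, hS, (hc hS).mem⟩, ?_, ?_, ?_⟩
    · rintro t ⟨S', hS', ht⟩ htA
      exact (hc hS').onlyA t ht htA
    · rintro t ⟨S', hS', ht⟩
      exact rtg_mono (fun x y h => ⟨h.1, S', hS', h.2⟩) ((hc hS').reach t ht)
    · intro F hF hFfin haF
      have : ∃ S' ∈ c, F ⊆ S' :=
        hch.directedOn.exists_mem_subset_of_finite_of_subset_sUnion ⟨S, hS⟩ hFfin hF
      obtain ⟨S', hS', hFS⟩ := this
      exact (hc hS').fin F hFS hFfin haF) {a} h0
  obtain ⟨T, _, hT⟩ := hz
  exact ⟨T, hT.prop, fun T' hT' hle => hT.le_of_ge hT' hle⟩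

end Pool.Agent.Helper680.SafeLink
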