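import Mathlib
import Pool.Agent.Helper680.SigA

set_option autoImplicit false

namespace Pool.Agent.Helper680.SigA

open Finset Filter Topology

/-- `S` consists of positive integers and is closed under multiplication by integers all of whose
prime factors exceed the element -/
def Rough (S : Set ℕ) : Prop :=
  ∀ s ∈ S, 0 < s ∧ ∀ t : ℕ, 0 < t → t.Coprime s.factorial → s * t ∈ S

/-- the part of `S` generated by the elements up to `y` -/
def Sy (S : Set ℕ) (y : ℕ) : Set ℕ :=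
  {n | ∃ s ∈ S, s ≤ y ∧ ∃ t, n = s * t ∧ t.Coprime s.factorial}

lemma Sy_sub {S : Set ℕ} (hS : Rough S) (y n : ℕ) (hn : 1 ≤ n) (h : n ∈ Sy S y) : n ∈ S := by
  obtain ⟨s, hs, _, t, rfl, ht⟩ := h
  exact (hS s hs).2 t (Nat.pos_of_mul_pos_left hn |> fun h => by
    rcases Nat.eq_zero_or_pos t with h0 | h0
    · subst h0; simp at hn
    · exact h0) ht

lemma mem_Sy {S : Set ℕ} (y n : ℕ) (hn : n ∈ S) (hy : n ≤ y) : n ∈ Sy S y :=
  ⟨n, hn, hy, 1, (mul_one n).symm, Nat.coprime_one_left _⟩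

lemma Sy_mono (S : Set ℕ) {y z : ℕ} (h : y ≤ z) : Sy S y ⊆ Sy S z := by
  rintro n ⟨s, hs, hsy, ht⟩
  exact ⟨s, hs, hsy.trans h, ht⟩

lemma Sy_period {S : Set ℕ} (hS : Rough S) (y n : ℕ) :
    n ∈ Sy S y ↔ n + y.factorial * y.factorial ∈ Sy S y := by
  constructor
  · rintro ⟨s, hs, hsy, t, rfl, ht⟩
    have h0 := (hS s hs).1
    obtain ⟨a, ha⟩ := Nat.dvd_factorial h0 hsy
    obtain ⟨b, hb⟩ := Nat.factorial_dvd_factorial hsy
    refine ⟨s, hs, hsy, t + a * b * s.factorial, ?_, ?_⟩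
    · calc s * t + y.factorial * y.factorial = s * t + (s * a) * (s.factorial * b) := by
            rw [← ha, ← hb]
        _ = _ := by ring
    · rw [Nat.coprime_add_mul_right_left]; exact ht
  · rintro ⟨s, hs, hsy, t, he, ht⟩
    have h0 := (hS s hs).1
    obtain ⟨a, ha⟩ := Nat.dvd_factorial h0 hsy
    obtain ⟨b, hb⟩ := Nat.factorial_dvd_factorial hsy
    have e1 : y.factorial * y.factorial = s * (a * b * s.factorial) := by
      calc y.factorial * y.factorial = (s * a) * (s.factorial * b) := by rw [← ha, ← hb]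
        _ = _ := by ring
    have h1 : s ∣ n := by
      have h2 : s ∣ n + y.factorial * y.factorial := ⟨t, he⟩
      have h3 : s ∣ y.factorial * y.factorial := ⟨_, e1⟩
      exact (Nat.dvd_add_left h3).1 h2
    obtain ⟨u, rfl⟩ := h1
    refine ⟨s, hs, hsy, u, rfl, ?_⟩
    have h4 : t = u + a * b * s.factorial := by
      apply Nat.eq_of_mul_eq_mul_left h0
      rw [← he, e1]; ring
    rw [h4, Nat.coprime_add_mul_right_left] at ht
    exact ht

/-- density of the part generated by the elements up to `y` -/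
noncomputable def dy (S : Set ℕ) (y : ℕ) : ℝ :=
  cnt (Sy S y) (y.factorial * y.factorial) / (y.factorial * y.factorial : ℕ)

lemma Sy_hasD {S : Set ℕ} (hS : Rough S) (y : ℕ) : HasD (Sy S y) (dy S y) :=
  HasD.periodic _ _ (Nat.mul_pos (Nat.factorial_pos y) (Nat.factorial_pos y))
    (fun n _ => Sy_period hS y n)

lemma dy_mono {S : Set ℕ} (hS : Rough S) : Monotone (dy S) := fun y z h =>
  (Sy_hasD hS y).mono (Sy_hasD hS z) (fun _ _ hn => Sy_mono S h hn)

/-- the density of the integers without prime factor up to `y` -/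
noncomputable def Py (y : ℕ) : ℝ := (y.factorial.totient : ℝ) / y.factorial

lemma Py_pos (y : ℕ) : 0 < Py y := by
  unfold Py
  have h1 : 0 < y.factorial := Nat.factorial_pos y
  have h2 : 0 < y.factorial.totient := Nat.totient_pos.2 h1
  positivity

open Classical in
/-- elements of `S` up to `y` not generated by the elements up to `v` -/
noncomputable def FF (S : Set ℕ) (v y : ℕ) : Finset ℕ :=
  (Finset.Icc 1 y).filter (fun s => s ∈ S ∧ s ∉ Sy S v)

lemma mem_FF (S : Set ℕ) (v y s : ℕ) : s ∈ FF S v y ↔ (1 ≤ s ∧ s ≤ y) ∧ s ∈ S ∧ s ∉ Sy S v := by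
  classical
  unfold FF
  rw [Finset.mem_filter, Finset.mem_Icc]

lemma main_ineq {S : Set ℕ} (hS : Rough S) {v y : ℕ} (hvy : v ≤ y) :
    Py y * ∑ s ∈ FF S v y, (1 : ℝ) / s ≤ dy S y - dy S v := by
  have hyf : 0 < y.factorial := Nat.factorial_pos y
  have h1 : HasD (⋃ s ∈ FF S v y, Tm s y.factorial) (∑ s ∈ FF S v y, Py y / s) := by
    refine HasD.biUnion (FF S v y) _ _ ?_ ?_
    · intro s hs
      rw [mem_FF] at hs
      exact HasD.Tm s y.factorial hs.1.1 hyf
    · intro s hs s' hs' hne n hn hn'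
      rw [mem_FF] at hs hs'
      obtain ⟨t, rfl, ht⟩ := hn
      obtain ⟨t', he, ht'⟩ := hn'
      apply hne
      have h2 : s ∣ y.factorial := Nat.dvd_factorial hs.1.1 hs.1.2
      have h3 : s' ∣ y.factorial := Nat.dvd_factorial hs'.1.1 hs'.1.2
      apply Nat.dvd_antisymm
      · have h4 : s ∣ s' * t' := ⟨t, he.symm⟩
        exact (Nat.Coprime.coprime_dvd_right h2 ht').symm.dvd_of_dvd_mul_right h4
      · have h4 : s' ∣ s * t := ⟨t', he⟩
        exact (Nat.Coprime.coprime_dvd_right h3 ht).symm.dvd_of_dvd_mul_right h4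
  have h2 : HasD (Sy S v ∪ ⋃ s ∈ FF S v y, Tm s y.factorial)
      (dy S v + ∑ s ∈ FF S v y, Py y / s) := by
    refine HasD.union (Sy_hasD hS v) h1 ?_
    intro n hn hn2
    simp only [Set.mem_iUnion] at hn2
    obtain ⟨s, hs, t, rfl, ht⟩ := hn2
    rw [mem_FF] at hs
    apply hs.2.2
    obtain ⟨a, ha, hav, u, he, hu⟩ := hn
    have ha0 := (hS a ha).1
    have h3 : a ∣ y.factorial := Nat.dvd_factorial ha0 (hav.trans hvy)
    have h4 : a ∣ s * t := ⟨u, he⟩
    have h5 : a ∣ s := (Nat.Coprime.coprime_dvd_right h3 ht).symm.dvd_of_dvd_mul_right h4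
    obtain ⟨b, rfl⟩ := h5
    refine ⟨a, ha, hav, b, rfl, ?_⟩
    have h6 : u = b * t := by
      apply Nat.eq_of_mul_eq_mul_left ha0
      rw [← he, mul_assoc]
    rw [h6] at hu
    exact Nat.Coprime.coprime_mul_right hu
  have h3 := h2.mono (Sy_hasD hS y) (by
    intro n _ hn
    rcases hn with hn | hn
    · exact Sy_mono S hvy hn
    · simp only [Set.mem_iUnion] at hn
      obtain ⟨s, hs, t, rfl, ht⟩ := hn
      rw [mem_FF] at hs
      exact ⟨s, hs.2.1, hs.1.2, t, rfl,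
        Nat.Coprime.coprime_dvd_right (Nat.factorial_dvd_factorial hs.1.2) ht⟩)
  have h4 : ∑ s ∈ FF S v y, Py y / s = Py y * ∑ s ∈ FF S v y, (1 : ℝ) / s := by
    rw [Finset.mul_sum]
    refine Finset.sum_congr rfl fun s _ => ?_
    ring
  rw [h4] at h3
  linarith

lemma hsum_split (S : Set ℕ) (v y : ℕ) :
    hsum S y ≤ hsum (Sy S v) y + ∑ s ∈ FF S v y, (1 : ℝ) / s := by
  classical
  unfold hsum FF
  rw [Finset.sum_filter, ← Finset.sum_add_distrib]
  refine Finset.sum_le_sum fun n hn => ?_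
  have h0 : (0 : ℝ) ≤ 1 / n := by positivity
  by_cases h1 : n ∈ S
  · by_cases h2 : n ∈ Sy S v
    · rw [ind_mem h1, ind_mem h2, if_neg (fun h => h.2 h2)]; linarith
    · rw [ind_mem h1, ind_notMem h2, if_pos ⟨h1, h2⟩]; simp
  · rw [ind_notMem h1, if_neg (fun h => h1 h.1)]
    have := ind_nonneg (Sy S v) n
    have h3 : 0 ≤ ind (Sy S v) n / n := by positivity
    simp only [zero_div, add_zero]
    exact h3

/-- Mertens' lower bound -/
lemma Py_lower : ∃ C : ℝ, 0 < C ∧ ∀ y : ℕ, 3 ≤ y → 1 ≤ C * Real.log y * Py y := by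
  obtain ⟨C, hC⟩ := Pool.Agent.Helper256.KM.mertens_inv
  have hs : Summable (fun n : ℕ => 1 / (n : ℝ) ^ 2) := Real.summable_one_div_nat_pow.2 (by norm_num)
  set K : ℝ := ∑' n : ℕ, 1 / (n : ℝ) ^ 2 with hK
  refine ⟨Real.exp (C + K), Real.exp_pos _, fun y hy => ?_⟩
  have hpf : y.factorial.primeFactors = (Finset.Icc 1 y).filter Nat.Prime := by
    ext p
    rw [Nat.mem_primeFactors, Finset.mem_filter, Finset.mem_Icc]
    constructor
    · rintro ⟨h1, h2, _⟩
      exact ⟨⟨h1.one_lt.le, (h1.dvd_factorial).1 h2⟩, h1⟩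
    · rintro ⟨h1, h2⟩
      exact ⟨h2, (h2.dvd_factorial).2 h1.2, (Nat.factorial_pos y).ne'⟩
  have h1 : Py y = ∏ p ∈ (Finset.Icc 1 y).filter Nat.Prime, (1 - (p : ℝ)⁻¹) := by
    unfold Py
    have h2 := Nat.totient_eq_mul_prod_factors y.factorial
    have h3 : ((y.factorial.totient : ℚ) : ℝ) = ((y.factorial : ℚ) *
      ∏ p ∈ y.factorial.primeFactors, (1 - (p : ℚ)⁻¹) : ℚ) := by exact_mod_cast h2
    push_cast at h3
    rw [h3, ← hpf, mul_div_assoc, mul_comm, div_mul_cancel₀]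
    exact_mod_cast (Nat.factorial_pos y).ne'
  have h2 : ∀ p ∈ (Finset.Icc 1 y).filter Nat.Prime,
      Real.exp (-(1 / (p : ℝ) + 1 / (p : ℝ) ^ 2)) ≤ 1 - (p : ℝ)⁻¹ := by
    intro p hp
    rw [Finset.mem_filter] at hp
    have h3 : (2 : ℝ) ≤ p := by exact_mod_cast hp.2.two_le
    set x : ℝ := 1 / (p : ℝ) with hx
    have hx0 : 0 < x := by positivity
    have hx1 : x ≤ 1 / 2 := by
      rw [hx]; exact one_div_le_one_div_of_le (by norm_num) h3
    have e1 : 1 / (p : ℝ) ^ 2 = x ^ 2 := by rw [hx]; ring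
    have e2 : (p : ℝ)⁻¹ = x := by rw [hx]; ring
    rw [e1, e2, Real.exp_neg]
    rw [inv_le_comm₀ (Real.exp_pos _) (by linarith)]
    have h4 : (1 - x)⁻¹ ≤ 1 + (x + x ^ 2) + (x + x ^ 2) ^ 2 / 2 := by
      rw [inv_le_iff_one_le_mul₀ (by linarith)]
      nlinarith [mul_pos hx0 hx0, mul_pos (mul_pos hx0 hx0) hx0, mul_pos (mul_pos hx0 hx0) (mul_pos hx0 hx0), mul_nonneg (mul_pos (mul_pos hx0 hx0) hx0).le (sub_nonneg.2 hx1)]
    have h5 : 0 ≤ x + x ^ 2 := by positivity
    exact h4.trans (by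
      have := Real.quadratic_le_exp_of_nonneg h5
      linarith)
  have h3 : Real.exp (-(Real.log (Real.log y) + C + K)) ≤ Py y := by
    rw [h1]
    calc Real.exp (-(Real.log (Real.log y) + C + K))
        ≤ Real.exp (∑ p ∈ (Finset.Icc 1 y).filter Nat.Prime, (-(1 / (p : ℝ) + 1 / (p : ℝ) ^ 2))) := by
          apply Real.exp_le_exp.2
          rw [Finset.sum_neg_distrib, Finset.sum_add_distrib]
          have h4 := (abs_le.1 (hC y hy)).2
          have h5 : ∑ p ∈ (Finset.Icc 1 y).filter Nat.Prime, 1 / (p : ℝ) ^ 2 ≤ K :=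
            hs.sum_le_tsum _ fun n _ => by positivity
          linarith
      _ = ∏ p ∈ (Finset.Icc 1 y).filter Nat.Prime, Real.exp (-(1 / (p : ℝ) + 1 / (p : ℝ) ^ 2)) :=
          Real.exp_sum _ _
      _ ≤ _ := Finset.prod_le_prod (fun p _ => (Real.exp_pos _).le) h2
  have hly : 0 < Real.log y := Real.log_pos (by exact_mod_cast (by omega : 1 < y))
  have h4 : Real.exp (C + K) * Real.log y * Real.exp (-(Real.log (Real.log y) + C + K)) = 1 := by
    rw [show -(Real.log (Real.log y) + C + K) = -(Real.log (Real.log y)) + -(C + K) by ring,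
      Real.exp_add (-(Real.log (Real.log y))) (-(C + K)), Real.exp_neg, Real.exp_neg,
      Real.exp_log hly]
    have := Real.exp_pos (C + K)
    field_simp
  calc (1 : ℝ) = Real.exp (C + K) * Real.log y * Real.exp (-(Real.log (Real.log y) + C + K)) :=
        h4.symm
    _ ≤ _ := mul_le_mul_of_nonneg_left h3 (by positivity)

end Pool.Agent.Helper680.SigA
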