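import Mathlib
import Pool.Agent.Helper680.SigB

set_option autoImplicit false

namespace Pool.Agent.Helper680.SigA

open Finset Filter Topology

lemma hh_eq (N : ℕ) : hh N = ((harmonic N : ℚ) : ℝ) := by
  unfold hh
  rw [harmonic_eq_sum_Icc]
  push_cast
  refine Finset.sum_congr rfl fun n _ => one_div _

lemma hh_upper (N : ℕ) : hh N ≤ 1 + Real.log N := by
  rw [hh_eq]; exact harmonic_le_one_add_log N

lemma hh_lower (N : ℕ) (hN : 1 ≤ N) : Real.log N ≤ hh N := by
  rw [hh_eq]
  refine le_trans ?_ (log_add_one_le_harmonic N)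
  apply Real.log_le_log
  · exact_mod_cast hN
  · push_cast; linarith

lemma log_atTop : Tendsto (fun N : ℕ => Real.log N) atTop atTop :=
  Real.tendsto_log_atTop.comp tendsto_natCast_atTop_atTop

lemma const_div_log (K : ℝ) : Tendsto (fun N : ℕ => K / Real.log N) atTop (𝓝 0) :=
  log_atTop.const_div_atTop K

lemma hh_div_log : Tendsto (fun N : ℕ => hh N / Real.log N) atTop (𝓝 1) := by
  have h1 : Tendsto (fun N : ℕ => 1 + 1 / Real.log N) atTop (𝓝 1) := by
    simpa using (const_div_log 1).const_add 1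
  refine tendsto_of_tendsto_of_tendsto_of_le_of_le' tendsto_const_nhds h1 ?_ ?_
  · filter_upwards [eventually_ge_atTop 3] with N hN
    have hl : 0 < Real.log N := Real.log_pos (by exact_mod_cast (by omega : 1 < N))
    rw [le_div_iff₀ hl, one_mul]
    exact hh_lower N (by omega)
  · filter_upwards [eventually_ge_atTop 3] with N hN
    have hl : 0 < Real.log N := Real.log_pos (by exact_mod_cast (by omega : 1 < N))
    rw [div_le_iff₀ hl, add_mul, one_mul, one_div_mul_cancel hl.ne']
    linarith [hh_upper N]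

lemma dy_bdd {S : Set ℕ} (hS : Rough S) : BddAbove (Set.range (dy S)) :=
  ⟨1, by rintro _ ⟨y, rfl⟩; exact (Sy_hasD hS y).le_one⟩

/-- the common value of the logarithmic density and the lower density -/
noncomputable def del (S : Set ℕ) : ℝ := ⨆ y, dy S y

lemma dy_le {S : Set ℕ} (hS : Rough S) (y : ℕ) : dy S y ≤ del S := le_ciSup (dy_bdd hS) y

lemma exists_dy {S : Set ℕ} (ε : ℝ) (hε : 0 < ε) : ∃ y, del S - ε < dy S y :=
  exists_lt_of_lt_ciSup (by unfold del; linarith)

theorem log_density {S : Set ℕ} (hS : Rough S) :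
    Tendsto (fun N : ℕ => hsum S N / Real.log N) atTop (𝓝 (del S)) := by
  obtain ⟨C, hC0, hC⟩ := Py_lower
  rw [Metric.tendsto_atTop']
  intro ε hε
  obtain ⟨v, hv⟩ := exists_dy (S := S) (ε / (4 * (C + 1))) (by positivity)
  obtain ⟨K, hK⟩ := (Sy_hasD hS v).hsum
  have hdv := dy_le hS v
  have hCε : C * (del S - dy S v) ≤ ε / 4 := by
    have h1 : del S - dy S v ≤ ε / (4 * (C + 1)) := by linarith
    calc C * (del S - dy S v) ≤ (C + 1) * (ε / (4 * (C + 1))) :=
          mul_le_mul (by linarith) h1 (by linarith) (by linarith)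
      _ = ε / 4 := by field_simp
  have hdε : del S - dy S v ≤ ε / 4 := by
    have h1 : del S - dy S v ≤ ε / (4 * (C + 1)) := by linarith
    refine h1.trans ?_
    apply div_le_div_of_nonneg_left hε.le (by norm_num) (by linarith)
  have hlim1 : Tendsto (fun N : ℕ => dy S v * (hh N / Real.log N) + K / Real.log N) atTop
      (𝓝 (dy S v)) := by
    simpa using (hh_div_log.const_mul (dy S v)).add (const_div_log K)
  have hlim2 : Tendsto (fun N : ℕ => dy S v * (hh N / Real.log N) - K / Real.log N) atTop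
      (𝓝 (dy S v)) := by
    simpa using (hh_div_log.const_mul (dy S v)).sub (const_div_log K)
  have e1 : ∀ᶠ N : ℕ in atTop, dy S v * (hh N / Real.log N) + K / Real.log N < dy S v + ε / 4 :=
    hlim1.eventually_lt_const (by linarith)
  have e2 : ∀ᶠ N : ℕ in atTop, dy S v - ε / 4 < dy S v * (hh N / Real.log N) - K / Real.log N :=
    hlim2.eventually_const_lt (by linarith)
  have e3 : ∀ᶠ N : ℕ in atTop, dist (hsum S N / Real.log N) (del S) < ε := by
    filter_upwards [e1, e2, eventually_ge_atTop (max v 3)] with N h1 h2 hN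
    have hN3 : 3 ≤ N := (le_max_right v 3).trans hN
    have hNv : v ≤ N := (le_max_left v 3).trans hN
    have hl : 0 < Real.log N := Real.log_pos (by exact_mod_cast (by omega : 1 < N))
    have hKN := abs_le.1 (hK N)
    have hup1 := hsum_split S v N
    have hmain := main_ineq hS hNv
    have hdN := dy_le hS N
    have hP := hC N hN3
    have hPp := Py_pos N
    have hsum0 : 0 ≤ ∑ s ∈ FF S v N, (1 : ℝ) / s := Finset.sum_nonneg fun s _ => by positivity
    have hF : ∑ s ∈ FF S v N, (1 : ℝ) / s ≤ C * (del S - dy S v) * Real.log N := by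
      calc ∑ s ∈ FF S v N, (1 : ℝ) / s ≤ (C * Real.log N * Py N) * ∑ s ∈ FF S v N, (1 : ℝ) / s :=
            le_mul_of_one_le_left hsum0 hP
        _ = C * Real.log N * (Py N * ∑ s ∈ FF S v N, (1 : ℝ) / s) := by ring
        _ ≤ C * Real.log N * (del S - dy S v) :=
            mul_le_mul_of_nonneg_left (by linarith) (by positivity)
        _ = _ := by ring
    have hup : hsum S N / Real.log N ≤
        dy S v * (hh N / Real.log N) + K / Real.log N + C * (del S - dy S v) := by
      rw [div_le_iff₀ hl]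
      have : (dy S v * (hh N / Real.log N) + K / Real.log N + C * (del S - dy S v)) * Real.log N =
          dy S v * hh N + K + C * (del S - dy S v) * Real.log N := by
        field_simp
      rw [this]
      linarith [hKN.2]
    have hlo : dy S v * (hh N / Real.log N) - K / Real.log N ≤ hsum S N / Real.log N := by
      rw [le_div_iff₀ hl]
      have : (dy S v * (hh N / Real.log N) - K / Real.log N) * Real.log N =
          dy S v * hh N - K := by
        field_simp
      rw [this]
      have h3 := hsum_mono (fun n hn hnS => Sy_sub hS v n hn hnS) N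
      linarith [hKN.1]
    rw [Real.dist_eq, abs_lt]
    constructor <;> linarith
  obtain ⟨N0, hN0⟩ := e3.exists_forall_of_atTop
  exact ⟨N0, fun n hn => hN0 n hn.le⟩

lemma lower_ge {S : Set ℕ} (hS : Rough S) (ε : ℝ) (hε : 0 < ε) :
    ∀ᶠ N : ℕ in atTop, (del S - ε) * N ≤ cnt S N := by
  obtain ⟨v, hv⟩ := exists_dy (S := S) (ε / 2) (by positivity)
  obtain ⟨K, hK⟩ := Sy_hasD hS v
  filter_upwards [eventually_ge_atTop (⌈2 * K / ε⌉₊)] with N hN
  have h1 : 2 * K / ε ≤ N := (Nat.le_ceil _).trans (by exact_mod_cast hN)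
  rw [div_le_iff₀ hε] at h1
  have h2 := abs_le.1 (hK N)
  have h3 := cnt_mono (fun n hn hnS => Sy_sub hS v n hn hnS) N
  have h4 : (0 : ℝ) ≤ N := by positivity
  nlinarith [h2.1, h2.2]

lemma abel_lo (f : ℕ → ℝ) (d K : ℝ) (hK : 0 ≤ K)
    (h : ∀ n : ℕ, d * n - K ≤ ∑ k ∈ Finset.Icc 1 n, f k) (N : ℕ) :
    d * hh N - 2 * K ≤ ∑ n ∈ Finset.Icc 1 N, f n / n := by
  have h1 : ∑ n ∈ Finset.Icc 1 N, f n / n - d * hh N = ∑ n ∈ Finset.Icc 1 N, (f n - d) / n := by
    unfold hh
    rw [Finset.mul_sum, ← Finset.sum_sub_distrib]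
    refine Finset.sum_congr rfl fun n _ => ?_
    ring
  have h2 : ∀ n : ℕ, ∑ k ∈ Finset.Icc 1 n, (f k - d) = ∑ k ∈ Finset.Icc 1 n, f k - d * n := by
    intro n
    rw [Finset.sum_sub_distrib, Finset.sum_const, Nat.card_Icc]
    simp [mul_comm]
  have h0 := abel (fun n => f n - d) N
  have h3 : -K ≤ (∑ n ∈ Finset.Icc 1 N, (f n - d)) / ((N : ℝ) + 1) := by
    rw [h2, le_div_iff₀ (by positivity)]
    have : (0 : ℝ) ≤ N := by positivity
    nlinarith [h N]
  have h4 : -K ≤ ∑ n ∈ Finset.Icc 1 N, (∑ k ∈ Finset.Icc 1 n, (f k - d)) / ((n : ℝ) * (n + 1)) := by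
    calc -K = (-K) * 1 := by ring
      _ ≤ (-K) * (1 - 1 / (N + 1)) := by
          have : (0 : ℝ) < 1 / ((N : ℝ) + 1) := by positivity
          nlinarith
      _ = ∑ n ∈ Finset.Icc 1 N, (-K) * ((1 : ℝ) / (n * (n + 1))) := by
          rw [← Finset.mul_sum, tele]
      _ ≤ _ := by
          refine Finset.sum_le_sum fun n hn => ?_
          rw [Finset.mem_Icc] at hn
          have hn1 : (0 : ℝ) < n := by exact_mod_cast hn.1
          rw [h2, mul_one_div]
          exact div_le_div_of_nonneg_right (by linarith [h n]) (by positivity)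
  rw [← h1] at h0
  linarith

lemma lower_le {S : Set ℕ} (hS : Rough S) (ε : ℝ) (hε : 0 < ε) :
    ∃ᶠ N : ℕ in atTop, cnt S N ≤ (del S + ε) * N := by
  intro hcon
  have hcon' : ∀ᶠ N : ℕ in atTop, (del S + ε) * N < cnt S N := by
    filter_upwards [hcon] with N hN
    exact not_le.1 hN
  obtain ⟨N0, hN0⟩ := hcon'.exists_forall_of_atTop
  have hd0 : 0 ≤ del S := (Sy_hasD hS 0).nonneg.trans (dy_le hS 0)
  have h1 : ∀ n : ℕ, (del S + ε) * n - (del S + ε) * N0 ≤ ∑ k ∈ Finset.Icc 1 n, ind S k := by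
    intro n
    by_cases hn : N0 ≤ n
    · have h2 := hN0 n hn
      unfold cnt at h2
      have h3 : (0 : ℝ) ≤ (del S + ε) * N0 := by positivity
      linarith
    · push Not at hn
      have h2 : (n : ℝ) ≤ N0 := by exact_mod_cast hn.le
      have h3 := cnt_nonneg S n
      unfold cnt at h3
      nlinarith
  have h2 := abel_lo (ind S) (del S + ε) ((del S + ε) * N0) (by positivity) h1
  have h3 : Tendsto (fun N : ℕ => (del S + ε) * (hh N / Real.log N) -
      (2 * ((del S + ε) * N0)) / Real.log N) atTop (𝓝 (del S + ε)) := by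
    simpa using (hh_div_log.const_mul (del S + ε)).sub (const_div_log (2 * ((del S + ε) * N0)))
  have h4 : del S + ε ≤ del S := by
    refine le_of_tendsto_of_tendsto h3 (log_density hS) ?_
    filter_upwards [eventually_ge_atTop 3] with N hN
    have hl : 0 < Real.log N := Real.log_pos (by exact_mod_cast (by omega : 1 < N))
    rw [le_div_iff₀ hl]
    have : ((del S + ε) * (hh N / Real.log N) - (2 * ((del S + ε) * N0)) / Real.log N) *
        Real.log N = (del S + ε) * hh N - 2 * ((del S + ε) * N0) := by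
      field_simp
    rw [this]
    exact h2 N
  linarith

theorem liminf_eq {S : Set ℕ} (hS : Rough S) :
    liminf (fun N : ℕ => cnt S N / N) atTop = del S := by
  have hb1 : ∀ N : ℕ, 0 ≤ cnt S N / N := fun N => div_nonneg (cnt_nonneg S N) (by positivity)
  have hb2 : ∀ N : ℕ, cnt S N / N ≤ 1 := fun N => div_le_one_of_le₀ (cnt_le S N) (by positivity)
  have hbd1 : IsBoundedUnder (· ≥ ·) atTop (fun N : ℕ => cnt S N / N) :=
    isBoundedUnder_of ⟨0, fun N => hb1 N⟩
  have hbd2 : IsCoboundedUnder (· ≥ ·) atTop (fun N : ℕ => cnt S N / N) :=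
    IsBoundedUnder.isCoboundedUnder_ge (isBoundedUnder_of ⟨1, fun N => hb2 N⟩)
  apply le_antisymm
  · by_contra hcon
    push Not at hcon
    obtain ⟨ε, hε, hlt⟩ : ∃ ε : ℝ, 0 < ε ∧ del S + ε < liminf (fun N : ℕ => cnt S N / N) atTop :=
      ⟨(liminf (fun N : ℕ => cnt S N / N) atTop - del S) / 2, by linarith, by linarith⟩
    have h1 := eventually_lt_of_lt_liminf hlt hbd1
    obtain ⟨N, hN1, hN2, hN3⟩ := ((lower_le hS ε hε).and_eventually
      (h1.and (eventually_ge_atTop 1))).exists
    have hN0 : (0 : ℝ) < N := by exact_mod_cast hN3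
    rw [lt_div_iff₀ hN0] at hN2
    linarith
  · refine le_of_forall_pos_le_add fun ε hε => ?_
    have h1 : del S - ε ≤ liminf (fun N : ℕ => cnt S N / N) atTop := by
      refine le_liminf_of_le hbd2 ?_
      filter_upwards [lower_ge hS ε hε, eventually_ge_atTop 1] with N hN hN1
      rw [le_div_iff₀ (by exact_mod_cast hN1)]
      exact hN
    linarith

end Pool.Agent.Helper680.SigA
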