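import Mathlib
import Pool.Agent.Helper680.SigC

set_option autoImplicit false

namespace Pool.Agent.Helper680.SigA

open Finset Filter Topology

/-- the set of the question -/
def SS : Set ℕ := {s | 2 ≤ s ∧ ∃ q, 1 ≤ q ∧ q < s ∧
  ArithmeticFunction.sigma 1 s = ArithmeticFunction.sigma 1 q + ArithmeticFunction.sigma 1 (s - q)}

lemma SS_mul {s q t : ℕ} (hq : 1 ≤ q) (hqs : q < s)
    (h : ArithmeticFunction.sigma 1 s = ArithmeticFunction.sigma 1 q +
      ArithmeticFunction.sigma 1 (s - q))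
    (ht : 0 < t) (h1 : t.Coprime s) (h2 : t.Coprime q) (h3 : t.Coprime (s - q)) : s * t ∈ SS := by
  have hm := @ArithmeticFunction.isMultiplicative_sigma 1
  refine ⟨?_, q * t, Nat.mul_pos hq ht, Nat.mul_lt_mul_of_pos_right hqs ht, ?_⟩
  · calc 2 ≤ s := by omega
      _ ≤ s * t := Nat.le_mul_of_pos_right s ht
  · rw [← Nat.sub_mul, hm.map_mul_of_coprime h1.symm, hm.map_mul_of_coprime h2.symm,
      hm.map_mul_of_coprime h3.symm, h, add_mul]

lemma SS_rough : Rough SS := by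
  rintro s ⟨h2, q, hq, hqs, h⟩
  refine ⟨by omega, fun t ht hc => SS_mul hq hqs h ht ?_ ?_ ?_⟩
  · exact Nat.Coprime.coprime_dvd_right (Nat.dvd_factorial (by omega) le_rfl) hc
  · exact Nat.Coprime.coprime_dvd_right (Nat.dvd_factorial (by omega) (by omega)) hc
  · exact Nat.Coprime.coprime_dvd_right (Nat.dvd_factorial (by omega) (by omega)) hc

lemma HasD.le_del {S A : Set ℕ} {a : ℝ} (hS : Rough S) (hA : HasD A a)
    (h : ∀ n, 1 ≤ n → n ∈ A → n ∈ S) : a ≤ del S := by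
  obtain ⟨K, hK⟩ := hA.hsum
  have h3 : Tendsto (fun N : ℕ => a * (hh N / Real.log N) - K / Real.log N) atTop (𝓝 a) := by
    simpa using (hh_div_log.const_mul a).sub (const_div_log K)
  refine le_of_tendsto_of_tendsto h3 (log_density hS) ?_
  filter_upwards [eventually_ge_atTop 3] with N hN
  have hl : 0 < Real.log N := Real.log_pos (by exact_mod_cast (by omega : 1 < N))
  rw [le_div_iff₀ hl]
  have : (a * (hh N / Real.log N) - K / Real.log N) * Real.log N = a * hh N - K := by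
    field_simp
  rw [this]
  have h1 := (abs_le.1 (hK N)).1
  have h2 := hsum_mono h N
  linarith

lemma nbeq (a b : ℕ) : (Nat.beq a b = true) ↔ a = b :=
  ⟨Nat.eq_of_beq_eq_true, fun h => by subst h; exact Nat.beq_refl a⟩

lemma nbeq_false (a b : ℕ) : (Nat.beq a b = false) ↔ a ≠ b := by
  rw [← Bool.not_eq_true, nbeq]

/-- divisor sum by recursion -/
def sgA (n : ℕ) : ℕ → ℕ
  | 0 => 0
  | d + 1 => cond (Nat.beq (n % (d + 1)) 0) (d + 1) 0 + sgA n d

lemma sgA_eq (n k : ℕ) : sgA n k = ∑ d ∈ (Finset.Icc 1 k).filter (fun d => d ∣ n), d := by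
  induction k with
  | zero => simp [sgA]
  | succ k ih =>
    have e : Finset.Icc 1 (k + 1) = insert (k + 1) (Finset.Icc 1 k) := by
      ext x; simp only [Finset.mem_Icc, Finset.mem_insert]; omega
    rw [sgA, ih, e, Finset.filter_insert]
    by_cases h : k + 1 ∣ n
    · have h2 : n % (k + 1) = 0 := Nat.mod_eq_zero_of_dvd h
      rw [if_pos h, h2, Finset.sum_insert (by simp)]
      rfl
    · have h2 : n % (k + 1) ≠ 0 := fun h3 => h (Nat.dvd_of_mod_eq_zero h3)
      have h3 : Nat.beq (n % (k + 1)) 0 = false := (nbeq_false _ _).2 h2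
      rw [if_neg h, h3]; simp

lemma sgA_sigma (n : ℕ) (hn : 0 < n) : sgA n n = ArithmeticFunction.sigma 1 n := by
  rw [sgA_eq, ArithmeticFunction.sigma_one_apply]
  refine Finset.sum_congr ?_ fun _ _ => rfl
  ext d
  rw [Finset.mem_filter, Finset.mem_Icc, Nat.mem_divisors]
  constructor
  · rintro ⟨_, h2⟩; exact ⟨h2, hn.ne'⟩
  · rintro ⟨h2, _⟩; exact ⟨⟨Nat.pos_of_dvd_of_pos h2 hn, Nat.le_of_dvd hn h2⟩, h2⟩

/-- product of the listed primes dividing `m` -/
def mpf (m : ℕ) : List ℕ → ℕ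
  | [] => 1
  | p :: l => cond (Nat.beq (m % p) 0) (p * mpf m l) (mpf m l)

/-- product of `p - 1` over the listed primes dividing `m` -/
def ppf (m : ℕ) : List ℕ → ℕ
  | [] => 1
  | p :: l => cond (Nat.beq (m % p) 0) ((p - 1) * ppf m l) (ppf m l)

lemma ppf_le (m : ℕ) (l : List ℕ) (h : ∀ p ∈ l, p.Prime) : ppf m l ≤ (mpf m l).totient := by
  induction l with
  | nil => simp [ppf, mpf]
  | cons p l ih =>
    have h1 := ih fun p' hp' => h p' (List.mem_cons_of_mem _ hp')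
    have hp := h p List.mem_cons_self
    rw [ppf, mpf]
    cases Nat.beq (m % p) 0
    · exact h1
    · calc (p - 1) * ppf m l ≤ p.totient * (mpf m l).totient := by
            rw [Nat.totient_prime hp]; exact Nat.mul_le_mul_left _ h1
        _ ≤ _ := Nat.totient_super_multiplicative _ _

/-- seeds: `(s, q, m, k)` -/
abbrev Entry := ℕ × ℕ × ℕ × ℕ

/-- check of a single entry -/
def okE (pl : List ℕ) (D : ℕ) : Entry → Bool
  | (s, q, m, k) => Nat.blt 0 q && (Nat.blt q s && (Nat.blt 0 m &&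
    (Nat.beq (sgA s s) (sgA q q + sgA (s - q) (s - q)) &&
    (Nat.beq (m ^ 10 % s) 0 && (Nat.beq (m ^ 10 % q) 0 && (Nat.beq (m ^ 10 % (s - q)) 0 &&
    (Nat.beq (mpf m pl) m && Nat.ble (k * (m * s)) (D * ppf m pl))))))))

/-- check of a pair of entries -/
def okP : Entry → Entry → Bool
  | (s, _, m, _), (s', _, m', _) => Nat.beq (m' ^ 10 % s) 0 &&
    (! (Nat.beq (s' % s) 0) || ! (Nat.beq (Nat.gcd (s' / s) m) 1))

/-- all checks -/
def okAll (pl : List ℕ) (D : ℕ) : List Entry → Bool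
  | [] => true
  | e :: l => okE pl D e && (l.all (okP e) && okAll pl D l)

/-- total weight -/
def tot : List Entry → ℕ
  | [] => 0
  | (_, _, _, k) :: l => k + tot l

/-- the set generated by the table -/
def AU (l : List Entry) : Set ℕ := {n | ∃ e ∈ l, n ∈ Tm e.1 e.2.2.1}

lemma okE_spec {pl : List ℕ} {D s q m k : ℕ} (h : okE pl D (s, q, m, k) = true) :
    0 < q ∧ q < s ∧ 0 < m ∧ sgA s s = sgA q q + sgA (s - q) (s - q) ∧ s ∣ m ^ 10 ∧ q ∣ m ^ 10 ∧
      (s - q) ∣ m ^ 10 ∧ mpf m pl = m ∧ k * (m * s) ≤ D * ppf m pl := by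
  simp only [okE, Bool.and_eq_true, Nat.blt_eq, nbeq, Nat.ble_eq] at h
  obtain ⟨h1, h2, h3, h4, h5, h6, h7, h8, h9⟩ := h
  exact ⟨h1, h2, h3, h4, Nat.dvd_of_mod_eq_zero h5, Nat.dvd_of_mod_eq_zero h6,
    Nat.dvd_of_mod_eq_zero h7, h8, h9⟩

lemma cop_of_dvd_pow {t m s : ℕ} (h : t.Coprime m) (hs : s ∣ m ^ 10) : t.Coprime s :=
  Nat.Coprime.coprime_dvd_right hs (Nat.Coprime.pow_right 10 h)

lemma Tm_sub {pl : List ℕ} {D : ℕ} {e : Entry} (h : okE pl D e = true) (n : ℕ) (hn : 1 ≤ n)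
    (hT : n ∈ Tm e.1 e.2.2.1) : n ∈ SS := by
  obtain ⟨s, q, m, k⟩ := e
  obtain ⟨h1, h2, h3, h4, h5, h6, h7, h8, h9⟩ := okE_spec h
  obtain ⟨t, rfl, ht⟩ := hT
  have ht0 : 0 < t := by
    rcases Nat.eq_zero_or_pos t with h0 | h0
    · subst h0; simp at hn
    · exact h0
  rw [sgA_sigma s (by omega), sgA_sigma q h1, sgA_sigma (s - q) (by omega)] at h4
  exact SS_mul h1 h2 h4 ht0 (cop_of_dvd_pow ht h5) (cop_of_dvd_pow ht h6) (cop_of_dvd_pow ht h7)

lemma Tm_dens {pl : List ℕ} (hpl : ∀ p ∈ pl, p.Prime) {D : ℕ} {e : Entry}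
    (h : okE pl D e = true) :
    ∃ a : ℝ, HasD (Tm e.1 e.2.2.1) a ∧ (e.2.2.2 : ℝ) ≤ D * a := by
  obtain ⟨s, q, m, k⟩ := e
  obtain ⟨h1, h2, h3, h4, h5, h6, h7, h8, h9⟩ := okE_spec h
  have hs : 0 < s := by omega
  refine ⟨(m.totient : ℝ) / m / s, HasD.Tm s m hs h3, ?_⟩
  have h10 := ppf_le m pl hpl
  rw [h8] at h10
  have h11 : k * (m * s) ≤ D * m.totient := h9.trans (Nat.mul_le_mul_left _ h10)
  have h12 : (k : ℝ) * (m * s) ≤ D * m.totient := by exact_mod_cast h11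
  have hs' : (0 : ℝ) < s := by exact_mod_cast hs
  have hm' : (0 : ℝ) < m := by exact_mod_cast h3
  show (k : ℝ) ≤ D * ((m.totient : ℝ) / m / s)
  rw [div_div, mul_div_assoc', le_div_iff₀ (by positivity)]
  exact h12

lemma Tm_disj {e e' : Entry} (h : okP e e' = true) (hs : 0 < e.1) (n : ℕ)
    (h1 : n ∈ Tm e.1 e.2.2.1) : n ∉ Tm e'.1 e'.2.2.1 := by
  obtain ⟨s, q, m, k⟩ := e
  obtain ⟨s', q', m', k'⟩ := e'
  simp only [okP, Bool.and_eq_true, Bool.or_eq_true, Bool.not_eq_true', nbeq, nbeq_false] at h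
  obtain ⟨h2, h3⟩ := h
  obtain ⟨t, rfl, ht⟩ := h1
  rintro ⟨t', he, ht'⟩
  have h4 : t'.Coprime s := cop_of_dvd_pow ht' (Nat.dvd_of_mod_eq_zero h2)
  have h5 : s ∣ s' := h4.symm.dvd_of_dvd_mul_right ⟨t, he.symm⟩
  rcases h3 with h3 | h3
  · exact h3 (Nat.mod_eq_zero_of_dvd h5)
  · obtain ⟨b, rfl⟩ := h5
    change s * t = s * b * t' at he
    have h6 : t = b * t' := by
      apply Nat.eq_of_mul_eq_mul_left hs
      rw [he, mul_assoc]
    rw [h6] at ht
    have h7 : b.Coprime m := Nat.Coprime.coprime_mul_right ht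
    have h8 : s * b / s = b := Nat.mul_div_cancel_left b hs
    rw [h8] at h3
    exact h3 h7

theorem sound {pl : List ℕ} (hpl : ∀ p ∈ pl, p.Prime) {D : ℕ} (l : List Entry)
    (h : okAll pl D l = true) :
    (∀ n, 1 ≤ n → n ∈ AU l → n ∈ SS) ∧ ∃ a : ℝ, HasD (AU l) a ∧ (tot l : ℝ) ≤ D * a := by
  induction l with
  | nil =>
    refine ⟨fun n _ ⟨e, he, _⟩ => absurd he List.not_mem_nil, 0, ?_, by simp [tot]⟩
    have : AU [] = ∅ := by
      ext n
      constructor
      · rintro ⟨e, he, _⟩; exact absurd he List.not_mem_nil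
      · intro h; exact absurd h (Set.notMem_empty n)
    rw [this]; exact HasD.empty
  | cons e l ih =>
    rw [okAll, Bool.and_eq_true, Bool.and_eq_true] at h
    obtain ⟨h1, h2, h3⟩ := h
    obtain ⟨ih1, a, ha, hta⟩ := ih h3
    have hAU : AU (e :: l) = Tm e.1 e.2.2.1 ∪ AU l := by
      ext n
      constructor
      · rintro ⟨e', he', hn⟩
        rcases List.mem_cons.1 he' with rfl | h4
        · exact Or.inl hn
        · exact Or.inr ⟨e', h4, hn⟩
      · rintro (hn | ⟨e', h4, hn⟩)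
        · exact ⟨e, List.mem_cons_self, hn⟩
        · exact ⟨e', List.mem_cons_of_mem _ h4, hn⟩
    obtain ⟨b, hb, htb⟩ := Tm_dens hpl h1
    have hs : 0 < e.1 := by
      obtain ⟨s, q, m, k⟩ := e
      obtain ⟨h4, h5, _⟩ := okE_spec h1
      show 0 < s
      omega
    refine ⟨?_, b + a, ?_, ?_⟩
    · intro n hn hn2
      rw [hAU] at hn2
      rcases hn2 with hn2 | hn2
      · exact Tm_sub h1 n hn hn2
      · exact ih1 n hn hn2
    · rw [hAU]
      refine HasD.union hb ha ?_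
      rintro n hn ⟨e', he', hn'⟩
      exact Tm_disj (List.all_eq_true.1 h2 e' he') hs n hn hn'
    · obtain ⟨s, q, m, k⟩ := e
      rw [tot]
      push_cast
      change (k : ℝ) ≤ D * b at htb
      linarith

end Pool.Agent.Helper680.SigA
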