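import Mathlib
import Pool.Agent.Helper680.SigC

set_option autoImplicit false

namespace Pool.Agent.Helper680.SigA

open Finset Filter Topology

lemma del_le_one {S : Set ℕ} (hS : Rough S) : del S ≤ 1 :=
  ciSup_le fun y => (Sy_hasD hS y).le_one

lemma Tm_hasD_fact (a y : ℕ) (ha : 1 ≤ a) : HasD (Tm a y.factorial) (Py y / a) :=
  HasD.Tm a y.factorial ha (Nat.factorial_pos y)

lemma Tm_Sy {S : Set ℕ} (hS : Rough S) {a y : ℕ} (haS : a ∉ S) (ha : 1 ≤ a) (n : ℕ)
    (hn : n ∈ Tm a y.factorial) : n ∉ Sy S y := by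
  obtain ⟨t, rfl, ht⟩ := hn
  rintro ⟨s, hs, hsy, u, he, hu⟩
  apply haS
  have hs0 := (hS s hs).1
  have h3 : s ∣ y.factorial := Nat.dvd_factorial hs0 hsy
  have h4 : s ∣ a * t := ⟨u, he⟩
  have h5 : s ∣ a := (Nat.Coprime.coprime_dvd_right h3 ht).symm.dvd_of_dvd_mul_right h4
  obtain ⟨b, rfl⟩ := h5
  have h6 : u = b * t := by
    apply Nat.eq_of_mul_eq_mul_left hs0
    rw [← he, mul_assoc]
  rw [h6] at hu
  refine (hS s hs).2 b ?_ (Nat.Coprime.coprime_mul_right hu)
  rcases Nat.eq_zero_or_pos b with h0 | h0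
  · subst h0; simp at ha
  · exact h0

lemma Tm_disj' {a b y : ℕ} (ha : 1 ≤ a) (hay : a ≤ y) (hb : 1 ≤ b) (hby : b ≤ y) (n : ℕ)
    (h1 : n ∈ Tm a y.factorial) (h2 : n ∈ Tm b y.factorial) : a = b := by
  obtain ⟨t, rfl, ht⟩ := h1
  obtain ⟨t', he, ht'⟩ := h2
  have h2 : a ∣ y.factorial := Nat.dvd_factorial ha hay
  have h3 : b ∣ y.factorial := Nat.dvd_factorial hb hby
  apply Nat.dvd_antisymm
  · have h4 : a ∣ b * t' := ⟨t, he.symm⟩
    exact (Nat.Coprime.coprime_dvd_right h2 ht').symm.dvd_of_dvd_mul_right h4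
  · have h4 : b ∣ a * t := ⟨t', he⟩
    exact (Nat.Coprime.coprime_dvd_right h3 ht).symm.dvd_of_dvd_mul_right h4

open Classical in
/-- the integers up to `y` outside `S` -/
noncomputable def GG (S : Set ℕ) (y : ℕ) : Finset ℕ := (Finset.Icc 1 y).filter (fun a => a ∉ S)

lemma mem_GG (S : Set ℕ) (y a : ℕ) : a ∈ GG S y ↔ (1 ≤ a ∧ a ≤ y) ∧ a ∉ S := by
  classical
  unfold GG
  rw [Finset.mem_filter, Finset.mem_Icc]

lemma ind_GG {S : Set ℕ} (hS : Rough S) (y n : ℕ) (hn : 1 ≤ n) :
    ∑ a ∈ GG S y, ind (S ∩ Tm a y.factorial) n + ind (Sy S y) n ≤ ind S n := by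
  by_cases h1 : n ∈ Sy S y
  · have h2 : ∑ a ∈ GG S y, ind (S ∩ Tm a y.factorial) n = 0 := by
      refine Finset.sum_eq_zero fun a ha => ?_
      rw [mem_GG] at ha
      exact ind_notMem fun h => Tm_Sy hS ha.2 ha.1.1 n h.2 h1
    rw [h2, zero_add]
    exact ind_mono fun h => Sy_sub hS y n hn h
  · rw [ind_notMem h1, add_zero]
    by_cases h2 : ∃ a ∈ GG S y, n ∈ S ∩ Tm a y.factorial
    · obtain ⟨a, ha, han⟩ := h2
      rw [Finset.sum_eq_single_of_mem a ha]
      · exact ind_mono fun h => h.1
      · intro b hb hba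
        refine ind_notMem fun h => hba ?_
        rw [mem_GG] at ha hb
        exact Tm_disj' hb.1.1 hb.1.2 ha.1.1 ha.1.2 n h.2 han.2
    · push Not at h2
      rw [Finset.sum_eq_zero fun a ha => ind_notMem (h2 a ha)]
      exact ind_nonneg _ _

lemma hsum_GG {S : Set ℕ} (hS : Rough S) (y N : ℕ) :
    ∑ a ∈ GG S y, hsum (S ∩ Tm a y.factorial) N + hsum (Sy S y) N ≤ hsum S N := by
  unfold hsum
  rw [Finset.sum_comm, ← Finset.sum_add_distrib]
  refine Finset.sum_le_sum fun n hn => ?_
  rw [Finset.mem_Icc] at hn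
  rw [← Finset.sum_div, ← add_div]
  exact div_le_div_of_nonneg_right (ind_GG hS y n hn.1) (by positivity)

lemma hh_split (S : Set ℕ) (y : ℕ) : hh y = hsum S y + ∑ a ∈ GG S y, (1 : ℝ) / a := by
  classical
  unfold hh hsum GG
  rw [Finset.sum_filter, ← Finset.sum_add_distrib]
  refine Finset.sum_congr rfl fun n _ => ?_
  by_cases h : n ∈ S
  · rw [ind_mem h, if_neg (fun h2 => h2 h), add_zero]
  · rw [ind_notMem h, if_pos h, zero_div, zero_add]

/-- zero-one law -/
theorem zero_one {S : Set ℕ} (hS : Rough S) : del S = 1 ↔ ∃ c > 0, ∀ a y : ℕ, 1 ≤ a → a ≤ y →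
    ∀ᶠ N : ℕ in atTop, c * (Py y / a) * Real.log N ≤ hsum (S ∩ Tm a y.factorial) N := by
  constructor
  · intro h1
    refine ⟨1 / 2, by norm_num, fun a y ha hay => ?_⟩
    have ha' : (0 : ℝ) < a := by exact_mod_cast ha
    set P : ℝ := Py y / a with hP
    have hP0 : 0 < P := by have := Py_pos y; positivity
    obtain ⟨K, hK⟩ := (Tm_hasD_fact a y ha).hsum
    have h2 := log_density hS
    rw [h1] at h2
    have h3 : Tendsto (fun N : ℕ => P * (hh N / Real.log N) - K / Real.log N -
        (hh N / Real.log N - hsum S N / Real.log N)) atTop (𝓝 P) := by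
      simpa using ((hh_div_log.const_mul P).sub (const_div_log K)).sub (hh_div_log.sub h2)
    filter_upwards [h3.eventually_const_lt (show 1 / 2 * P < P by linarith),
      eventually_ge_atTop 3] with N h4 hN
    have hl : 0 < Real.log N := Real.log_pos (by exact_mod_cast (by omega : 1 < N))
    have h5 : P * hh N - K - (hh N - hsum S N) ≤ hsum (S ∩ Tm a y.factorial) N := by
      have h6 := (abs_le.1 (hK N)).1
      have h7 : hsum (Tm a y.factorial) N - (hh N - hsum S N) ≤ hsum (S ∩ Tm a y.factorial) N := by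
        unfold hsum hh
        rw [← Finset.sum_sub_distrib, ← Finset.sum_sub_distrib]
        refine Finset.sum_le_sum fun n _ => ?_
        rw [← sub_div, ← sub_div]
        refine div_le_div_of_nonneg_right ?_ (by positivity)
        by_cases hn : n ∈ S
        · by_cases hn2 : n ∈ Tm a y.factorial
          · rw [ind_mem hn, ind_mem hn2, ind_mem (show n ∈ S ∩ Tm a y.factorial from ⟨hn, hn2⟩)]
            norm_num
          · rw [ind_mem hn, ind_notMem hn2]
            have := ind_nonneg (S ∩ Tm a y.factorial) n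
            linarith
        · rw [ind_notMem hn]
          have h8 := ind_le_one (Tm a y.factorial) n
          have := ind_nonneg (S ∩ Tm a y.factorial) n
          linarith
      linarith
    have h6 : P * (hh N / Real.log N) - K / Real.log N - (hh N / Real.log N -
        hsum S N / Real.log N) = (P * hh N - K - (hh N - hsum S N)) / Real.log N := by
      field_simp
    rw [h6, lt_div_iff₀ hl] at h4
    linarith
  · rintro ⟨c, hc, h⟩
    by_contra hne
    have hlt : del S < 1 := lt_of_le_of_ne (del_le_one hS) hne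
    obtain ⟨C, hC0, hC⟩ := Py_lower
    set g : ℝ := (1 - del S) / C with hg
    have hg0 : 0 < g := div_pos (by linarith) hC0
    -- choose `y`
    obtain ⟨v, hv⟩ := exists_dy (S := S) (c * g / 4) (by positivity)
    have e1 := (log_density hS).eventually_lt_const (show del S < (1 + del S) / 2 by linarith)
    obtain ⟨y, hy1, hyv, hy3⟩ := (e1.and ((eventually_ge_atTop v).and
      (eventually_ge_atTop 3))).exists
    have hly : 0 < Real.log y := Real.log_pos (by exact_mod_cast (by omega : 1 < y))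
    have hdy : del S - c * g / 4 < dy S y := hv.trans_le (dy_mono hS hyv)
    rw [div_lt_iff₀ hly] at hy1
    have h2 := hh_split S y
    have h3 := hh_lower y (by omega)
    have h4 := hC y hy3
    have hPy := Py_pos y
    have h5 : (1 - del S) / 2 * Real.log y ≤ ∑ a ∈ GG S y, (1 : ℝ) / a := by linarith
    have h6 : g / 2 ≤ ∑ a ∈ GG S y, Py y / a := by
      have h7 : ∑ a ∈ GG S y, Py y / a = Py y * ∑ a ∈ GG S y, (1 : ℝ) / a := by
        rw [Finset.mul_sum]
        refine Finset.sum_congr rfl fun s _ => ?_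
        ring
      rw [h7]
      calc g / 2 = g / 2 * 1 := (mul_one _).symm
        _ ≤ g / 2 * (C * Real.log y * Py y) := mul_le_mul_of_nonneg_left h4 (by positivity)
        _ = Py y * ((1 - del S) / 2 * Real.log y) := by rw [hg]; field_simp
        _ ≤ _ := mul_le_mul_of_nonneg_left h5 hPy.le
    -- eventually
    obtain ⟨K, hK⟩ := (Sy_hasD hS y).hsum
    have e2 := (log_density hS).eventually_lt_const (show del S < del S + c * g / 16 by
      have := mul_pos hc hg0; linarith)
    have e3 : Tendsto (fun N : ℕ => dy S y * (hh N / Real.log N) - K / Real.log N) atTop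
        (𝓝 (dy S y)) := by
      simpa using (hh_div_log.const_mul (dy S y)).sub (const_div_log K)
    have e4 := e3.eventually_const_lt (show dy S y - c * g / 16 < dy S y by
      have := mul_pos hc hg0; linarith)
    have e5 : ∀ᶠ N : ℕ in atTop, ∀ a ∈ GG S y,
        c * (Py y / a) * Real.log N ≤ hsum (S ∩ Tm a y.factorial) N := by
      rw [Filter.eventually_all_finset]
      intro a ha
      rw [mem_GG] at ha
      exact h a y ha.1.1 ha.1.2
    obtain ⟨N, h7, h8, h9, hN3⟩ := (e2.and (e4.and (e5.and (eventually_ge_atTop 3)))).exists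
    have hl : 0 < Real.log N := Real.log_pos (by exact_mod_cast (by omega : 1 < N))
    rw [div_lt_iff₀ hl] at h7
    have h10 : dy S y * (hh N / Real.log N) - K / Real.log N =
        (dy S y * hh N - K) / Real.log N := by
      field_simp
    rw [h10, lt_div_iff₀ hl] at h8
    have h11 := (abs_le.1 (hK N)).1
    have h12 := hsum_GG hS y N
    have h13 : c * (∑ a ∈ GG S y, Py y / a) * Real.log N ≤
        ∑ a ∈ GG S y, hsum (S ∩ Tm a y.factorial) N := by
      rw [Finset.mul_sum, Finset.sum_mul]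
      exact Finset.sum_le_sum h9
    have h14 : c * (g / 2) * Real.log N ≤ c * (∑ a ∈ GG S y, Py y / a) * Real.log N := by
      refine mul_le_mul_of_nonneg_right (mul_le_mul_of_nonneg_left h6 hc.le) hl.le
    have hcg := mul_pos hc hg0
    nlinarith [mul_pos hcg hl, mul_lt_mul_of_pos_right hdy hl]

end Pool.Agent.Helper680.SigA
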