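import Mathlib
import Pool.Agent.Helper680.SigE

set_option autoImplicit false

/-! A weighted Davenport-Erdos theorem: counting functions that are locally finite sums of
indicators of sets closed under multiplication by rough numbers. -/

namespace Pool.Agent.Helper680.SigA

open Finset Filter Topology

set_option linter.unusedSectionVars false

variable {ι : Type*} [DecidableEq ι]

lemma del_nonneg {S : Set ℕ} (hS : Rough S) : 0 ≤ del S :=
  (Sy_hasD hS 0).nonneg.trans (dy_le hS 0)

/-- `f` is the locally finite sum of the indicators of the sets `W i` -/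
structure Family (W : ι → Set ℕ) (F : ℕ → Finset ι) (f : ℕ → ℝ) : Prop where
  rough : ∀ i, Rough (W i)
  out : ∀ N i, i ∉ F N → ∀ s, s ≤ N → s ∉ W i
  sum : ∀ N, ∀ s ∈ Finset.Icc 1 N, f s = ∑ i ∈ F N, ind (W i) s

variable {W : ι → Set ℕ} {F : ℕ → Finset ι} {f : ℕ → ℝ}

lemma Family.f_nonneg (h : Family W F f) {s : ℕ} (hs : 1 ≤ s) : 0 ≤ f s := by
  rw [h.sum s s (Finset.mem_Icc.2 ⟨hs, le_rfl⟩)]
  exact Finset.sum_nonneg fun i _ => ind_nonneg _ _

lemma Family.cnt_zero (h : Family W F f) {N : ℕ} {i : ι} (hi : i ∉ F N) : cnt (W i) N = 0 := by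
  unfold cnt
  exact Finset.sum_eq_zero fun n hn => ind_notMem (h.out N i hi n (Finset.mem_Icc.1 hn).2)

lemma Family.hsum_zero (h : Family W F f) {N : ℕ} {i : ι} (hi : i ∉ F N) : hsum (W i) N = 0 := by
  unfold hsum
  exact Finset.sum_eq_zero fun n hn => by
    rw [ind_notMem (h.out N i hi n (Finset.mem_Icc.1 hn).2), zero_div]

lemma Family.Sy_empty (h : Family W F f) {v : ℕ} {i : ι} (hi : i ∉ F v) : Sy (W i) v = ∅ := by
  ext n
  constructor
  · rintro ⟨s, hs, hsv, _⟩
    exact absurd hs (h.out v i hi s hsv)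
  · intro h; exact absurd h (Set.notMem_empty n)

lemma Family.dy_zero (h : Family W F f) {v : ℕ} {i : ι} (hi : i ∉ F v) : dy (W i) v = 0 := by
  unfold dy
  rw [h.Sy_empty hi]
  simp [cnt, ind]

lemma Family.sum_eq (h : Family W F f) (N : ℕ) :
    ∑ s ∈ Finset.Icc 1 N, f s = ∑ i ∈ F N, cnt (W i) N := by
  unfold cnt
  rw [Finset.sum_comm]
  exact Finset.sum_congr rfl fun s hs => h.sum N s hs

lemma Family.hsum_eq (h : Family W F f) (N : ℕ) :
    ∑ s ∈ Finset.Icc 1 N, f s / s = ∑ i ∈ F N, hsum (W i) N := by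
  unfold hsum
  rw [Finset.sum_comm]
  refine Finset.sum_congr rfl fun s hs => ?_
  rw [h.sum N s hs, Finset.sum_div]

lemma Family.sum_ge (h : Family W F f) (N : ℕ) (G : Finset ι) :
    ∑ i ∈ G, cnt (W i) N ≤ ∑ s ∈ Finset.Icc 1 N, f s := by
  rw [h.sum_eq]
  calc ∑ i ∈ G, cnt (W i) N = ∑ i ∈ G ∩ F N, cnt (W i) N := by
        symm
        refine Finset.sum_subset Finset.inter_subset_left fun i hi hi2 => h.cnt_zero fun hF => hi2 ?_
        exact Finset.mem_inter.2 ⟨hi, hF⟩
    _ ≤ ∑ i ∈ F N, cnt (W i) N := Finset.sum_le_sum_of_subset_of_nonneg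
        Finset.inter_subset_right fun i _ _ => cnt_nonneg _ _

lemma hsum_nonneg (A : Set ℕ) (N : ℕ) : 0 ≤ hsum A N :=
  Finset.sum_nonneg fun n _ => div_nonneg (ind_nonneg A n) (by positivity)

lemma Family.hsum_ge (h : Family W F f) (N : ℕ) (G : Finset ι) :
    ∑ i ∈ G, hsum (W i) N ≤ ∑ s ∈ Finset.Icc 1 N, f s / s := by
  rw [h.hsum_eq]
  calc ∑ i ∈ G, hsum (W i) N = ∑ i ∈ G ∩ F N, hsum (W i) N := by
        symm
        refine Finset.sum_subset Finset.inter_subset_left fun i hi hi2 => h.hsum_zero fun hF => hi2 ?_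
        exact Finset.mem_inter.2 ⟨hi, hF⟩
    _ ≤ ∑ i ∈ F N, hsum (W i) N := Finset.sum_le_sum_of_subset_of_nonneg
        Finset.inter_subset_right fun i _ _ => hsum_nonneg _ _

/-- lower bound from finitely many indices -/
lemma Family.lower (h : Family W F f) (G : Finset ι) (ε : ℝ) (hε : 0 < ε) :
    ∀ᶠ N : ℕ in atTop, (∑ i ∈ G, del (W i) - ε) * N ≤ ∑ s ∈ Finset.Icc 1 N, f s := by
  have hc : (0 : ℝ) < G.card + 1 := by positivity
  have h1 : ∀ᶠ N : ℕ in atTop, ∀ i ∈ G, (del (W i) - ε / (G.card + 1)) * N ≤ cnt (W i) N := by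
    rw [Filter.eventually_all_finset]
    intro i _
    exact lower_ge (h.rough i) _ (by positivity)
  filter_upwards [h1] with N hN
  refine le_trans ?_ (h.sum_ge N G)
  refine le_trans ?_ (Finset.sum_le_sum hN)
  rw [← Finset.sum_mul, Finset.sum_sub_distrib, Finset.sum_const, nsmul_eq_mul]
  refine mul_le_mul_of_nonneg_right ?_ (by positivity)
  have h2 : (G.card : ℝ) * (ε / (G.card + 1)) ≤ ε := by
    rw [mul_div_assoc', div_le_iff₀ hc]
    nlinarith
  linarith

/-- if the densities are not summable, the mean value is infinite -/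
theorem Family.tendsto_atTop (h : Family W F f) (hns : ¬ Summable fun i => del (W i)) :
    Tendsto (fun N : ℕ => (∑ s ∈ Finset.Icc 1 N, f s) / N) atTop atTop := by
  rw [Filter.tendsto_atTop]
  intro B
  have h0 : ∀ i, 0 ≤ del (W i) := fun i => del_nonneg (h.rough i)
  obtain ⟨G, hG⟩ : ∃ G : Finset ι, B + 1 < ∑ i ∈ G, del (W i) := by
    by_contra hc
    push Not at hc
    exact hns (summable_of_sum_le h0 hc)
  filter_upwards [h.lower G 1 one_pos, eventually_ge_atTop 1] with N hN hN1
  have hN0 : (0 : ℝ) < N := by exact_mod_cast hN1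
  rw [le_div_iff₀ hN0]
  refine le_trans ?_ hN
  exact mul_le_mul_of_nonneg_right (by linarith) hN0.le

/-- if the densities are summable, the logarithmic mean value exists -/
theorem Family.log_mean (h : Family W F f) (hs : Summable fun i => del (W i)) :
    Tendsto (fun N : ℕ => (∑ s ∈ Finset.Icc 1 N, f s / s) / Real.log N) atTop
      (𝓝 (∑' i, del (W i))) := by
  set c : ℝ := ∑' i, del (W i) with hc
  have h0 : ∀ i, 0 ≤ del (W i) := fun i => del_nonneg (h.rough i)
  obtain ⟨C, hC0, hC⟩ := Py_lower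
  rw [Metric.tendsto_nhds]
  intro ε hε
  set η : ℝ := ε / (4 * (C + 1)) with hη
  have hη0 : 0 < η := by positivity
  -- a finite set of indices carrying almost everything
  obtain ⟨G, hG⟩ : ∃ G : Finset ι, c - η / 2 < ∑ i ∈ G, del (W i) := by
    have := hs.hasSum.eventually_const_lt (show c - η / 2 < c by linarith)
    exact this.exists
  -- a level
  have hgc : (0 : ℝ) < G.card + 1 := by positivity
  have hyi : ∀ i, ∃ y, del (W i) - η / 2 / (G.card + 1) < dy (W i) y :=
    fun i => exists_dy _ (by positivity)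
  choose yi hyi using hyi
  set v : ℕ := G.sup yi with hv
  have hvi : ∀ i ∈ G, del (W i) - η / 2 / (G.card + 1) < dy (W i) v := fun i hi =>
    (hyi i).trans_le (dy_mono (h.rough i) (Finset.le_sup hi))
  set D : ℝ := ∑ i ∈ F v, dy (W i) v with hD
  have hdn : ∀ i y, 0 ≤ dy (W i) y := fun i y => (Sy_hasD (h.rough i) y).nonneg
  have hGD : ∑ i ∈ G, dy (W i) v ≤ D := by
    calc ∑ i ∈ G, dy (W i) v = ∑ i ∈ G ∩ F v, dy (W i) v := by
          symm
          refine Finset.sum_subset Finset.inter_subset_left fun i hi hi2 => h.dy_zero fun hF =>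
            hi2 ?_
          exact Finset.mem_inter.2 ⟨hi, hF⟩
      _ ≤ D := Finset.sum_le_sum_of_subset_of_nonneg Finset.inter_subset_right
          fun i _ _ => hdn i v
  have hDc : c - η ≤ D := by
    have h1 : ∑ i ∈ G, (del (W i) - η / 2 / (G.card + 1)) ≤ ∑ i ∈ G, dy (W i) v :=
      Finset.sum_le_sum fun i hi => (hvi i hi).le
    rw [Finset.sum_sub_distrib, Finset.sum_const, nsmul_eq_mul] at h1
    have h2 : (G.card : ℝ) * (η / 2 / (G.card + 1)) ≤ η / 2 := by
      rw [mul_div_assoc', div_le_iff₀ hgc]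
      nlinarith
    linarith
  have hDle : D ≤ c := by
    calc D ≤ ∑ i ∈ F v, del (W i) := Finset.sum_le_sum fun i _ => dy_le (h.rough i) v
      _ ≤ c := hs.sum_le_tsum _ fun i _ => h0 i
  -- harmonic sums at level v
  have hKi : ∀ i, ∃ K : ℝ, ∀ N : ℕ, |hsum (Sy (W i) v) N - dy (W i) v * hh N| ≤ K :=
    fun i => (Sy_hasD (h.rough i) v).hsum
  choose Ki hKi using hKi
  set K : ℝ := ∑ i ∈ F v, Ki i with hK
  have hKN : ∀ N, |∑ i ∈ F v, hsum (Sy (W i) v) N - D * hh N| ≤ K := by
    intro N
    rw [hD, Finset.sum_mul, ← Finset.sum_sub_distrib]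
    exact (Finset.abs_sum_le_sum_abs _ _).trans (Finset.sum_le_sum fun i _ => hKi i N)
  have hlim1 : Tendsto (fun N : ℕ => D * (hh N / Real.log N) + K / Real.log N) atTop
      (𝓝 D) := by
    simpa using (hh_div_log.const_mul D).add (const_div_log K)
  have hlim2 : Tendsto (fun N : ℕ => D * (hh N / Real.log N) - K / Real.log N) atTop
      (𝓝 D) := by
    simpa using (hh_div_log.const_mul D).sub (const_div_log K)
  have hCη : C * (c - D) ≤ ε / 4 := by
    calc C * (c - D) ≤ (C + 1) * η := mul_le_mul (by linarith) (by linarith) (by linarith)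
          (by linarith)
      _ = ε / 4 := by rw [hη]; field_simp
  have hηε : c - D ≤ ε / 4 := by
    have h1 : η ≤ ε / 4 := by
      rw [hη]; apply div_le_div_of_nonneg_left hε.le (by norm_num) (by linarith)
    linarith
  filter_upwards [hlim1.eventually_lt_const (show D < D + ε / 4 by linarith),
    hlim2.eventually_const_lt (show D - ε / 4 < D by linarith),
    eventually_ge_atTop (max v 3)] with N h1 h2 hN
  have hN3 : 3 ≤ N := (le_max_right v 3).trans hN
  have hNv : v ≤ N := (le_max_left v 3).trans hN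
  have hl : 0 < Real.log N := Real.log_pos (by exact_mod_cast (by omega : 1 < N))
  have hP := hC N hN3
  have hKN' := abs_le.1 (hKN N)
  -- lower bound
  have hlo : ∑ i ∈ F v, hsum (Sy (W i) v) N ≤ ∑ s ∈ Finset.Icc 1 N, f s / s :=
    (Finset.sum_le_sum fun i _ => hsum_mono (fun n hn hnS => Sy_sub (h.rough i) v n hn hnS) N).trans
      (h.hsum_ge N (F v))
  -- upper bound
  have hFv : ∀ i, i ∉ F v → hsum (Sy (W i) v) N = 0 := by
    intro i hi
    rw [h.Sy_empty hi]
    simp [hsum, ind]
  have hpart : ∀ i, ∑ s ∈ FF (W i) v N, (1 : ℝ) / s ≤ C * Real.log N * (del (W i) - dy (W i) v) := by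
    intro i
    have hmain := main_ineq (h.rough i) hNv
    have hd := dy_le (h.rough i) N
    have hsum0 : 0 ≤ ∑ s ∈ FF (W i) v N, (1 : ℝ) / s := Finset.sum_nonneg fun s _ => by positivity
    calc ∑ s ∈ FF (W i) v N, (1 : ℝ) / s
        ≤ (C * Real.log N * Py N) * ∑ s ∈ FF (W i) v N, (1 : ℝ) / s := le_mul_of_one_le_left hsum0 hP
      _ = C * Real.log N * (Py N * ∑ s ∈ FF (W i) v N, (1 : ℝ) / s) := by ring
      _ ≤ _ := mul_le_mul_of_nonneg_left (by linarith) (by positivity)
  have hup : ∑ s ∈ Finset.Icc 1 N, f s / s ≤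
      ∑ i ∈ F v, hsum (Sy (W i) v) N + C * Real.log N * (c - D) := by
    rw [h.hsum_eq]
    calc ∑ i ∈ F N, hsum (W i) N
        ≤ ∑ i ∈ F N, (hsum (Sy (W i) v) N + C * Real.log N * (del (W i) - dy (W i) v)) :=
          Finset.sum_le_sum fun i _ => (hsum_split (W i) v N).trans (by linarith [hpart i])
      _ = ∑ i ∈ F N, hsum (Sy (W i) v) N + C * Real.log N *
          (∑ i ∈ F N, del (W i) - ∑ i ∈ F N, dy (W i) v) := by
          rw [Finset.sum_add_distrib, ← Finset.mul_sum, Finset.sum_sub_distrib]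
      _ ≤ _ := by
          have h3 : ∑ i ∈ F N, hsum (Sy (W i) v) N ≤ ∑ i ∈ F v, hsum (Sy (W i) v) N := by
            calc ∑ i ∈ F N, hsum (Sy (W i) v) N = ∑ i ∈ F N ∩ F v, hsum (Sy (W i) v) N := by
                  symm
                  refine Finset.sum_subset Finset.inter_subset_left fun i hi hi2 => hFv i
                    fun hF => hi2 ?_
                  exact Finset.mem_inter.2 ⟨hi, hF⟩
              _ ≤ _ := Finset.sum_le_sum_of_subset_of_nonneg Finset.inter_subset_right
                  fun i _ _ => hsum_nonneg _ _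
          have h4 : ∑ i ∈ F N, del (W i) ≤ c := hs.sum_le_tsum _ fun i _ => h0 i
          have h5 : D ≤ ∑ i ∈ F N, dy (W i) v := by
            have hsub : F v ⊆ F N ∪ F v := Finset.subset_union_right
            have h6 : ∀ i ∈ F v, i ∉ F N → dy (W i) v = 0 := by
              intro i _ hi
              have h7 := dy_mono (h.rough i) hNv
              rw [h.dy_zero hi] at h7
              exact le_antisymm h7 (hdn i v)
            calc D = ∑ i ∈ F v ∩ F N, dy (W i) v := by
                  rw [hD]; symm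
                  refine Finset.sum_subset Finset.inter_subset_left fun i hi hi2 => h6 i hi
                    fun hF => hi2 ?_
                  exact Finset.mem_inter.2 ⟨hi, hF⟩
              _ ≤ _ := Finset.sum_le_sum_of_subset_of_nonneg Finset.inter_subset_right
                  fun i _ _ => hdn i v
          have h8 : C * Real.log N * (∑ i ∈ F N, del (W i) - ∑ i ∈ F N, dy (W i) v) ≤
              C * Real.log N * (c - D) :=
            mul_le_mul_of_nonneg_left (by linarith) (by positivity)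
          linarith
  have hup2 : (∑ s ∈ Finset.Icc 1 N, f s / s) / Real.log N ≤
      D * (hh N / Real.log N) + K / Real.log N + C * (c - D) := by
    rw [div_le_iff₀ hl]
    have : (D * (hh N / Real.log N) + K / Real.log N + C * (c - D)) * Real.log N =
        D * hh N + K + C * Real.log N * (c - D) := by
      field_simp
    rw [this]
    linarith [hKN'.2]
  have hlo2 : D * (hh N / Real.log N) - K / Real.log N ≤
      (∑ s ∈ Finset.Icc 1 N, f s / s) / Real.log N := by
    rw [le_div_iff₀ hl]
    have : (D * (hh N / Real.log N) - K / Real.log N) * Real.log N = D * hh N - K := by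
      field_simp
    rw [this]
    linarith [hKN'.1]
  rw [Real.dist_eq, abs_lt]
  constructor <;> linarith

/-- ... and it is the lower mean value -/
theorem Family.lower_mean (h : Family W F f) (hs : Summable fun i => del (W i)) :
    (∀ ε > 0, ∀ᶠ N : ℕ in atTop, (∑' i, del (W i) - ε) * N ≤ ∑ s ∈ Finset.Icc 1 N, f s) ∧
    (∀ ε > 0, ∃ᶠ N : ℕ in atTop, ∑ s ∈ Finset.Icc 1 N, f s ≤ (∑' i, del (W i) + ε) * N) := by
  set c : ℝ := ∑' i, del (W i) with hc
  have h0 : ∀ i, 0 ≤ del (W i) := fun i => del_nonneg (h.rough i)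
  have hc0 : 0 ≤ c := tsum_nonneg h0
  constructor
  · intro ε hε
    obtain ⟨G, hG⟩ : ∃ G : Finset ι, c - ε / 2 < ∑ i ∈ G, del (W i) := by
      have := hs.hasSum.eventually_const_lt (show c - ε / 2 < c by linarith)
      exact this.exists
    filter_upwards [h.lower G (ε / 2) (by positivity)] with N hN
    refine le_trans ?_ hN
    exact mul_le_mul_of_nonneg_right (by linarith) (by positivity)
  · intro ε hε hcon
    have hcon' : ∀ᶠ N : ℕ in atTop, (c + ε) * N < ∑ s ∈ Finset.Icc 1 N, f s := by
      filter_upwards [hcon] with N hN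
      exact not_le.1 hN
    obtain ⟨N0, hN0⟩ := hcon'.exists_forall_of_atTop
    have h1 : ∀ n : ℕ, (c + ε) * n - (c + ε) * N0 ≤ ∑ k ∈ Finset.Icc 1 n, f k := by
      intro n
      by_cases hn : N0 ≤ n
      · have h2 := hN0 n hn
        have h3 : (0 : ℝ) ≤ (c + ε) * N0 := by positivity
        linarith
      · push Not at hn
        have h2 : (n : ℝ) ≤ N0 := by exact_mod_cast hn.le
        have h3 : 0 ≤ ∑ k ∈ Finset.Icc 1 n, f k :=
          Finset.sum_nonneg fun k hk => h.f_nonneg (Finset.mem_Icc.1 hk).1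
        nlinarith
    have h2 := abel_lo f (c + ε) ((c + ε) * N0) (by positivity) h1
    have h3 : Tendsto (fun N : ℕ => (c + ε) * (hh N / Real.log N) -
        (2 * ((c + ε) * N0)) / Real.log N) atTop (𝓝 (c + ε)) := by
      simpa using (hh_div_log.const_mul (c + ε)).sub (const_div_log (2 * ((c + ε) * N0)))
    have h4 : c + ε ≤ c := by
      refine le_of_tendsto_of_tendsto h3 (h.log_mean hs) ?_
      filter_upwards [eventually_ge_atTop 3] with N hN
      have hl : 0 < Real.log N := Real.log_pos (by exact_mod_cast (by omega : 1 < N))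
      rw [le_div_iff₀ hl]
      have : ((c + ε) * (hh N / Real.log N) - (2 * ((c + ε) * N0)) / Real.log N) *
          Real.log N = (c + ε) * hh N - 2 * ((c + ε) * N0) := by
        field_simp
      rw [this]
      exact h2 N
    linarith

end Pool.Agent.Helper680.SigA
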