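import Mathlib
import Pool.Agent.Helper680.SigW
import Pool.Agent.Helper680.SigT

set_option autoImplicit false

namespace Pool.Agent.Helper680.SigA

open Finset Filter Topology

/-- solutions of `σ(a) + σ(b) = σ(a + b)` with `a + b = s` -/
noncomputable def fib (s : ℕ) : Finset (ℕ × ℕ) :=
  (Finset.HasAntidiagonal.antidiagonal s).filter (fun x => 0 < x.1 ∧ 0 < x.2 ∧
    ArithmeticFunction.sigma 1 x.1 + ArithmeticFunction.sigma 1 x.2 =
      ArithmeticFunction.sigma 1 (x.1 + x.2))

/-- the sums `s` of the solutions in direction `(p, q)` -/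
def WW (i : ℕ × ℕ) : Set ℕ := {s | 0 < i.1 ∧ 0 < i.2 ∧ i.1.Coprime i.2 ∧ ∃ g, 0 < g ∧
  s = g * (i.1 + i.2) ∧ ArithmeticFunction.sigma 1 (g * i.1) + ArithmeticFunction.sigma 1 (g * i.2)
    = ArithmeticFunction.sigma 1 (g * (i.1 + i.2))}

/-- index sets -/
def FW (N : ℕ) : Finset (ℕ × ℕ) := Finset.range (N + 1) ×ˢ Finset.range (N + 1)

lemma WW_rough (i : ℕ × ℕ) : Rough (WW i) := by
  obtain ⟨p, q⟩ := i
  rintro s ⟨hp, hq, hpq, g, hg, rfl, h⟩
  simp only at hp hq hpq h ⊢
  have hs : 0 < g * (p + q) := Nat.mul_pos hg (by omega)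
  refine ⟨hs, fun t ht hc => ⟨hp, hq, hpq, g * t, Nat.mul_pos hg ht, by ring, ?_⟩⟩
  have hm := @ArithmeticFunction.isMultiplicative_sigma 1
  have h1 : t.Coprime (g * (p + q)) :=
    Nat.Coprime.coprime_dvd_right (Nat.dvd_factorial hs le_rfl) hc
  have h2 : t.Coprime (g * p) := Nat.Coprime.coprime_dvd_right
    (Nat.dvd_factorial (Nat.mul_pos hg hp) (Nat.mul_le_mul_left g (by omega))) hc
  have h3 : t.Coprime (g * q) := Nat.Coprime.coprime_dvd_right
    (Nat.dvd_factorial (Nat.mul_pos hg hq) (Nat.mul_le_mul_left g (by omega))) hc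
  show ArithmeticFunction.sigma 1 (g * t * p) + ArithmeticFunction.sigma 1 (g * t * q) =
    ArithmeticFunction.sigma 1 (g * t * (p + q))
  rw [show g * t * p = t * (g * p) by ring, show g * t * q = t * (g * q) by ring,
    show g * t * (p + q) = t * (g * (p + q)) by ring, hm.map_mul_of_coprime h1,
    hm.map_mul_of_coprime h2, hm.map_mul_of_coprime h3, ← mul_add, h]

lemma WW_out (N : ℕ) (i : ℕ × ℕ) (hi : i ∉ FW N) (s : ℕ) (hs : s ≤ N) : s ∉ WW i := by
  rintro ⟨hp, hq, _, g, hg, rfl, _⟩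
  apply hi
  unfold FW
  rw [Finset.mem_product, Finset.mem_range, Finset.mem_range]
  have h1 : 1 * (i.1 + i.2) ≤ g * (i.1 + i.2) := Nat.mul_le_mul_right _ hg
  omega

lemma WW_sum (N s : ℕ) (hs : s ∈ Finset.Icc 1 N) :
    ((fib s).card : ℝ) = ∑ i ∈ FW N, ind (WW i) s := by
  classical
  rw [Finset.mem_Icc] at hs
  have h1 : ∑ i ∈ FW N, ind (WW i) s = (((FW N).filter (fun i => s ∈ WW i)).card : ℝ) := by
    rw [Finset.card_filter]
    push_cast
    refine Finset.sum_congr rfl fun i _ => ?_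
    by_cases h : s ∈ WW i
    · rw [ind_mem h, if_pos h]
    · rw [ind_notMem h, if_neg h]
  rw [h1]
  congr 1
  refine Finset.card_bij (fun x _ => (x.1 / Nat.gcd x.1 x.2, x.2 / Nat.gcd x.1 x.2)) ?_ ?_ ?_
  · rintro ⟨a, b⟩ hab
    unfold fib at hab
    simp only [Finset.mem_filter, Finset.HasAntidiagonal.mem_antidiagonal] at hab
    obtain ⟨h2, h3, h4, h5⟩ := hab
    have hg : 0 < Nat.gcd a b := Nat.gcd_pos_of_pos_left b h3
    obtain ⟨p, hp⟩ := Nat.gcd_dvd_left a b
    obtain ⟨q, hq⟩ := Nat.gcd_dvd_right a b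
    have hcop : Nat.Coprime (a / Nat.gcd a b) (b / Nat.gcd a b) := Nat.coprime_div_gcd_div_gcd hg
    have ep : a / Nat.gcd a b = p := Nat.div_eq_of_eq_mul_right hg hp
    have eq' : b / Nat.gcd a b = q := Nat.div_eq_of_eq_mul_right hg hq
    simp only [Finset.mem_filter]
    rw [ep, eq'] at hcop
    rw [ep, eq']
    have hp0 : 0 < p := by
      rcases Nat.eq_zero_or_pos p with h | h
      · subst h; omega
      · exact h
    have hq0 : 0 < q := by
      rcases Nat.eq_zero_or_pos q with h | h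
      · subst h; omega
      · exact h
    refine ⟨?_, hp0, hq0, hcop, Nat.gcd a b, hg, ?_, ?_⟩
    · unfold FW
      rw [Finset.mem_product, Finset.mem_range, Finset.mem_range]
      have h6 : p ≤ a := by rw [← ep]; exact Nat.div_le_self _ _
      have h7 : q ≤ b := by rw [← eq']; exact Nat.div_le_self _ _
      show p < N + 1 ∧ q < N + 1
      omega
    · show s = Nat.gcd a b * (p + q)
      rw [mul_add, ← hp, ← hq, h2]
    · show ArithmeticFunction.sigma 1 (Nat.gcd a b * p) +
        ArithmeticFunction.sigma 1 (Nat.gcd a b * q) =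
          ArithmeticFunction.sigma 1 (Nat.gcd a b * (p + q))
      rw [mul_add, ← hp, ← hq]
      exact h5
  · rintro ⟨a, b⟩ hab ⟨a', b'⟩ hab' he
    unfold fib at hab hab'
    simp only [Finset.mem_filter, Finset.HasAntidiagonal.mem_antidiagonal] at hab hab'
    simp only [Prod.mk.injEq] at he
    obtain ⟨he1, he2⟩ := he
    have hg : 0 < Nat.gcd a b := Nat.gcd_pos_of_pos_left b hab.2.1
    have hg' : 0 < Nat.gcd a' b' := Nat.gcd_pos_of_pos_left b' hab'.2.1
    have e1 : Nat.gcd a b * (a / Nat.gcd a b) = a := Nat.mul_div_cancel' (Nat.gcd_dvd_left a b)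
    have e2 : Nat.gcd a b * (b / Nat.gcd a b) = b := Nat.mul_div_cancel' (Nat.gcd_dvd_right a b)
    have e3 : Nat.gcd a' b' * (a' / Nat.gcd a' b') = a' :=
      Nat.mul_div_cancel' (Nat.gcd_dvd_left a' b')
    have e4 : Nat.gcd a' b' * (b' / Nat.gcd a' b') = b' :=
      Nat.mul_div_cancel' (Nat.gcd_dvd_right a' b')
    have h6 : Nat.gcd a b * (a / Nat.gcd a b + b / Nat.gcd a b) =
        Nat.gcd a' b' * (a / Nat.gcd a b + b / Nat.gcd a b) := by
      calc Nat.gcd a b * (a / Nat.gcd a b + b / Nat.gcd a b) = a + b := by rw [mul_add, e1, e2]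
        _ = a' + b' := by rw [hab.1, hab'.1]
        _ = Nat.gcd a' b' * (a' / Nat.gcd a' b' + b' / Nat.gcd a' b') := by rw [mul_add, e3, e4]
        _ = _ := by rw [he1, he2]
    have h7 : 0 < a / Nat.gcd a b + b / Nat.gcd a b :=
      Nat.add_pos_left (Nat.div_pos (Nat.le_of_dvd hab.2.1 (Nat.gcd_dvd_left a b)) hg) _
    have h8 : Nat.gcd a b = Nat.gcd a' b' := Nat.eq_of_mul_eq_mul_right h7 h6
    rw [Prod.mk.injEq]
    constructor
    · rw [← e1, ← e3, he1, h8]
    · rw [← e2, ← e4, he2, h8]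
  · rintro ⟨p, q⟩ hpq
    simp only [Finset.mem_filter] at hpq
    obtain ⟨_, hp, hq, hcop, g, hg, hs2, h⟩ := hpq
    simp only at hp hq hcop hs2 h
    have hgcd : Nat.gcd (g * p) (g * q) = g := by rw [Nat.gcd_mul_left, hcop, mul_one]
    refine ⟨(g * p, g * q), ?_, ?_⟩
    · unfold fib
      simp only [Finset.mem_filter, Finset.HasAntidiagonal.mem_antidiagonal]
      refine ⟨by rw [hs2, mul_add], Nat.mul_pos hg hp, Nat.mul_pos hg hq, ?_⟩
      rw [← mul_add]; exact h
    · show (g * p / Nat.gcd (g * p) (g * q), g * q / Nat.gcd (g * p) (g * q)) = (p, q)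
      rw [hgcd, Nat.mul_div_cancel_left p hg, Nat.mul_div_cancel_left q hg]

lemma family : Family WW FW (fun s => ((fib s).card : ℝ)) where
  rough := WW_rough
  out := WW_out
  sum := WW_sum

lemma sigma_two_mul (q : ℕ) (hq : 0 < q) :
    2 * ArithmeticFunction.sigma 1 q < ArithmeticFunction.sigma 1 (2 * q) := by
  rw [ArithmeticFunction.sigma_one_apply, ArithmeticFunction.sigma_one_apply]
  have h1 : insert 1 (q.divisors.image (fun d => 2 * d)) ⊆ (2 * q).divisors := by
    intro d hd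
    rw [Finset.mem_insert, Finset.mem_image] at hd
    rw [Nat.mem_divisors]
    rcases hd with rfl | ⟨e, he, rfl⟩
    · exact ⟨one_dvd _, by omega⟩
    · rw [Nat.mem_divisors] at he
      exact ⟨Nat.mul_dvd_mul_left 2 he.1, by omega⟩
  have h2 : (1 : ℕ) ∉ q.divisors.image (fun d => 2 * d) := by
    rw [Finset.mem_image]
    rintro ⟨e, _, he⟩
    omega
  calc 2 * ∑ d ∈ q.divisors, d < 1 + 2 * ∑ d ∈ q.divisors, d := by omega
    _ = ∑ d ∈ insert 1 (q.divisors.image (fun d => 2 * d)), d := by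
        rw [Finset.sum_insert h2, Finset.sum_image (fun a _ b _ hab => by
          have : 2 * a = 2 * b := hab
          omega), Finset.mul_sum]
    _ ≤ _ := Finset.sum_le_sum_of_subset h1

lemma two_le_fib (s : ℕ) : 2 * ind SS s ≤ ((fib s).card : ℝ) := by
  by_cases h : s ∈ SS
  · rw [ind_mem h]
    obtain ⟨h2, q, hq, hqs, he⟩ := h
    have hne : q ≠ s - q := by
      intro h3
      have h4 : s = 2 * q := by omega
      have h5 := sigma_two_mul q hq
      rw [← h3] at he
      rw [h4] at he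
      omega
    have h3 : ({(q, s - q), (s - q, q)} : Finset (ℕ × ℕ)) ⊆ fib s := by
      intro x hx
      rw [Finset.mem_insert, Finset.mem_singleton] at hx
      unfold fib
      rw [Finset.mem_filter, Finset.HasAntidiagonal.mem_antidiagonal]
      rcases hx with rfl | rfl
      · refine ⟨by show q + (s - q) = s; omega, hq, by show 0 < s - q; omega, ?_⟩
        show ArithmeticFunction.sigma 1 q + ArithmeticFunction.sigma 1 (s - q) =
          ArithmeticFunction.sigma 1 (q + (s - q))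
        rw [show q + (s - q) = s by omega, he]
      · refine ⟨by show (s - q) + q = s; omega, by show 0 < s - q; omega, hq, ?_⟩
        show ArithmeticFunction.sigma 1 (s - q) + ArithmeticFunction.sigma 1 q =
          ArithmeticFunction.sigma 1 ((s - q) + q)
        rw [show (s - q) + q = s by omega, he, add_comm]
    have h4 := Finset.card_le_card h3
    rw [Finset.card_pair (by
      intro h5
      rw [Prod.mk.injEq] at h5
      exact hne h5.1)] at h4
    have h5 : ((2 : ℕ) : ℝ) ≤ ((fib s).card : ℝ) := by exact_mod_cast h4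
    push_cast at h5
    linarith
  · rw [ind_notMem h]; simp

lemma third_lt : 1 / 3 < del SS := by
  obtain ⟨hsub, a, ha, hta⟩ := sound primeList_prime table table_ok
  have h1 : a ≤ del SS := ha.le_del SS_rough hsub
  have h2 : (333333334 : ℝ) ≤ (tot table : ℕ) := by exact_mod_cast table_tot
  push_cast at hta
  linarith

lemma sum_fib_ge (N : ℕ) : 2 * cnt SS N ≤ ∑ s ∈ Finset.Icc 1 N, ((fib s).card : ℝ) := by
  unfold cnt
  rw [Finset.mul_sum]
  exact Finset.sum_le_sum fun s _ => two_le_fib s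

theorem dich :
    Tendsto (fun N : ℕ => (∑ s ∈ Finset.Icc 1 N, ((fib s).card : ℝ)) / N) atTop atTop ∨
    ∃ c : ℝ, 2 / 3 < c ∧
      Tendsto (fun N : ℕ => (∑ s ∈ Finset.Icc 1 N, ((fib s).card : ℝ) / s) / Real.log N) atTop
        (𝓝 c) ∧
      (∀ ε > 0, ∀ᶠ N : ℕ in atTop, (c - ε) * N ≤ ∑ s ∈ Finset.Icc 1 N, ((fib s).card : ℝ)) ∧
      (∀ ε > 0, ∃ᶠ N : ℕ in atTop, ∑ s ∈ Finset.Icc 1 N, ((fib s).card : ℝ) ≤ (c + ε) * N) := by
  by_cases hs : Summable fun i => del (WW i)
  · right
    have h2 := family.lower_mean hs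
    refine ⟨∑' i, del (WW i), ?_, family.log_mean hs, h2.1, h2.2⟩
    have h3 := third_lt
    refine lt_of_lt_of_le (show 2 / 3 < 2 * del SS by linarith) ?_
    refine le_of_forall_pos_le_add fun ε hε => ?_
    obtain ⟨N, hN1, hN2, hN3⟩ := ((h2.2 (ε / 4) (by positivity)).and_eventually
      ((lower_ge SS_rough (ε / 4) (by positivity)).and (eventually_ge_atTop 1))).exists
    have hN0 : (0 : ℝ) < N := by exact_mod_cast hN3
    have h4 := sum_fib_ge N
    have h5 : (2 * del SS) * N ≤ (∑' i, del (WW i) + ε) * N := by nlinarith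
    exact le_of_mul_le_mul_right h5 hN0
  · left
    exact family.tendsto_atTop hs

end Pool.Agent.Helper680.SigA
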